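import Mathlib

/-! Bit arithmetic with packed fields (part B of the engine). All statements are about `Nat`. -/

namespace Pool.Agent.NNe

/-- The number with the bits `0, D, 2 D, ..., (k - 1) D`. -/
def geo (D k : Nat) : Nat := (2 ^ (D * k) - 1) / (2 ^ D - 1)

theorem geo_mul (D k : Nat) : (2 ^ D - 1) * geo D k = 2 ^ (D * k) - 1 := by
  unfold geo
  refine Nat.mul_div_cancel' ?_
  rw [pow_mul]
  have h := Nat.sub_dvd_pow_sub_pow (2 ^ D) 1 k
  rwa [one_pow] at h

theorem two_le_pow {D : Nat} (hD : 0 < D) : 2 ≤ 2 ^ D := by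
  calc 2 = 2 ^ 1 := (pow_one 2).symm
    _ ≤ 2 ^ D := Nat.pow_le_pow_right (by norm_num) hD

theorem geo_zero (D : Nat) : geo D 0 = 0 := by
  unfold geo
  rw [Nat.mul_zero, pow_zero, Nat.sub_self, Nat.zero_div]

theorem geo_succ {D : Nat} (hD : 0 < D) (k : Nat) : geo D (k + 1) = 2 ^ (D * k) + geo D k := by
  have h0 := two_le_pow hD
  have h1 := geo_mul D k
  have h2 := geo_mul D (k + 1)
  have h3 : 0 < 2 ^ (D * k) := by positivity
  rw [Nat.mul_add, Nat.mul_one, pow_add] at h2
  generalize 2 ^ (D * k) = b at *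
  generalize 2 ^ D = a at *
  obtain ⟨c, rfl⟩ : ∃ c, a = c + 1 := ⟨a - 1, by omega⟩
  obtain ⟨d, rfl⟩ : ∃ d, b = d + 1 := ⟨b - 1, by omega⟩
  rw [Nat.add_sub_cancel] at h1 h2
  rw [Nat.add_sub_cancel] at h1
  have h5 : (d + 1) * (c + 1) - 1 = c * (d + 1) + d := by
    have h6 : (d + 1) * (c + 1) = c * (d + 1) + d + 1 := by ring
    rw [h6, Nat.add_sub_cancel]
  have h4 : c * geo D (k + 1) = c * (d + 1 + geo D k) := by
    rw [h2, h5, Nat.mul_add c (d + 1) (geo D k), h1]
  exact Nat.eq_of_mul_eq_mul_left (by omega) h4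

theorem geo_succ' {D : Nat} (hD : 0 < D) (k : Nat) : geo D (k + 1) = 2 ^ D * geo D k + 1 := by
  induction k with
  | zero =>
    rw [geo_succ hD, geo_zero, Nat.mul_zero, pow_zero, Nat.mul_zero]
  | succ k ih =>
    have h1 := geo_succ hD k
    rw [geo_succ hD (k + 1), ih]
    have h2 : 2 ^ D * geo D (k + 1) = 2 ^ (D * (k + 1)) + 2 ^ D * geo D k := by
      rw [h1]
      ring
    rw [← ih, h2, Nat.add_assoc, ← ih]

theorem geo_lt {D : Nat} (hD : 0 < D) (k : Nat) : geo D k < 2 ^ (D * k) := by
  have h0 := two_le_pow hD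
  have h1 := geo_mul D k
  have h3 : 0 < 2 ^ (D * k) := by positivity
  have h4 : geo D k ≤ (2 ^ D - 1) * geo D k := Nat.le_mul_of_pos_left _ (by omega)
  omega

theorem mul_geo_lt (W N : Nat) {Q : Nat} (hQ : Q < 2 ^ W) :
    Q * geo W N < 2 ^ (W * N) := by
  have h1 := geo_mul W N
  have h3 : 0 < 2 ^ (W * N) := by positivity
  have h4 : Q * geo W N ≤ (2 ^ W - 1) * geo W N := Nat.mul_le_mul_right _ (by omega)
  omega

/-- (B1) -/
theorem testBit_geo {D : Nat} (hD : 0 < D) (k i : Nat) :
    Nat.testBit (geo D k) i = decide (i % D = 0 ∧ i < D * k) := by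
  induction k with
  | zero => simp [geo_zero]
  | succ k ih =>
    have h1 := Nat.testBit_two_pow_mul_add 1 (geo_lt hD k) i
    rw [Nat.mul_one] at h1
    rw [geo_succ hD, h1, ih]
    by_cases hi : i < D * k
    · rw [if_pos hi]
      have h2 : i < D * (k + 1) := by
        rw [Nat.mul_add]
        omega
      simp only [hi, h2]
    · rw [if_neg hi]
      obtain ⟨r, rfl⟩ := Nat.exists_eq_add_of_le (Nat.le_of_not_lt hi)
      rw [Nat.add_sub_cancel_left, Nat.mul_add_mod, Nat.mul_add D k 1, Nat.mul_one]
      have h3 : Nat.testBit 1 r = decide (r = 0) := by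
        have h4 := @Nat.testBit_two_pow 0 r
        rw [pow_zero] at h4
        rw [h4]
        exact decide_eq_decide.2 eq_comm
      rw [h3]
      refine decide_eq_decide.2 ⟨?_, ?_⟩
      · rintro rfl
        exact ⟨Nat.zero_mod D, by omega⟩
      · rintro ⟨h5, h6⟩
        have h7 : r < D := by omega
        rwa [Nat.mod_eq_of_lt h7] at h5

/-- (B2) -/
theorem testBit_mul_geo {W : Nat} (hW : 0 < W) (N : Nat) {Q : Nat} (hQ : Q < 2 ^ W) (i : Nat) :
    Nat.testBit (Q * geo W N) i = (decide (i < W * N) && Nat.testBit Q (i % W)) := by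
  induction N with
  | zero => simp [geo_zero]
  | succ N ih =>
    have h1 := Nat.testBit_two_pow_mul_add Q (mul_geo_lt W N hQ) i
    rw [geo_succ hW, Nat.mul_add Q, Nat.mul_comm Q (2 ^ (W * N)), h1, ih]
    by_cases hi : i < W * N
    · rw [if_pos hi]
      have h2 : i < W * (N + 1) := by
        rw [Nat.mul_add]
        omega
      simp only [hi, h2]
    · rw [if_neg hi]
      obtain ⟨r, rfl⟩ := Nat.exists_eq_add_of_le (Nat.le_of_not_lt hi)
      rw [Nat.add_sub_cancel_left, Nat.mul_add_mod, Nat.mul_add W N 1, Nat.mul_one]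
      by_cases hr : r < W
      · rw [Nat.mod_eq_of_lt hr, decide_eq_true (by omega), Bool.true_and]
      · rw [decide_eq_false (by omega), Bool.false_and]
        refine Nat.testBit_lt_two_pow (lt_of_lt_of_le hQ ?_)
        exact Nat.pow_le_pow_right (by norm_num) (Nat.le_of_not_lt hr)

/-- The bits of a sum of two numbers without common bits. -/
theorem testBit_add_of_disj (i : Nat) : ∀ a b : Nat,
    (∀ j, (Nat.testBit a j && Nat.testBit b j) = false) →
      Nat.testBit (a + b) i = (Nat.testBit a i || Nat.testBit b i) := by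
  induction i with
  | zero =>
    intro a b h
    have h0 := h 0
    rw [Nat.testBit_zero, Nat.testBit_zero] at h0
    rw [Nat.testBit_zero, Nat.testBit_zero, Nat.testBit_zero]
    rcases Nat.mod_two_eq_zero_or_one a with ha | ha <;>
      rcases Nat.mod_two_eq_zero_or_one b with hb | hb <;>
      simp_all [Nat.add_mod]
  | succ i ih =>
    intro a b h
    have h0 := h 0
    rw [Nat.testBit_zero, Nat.testBit_zero] at h0
    have h1 : (a + b) / 2 = a / 2 + b / 2 := by
      rcases Nat.mod_two_eq_zero_or_one a with ha | ha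
      · omega
      · rcases Nat.mod_two_eq_zero_or_one b with hb | hb
        · omega
        · exfalso
          simp [ha, hb] at h0
    rw [Nat.testBit_add_one, Nat.testBit_add_one, Nat.testBit_add_one, h1]
    refine ih _ _ fun j => ?_
    rw [← Nat.testBit_add_one, ← Nat.testBit_add_one]
    exact h (j + 1)

theorem geo_add {D : Nat} (hD : 0 < D) (a b : Nat) :
    geo D (a + b) = 2 ^ (D * a) * geo D b + geo D a := by
  induction b with
  | zero => rw [Nat.add_zero, geo_zero, Nat.mul_zero, Nat.zero_add]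
  | succ b ih =>
    rw [← Nat.add_assoc, geo_succ hD, ih, geo_succ hD b]
    ring

/-- The lowest bits of the fields of row `i` of the column `j`. -/
def rowf (D F X j i : Nat) : Nat := (X >>> (j + D * F * i)) &&& geo D F

theorem testBit_rowf {D : Nat} (hD : 0 < D) (F X j i m : Nat) :
    Nat.testBit (rowf D F X j i) m =
      (Nat.testBit X (j + D * F * i + m) && decide (m % D = 0 ∧ m < D * F)) := by
  unfold rowf
  rw [Nat.testBit_and, Nat.testBit_shiftRight, testBit_geo hD]

theorem col_succ {D : Nat} (hD : 0 < D) (F p X j : Nat) :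
    (X >>> j) &&& geo D (F * (p + 1)) =
      2 ^ (D * F * p) * rowf D F X j p + ((X >>> j) &&& geo D (F * p)) := by
  have h0 : geo D (F * (p + 1)) = 2 ^ (D * F * p) * geo D F + geo D (F * p) := by
    rw [Nat.mul_add F p 1, Nat.mul_one, geo_add hD, ← Nat.mul_assoc]
  have h1 : geo D (F * p) < 2 ^ (D * F * p) := by
    have h2 := geo_lt hD (F * p)
    rwa [← Nat.mul_assoc] at h2
  have h3 : (X >>> j) &&& geo D (F * p) < 2 ^ (D * F * p) := lt_of_le_of_lt Nat.and_le_right h1
  refine Nat.eq_of_testBit_eq fun i => ?_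
  rw [h0, Nat.testBit_and, Nat.testBit_two_pow_mul_add _ h1, Nat.testBit_two_pow_mul_add _ h3]
  by_cases hi : i < D * F * p
  · rw [if_pos hi, if_pos hi, Nat.testBit_and]
  · rw [if_neg hi, if_neg hi, testBit_rowf hD, Nat.testBit_shiftRight, testBit_geo hD]
    have h4 : j + D * F * p + (i - D * F * p) = j + i := by omega
    rw [h4]

/-- The sum of the rows, shifted. -/
def colsum (D F X j : Nat) : Nat → Nat
  | 0 => 0
  | p + 1 => 2 ^ p * rowf D F X j p + colsum D F X j p

theorem col_mod {D : Nat} (hD : 0 < D) {F : Nat} (hF : 0 < F) (p X j : Nat) :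
    Nat.ModEq (2 ^ (F * D) - 2) ((X >>> j) &&& geo D (F * p)) (colsum D F X j p) := by
  have h2 : 2 ≤ 2 ^ (F * D) := two_le_pow (Nat.mul_pos hF hD)
  have h1 : Nat.ModEq (2 ^ (F * D) - 2) (2 ^ (F * D)) 2 :=
    ((Nat.modEq_iff_dvd' h2).2 dvd_rfl).symm
  induction p with
  | zero =>
    rw [Nat.mul_zero, geo_zero, Nat.and_zero]
    exact Nat.ModEq.refl _
  | succ p ih =>
    rw [col_succ hD]
    refine Nat.ModEq.add (Nat.ModEq.mul_right _ ?_) ih
    have h3 := h1.pow p
    have h4 : (2 ^ (F * D)) ^ p = 2 ^ (D * F * p) := by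
      rw [← pow_mul, Nat.mul_comm F D]
    rwa [h4] at h3

theorem testBit_colsum {D : Nat} (hD : 0 < D) (F X j p : Nat) (hp : p ≤ D) (n : Nat) :
    Nat.testBit (colsum D F X j p) n = (decide (n < F * D ∧ n % D < p) &&
      Nat.testBit X ((n % D * F + n / D) * D + j)) := by
  induction p generalizing n with
  | zero =>
    rw [decide_eq_false (by omega), Bool.false_and]
    exact Nat.zero_testBit n
  | succ p ih =>
    have hpD : p < D := hp
    have ih' := ih (Nat.le_of_lt hpD)
    have hA : ∀ m, Nat.testBit (2 ^ p * rowf D F X j p) m = (decide (m < F * D ∧ m % D = p) &&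
        Nat.testBit X ((m % D * F + m / D) * D + j)) := by
      intro m
      rw [Nat.testBit_two_pow_mul, testBit_rowf hD]
      by_cases hm : m % D = p
      · have e1 := Nat.div_add_mod m D
        have e2 : m - p = D * (m / D) := by omega
        have e3 : p ≤ m := by omega
        have e4 : (m - p) % D = 0 := by
          rw [e2]
          exact Nat.mul_mod_right D _
        have e5 : j + D * F * p + (m - p) = (m % D * F + m / D) * D + j := by
          rw [e2, hm]
          ring
        have e6 : m - p < D * F ↔ m < F * D := by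
          rw [e2, ← Nat.div_lt_iff_lt_mul hD]
          exact Nat.mul_lt_mul_left hD
        rw [e5, decide_eq_true e3, Bool.true_and, Bool.and_comm]
        refine congrArg₂ _ (decide_eq_decide.2 ?_) rfl
        rw [e6]
        exact ⟨fun h => ⟨h.2, hm⟩, fun h => ⟨e4, h.1⟩⟩
      · rw [decide_eq_false (show ¬ (m < F * D ∧ m % D = p) from fun h => hm h.2),
          Bool.false_and]
        by_cases e3 : p ≤ m
        · have e4 : ¬ ((m - p) % D = 0 ∧ m - p < D * F) := by
            rintro ⟨h, -⟩
            apply hm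
            obtain ⟨q, hq⟩ := Nat.dvd_of_mod_eq_zero h
            have e5 : m = p + D * q := by omega
            rw [e5, Nat.add_mul_mod_self_left, Nat.mod_eq_of_lt hpD]
          rw [decide_eq_false e4, Bool.and_false, Bool.and_false]
        · rw [decide_eq_false e3, Bool.false_and]
    show Nat.testBit (2 ^ p * rowf D F X j p + colsum D F X j p) n = _
    rw [testBit_add_of_disj, hA, ih' n, ← Bool.and_or_distrib_right]
    · refine congrArg₂ _ ?_ rfl
      rw [← Bool.decide_or]
      exact decide_eq_decide.2 (by omega)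
    · intro m
      rw [hA, ih' m]
      by_cases h1 : m % D = p
      · rw [decide_eq_false (show ¬ (m < F * D ∧ m % D < p) by omega), Bool.false_and,
          Bool.and_false]
      · rw [decide_eq_false (show ¬ (m < F * D ∧ m % D = p) by omega), Bool.false_and,
          Bool.false_and]

/-- (B3) The column `j` of a packed matrix with `p` rows of `F` fields of `D` bits: the bit `i` of the
field `f` of the result is the bit `j` of the field `f` of the row `i`. -/
theorem testBit_col {D F p : Nat} (hp : p < D) (X j n : Nat) :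
    Nat.testBit (((X >>> j) &&& geo D (F * p)) % (2 ^ (F * D) - 2)) n =
      (decide (n < F * D ∧ n % D < p) && Nat.testBit X ((n % D * F + n / D) * D + j)) := by
  have hD : 0 < D := by omega
  rcases Nat.eq_zero_or_pos F with hF | hF
  · subst hF
    rw [Nat.zero_mul, geo_zero, Nat.and_zero, Nat.zero_mod, Nat.zero_testBit,
      decide_eq_false (by omega), Bool.false_and]
  rw [← testBit_colsum hD F X j p (le_of_lt hp) n]
  have h1 : ((X >>> j) &&& geo D (F * p)) % (2 ^ (F * D) - 2) = colsum D F X j p := by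
    rcases Nat.eq_zero_or_pos p with h0 | h0
    · subst h0
      rw [Nat.mul_zero, geo_zero, Nat.and_zero, Nat.zero_mod]
      rfl
    rw [col_mod hD hF p X j]
    refine Nat.mod_eq_of_lt ?_
    have h2 : colsum D F X j p ≤ (2 ^ (D - 1) - 1) * geo D F := by
      refine Nat.le_of_testBit fun m hm => ?_
      rw [testBit_colsum hD F X j p (le_of_lt hp) m, Bool.and_eq_true, decide_eq_true_eq] at hm
      have h3 : 2 ^ (D - 1) - 1 < 2 ^ D := by
        have h4 : 2 ^ (D - 1) ≤ 2 ^ D := Nat.pow_le_pow_right (by norm_num) (by omega)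
        have h5 : 0 < 2 ^ (D - 1) := by positivity
        omega
      rw [testBit_mul_geo hD F h3, Nat.testBit_two_pow_sub_one, Bool.and_eq_true,
        decide_eq_true_eq, decide_eq_true_eq]
      refine ⟨?_, by omega⟩
      rw [Nat.mul_comm]
      exact hm.1.1
    have h3 := geo_mul D F
    have h4 : 2 ^ D = 2 * 2 ^ (D - 1) := by
      rw [← pow_succ']
      exact congrArg _ (by omega)
    have h5 : 1 ≤ geo D F := by
      obtain ⟨F', rfl⟩ : ∃ F', F = F' + 1 := ⟨F - 1, by omega⟩
      rw [geo_succ' hD]
      omega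
    have h6 : 4 ≤ 2 ^ (D * F) := by
      calc 4 = 2 ^ 2 := by norm_num
        _ ≤ 2 ^ (D * F) := Nat.pow_le_pow_right (by norm_num) (by
          calc 2 ≤ D := by omega
            _ ≤ D * F := Nat.le_mul_of_pos_right _ hF)
    have h7 : 2 * ((2 ^ (D - 1) - 1) * geo D F) + geo D F = 2 ^ (D * F) - 1 := by
      rw [← h3, h4]
      have h8 : 0 < 2 ^ (D - 1) := by positivity
      obtain ⟨c, hc⟩ : ∃ c, 2 ^ (D - 1) = c + 1 := ⟨2 ^ (D - 1) - 1, by omega⟩
      rw [hc, Nat.add_sub_cancel]
      have h9 : 2 * (c + 1) - 1 = 2 * c + 1 := by omega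
      rw [h9]
      ring
    rw [Nat.mul_comm F D]
    omega
  rw [h1]

/-- (B3), the form with the row `i` and the field `f`. -/
theorem testBit_col' {D F p : Nat} (hp : p < D) (X j : Nat) {i f : Nat} (hi : i < p)
    (hf : f < F) :
    Nat.testBit (((X >>> j) &&& geo D (F * p)) % (2 ^ (F * D) - 2)) (f * D + i) =
      Nat.testBit X ((i * F + f) * D + j) := by
  have hiD : i < D := lt_trans hi hp
  have h1 : (f * D + i) % D = i := by
    rw [Nat.mul_comm, Nat.mul_add_mod, Nat.mod_eq_of_lt hiD]
  have h2 : (f * D + i) / D = f := by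
    rw [Nat.mul_comm, Nat.mul_add_div (by omega), Nat.div_eq_of_lt hiD, Nat.add_zero]
  have h3 : f * D + i < F * D := by
    calc f * D + i < f * D + D := by omega
      _ = (f + 1) * D := by ring
      _ ≤ F * D := Nat.mul_le_mul_right D hf
  rw [testBit_col hp, h1, h2, decide_eq_true ⟨h3, hi⟩, Bool.true_and]

/-- (B4) The nonzero fields. -/
theorem testBit_nz {D : Nat} (hD : 0 < D) (k M : Nat) (hM : M < 2 ^ (D * k))
    (hM' : M &&& (2 ^ (D - 1) * geo D k) = 0) (i : Nat) :
    Nat.testBit ((M + (2 ^ (D - 1) - 1) * geo D k) &&& (2 ^ (D - 1) * geo D k)) i =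
      decide (i < D * k ∧ i % D = D - 1 ∧ ∃ j < D - 1, Nat.testBit M (i - (D - 1) + j)) := by
  induction k generalizing M i with
  | zero =>
    rw [geo_zero, Nat.mul_zero, Nat.mul_zero, Nat.and_zero, Nat.zero_testBit]
    symm
    refine decide_eq_false ?_
    rintro ⟨h, -⟩
    omega
  | succ k ih =>
    have hP : 2 ^ D = 2 * 2 ^ (D - 1) := by
      rw [← pow_succ']
      exact congrArg _ (by omega)
    have hP0 : 0 < 2 ^ (D - 1) := by positivity
    obtain ⟨m, M', hm, rfl⟩ : ∃ m M', m < 2 ^ D ∧ M = 2 ^ D * M' + m :=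
      ⟨M % 2 ^ D, M / 2 ^ D, Nat.mod_lt _ (by positivity), (Nat.div_add_mod M (2 ^ D)).symm⟩
    have hg := geo_succ' hD k
    have e1 : 2 ^ (D - 1) * geo D (k + 1) = 2 ^ D * (2 ^ (D - 1) * geo D k) + 2 ^ (D - 1) := by
      rw [hg]
      ring
    have hM1 : M' < 2 ^ (D * k) := by
      rw [Nat.mul_add, Nat.mul_one, pow_add, Nat.mul_comm (2 ^ (D * k))] at hM
      by_contra hcon
      have h1 : 2 ^ D * 2 ^ (D * k) ≤ 2 ^ D * M' := Nat.mul_le_mul_left _ (Nat.le_of_not_lt hcon)
      omega
    have hPlt : 2 ^ (D - 1) < 2 ^ D := by omega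
    rw [e1] at hM'
    have hbits : ∀ i, Nat.testBit ((2 ^ D * M' + m) &&&
        (2 ^ D * (2 ^ (D - 1) * geo D k) + 2 ^ (D - 1))) i = false := by
      intro i
      rw [hM', Nat.zero_testBit]
    have hM2 : M' &&& (2 ^ (D - 1) * geo D k) = 0 := by
      refine Nat.eq_of_testBit_eq fun i => ?_
      have h1 := hbits (i + D)
      rw [Nat.testBit_and, Nat.testBit_two_pow_mul_add _ hm, Nat.testBit_two_pow_mul_add _ hPlt,
        if_neg (by omega), if_neg (by omega), Nat.add_sub_cancel] at h1
      rw [Nat.testBit_and, h1, Nat.zero_testBit]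
    have hmt : Nat.testBit m (D - 1) = false := by
      have h1 := hbits (D - 1)
      rw [Nat.testBit_and, Nat.testBit_two_pow_mul_add _ hm, Nat.testBit_two_pow_mul_add _ hPlt,
        if_pos (by omega), if_pos (by omega), Nat.testBit_two_pow_self, Bool.and_true] at h1
      exact h1
    have hm1 : m < 2 ^ (D - 1) := by
      refine Nat.lt_pow_two_of_testBit m fun j hj => ?_
      rcases Nat.eq_or_lt_of_le hj with h1 | h1
      · rw [← h1]
        exact hmt
      · refine Nat.testBit_lt_two_pow (lt_of_lt_of_le hm ?_)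
        exact Nat.pow_le_pow_right (by norm_num) (by omega)
    have e2 : 2 ^ D * M' + m + (2 ^ (D - 1) - 1) * geo D (k + 1) =
        2 ^ D * (M' + (2 ^ (D - 1) - 1) * geo D k) + (m + (2 ^ (D - 1) - 1)) := by
      rw [hg]
      ring
    have hlt : m + (2 ^ (D - 1) - 1) < 2 ^ D := by omega
    rw [e2, e1, Nat.testBit_and, Nat.testBit_two_pow_mul_add _ hlt,
      Nat.testBit_two_pow_mul_add _ hPlt]
    by_cases hi : i < D
    · rw [if_pos hi, if_pos hi, Nat.testBit_two_pow]
      by_cases h1 : D - 1 = i
      · subst h1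
        rw [decide_eq_true rfl, Bool.and_true, Nat.sub_self]
        by_cases hm0 : m = 0
        · subst hm0
          rw [Nat.zero_add, Nat.testBit_two_pow_sub_one, decide_eq_false (lt_irrefl _)]
          symm
          refine decide_eq_false ?_
          rintro ⟨-, -, j, hj, hj'⟩
          rw [Nat.zero_add, Nat.testBit_two_pow_mul_add _ hm, if_pos (by omega),
            Nat.zero_testBit] at hj'
          exact Bool.false_ne_true hj'
        · have h2 : m + (2 ^ (D - 1) - 1) = 2 ^ (D - 1) + (m - 1) := by omega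
          rw [h2, Nat.testBit_two_pow_add_eq, Nat.testBit_lt_two_pow (show m - 1 < 2 ^ (D - 1) by
            omega)]
          symm
          refine decide_eq_true ⟨?_, Nat.mod_eq_of_lt hi, ?_⟩
          · rw [Nat.mul_add]
            omega
          · obtain ⟨j, hj⟩ := Nat.exists_testBit_of_ne_zero hm0
            have hjlt : j < D - 1 := by
              by_contra hcon
              have h3 := Nat.ge_two_pow_of_testBit hj
              have h4 : 2 ^ (D - 1) ≤ 2 ^ j :=
                Nat.pow_le_pow_right (by norm_num) (Nat.le_of_not_lt hcon)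
              omega
            refine ⟨j, hjlt, ?_⟩
            rw [Nat.zero_add, Nat.testBit_two_pow_mul_add _ hm, if_pos (by omega)]
            exact hj
      · rw [decide_eq_false h1, Bool.and_false]
        symm
        refine decide_eq_false ?_
        rintro ⟨-, h2, -⟩
        rw [Nat.mod_eq_of_lt hi] at h2
        exact h1 h2.symm
    · rw [if_neg hi, if_neg hi, ← Nat.testBit_and, ih M' hM1 hM2]
      obtain ⟨r, rfl⟩ := Nat.exists_eq_add_of_le (Nat.le_of_not_lt hi)
      rw [Nat.add_sub_cancel_left, Nat.add_mod_left, Nat.mul_add D k 1, Nat.mul_one]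
      refine decide_eq_decide.2 ⟨?_, ?_⟩
      · rintro ⟨h1, h2, j, hj, hj'⟩
        refine ⟨by omega, h2, j, hj, ?_⟩
        have h3 : D - 1 ≤ r := by
          rw [← h2]
          exact Nat.mod_le r D
        have h4 : D + r - (D - 1) + j = D + (r - (D - 1) + j) := by omega
        rw [h4, Nat.testBit_two_pow_mul_add _ hm, if_neg (by omega), Nat.add_sub_cancel_left]
        exact hj'
      · rintro ⟨h1, h2, j, hj, hj'⟩
        refine ⟨by omega, h2, j, hj, ?_⟩
        have h3 : D - 1 ≤ r := by
          rw [← h2]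
          exact Nat.mod_le r D
        have h4 : D + r - (D - 1) + j = D + (r - (D - 1) + j) := by omega
        rw [h4, Nat.testBit_two_pow_mul_add _ hm, if_neg (by omega),
          Nat.add_sub_cancel_left] at hj'
        exact hj'

/-- (B5) Repeated shifts. -/
theorem testBit_rep (D X k i : Nat) :
    Nat.testBit (Nat.rec (motive := fun _ => Nat) X (fun _ acc => (acc <<< D) ||| X) k) i =
      decide (∃ t ≤ k, t * D ≤ i ∧ Nat.testBit X (i - t * D)) := by
  induction k generalizing i with
  | zero =>
    show Nat.testBit X i = _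
    by_cases h : Nat.testBit X i
    · rw [h]
      symm
      refine decide_eq_true ⟨0, le_rfl, by omega, ?_⟩
      rw [Nat.zero_mul, Nat.sub_zero]
      exact h
    · rw [Bool.not_eq_true] at h
      rw [h]
      symm
      refine decide_eq_false ?_
      rintro ⟨t, ht, -, h1⟩
      obtain rfl : t = 0 := by omega
      rw [Nat.zero_mul, Nat.sub_zero, h] at h1
      exact Bool.false_ne_true h1
  | succ k ih =>
    show Nat.testBit (((Nat.rec (motive := fun _ => Nat) X (fun _ acc => (acc <<< D) ||| X) k)
      <<< D) ||| X) i = _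
    rw [Nat.testBit_or, Nat.testBit_shiftLeft, ih]
    by_cases h : Nat.testBit X i
    · rw [h, Bool.or_true]
      symm
      refine decide_eq_true ⟨0, Nat.zero_le _, by omega, ?_⟩
      rw [Nat.zero_mul, Nat.sub_zero]
      exact h
    · rw [Bool.not_eq_true] at h
      rw [h, Bool.or_false, ← Bool.decide_and]
      refine decide_eq_decide.2 ⟨?_, ?_⟩
      · rintro ⟨h1, t, ht, h2, h3⟩
        have h4 : (t + 1) * D = t * D + D := by ring
        refine ⟨t + 1, by omega, by omega, ?_⟩
        rw [h4]
        have h5 : i - (t * D + D) = i - D - t * D := by omega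
        rw [h5]
        exact h3
      · rintro ⟨t, ht, h2, h3⟩
        rcases t with _ | t
        · rw [Nat.zero_mul, Nat.sub_zero, h] at h3
          exact absurd h3 Bool.false_ne_true
        · have h4 : (t + 1) * D = t * D + D := by ring
          rw [h4] at h2 h3
          refine ⟨by omega, t, by omega, by omega, ?_⟩
          have h5 : i - (t * D + D) = i - D - t * D := by omega
          rw [h5] at h3
          exact h3

end Pool.Agent.NNe
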