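import Pool.Agent.NNe.Sem

/-!
# The engine of MP_4b6a99_co: well-formed class data (M1)
-/

namespace Pool.Agent.NNe

theorem M1_andB {a b : Bool} (h : andB a b = true) : a = true ∧ b = true := by
  cases a <;> cases b <;> first | exact ⟨rfl, rfl⟩ | exact absurd h (by decide)

theorem M1_geoK (D k : ℕ) : geoK D k = geo D k := by
  show ((1 <<< (D * k)) - 1) / ((1 <<< D) - 1) = geo D k
  rw [Nat.one_shiftLeft, Nat.one_shiftLeft]
  rfl

theorem M1_ext (T b i : ℕ) : ext T b i = (T >>> (b * i)) % 2 ^ b := by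
  show (T >>> (b * i)) % (1 <<< b) = _
  rw [Nat.one_shiftLeft]

theorem M1_allF {T b o q msk v : ℕ} (hb : 0 < b) (hm : msk < 2 ^ b)
    (h : allF T b o q msk v = true) : ∀ j < q, ext T b (o + j) &&& msk = v := by
  intro j hj
  have h1 : (T >>> (b * o)) &&& (msk * geoK b q) = v * geoK b q := Nat.eq_of_beq_eq_true h
  rw [M1_geoK] at h1
  have hv : v < 2 ^ b := by
    by_contra hv
    have h2 : (T >>> (b * o)) &&& (msk * geo b q) < 2 ^ (b * q) :=
      lt_of_le_of_lt Nat.and_le_right (mul_geo_lt b q hm)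
    rw [h1] at h2
    have h3 : 2 ^ b * geo b q ≤ v * geo b q := Nat.mul_le_mul_right _ (not_lt.1 hv)
    obtain ⟨p, rfl⟩ : ∃ p, q = p + 1 := ⟨q - 1, by omega⟩
    have h4 : 2 ^ (b * p) ≤ geo b (p + 1) := by
      rw [geo_succ hb]
      omega
    have h5 : 2 ^ b * 2 ^ (b * p) ≤ 2 ^ b * geo b (p + 1) := Nat.mul_le_mul_left _ h4
    have h6 : 2 ^ b * 2 ^ (b * p) = 2 ^ (b * (p + 1)) := by
      rw [← pow_add]; congr 1; ring
    omega
  refine Nat.eq_of_testBit_eq (fun i => ?_)
  by_cases hi : i < b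
  · have h2 : ((T >>> (b * o)) &&& (msk * geo b q)).testBit (b * j + i) =
        (v * geo b q).testBit (b * j + i) := by rw [h1]
    have h3 : b * j + i < b * q := by
      have : b * (j + 1) ≤ b * q := Nat.mul_le_mul_left _ hj
      rw [Nat.mul_add, Nat.mul_one] at this
      omega
    have h4 : (b * j + i) % b = i := by
      rw [Nat.mul_add_mod, Nat.mod_eq_of_lt hi]
    rw [Nat.testBit_and, testBit_mul_geo hb _ hm, testBit_mul_geo hb _ hv, h4,
      Nat.testBit_shiftRight] at h2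
    simp only [h3, decide_true, Bool.true_and] at h2
    rw [Nat.testBit_and, M1_ext, Nat.testBit_mod_two_pow, Nat.testBit_shiftRight, ← h2]
    have h5 : b * (o + j) + i = b * o + (b * j + i) := by ring
    rw [h5]
    simp [hi]
  · have h3 : 2 ^ b ≤ 2 ^ i := Nat.pow_le_pow_right (by norm_num) (by omega)
    rw [Nat.testBit_and, Nat.testBit_lt_two_pow (lt_of_lt_of_le hm h3),
      Nat.testBit_lt_two_pow (lt_of_lt_of_le hv h3), Bool.and_false]

theorem M1_hasC {X k p : ℕ} : ∀ {bl : Bl}, hasC bl X k p = true → (X, k, p) ∈ bl.cs := by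
  intro bl
  induction bl with
  | nil => intro h; exact absurd (show false = true from h) (by simp)
  | r X' p' tl ih => intro h; exact ih h
  | c X' k' p' tl ih =>
    intro h
    have e : orB (andB (Nat.beq p' p) (andB (Nat.beq k' k) (Nat.beq X' X))) (hasC tl X k p) =
      true := h
    cases hb : andB (Nat.beq p' p) (andB (Nat.beq k' k) (Nat.beq X' X)) with
    | true =>
      obtain ⟨h1, h2⟩ := M1_andB hb
      obtain ⟨h3, h4⟩ := M1_andB h2
      rw [← Nat.eq_of_beq_eq_true h1, ← Nat.eq_of_beq_eq_true h3, ← Nat.eq_of_beq_eq_true h4]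
      exact List.mem_cons_self
    | false =>
      rw [hb] at e
      exact List.mem_cons_of_mem _ (ih e)

theorem M1_allR {f : ℕ → ℕ → Bool} : ∀ {bl : Bl}, allR f bl = true →
    ∀ X p, (X, p) ∈ bl.rs → f X p = true := by
  intro bl
  induction bl with
  | nil => intro _ X p h; exact absurd h (by simp [Bl.rs])
  | r X' p' tl ih =>
    intro h X p hm
    obtain ⟨h1, h2⟩ := M1_andB (show andB (f X' p') (allR f tl) = true from h)
    rcases List.mem_cons.1 (show (X, p) ∈ (X', p') :: tl.rs from hm) with hm | hm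
    · rw [Prod.mk.injEq] at hm
      rw [hm.1, hm.2]
      exact h1
    · exact ih h2 X p hm
  | c X' k' p' tl ih => intro h; exact ih h

theorem M1_sbOK {CO o q : ℕ} : ∀ {sb : Sb} {j1 : ℕ}, sbOK CO o q sb j1 = true →
    ∀ j, j1 ≤ j → j < q → ∃ b4 j0 n, (b4, j0, n) ∈ sb.l ∧ j0 ≤ j ∧ j < j0 + n ∧
      ext CO 24 (o + j) &&& 12288 = 1024 * b4 := by
  intro sb
  induction sb with
  | nil =>
    intro j1 h j h1 h2
    have h3 : j1 = q := Nat.eq_of_beq_eq_true h
    omega
  | cons b4 j0 n tl ih =>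
    intro j1 h j h1 h2
    obtain ⟨g1, g2⟩ := M1_andB (show andB (Nat.beq j0 j1) (andB
      (allF CO 24 (o + j0) n 12288 (1024 * b4)) (sbOK CO o q tl (j1 + n))) = true from h)
    obtain ⟨g3, g4⟩ := M1_andB g2
    have g5 : j0 = j1 := Nat.eq_of_beq_eq_true g1
    subst g5
    rcases Nat.lt_or_ge j (j0 + n) with h3 | h3
    · refine ⟨b4, j0, n, List.mem_cons_self, h1, h3, ?_⟩
      have := M1_allF (by norm_num) (by norm_num) g3 (j - j0) (by omega)
      rw [show o + j0 + (j - j0) = o + j by omega] at this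
      exact this
    · obtain ⟨b4', j0', n', h4, h5⟩ := ih g4 j h3 h2
      exact ⟨b4', j0', n', List.mem_cons_of_mem _ h4, h5⟩

theorem M1_12288 (e : ℕ) : e &&& 12288 = 4096 * (e / 4096 % 4) := by
  have k1 : ∀ i < 14, Nat.testBit 12288 i = decide (12 ≤ i) := by decide
  have h : (4096 : ℕ) = 2 ^ 12 := by norm_num
  have h' : (4 : ℕ) = 2 ^ 2 := by norm_num
  refine Nat.eq_of_testBit_eq (fun i => ?_)
  rw [h, h', Nat.testBit_two_pow_mul, Nat.testBit_mod_two_pow, Nat.testBit_div_two_pow,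
    Nat.testBit_and]
  by_cases hi : i < 14
  · rw [k1 i hi]
    by_cases h12 : 12 ≤ i
    · have e1 : i - 12 + 12 = i := by omega
      have e2 : i - 12 < 2 := by omega
      rw [e1]
      simp [h12, e2]
    · simp [h12]
  · have h2 : Nat.testBit 12288 i = false := by
      refine Nat.testBit_lt_two_pow (lt_of_lt_of_le (show 12288 < 2 ^ 14 by norm_num) ?_)
      exact Nat.pow_le_pow_right (by norm_num) (by omega)
    have e2 : ¬ i - 12 < 2 := by omega
    rw [h2]
    simp [e2]

theorem M1_16760832 {e : ℕ} (he : e < 2 ^ 24) : e &&& 16760832 = 16384 * (e / 16384) := by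
  have k1 : ∀ i < 24, Nat.testBit 16760832 i = decide (14 ≤ i) := by decide
  have h : (16384 : ℕ) = 2 ^ 14 := by norm_num
  refine Nat.eq_of_testBit_eq (fun i => ?_)
  rw [h, Nat.testBit_two_pow_mul, Nat.testBit_div_two_pow, Nat.testBit_and]
  by_cases hi : i < 24
  · rw [k1 i hi]
    by_cases h12 : 14 ≤ i
    · have e1 : i - 14 + 14 = i := by omega
      rw [e1]
      simp [h12]
    · simp [h12]
  · have h3 : 2 ^ 24 ≤ 2 ^ i := Nat.pow_le_pow_right (by norm_num) (by omega)
    have h2 : e.testBit i = false := Nat.testBit_lt_two_pow (lt_of_lt_of_le he h3)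
    have e1 : i - 14 + 14 = i := by omega
    rw [h2, e1, h2]
    simp

theorem M1_1023 {e : ℕ} (he : e < 2 ^ 10) : e &&& 1023 = e := by
  have h3 : (1023 : ℕ) = 2 ^ 10 - 1 := by norm_num
  rw [h3, Nat.and_two_pow_sub_one_eq_mod, Nat.mod_eq_of_lt he]

/-- the recursion of `wfC` -/
noncomputable def wfR (D F R SI CO : ℕ) (sl0 : Sl) (sl : Sl) : ℕ → ℕ → Bool :=
  Sl.rec (motive := fun _ => ℕ → ℕ → Bool) (fun _ o => Nat.beq o R)
      (fun s _ ih i o => Sd.rec (motive := fun _ => Bool) (fun t a4 o' q sb bl =>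
        andB (Nat.beq o' o) (andB (Nat.ble (Nat.succ q) D)
        (andB (Nat.beq a4 (Nat.mul (nat_lit 4) (Nat.mod (Nat.div t (nat_lit 4)) (nat_lit 4))))
        (andB (allF CO (nat_lit 24) o q (nat_lit 16760832) (Nat.mul (nat_lit 16384) t))
        (andB (allF SI (nat_lit 10) o q (nat_lit 1023) i)
        (andB (sbOK CO o q sb (nat_lit 0))
        (andB (allR (fun X p => Sd.rec (motive := fun _ => Bool) (fun _ _ _ _ _ bl' =>
            hasC bl' X (Nat.mul F q) i) (getS sl0 p)) bl)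
          (ih (Nat.succ i) (Nat.add o q))))))))) s) sl

/-- the facts of the side `s` with the number `i` -/
structure SdF (D F SI CO : ℕ) (sl0 : Sl) (s : Sd) (i : ℕ) : Prop where
  q_lt : s.q < D
  a4 : s.a4 = 4 * (s.t / 4 % 4)
  co : ∀ j < s.q, ext CO 24 (s.o + j) &&& 16760832 = 16384 * s.t
  si : ∀ j < s.q, ext SI 10 (s.o + j) = i
  sb : ∀ j < s.q, ∃ b4 j0 n, (b4, j0, n) ∈ s.sb.l ∧ j0 ≤ j ∧ j < j0 + n ∧
      ext CO 24 (s.o + j) &&& 12288 = 1024 * b4
  bl : ∀ X p, (X, p) ∈ s.bl.rs → (X, F * s.q, i) ∈ (getS sl0 p).bl.cs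

theorem wfR_spec {D F R SI CO : ℕ} {sl0 : Sl} : ∀ {sl : Sl} {i o : ℕ},
    wfR D F R SI CO sl0 sl i o = true → o ≤ R ∧
      (∀ k < sl.l.length, SdF D F SI CO sl0 (getS sl k) (i + k) ∧ o ≤ (getS sl k).o ∧
        (getS sl k).o + (getS sl k).q ≤ R) ∧
      ∀ x, o ≤ x → x < R → ∃ k < sl.l.length, (getS sl k).o ≤ x ∧
        x < (getS sl k).o + (getS sl k).q := by
  intro sl
  induction sl with
  | nil =>
    intro i o h
    have h1 : o = R := Nat.eq_of_beq_eq_true h
    refine ⟨by omega, ?_, ?_⟩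
    · intro k hk
      exact absurd hk (by simp [Sl.l])
    · intro x h2 h3
      omega
  | cons s tl ih =>
    intro i o h
    rcases s with ⟨t, a4, o', q, sb, bl⟩
    obtain ⟨h1, h⟩ := M1_andB (show andB (Nat.beq o' o) (andB (Nat.ble (q + 1) D)
        (andB (Nat.beq a4 (4 * (t / 4 % 4)))
        (andB (allF CO 24 o q 16760832 (16384 * t))
        (andB (allF SI 10 o q 1023 i)
        (andB (sbOK CO o q sb 0)
        (andB (allR (fun X p => Sd.rec (motive := fun _ => Bool) (fun _ _ _ _ _ bl' =>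
            hasC bl' X (F * q) i) (getS sl0 p)) bl)
          (wfR D F R SI CO sl0 tl (i + 1) (o + q)))))))) = true from h)
    obtain ⟨h2, h⟩ := M1_andB h
    obtain ⟨h3, h⟩ := M1_andB h
    obtain ⟨h4, h⟩ := M1_andB h
    obtain ⟨h5, h⟩ := M1_andB h
    obtain ⟨h6, h⟩ := M1_andB h
    obtain ⟨h7, h8⟩ := M1_andB h
    have g1 : o' = o := Nat.eq_of_beq_eq_true h1
    subst g1
    obtain ⟨i1, i2, i3⟩ := ih h8
    refine ⟨by omega, ?_, ?_⟩
    · intro k hk
      cases k with
      | zero =>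
        refine ⟨⟨Nat.le_of_ble_eq_true h2, Nat.eq_of_beq_eq_true h3, ?_, ?_, ?_, ?_⟩,
          le_refl _, i1⟩
        · exact M1_allF (by norm_num) (by norm_num) h4
        · intro j hj
          have := M1_allF (by norm_num) (by norm_num) h5 j hj
          rw [M1_1023 (by rw [M1_ext]; exact Nat.mod_lt _ (by norm_num))] at this
          exact this
        · intro j hj
          exact M1_sbOK h6 j (Nat.zero_le _) hj
        · intro X p hm
          have h9 := M1_allR h7 X p hm
          rcases hs : getS sl0 p with ⟨t', a4', o'', q', sb', bl'⟩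
          rw [hs] at h9
          exact M1_hasC h9
      | succ k =>
        obtain ⟨j1, j2, j3⟩ := i2 k (by simpa [Sl.l] using hk)
        refine ⟨?_, ?_, j3⟩
        · rw [show i + (k + 1) = i + 1 + k by omega]
          exact j1
        · exact le_trans (by omega) j2
    · intro x hx1 hx2
      rcases Nat.lt_or_ge x (o' + q) with hx | hx
      · exact ⟨0, by simp [Sl.l], hx1, hx⟩
      · obtain ⟨k, hk, hk1, hk2⟩ := i3 x hx hx2
        exact ⟨k + 1, by simpa [Sl.l] using hk, hk1, hk2⟩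

theorem M1_getS_ge : ∀ {sl : Sl} {i : ℕ}, sl.l.length ≤ i → (getS sl i).q = 0 ∧
    (getS sl i).bl = Bl.nil := by
  intro sl
  induction sl with
  | nil => intro i _; exact ⟨rfl, rfl⟩
  | cons s tl ih =>
    intro i hi
    cases i with
    | zero => exact absurd hi (by simp [Sl.l])
    | succ i => exact ih (by simpa [Sl.l] using hi)

/-- (M1) the check -/
theorem wfC_iff {D F : ℕ} {cd : Cd} (hD : 0 < D) (h : wfC D F cd = true) : WFC D F cd := by
  rcases cd with ⟨R, v, mf, SI, SW, RV, CO, sl⟩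
  have h' : wfR D F R SI CO sl sl 0 0 = true := h
  obtain ⟨-, h1, h2⟩ := wfR_spec h'
  have hlt : ∀ i, 0 < (getS sl i).q → i < sl.l.length := by
    intro i hi
    by_contra hge
    have := (M1_getS_ge (not_lt.1 hge)).1
    omega
  have hfind : ∀ x < R, ∃ k < sl.l.length, (getS sl k).o ≤ x ∧ x < (getS sl k).o + (getS sl k).q ∧
      ext SI 10 x = k ∧ SdF D F SI CO sl (getS sl k) k := by
    intro x hx
    obtain ⟨k, hk, hk1, hk2⟩ := h2 x (Nat.zero_le _) hx
    obtain ⟨g1, -, -⟩ := h1 k hk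
    rw [Nat.zero_add] at g1
    have g2 := g1.si (x - (getS sl k).o) (by omega)
    rw [show (getS sl k).o + (x - (getS sl k).o) = x by omega] at g2
    exact ⟨k, hk, hk1, hk2, g2, g1⟩
  refine ⟨?_, ?_, ?_, ?_, ?_, ?_, ?_⟩
  · intro i
    rcases Nat.lt_or_ge i sl.l.length with hi | hi
    · exact (h1 i hi).1.q_lt
    · show (getS sl i).q < D
      rw [(M1_getS_ge hi).1]
      exact hD
  · intro x hx
    obtain ⟨k, -, hk1, hk2, hk3, -⟩ := hfind x hx
    show (getS sl (ext SI 10 x)).o ≤ x ∧ x < (getS sl (ext SI 10 x)).o + (getS sl (ext SI 10 x)).q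
    rw [hk3]
    exact ⟨hk1, hk2⟩
  · intro i j hj
    have hj' : j < (getS sl i).q := hj
    have hi := hlt i (by omega)
    obtain ⟨g1, -, g3⟩ := h1 i hi
    rw [Nat.zero_add] at g1
    refine ⟨?_, g1.si j hj'⟩
    show (getS sl i).o + j < R
    omega
  · intro x hx
    obtain ⟨k, -, hk1, hk2, hk3, g⟩ := hfind x hx
    show (getS sl (ext SI 10 x)).t = ext CO 24 x / 16384
    rw [hk3]
    have g2 := g.co (x - (getS sl k).o) (by omega)
    rw [show (getS sl k).o + (x - (getS sl k).o) = x by omega, M1_16760832 (by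
      rw [M1_ext]; exact Nat.mod_lt _ (by norm_num))] at g2
    omega
  · intro x hx
    obtain ⟨k, -, hk1, hk2, hk3, g⟩ := hfind x hx
    show (getS sl (ext SI 10 x)).a4 = 4 * ((getS sl (ext SI 10 x)).t / 4 % 4)
    rw [hk3]
    exact g.a4
  · intro i j hj
    have hj' : j < (getS sl i).q := hj
    have hi := hlt i (by omega)
    obtain ⟨g1, -, -⟩ := h1 i hi
    obtain ⟨b4, j0, n, e1, e2, e3, e4⟩ := g1.sb j hj'
    refine ⟨b4, j0, n, e1, e2, e3, ?_⟩
    rw [M1_12288] at e4
    show b4 = 4 * (ext CO 24 ((getS sl i).o + j) / 4096 % 4)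
    omega
  · intro i X p hm
    rcases Nat.lt_or_ge i sl.l.length with hi | hi
    · have g1 := (h1 i hi).1.bl X p hm
      rw [Nat.zero_add] at g1
      exact g1
    · have hm' : (X, p) ∈ (getS sl i).bl.rs := hm
      rw [(M1_getS_ge hi).2] at hm'
      exact absurd hm' (by simp [Bl.rs])

end Pool.Agent.NNe
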