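import Pool.Agent.NNe.Chk

/-!
# The possible near codes and far codes for the three types of ranks
-/

namespace Pool.Agent.NNe

/-- type 0 -/
def nl0 : Nl := (Nl.cons (nat_lit 0) (nat_lit 0) (Fl.cons (nat_lit 5) Fl.nil) (Nl.cons (nat_lit 0) (nat_lit 0) (Fl.cons (nat_lit 46) Fl.nil) (Nl.cons (nat_lit 0) (nat_lit 1) (Fl.cons (nat_lit 68) Fl.nil) (Nl.cons (nat_lit 0) (nat_lit 1) (Fl.cons (nat_lit 94) Fl.nil) (Nl.cons (nat_lit 0) (nat_lit 2) (Fl.cons (nat_lit 157) Fl.nil) (Nl.cons (nat_lit 0) (nat_lit 2) (Fl.cons (nat_lit 172) Fl.nil) (Nl.cons (nat_lit 0) (nat_lit 3) (Fl.cons (nat_lit 204) (Fl.cons (nat_lit 205) Fl.nil)) (Nl.cons (nat_lit 0) (nat_lit 3) (Fl.cons (nat_lit 221) (Fl.cons (nat_lit 222) Fl.nil)) (Nl.cons (nat_lit 0) (nat_lit 3) (Fl.cons (nat_lit 236) (Fl.cons (nat_lit 238) Fl.nil)) (Nl.cons (nat_lit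 0) (nat_lit 0) (Fl.cons (nat_lit 523) Fl.nil) (Nl.cons (nat_lit 0) (nat_lit 0) (Fl.cons (nat_lit 554) Fl.nil) (Nl.cons (nat_lit 0) (nat_lit 1) (Fl.cons (nat_lit 587) Fl.nil) (Nl.cons (nat_lit 0) (nat_lit 1) (Fl.cons (nat_lit 606) Fl.nil) (Nl.cons (nat_lit 0) (nat_lit 2) (Fl.cons (nat_lit 669) Fl.nil) (Nl.cons (nat_lit 0) (nat_lit 2) (Fl.cons (nat_lit 680) Fl.nil) (Nl.cons (nat_lit 0) (nat_lit 3) (Fl.cons (nat_lit 712) (Fl.cons (nat_lit 713) (Fl.cons (nat_lit 715) (Fl.cons (nat_lit 716) (Fl.cons (nat_lit 717) Fl.nil))))) (Nl.cons (nat_lit 0) (nat_lit 3) (Fl.cons (nat_lit 733) (Fl.cons (nat_lit 734) Fl.nil)) (Nl.cons (nat_lit 0) (nat_lit 3) (Fl.cons (nat_lit 748) (Fl.cons (nat_lit 750) Fl.nil)) (Nl.cons (nat_lit 1) (nat_lit 0) (Fl.cons (nat_lit 1025) Fl.nil) (Nl.cons (nat_lit 1) (nat_lit 0) (Fl.cons (nat_lit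 1070) Fl.nil) (Nl.cons (nat_lit 1) (nat_lit 1) (Fl.cons (nat_lit 1088) Fl.nil) (Nl.cons (nat_lit 1) (nat_lit 1) (Fl.cons (nat_lit 1118) Fl.nil) (Nl.cons (nat_lit 1) (nat_lit 2) (Fl.cons (nat_lit 1181) Fl.nil) (Nl.cons (nat_lit 1) (nat_lit 2) (Fl.cons (nat_lit 1196) Fl.nil) (Nl.cons (nat_lit 1) (nat_lit 3) (Fl.cons (nat_lit 1228) (Fl.cons (nat_lit 1229) Fl.nil)) (Nl.cons (nat_lit 1) (nat_lit 3) (Fl.cons (nat_lit 1245) (Fl.cons (nat_lit 1246) Fl.nil)) (Nl.cons (nat_lit 1) (nat_lit 3) (Fl.cons (nat_lit 1260) (Fl.cons (nat_lit 1262) Fl.nil)) (Nl.cons (nat_lit 1) (nat_lit 0) (Fl.cons (nat_lit 1291) Fl.nil) (Nl.cons (nat_lit 1) (nat_lit 0) (Fl.cons (nat_lit 1323) Fl.nil) (Nl.cons (nat_lit 1) (nat_lit 1) (Fl.cons (nat_lit 1355) Fl.nil) (Nl.cons (nat_lit 1) (nat_lit 1) (Fl.cons (nat_lit 1370) Fl.nil) (Nl.cons (nat_lit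 1) (nat_lit 2) (Fl.cons (nat_lit 1433) Fl.nil) (Nl.cons (nat_lit 1) (nat_lit 2) (Fl.cons (nat_lit 1451) Fl.nil) (Nl.cons (nat_lit 1) (nat_lit 3) (Fl.cons (nat_lit 1480) (Fl.cons (nat_lit 1481) (Fl.cons (nat_lit 1483) (Fl.cons (nat_lit 1484) (Fl.cons (nat_lit 1485) Fl.nil))))) (Nl.cons (nat_lit 1) (nat_lit 3) (Fl.cons (nat_lit 1501) (Fl.cons (nat_lit 1502) Fl.nil)) (Nl.cons (nat_lit 1) (nat_lit 3) (Fl.cons (nat_lit 1512) (Fl.cons (nat_lit 1514) (Fl.cons (nat_lit 1515) (Fl.cons (nat_lit 1516) (Fl.cons (nat_lit 1518) Fl.nil))))) (Nl.cons (nat_lit 2) (nat_lit 0) (Fl.cons (nat_lit 2311) Fl.nil) (Nl.cons (nat_lit 2) (nat_lit 0) (Fl.cons (nat_lit 2343) Fl.nil) (Nl.cons (nat_lit 2) (nat_lit 1) (Fl.cons (nat_lit 2375) Fl.nil) (Nl.cons (nat_lit 2) (nat_lit 1) (Fl.cons (nat_lit 2390) Fl.nil) (Nl.cons (nat_lit 2) (nat_lit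 2) (Fl.cons (nat_lit 2453) Fl.nil) (Nl.cons (nat_lit 2) (nat_lit 2) (Fl.cons (nat_lit 2471) Fl.nil) (Nl.cons (nat_lit 2) (nat_lit 3) (Fl.cons (nat_lit 2500) (Fl.cons (nat_lit 2501) (Fl.cons (nat_lit 2503) (Fl.cons (nat_lit 2508) (Fl.cons (nat_lit 2509) Fl.nil))))) (Nl.cons (nat_lit 2) (nat_lit 3) (Fl.cons (nat_lit 2525) (Fl.cons (nat_lit 2526) Fl.nil)) (Nl.cons (nat_lit 2) (nat_lit 3) (Fl.cons (nat_lit 2532) (Fl.cons (nat_lit 2534) (Fl.cons (nat_lit 2535) (Fl.cons (nat_lit 2540) (Fl.cons (nat_lit 2542) Fl.nil))))) (Nl.cons (nat_lit 2) (nat_lit 0) (Fl.cons (nat_lit 2563) Fl.nil) (Nl.cons (nat_lit 2) (nat_lit 0) (Fl.cons (nat_lit 2594) Fl.nil) (Nl.cons (nat_lit 2) (nat_lit 1) (Fl.cons (nat_lit 2627) Fl.nil) (Nl.cons (nat_lit 2) (nat_lit 1) (Fl.cons (nat_lit 2654) Fl.nil) (Nl.cons (nat_lit 2) (nat_lit 2) (Fl.cons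 (nat_lit 2717) Fl.nil) (Nl.cons (nat_lit 2) (nat_lit 2) (Fl.cons (nat_lit 2720) Fl.nil) (Nl.cons (nat_lit 2) (nat_lit 3) (Fl.cons (nat_lit 2752) (Fl.cons (nat_lit 2753) (Fl.cons (nat_lit 2755) (Fl.cons (nat_lit 2764) (Fl.cons (nat_lit 2765) Fl.nil))))) (Nl.cons (nat_lit 2) (nat_lit 3) (Fl.cons (nat_lit 2781) (Fl.cons (nat_lit 2782) Fl.nil)) (Nl.cons (nat_lit 2) (nat_lit 3) (Fl.cons (nat_lit 2796) (Fl.cons (nat_lit 2798) Fl.nil)) (Nl.cons (nat_lit 3) (nat_lit 0) (Fl.cons (nat_lit 3075) (Fl.cons (nat_lit 3079) Fl.nil)) (Nl.cons (nat_lit 3) (nat_lit 0) (Fl.cons (nat_lit 3106) (Fl.cons (nat_lit 3107) (Fl.cons (nat_lit 3110) (Fl.cons (nat_lit 3111) (Fl.cons (nat_lit 3118) Fl.nil))))) (Nl.cons (nat_lit 3) (nat_lit 1) (Fl.cons (nat_lit 3139) (Fl.cons (nat_lit 3143) Fl.nil)) (Nl.cons (nat_lit 3) (nat_lit 1) (Fl.cons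 (nat_lit 3154) (Fl.cons (nat_lit 3155) (Fl.cons (nat_lit 3158) (Fl.cons (nat_lit 3159) (Fl.cons (nat_lit 3166) Fl.nil))))) (Nl.cons (nat_lit 3) (nat_lit 2) (Fl.cons (nat_lit 3217) (Fl.cons (nat_lit 3219) (Fl.cons (nat_lit 3221) (Fl.cons (nat_lit 3223) (Fl.cons (nat_lit 3229) Fl.nil))))) (Nl.cons (nat_lit 3) (nat_lit 2) (Fl.cons (nat_lit 3232) (Fl.cons (nat_lit 3235) (Fl.cons (nat_lit 3236) (Fl.cons (nat_lit 3239) (Fl.cons (nat_lit 3244) Fl.nil))))) (Nl.cons (nat_lit 3) (nat_lit 0) (Fl.cons (nat_lit 3335) (Fl.cons (nat_lit 3339) Fl.nil)) (Nl.cons (nat_lit 3) (nat_lit 0) (Fl.cons (nat_lit 3367) (Fl.cons (nat_lit 3371) Fl.nil)) (Nl.cons (nat_lit 3) (nat_lit 1) (Fl.cons (nat_lit 3399) (Fl.cons (nat_lit 3403) Fl.nil)) (Nl.cons (nat_lit 3) (nat_lit 1) (Fl.cons (nat_lit 3415) (Fl.cons (nat_lit 3419) Fl.nil)) (Nl.cons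 (nat_lit 3) (nat_lit 2) (Fl.cons (nat_lit 3479) (Fl.cons (nat_lit 3483) Fl.nil)) (Nl.cons (nat_lit 3) (nat_lit 2) (Fl.cons (nat_lit 3495) (Fl.cons (nat_lit 3499) Fl.nil)) (Nl.cons (nat_lit 3) (nat_lit 0) (Fl.cons (nat_lit 3587) (Fl.cons (nat_lit 3595) Fl.nil)) (Nl.cons (nat_lit 3) (nat_lit 0) (Fl.cons (nat_lit 3619) (Fl.cons (nat_lit 3627) Fl.nil)) (Nl.cons (nat_lit 3) (nat_lit 1) (Fl.cons (nat_lit 3651) (Fl.cons (nat_lit 3659) Fl.nil)) (Nl.cons (nat_lit 3) (nat_lit 1) (Fl.cons (nat_lit 3666) (Fl.cons (nat_lit 3667) (Fl.cons (nat_lit 3674) (Fl.cons (nat_lit 3675) (Fl.cons (nat_lit 3678) Fl.nil))))) (Nl.cons (nat_lit 3) (nat_lit 2) (Fl.cons (nat_lit 3729) (Fl.cons (nat_lit 3731) (Fl.cons (nat_lit 3737) (Fl.cons (nat_lit 3739) (Fl.cons (nat_lit 3741) Fl.nil))))) (Nl.cons (nat_lit 3) (nat_lit 2) (Fl.cons (nat_lit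 3747) (Fl.cons (nat_lit 3755) Fl.nil)) Nl.nil))))))))))))))))))))))))))))))))))))))))))))))))))))))))))))))))))))))))

/-- type 1 -/
def nl1 : Nl := (Nl.cons (nat_lit 0) (nat_lit 0) (Fl.cons (nat_lit 5) Fl.nil) (Nl.cons (nat_lit 0) (nat_lit 0) (Fl.cons (nat_lit 46) Fl.nil) (Nl.cons (nat_lit 0) (nat_lit 1) (Fl.cons (nat_lit 68) Fl.nil) (Nl.cons (nat_lit 0) (nat_lit 1) (Fl.cons (nat_lit 94) Fl.nil) (Nl.cons (nat_lit 0) (nat_lit 2) (Fl.cons (nat_lit 157) Fl.nil) (Nl.cons (nat_lit 0) (nat_lit 2) (Fl.cons (nat_lit 172) Fl.nil) (Nl.cons (nat_lit 0) (nat_lit 3) (Fl.cons (nat_lit 204) (Fl.cons (nat_lit 205) Fl.nil)) (Nl.cons (nat_lit 0) (nat_lit 3) (Fl.cons (nat_lit 221) (Fl.cons (nat_lit 222) Fl.nil)) (Nl.cons (nat_lit 0) (nat_lit 3) (Fl.cons (nat_lit 236) (Fl.cons (nat_lit 238) Fl.nil)) (Nl.cons (nat_lit 0) (nat_lit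 0) (Fl.cons (nat_lit 523) Fl.nil) (Nl.cons (nat_lit 0) (nat_lit 0) (Fl.cons (nat_lit 554) Fl.nil) (Nl.cons (nat_lit 0) (nat_lit 1) (Fl.cons (nat_lit 587) Fl.nil) (Nl.cons (nat_lit 0) (nat_lit 1) (Fl.cons (nat_lit 602) Fl.nil) (Nl.cons (nat_lit 0) (nat_lit 2) (Fl.cons (nat_lit 665) Fl.nil) (Nl.cons (nat_lit 0) (nat_lit 2) (Fl.cons (nat_lit 680) Fl.nil) (Nl.cons (nat_lit 0) (nat_lit 3) (Fl.cons (nat_lit 712) (Fl.cons (nat_lit 713) (Fl.cons (nat_lit 715) (Fl.cons (nat_lit 716) (Fl.cons (nat_lit 717) Fl.nil))))) (Nl.cons (nat_lit 0) (nat_lit 3) (Fl.cons (nat_lit 733) (Fl.cons (nat_lit 734) Fl.nil)) (Nl.cons (nat_lit 0) (nat_lit 3) (Fl.cons (nat_lit 748) (Fl.cons (nat_lit 750) Fl.nil)) (Nl.cons (nat_lit 1) (nat_lit 0) (Fl.cons (nat_lit 1025) Fl.nil) (Nl.cons (nat_lit 1) (nat_lit 0) (Fl.cons (nat_lit 1070) Fl.nil)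 (Nl.cons (nat_lit 1) (nat_lit 1) (Fl.cons (nat_lit 1088) Fl.nil) (Nl.cons (nat_lit 1) (nat_lit 1) (Fl.cons (nat_lit 1118) Fl.nil) (Nl.cons (nat_lit 1) (nat_lit 2) (Fl.cons (nat_lit 1181) Fl.nil) (Nl.cons (nat_lit 1) (nat_lit 2) (Fl.cons (nat_lit 1196) Fl.nil) (Nl.cons (nat_lit 1) (nat_lit 3) (Fl.cons (nat_lit 1228) (Fl.cons (nat_lit 1229) Fl.nil)) (Nl.cons (nat_lit 1) (nat_lit 3) (Fl.cons (nat_lit 1245) (Fl.cons (nat_lit 1246) Fl.nil)) (Nl.cons (nat_lit 1) (nat_lit 3) (Fl.cons (nat_lit 1260) (Fl.cons (nat_lit 1262) Fl.nil)) (Nl.cons (nat_lit 1) (nat_lit 0) (Fl.cons (nat_lit 1291) Fl.nil) (Nl.cons (nat_lit 1) (nat_lit 0) (Fl.cons (nat_lit 1322) Fl.nil) (Nl.cons (nat_lit 1) (nat_lit 1) (Fl.cons (nat_lit 1355) Fl.nil) (Nl.cons (nat_lit 1) (nat_lit 1) (Fl.cons (nat_lit 1370) Fl.nil) (Nl.cons (nat_lit 1) (nat_lit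 2) (Fl.cons (nat_lit 1433) Fl.nil) (Nl.cons (nat_lit 1) (nat_lit 2) (Fl.cons (nat_lit 1448) Fl.nil) (Nl.cons (nat_lit 1) (nat_lit 3) (Fl.cons (nat_lit 1480) (Fl.cons (nat_lit 1481) (Fl.cons (nat_lit 1483) (Fl.cons (nat_lit 1484) (Fl.cons (nat_lit 1485) Fl.nil))))) (Nl.cons (nat_lit 1) (nat_lit 3) (Fl.cons (nat_lit 1501) (Fl.cons (nat_lit 1502) Fl.nil)) (Nl.cons (nat_lit 1) (nat_lit 3) (Fl.cons (nat_lit 1516) (Fl.cons (nat_lit 1518) Fl.nil)) (Nl.cons (nat_lit 2) (nat_lit 0) (Fl.cons (nat_lit 2311) Fl.nil) (Nl.cons (nat_lit 2) (nat_lit 0) (Fl.cons (nat_lit 2342) Fl.nil) (Nl.cons (nat_lit 2) (nat_lit 1) (Fl.cons (nat_lit 2375) Fl.nil) (Nl.cons (nat_lit 2) (nat_lit 1) (Fl.cons (nat_lit 2390) Fl.nil) (Nl.cons (nat_lit 2) (nat_lit 2) (Fl.cons (nat_lit 2453) Fl.nil) (Nl.cons (nat_lit 2) (nat_lit 2) (Fl.cons (nat_lit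 2468) Fl.nil) (Nl.cons (nat_lit 2) (nat_lit 3) (Fl.cons (nat_lit 2500) (Fl.cons (nat_lit 2501) (Fl.cons (nat_lit 2503) (Fl.cons (nat_lit 2508) (Fl.cons (nat_lit 2509) Fl.nil))))) (Nl.cons (nat_lit 2) (nat_lit 3) (Fl.cons (nat_lit 2525) (Fl.cons (nat_lit 2526) Fl.nil)) (Nl.cons (nat_lit 2) (nat_lit 3) (Fl.cons (nat_lit 2540) (Fl.cons (nat_lit 2542) Fl.nil)) (Nl.cons (nat_lit 2) (nat_lit 0) (Fl.cons (nat_lit 2563) Fl.nil) (Nl.cons (nat_lit 2) (nat_lit 0) (Fl.cons (nat_lit 2594) Fl.nil) (Nl.cons (nat_lit 2) (nat_lit 1) (Fl.cons (nat_lit 2627) Fl.nil) (Nl.cons (nat_lit 2) (nat_lit 1) (Fl.cons (nat_lit 2642) Fl.nil) (Nl.cons (nat_lit 2) (nat_lit 2) (Fl.cons (nat_lit 2705) Fl.nil) (Nl.cons (nat_lit 2) (nat_lit 2) (Fl.cons (nat_lit 2720) Fl.nil) (Nl.cons (nat_lit 2) (nat_lit 3) (Fl.cons (nat_lit 2752) (Fl.cons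 (nat_lit 2753) (Fl.cons (nat_lit 2755) (Fl.cons (nat_lit 2764) (Fl.cons (nat_lit 2765) Fl.nil))))) (Nl.cons (nat_lit 2) (nat_lit 3) (Fl.cons (nat_lit 2781) (Fl.cons (nat_lit 2782) Fl.nil)) (Nl.cons (nat_lit 2) (nat_lit 3) (Fl.cons (nat_lit 2796) (Fl.cons (nat_lit 2798) Fl.nil)) (Nl.cons (nat_lit 3) (nat_lit 0) (Fl.cons (nat_lit 3075) (Fl.cons (nat_lit 3079) Fl.nil)) (Nl.cons (nat_lit 3) (nat_lit 0) (Fl.cons (nat_lit 3106) (Fl.cons (nat_lit 3107) (Fl.cons (nat_lit 3110) (Fl.cons (nat_lit 3111) (Fl.cons (nat_lit 3118) Fl.nil))))) (Nl.cons (nat_lit 3) (nat_lit 1) (Fl.cons (nat_lit 3139) (Fl.cons (nat_lit 3143) Fl.nil)) (Nl.cons (nat_lit 3) (nat_lit 1) (Fl.cons (nat_lit 3154) (Fl.cons (nat_lit 3155) (Fl.cons (nat_lit 3158) (Fl.cons (nat_lit 3159) (Fl.cons (nat_lit 3166) Fl.nil))))) (Nl.cons (nat_lit 3) (nat_lit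 2) (Fl.cons (nat_lit 3217) (Fl.cons (nat_lit 3219) (Fl.cons (nat_lit 3221) (Fl.cons (nat_lit 3223) (Fl.cons (nat_lit 3229) Fl.nil))))) (Nl.cons (nat_lit 3) (nat_lit 2) (Fl.cons (nat_lit 3232) (Fl.cons (nat_lit 3235) (Fl.cons (nat_lit 3236) (Fl.cons (nat_lit 3239) (Fl.cons (nat_lit 3244) Fl.nil))))) (Nl.cons (nat_lit 3) (nat_lit 0) (Fl.cons (nat_lit 3335) (Fl.cons (nat_lit 3339) Fl.nil)) (Nl.cons (nat_lit 3) (nat_lit 0) (Fl.cons (nat_lit 3367) (Fl.cons (nat_lit 3371) Fl.nil)) (Nl.cons (nat_lit 3) (nat_lit 1) (Fl.cons (nat_lit 3399) (Fl.cons (nat_lit 3403) Fl.nil)) (Nl.cons (nat_lit 3) (nat_lit 1) (Fl.cons (nat_lit 3415) (Fl.cons (nat_lit 3419) Fl.nil)) (Nl.cons (nat_lit 3) (nat_lit 2) (Fl.cons (nat_lit 3479) (Fl.cons (nat_lit 3483) Fl.nil)) (Nl.cons (nat_lit 3) (nat_lit 2) (Fl.cons (nat_lit 3495) (Fl.cons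 (nat_lit 3499) Fl.nil)) (Nl.cons (nat_lit 3) (nat_lit 0) (Fl.cons (nat_lit 3587) (Fl.cons (nat_lit 3595) Fl.nil)) (Nl.cons (nat_lit 3) (nat_lit 0) (Fl.cons (nat_lit 3619) (Fl.cons (nat_lit 3627) Fl.nil)) (Nl.cons (nat_lit 3) (nat_lit 1) (Fl.cons (nat_lit 3651) (Fl.cons (nat_lit 3659) Fl.nil)) (Nl.cons (nat_lit 3) (nat_lit 1) (Fl.cons (nat_lit 3667) (Fl.cons (nat_lit 3675) Fl.nil)) (Nl.cons (nat_lit 3) (nat_lit 2) (Fl.cons (nat_lit 3731) (Fl.cons (nat_lit 3739) Fl.nil)) (Nl.cons (nat_lit 3) (nat_lit 2) (Fl.cons (nat_lit 3747) (Fl.cons (nat_lit 3755) Fl.nil)) Nl.nil))))))))))))))))))))))))))))))))))))))))))))))))))))))))))))))))))))))))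

/-- type 2 -/
def nl2 : Nl := (Nl.cons (nat_lit 0) (nat_lit 0) (Fl.cons (nat_lit 5) Fl.nil) (Nl.cons (nat_lit 0) (nat_lit 0) (Fl.cons (nat_lit 38) Fl.nil) (Nl.cons (nat_lit 0) (nat_lit 1) (Fl.cons (nat_lit 68) Fl.nil) (Nl.cons (nat_lit 0) (nat_lit 1) (Fl.cons (nat_lit 94) Fl.nil) (Nl.cons (nat_lit 0) (nat_lit 2) (Fl.cons (nat_lit 157) Fl.nil) (Nl.cons (nat_lit 0) (nat_lit 2) (Fl.cons (nat_lit 164) Fl.nil) (Nl.cons (nat_lit 0) (nat_lit 3) (Fl.cons (nat_lit 204) (Fl.cons (nat_lit 205) Fl.nil)) (Nl.cons (nat_lit 0) (nat_lit 3) (Fl.cons (nat_lit 221) (Fl.cons (nat_lit 222) Fl.nil)) (Nl.cons (nat_lit 0) (nat_lit 3) (Fl.cons (nat_lit 236) (Fl.cons (nat_lit 238) Fl.nil)) (Nl.cons (nat_lit 0) (nat_lit 0) (Fl.cons (nat_lit 521) Fl.nil) (Nl.cons (nat_lit 0) (nat_lit 0) (Fl.cons (nat_lit 554) Fl.nil) (Nl.cons (nat_lit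 0) (nat_lit 1) (Fl.cons (nat_lit 584) Fl.nil) (Nl.cons (nat_lit 0) (nat_lit 1) (Fl.cons (nat_lit 606) Fl.nil) (Nl.cons (nat_lit 0) (nat_lit 2) (Fl.cons (nat_lit 669) Fl.nil) (Nl.cons (nat_lit 0) (nat_lit 2) (Fl.cons (nat_lit 680) Fl.nil) (Nl.cons (nat_lit 0) (nat_lit 3) (Fl.cons (nat_lit 716) (Fl.cons (nat_lit 717) Fl.nil)) (Nl.cons (nat_lit 0) (nat_lit 3) (Fl.cons (nat_lit 733) (Fl.cons (nat_lit 734) Fl.nil)) (Nl.cons (nat_lit 0) (nat_lit 3) (Fl.cons (nat_lit 748) (Fl.cons (nat_lit 750) Fl.nil)) (Nl.cons (nat_lit 1) (nat_lit 0) (Fl.cons (nat_lit 1025) Fl.nil) (Nl.cons (nat_lit 1) (nat_lit 0) (Fl.cons (nat_lit 1058) Fl.nil) (Nl.cons (nat_lit 1) (nat_lit 1) (Fl.cons (nat_lit 1088) Fl.nil) (Nl.cons (nat_lit 1) (nat_lit 1) (Fl.cons (nat_lit 1118) Fl.nil) (Nl.cons (nat_lit 1) (nat_lit 2) (Fl.cons (nat_lit 1181)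 Fl.nil) (Nl.cons (nat_lit 1) (nat_lit 2) (Fl.cons (nat_lit 1184) Fl.nil) (Nl.cons (nat_lit 1) (nat_lit 3) (Fl.cons (nat_lit 1228) (Fl.cons (nat_lit 1229) Fl.nil)) (Nl.cons (nat_lit 1) (nat_lit 3) (Fl.cons (nat_lit 1245) (Fl.cons (nat_lit 1246) Fl.nil)) (Nl.cons (nat_lit 1) (nat_lit 3) (Fl.cons (nat_lit 1260) (Fl.cons (nat_lit 1262) Fl.nil)) (Nl.cons (nat_lit 1) (nat_lit 0) (Fl.cons (nat_lit 1291) Fl.nil) (Nl.cons (nat_lit 1) (nat_lit 0) (Fl.cons (nat_lit 1323) Fl.nil) (Nl.cons (nat_lit 1) (nat_lit 1) (Fl.cons (nat_lit 1355) Fl.nil) (Nl.cons (nat_lit 1) (nat_lit 1) (Fl.cons (nat_lit 1370) Fl.nil) (Nl.cons (nat_lit 1) (nat_lit 2) (Fl.cons (nat_lit 1433) Fl.nil) (Nl.cons (nat_lit 1) (nat_lit 2) (Fl.cons (nat_lit 1451) Fl.nil) (Nl.cons (nat_lit 1) (nat_lit 3) (Fl.cons (nat_lit 1480) (Fl.cons (nat_lit 1481) (Fl.cons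 (nat_lit 1483) (Fl.cons (nat_lit 1484) (Fl.cons (nat_lit 1485) Fl.nil))))) (Nl.cons (nat_lit 1) (nat_lit 3) (Fl.cons (nat_lit 1501) (Fl.cons (nat_lit 1502) Fl.nil)) (Nl.cons (nat_lit 1) (nat_lit 3) (Fl.cons (nat_lit 1512) (Fl.cons (nat_lit 1514) (Fl.cons (nat_lit 1515) (Fl.cons (nat_lit 1516) (Fl.cons (nat_lit 1518) Fl.nil))))) (Nl.cons (nat_lit 2) (nat_lit 0) (Fl.cons (nat_lit 2311) Fl.nil) (Nl.cons (nat_lit 2) (nat_lit 0) (Fl.cons (nat_lit 2343) Fl.nil) (Nl.cons (nat_lit 2) (nat_lit 1) (Fl.cons (nat_lit 2375) Fl.nil) (Nl.cons (nat_lit 2) (nat_lit 1) (Fl.cons (nat_lit 2390) Fl.nil) (Nl.cons (nat_lit 2) (nat_lit 2) (Fl.cons (nat_lit 2453) Fl.nil) (Nl.cons (nat_lit 2) (nat_lit 2) (Fl.cons (nat_lit 2471) Fl.nil) (Nl.cons (nat_lit 2) (nat_lit 3) (Fl.cons (nat_lit 2500) (Fl.cons (nat_lit 2501) (Fl.cons (nat_lit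 2503) (Fl.cons (nat_lit 2508) (Fl.cons (nat_lit 2509) Fl.nil))))) (Nl.cons (nat_lit 2) (nat_lit 3) (Fl.cons (nat_lit 2525) (Fl.cons (nat_lit 2526) Fl.nil)) (Nl.cons (nat_lit 2) (nat_lit 3) (Fl.cons (nat_lit 2532) (Fl.cons (nat_lit 2534) (Fl.cons (nat_lit 2535) (Fl.cons (nat_lit 2540) (Fl.cons (nat_lit 2542) Fl.nil))))) (Nl.cons (nat_lit 2) (nat_lit 0) (Fl.cons (nat_lit 2561) Fl.nil) (Nl.cons (nat_lit 2) (nat_lit 0) (Fl.cons (nat_lit 2594) Fl.nil) (Nl.cons (nat_lit 2) (nat_lit 1) (Fl.cons (nat_lit 2624) Fl.nil) (Nl.cons (nat_lit 2) (nat_lit 1) (Fl.cons (nat_lit 2654) Fl.nil) (Nl.cons (nat_lit 2) (nat_lit 2) (Fl.cons (nat_lit 2717) Fl.nil) (Nl.cons (nat_lit 2) (nat_lit 2) (Fl.cons (nat_lit 2720) Fl.nil) (Nl.cons (nat_lit 2) (nat_lit 3) (Fl.cons (nat_lit 2764) (Fl.cons (nat_lit 2765) Fl.nil)) (Nl.cons (nat_lit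 2) (nat_lit 3) (Fl.cons (nat_lit 2781) (Fl.cons (nat_lit 2782) Fl.nil)) (Nl.cons (nat_lit 2) (nat_lit 3) (Fl.cons (nat_lit 2796) (Fl.cons (nat_lit 2798) Fl.nil)) (Nl.cons (nat_lit 3) (nat_lit 0) (Fl.cons (nat_lit 3075) (Fl.cons (nat_lit 3079) Fl.nil)) (Nl.cons (nat_lit 3) (nat_lit 0) (Fl.cons (nat_lit 3107) (Fl.cons (nat_lit 3111) Fl.nil)) (Nl.cons (nat_lit 3) (nat_lit 1) (Fl.cons (nat_lit 3139) (Fl.cons (nat_lit 3143) Fl.nil)) (Nl.cons (nat_lit 3) (nat_lit 1) (Fl.cons (nat_lit 3154) (Fl.cons (nat_lit 3155) (Fl.cons (nat_lit 3158) (Fl.cons (nat_lit 3159) (Fl.cons (nat_lit 3166) Fl.nil))))) (Nl.cons (nat_lit 3) (nat_lit 2) (Fl.cons (nat_lit 3217) (Fl.cons (nat_lit 3219) (Fl.cons (nat_lit 3221) (Fl.cons (nat_lit 3223) (Fl.cons (nat_lit 3229) Fl.nil))))) (Nl.cons (nat_lit 3) (nat_lit 2) (Fl.cons (nat_lit 3235)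 (Fl.cons (nat_lit 3239) Fl.nil)) (Nl.cons (nat_lit 3) (nat_lit 0) (Fl.cons (nat_lit 3335) (Fl.cons (nat_lit 3339) Fl.nil)) (Nl.cons (nat_lit 3) (nat_lit 0) (Fl.cons (nat_lit 3367) (Fl.cons (nat_lit 3371) Fl.nil)) (Nl.cons (nat_lit 3) (nat_lit 1) (Fl.cons (nat_lit 3399) (Fl.cons (nat_lit 3403) Fl.nil)) (Nl.cons (nat_lit 3) (nat_lit 1) (Fl.cons (nat_lit 3415) (Fl.cons (nat_lit 3419) Fl.nil)) (Nl.cons (nat_lit 3) (nat_lit 2) (Fl.cons (nat_lit 3479) (Fl.cons (nat_lit 3483) Fl.nil)) (Nl.cons (nat_lit 3) (nat_lit 2) (Fl.cons (nat_lit 3495) (Fl.cons (nat_lit 3499) Fl.nil)) (Nl.cons (nat_lit 3) (nat_lit 0) (Fl.cons (nat_lit 3587) (Fl.cons (nat_lit 3595) Fl.nil)) (Nl.cons (nat_lit 3) (nat_lit 0) (Fl.cons (nat_lit 3619) (Fl.cons (nat_lit 3627) Fl.nil)) (Nl.cons (nat_lit 3) (nat_lit 1) (Fl.cons (nat_lit 3651) (Fl.cons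 (nat_lit 3659) Fl.nil)) (Nl.cons (nat_lit 3) (nat_lit 1) (Fl.cons (nat_lit 3666) (Fl.cons (nat_lit 3667) (Fl.cons (nat_lit 3674) (Fl.cons (nat_lit 3675) (Fl.cons (nat_lit 3678) Fl.nil))))) (Nl.cons (nat_lit 3) (nat_lit 2) (Fl.cons (nat_lit 3729) (Fl.cons (nat_lit 3731) (Fl.cons (nat_lit 3737) (Fl.cons (nat_lit 3739) (Fl.cons (nat_lit 3741) Fl.nil))))) (Nl.cons (nat_lit 3) (nat_lit 2) (Fl.cons (nat_lit 3747) (Fl.cons (nat_lit 3755) Fl.nil)) Nl.nil))))))))))))))))))))))))))))))))))))))))))))))))))))))))))))))))))))))))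

end Pool.Agent.NNe
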