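import Pool.Agent.NNe.Pl
import Pool.Agent.NNe.Slots

/-!
# The engine of MP_4b6a99_co: the list of the slots is complete (P6)

`nlOK r0 r1 r2 nl`: the list `nl` contains all slots which are possible for a dart, if the ranks of
the sides are `r0`, `r1`, `r2`.
-/

namespace Pool.Agent.NNe

open Pool.Agent.NNc

/-- corner labels `a` (near), `a'` (far) at the ends of an edge on the side `k` -/
def dOK (k a a' : ℕ) : Bool :=
  ((Nat.beq a 3 || Nat.beq a k) && (Nat.beq a' 3 || Nat.beq ((a' + 2) % 3) k)) ||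
    ((Nat.beq a 3 || Nat.beq ((a + 2) % 3) k) && (Nat.beq a' 3 || Nat.beq a' k))

/-- rank of the side `k` -/
def rkN (r0 r1 r2 k : ℕ) : ℕ := bif Nat.beq k 0 then r0 else bif Nat.beq k 1 then r1 else r2

/-- the rule of the ranks -/
def rOK (r0 r1 r2 k a a' b lb lb' : ℕ) : Bool :=
  bif !(Nat.beq a 3 || Nat.beq a' 3) then
    bif !(Nat.beq lb 3 || Nat.beq lb' 3) then Nat.beq (rkN r0 r1 r2 k) (rkN r0 r1 r2 b)
    else Nat.ble (rkN r0 r1 r2 k + 1) (rkN r0 r1 r2 b)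
  else
    bif !(Nat.beq lb 3 || Nat.beq lb' 3) then Nat.ble (rkN r0 r1 r2 b + 1) (rkN r0 r1 r2 k)
    else true

/-- all facts without the colours -/
def tOK (r0 r1 r2 k a a' b lb lb' : ℕ) : Bool :=
  dOK k a a' && (dOK b lb lb' && (!(Nat.beq a 3 && Nat.beq lb 3) &&
    (!(Nat.beq a' 3 && Nat.beq lb' 3) && rOK r0 r1 r2 k a a' b lb lb')))

/-- `nu2` is in the list -/
noncomputable def memF (fl : Fl) (nu2 : ℕ) : Bool :=
  Fl.rec (motive := fun _ => Bool) false (fun a _ r => orB (Nat.beq a nu2) r) fl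

/-- the slot `c` is in the list of the near labels `a`, `lb` -/
noncomputable def memN (nl : Nl) (a lb c : ℕ) : Bool :=
  Nl.rec (motive := fun _ => Bool) false (fun a' lb' fl _ r =>
    orB (andB (Nat.beq a' a) (andB (Nat.beq lb' lb) (memF fl c))) r) nl

/-- all slots have 12 bits -/
noncomputable def ltF (fl : Fl) : Bool :=
  Fl.rec (motive := fun _ => Bool) true (fun c _ r => andB (Nat.ble c 4095) r) fl

/-- all slots have 12 bits -/
noncomputable def ltN (nl : Nl) : Bool :=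
  Nl.rec (motive := fun _ => Bool) true (fun _ _ fl _ r => andB (ltF fl) r) nl

/-- the list is complete for the ranks `r0`, `r1`, `r2` -/
noncomputable def nlOK (r0 r1 r2 : ℕ) (nl : Nl) : Bool :=
  andB (ltN nl) (allN (fun a => allN (fun k => allN (fun lb => allN (fun b => allN (fun a' =>
    allN (fun lb' => impB (tOK r0 r1 r2 k a a' b lb lb')
      (memN nl a lb (lb' + 4 * a' + 16 * b + 64 * lb + 256 * k + 1024 * a)))
    4) 4) 3) 4) 3) 4)

/-! ### Proof -/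

theorem PlN_andB {a b : Bool} (h : andB a b = true) : a = true ∧ b = true := by
  cases a <;> cases b <;> first | exact ⟨rfl, rfl⟩ | exact absurd h (by decide)

theorem PlN_allN {f : ℕ → Bool} : ∀ {k : ℕ}, allN f k = true → ∀ i < k, f i = true := by
  intro k
  induction k with
  | zero => intro _ i hi; exact absurd hi (Nat.not_lt_zero _)
  | succ k ih =>
    intro h i hi
    have h' : andB (f k) (allN f k) = true := h
    obtain ⟨h1, h2⟩ := PlN_andB h'
    rcases Nat.lt_succ_iff_lt_or_eq.1 hi with h3 | h3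
    · exact ih h2 i h3
    · subst h3
      exact h1

theorem PlN_memF (fl : Fl) (nu2 : ℕ) (h : memF fl nu2 = true) : nu2 ∈ fl.l := by
  induction fl with
  | nil => exact absurd (show false = true from h) (by decide)
  | cons a tl ih =>
    have h' : orB (Nat.beq a nu2) (memF tl nu2) = true := h
    show nu2 ∈ a :: tl.l
    rw [List.mem_cons]
    cases hb : Nat.beq a nu2 with
    | true => exact Or.inl (Nat.eq_of_beq_eq_true hb).symm
    | false =>
      rw [hb] at h'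
      exact Or.inr (ih h')

theorem PlN_memN (nl : Nl) (a lb c : ℕ) (h : memN nl a lb c = true) :
    ∃ p ∈ nl.l, p.1 = a ∧ p.2.1 = lb ∧ c ∈ p.2.2 := by
  induction nl with
  | nil => exact absurd (show false = true from h) (by decide)
  | cons a' lb' fl tl ih =>
    have h' : orB (andB (Nat.beq a' a) (andB (Nat.beq lb' lb) (memF fl c))) (memN tl a lb c) =
      true := h
    cases hb : andB (Nat.beq a' a) (andB (Nat.beq lb' lb) (memF fl c)) with
    | true =>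
      obtain ⟨h1, h2⟩ := PlN_andB hb
      obtain ⟨h3, h4⟩ := PlN_andB h2
      exact ⟨(a', lb', fl.l), List.mem_cons_self, Nat.eq_of_beq_eq_true h1,
        Nat.eq_of_beq_eq_true h3, PlN_memF fl c h4⟩
    | false =>
      rw [hb] at h'
      obtain ⟨p, hp, h1, h2⟩ := ih h'
      exact ⟨p, List.mem_cons_of_mem _ hp, h1, h2⟩

theorem PlN_ltF (fl : Fl) (h : ltF fl = true) : ∀ c ∈ fl.l, c < 4096 := by
  induction fl with
  | nil => intro c hc; exact absurd hc (by simp [Fl.l])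
  | cons a tl ih =>
    have h' : andB (Nat.ble a 4095) (ltF tl) = true := h
    obtain ⟨h1, h2⟩ := PlN_andB h'
    intro c hc
    rcases List.mem_cons.1 (show c ∈ a :: tl.l from hc) with rfl | hc
    · have := Nat.le_of_ble_eq_true h1
      omega
    · exact ih h2 c hc

theorem PlN_ltN (nl : Nl) (h : ltN nl = true) : ∀ p ∈ nl.l, ∀ c ∈ p.2.2, c < 4096 := by
  induction nl with
  | nil => intro p hp; exact absurd hp (by simp [Nl.l])
  | cons a lb fl tl ih =>
    have h' : andB (ltF fl) (ltN tl) = true := h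
    obtain ⟨h1, h2⟩ := PlN_andB h'
    intro p hp c hc
    rcases List.mem_cons.1 (show p ∈ (a, lb, fl.l) :: tl.l from hp) with rfl | hp
    · exact PlN_ltF fl h1 c hc
    · exact ih h2 p hp c hc

theorem PlN_dOK {k a a' : ℕ} {dr : Bool} (h1 : a ≤ 3) (h2 : a' ≤ 3)
    (h3 : a < 3 → k = if dr then a else (a + 2) % 3)
    (h4 : a' < 3 → k = if !dr then a' else (a' + 2) % 3) : dOK k a a' = true := by
  unfold dOK
  simp only [Bool.or_eq_true, Bool.and_eq_true, Nat.beq_eq]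
  cases dr with
  | true =>
    left
    simp only [if_true, Bool.not_true, Bool.false_eq_true, if_false] at h3 h4
    constructor
    · rcases Nat.lt_or_ge a 3 with h | h
      · exact Or.inr (h3 h).symm
      · exact Or.inl (by omega)
    · rcases Nat.lt_or_ge a' 3 with h | h
      · exact Or.inr (h4 h).symm
      · exact Or.inl (by omega)
  | false =>
    right
    simp only [Bool.false_eq_true, if_false, Bool.not_false, if_true] at h3 h4
    constructor
    · rcases Nat.lt_or_ge a 3 with h | h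
      · exact Or.inr (h3 h).symm
      · exact Or.inl (by omega)
    · rcases Nat.lt_or_ge a' 3 with h | h
      · exact Or.inr (h4 h).symm
      · exact Or.inl (by omega)

/-- the facts of a dart without the colours -/
theorem PlN_tOK {sh : Shape} {r0 r1 r2 : ℕ}
    (hr : ∀ i < 3, ∀ j < 3, (sh.rk i = sh.rk j → rkN r0 r1 r2 i = rkN r0 r1 r2 j) ∧
      (sh.rk i < sh.rk j → rkN r0 r1 r2 i < rkN r0 r1 r2 j)) {x : DT}
    (hx : x.typOK sh = true) : x.la < 4 ∧ x.k < 3 ∧ x.lb < 4 ∧ x.b < 3 ∧ x.la' < 4 ∧ x.lb' < 4 ∧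
      tOK r0 r1 r2 x.k x.la x.la' x.b x.lb x.lb' = true := by
  unfold DT.typOK at hx
  simp only [Bool.and_eq_true, decide_eq_true_eq] at hx
  obtain ⟨⟨⟨⟨⟨⟨⟨⟨-, -⟩, L1⟩, L2⟩, L3⟩, L4⟩, R1⟩, R2⟩, R3⟩ := hx
  unfold DT.loc at L1 L2 L3 L4
  simp only [Bool.and_eq_true, decide_eq_true_eq] at L1 L2 L3 L4
  obtain ⟨⟨⟨⟨⟨⟨⟨a1, a2⟩, a3⟩, a4⟩, -⟩, -⟩, -⟩, -⟩ := L1
  obtain ⟨⟨⟨⟨⟨⟨⟨b1, b2⟩, b3⟩, b4⟩, -⟩, -⟩, -⟩, -⟩ := L2
  obtain ⟨⟨⟨⟨⟨⟨⟨c1, c2⟩, c3⟩, c4⟩, -⟩, -⟩, -⟩, -⟩ := L3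
  obtain ⟨⟨⟨⟨⟨⟨⟨d1, d2⟩, d3⟩, d4⟩, -⟩, -⟩, -⟩, -⟩ := L4
  have b2' : x.la' ≤ 3 := b2
  have b3' : x.la' < 3 → x.k = if !x.dr then x.la' else (x.la' + 2) % 3 := b3
  have b4' : x.la' = 3 → x.lb' < 3 := b4
  have c1' : x.b < 3 := c1
  have c2' : x.lb ≤ 3 := c2
  have c3' : x.lb < 3 → x.b = if x.dr' then x.lb else (x.lb + 2) % 3 := c3
  have d2' : x.lb' ≤ 3 := d2
  have d3' : x.lb' < 3 → x.b = if !x.dr' then x.lb' else (x.lb' + 2) % 3 := d3
  refine ⟨by omega, a1, by omega, c1', by omega, by omega, ?_⟩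
  have f1 : x.full = true ↔ (x.la < 3 ∧ x.la' < 3) := by
    unfold DT.full
    exact decide_eq_true_iff
  have f2 : x.swp.full = true ↔ (x.lb < 3 ∧ x.lb' < 3) := by
    unfold DT.full
    exact decide_eq_true_iff
  have f1' : (!(Nat.beq x.la 3 || Nat.beq x.la' 3)) = x.full := by
    rw [Bool.eq_iff_iff, f1]
    simp only [Bool.not_eq_true', ← Bool.not_eq_true, Bool.or_eq_true, Nat.beq_eq]
    omega
  have f2' : (!(Nat.beq x.lb 3 || Nat.beq x.lb' 3)) = x.swp.full := by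
    rw [Bool.eq_iff_iff, f2]
    simp only [Bool.not_eq_true', ← Bool.not_eq_true, Bool.or_eq_true, Nat.beq_eq]
    omega
  unfold tOK
  simp only [Bool.and_eq_true]
  refine ⟨PlN_dOK a2 b2' a3 b3', PlN_dOK c2' d2' c3' d3', ?_, ?_, ?_⟩
  · simp only [Bool.not_eq_true', ← Bool.not_eq_true, Bool.and_eq_true, Nat.beq_eq]
    omega
  · simp only [Bool.not_eq_true', ← Bool.not_eq_true, Bool.and_eq_true, Nat.beq_eq]
    omega
  · unfold rOK
    rw [f1', f2']
    cases h1 : x.full with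
    | true =>
      cases h2 : x.swp.full with
      | true =>
        rw [cond_true, cond_true, Nat.beq_eq]
        exact (hr _ a1 _ c1').1 (R1 h1 h2)
      | false =>
        rw [cond_true, cond_false, Nat.ble_eq]
        exact (hr _ a1 _ c1').2 (R2 h1 h2)
    | false =>
      cases h2 : x.swp.full with
      | true =>
        rw [cond_false, cond_true, Nat.ble_eq]
        exact (hr _ c1' _ a1).2 (R3 h1 h2)
      | false => rfl

/-- (P6) the list contains the codes of all darts -/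
theorem nl_complete {sh : Shape} {r0 r1 r2 : ℕ} {nl : Nl} (h : nlOK r0 r1 r2 nl = true)
    (hr : ∀ i < 3, ∀ j < 3, (sh.rk i = sh.rk j → rkN r0 r1 r2 i = rkN r0 r1 r2 j) ∧
      (sh.rk i < sh.rk j → rkN r0 r1 r2 i < rkN r0 r1 r2 j)) : NlOK sh nl := by
  obtain ⟨hlt, h⟩ := PlN_andB h
  refine ⟨PlN_ltN nl hlt, ?_⟩
  intro x hx
  obtain ⟨h1, h2, h3, h4, h5, h6, h7⟩ := PlN_tOK hr hx
  have g := PlN_allN (PlN_allN (PlN_allN (PlN_allN (PlN_allN (PlN_allN h _ h1) _ h2) _ h3) _ h4)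
    _ h5) _ h6
  rw [h7] at g
  exact PlN_memN nl _ _ _ g

theorem rkN_0 (r0 r1 r2 : ℕ) : rkN r0 r1 r2 0 = r0 := rfl

theorem rkN_1 (r0 r1 r2 : ℕ) : rkN r0 r1 r2 1 = r1 := rfl

theorem rkN_2 (r0 r1 r2 : ℕ) : rkN r0 r1 r2 2 = r2 := rfl

/-- the ranks of the side `k` of the triangle `p` and of the families -/
theorem rk_A {n : ℕ} {p : ℕ × ℕ × ℕ} {a b c : ℕ} (h1 : p.1 < p.2.1) (h2 : p.2.1 < p.2.2) :
    ∀ i < 3, ∀ j < 3, ((recP n p a b c).rk i = (recP n p a b c).rk j →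
      rkN 2 0 1 i = rkN 2 0 1 j) ∧ ((recP n p a b c).rk i < (recP n p a b c).rk j →
      rkN 2 0 1 i < rkN 2 0 1 j) := by
  intro i hi j hj
  interval_cases i <;> interval_cases j <;> simp [recP, shP, rkN_0, rkN_1, rkN_2] <;> omega

theorem rk_B {n : ℕ} {p : ℕ × ℕ × ℕ} {a b c : ℕ} (h1 : p.1 = p.2.1) (h2 : p.2.1 < p.2.2) :
    ∀ i < 3, ∀ j < 3, ((recP n p a b c).rk i = (recP n p a b c).rk j →
      rkN 1 0 0 i = rkN 1 0 0 j) ∧ ((recP n p a b c).rk i < (recP n p a b c).rk j →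
      rkN 1 0 0 i < rkN 1 0 0 j) := by
  intro i hi j hj
  interval_cases i <;> interval_cases j <;> simp [recP, shP, rkN_0, rkN_1, rkN_2] <;> omega

theorem rk_C {n : ℕ} {p : ℕ × ℕ × ℕ} {a b c : ℕ} (h1 : p.1 < p.2.1) (h2 : p.2.1 = p.2.2) :
    ∀ i < 3, ∀ j < 3, ((recP n p a b c).rk i = (recP n p a b c).rk j →
      rkN 1 0 1 i = rkN 1 0 1 j) ∧ ((recP n p a b c).rk i < (recP n p a b c).rk j →
      rkN 1 0 1 i < rkN 1 0 1 j) := by
  intro i hi j hj
  interval_cases i <;> interval_cases j <;> simp [recP, shP, rkN_0, rkN_1, rkN_2] <;> omega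

theorem rk_U {n : ℕ} {u : ℤ × ℤ × ℤ} :
    ∀ i < 3, ∀ j < 3, ((recU n u).rk i = (recU n u).rk j →
      rkN 2 0 1 i = rkN 2 0 1 j) ∧ ((recU n u).rk i < (recU n u).rk j →
      rkN 2 0 1 i < rkN 2 0 1 j) := by
  intro i hi j hj
  interval_cases i <;> interval_cases j <;> simp [recU, shU, rkN_0, rkN_1, rkN_2]

theorem nl0_ok : nlOK 2 0 1 nl0 = true := by decide +kernel

theorem nl1_ok : nlOK 1 0 0 nl1 = true := by decide +kernel

theorem nl2_ok : nlOK 1 0 1 nl2 = true := by decide +kernel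

/-- the slots of the triangle `p`, three different angles -/
theorem nlOK_A {n : ℕ} {p : ℕ × ℕ × ℕ} {a b c : ℕ} (h1 : p.1 < p.2.1) (h2 : p.2.1 < p.2.2) :
    NlOK (recP n p a b c) nl0 := nl_complete nl0_ok (rk_A h1 h2)

theorem nlOK_B {n : ℕ} {p : ℕ × ℕ × ℕ} {a b c : ℕ} (h1 : p.1 = p.2.1) (h2 : p.2.1 < p.2.2) :
    NlOK (recP n p a b c) nl1 := nl_complete nl1_ok (rk_B h1 h2)

theorem nlOK_C {n : ℕ} {p : ℕ × ℕ × ℕ} {a b c : ℕ} (h1 : p.1 < p.2.1) (h2 : p.2.1 = p.2.2) :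
    NlOK (recP n p a b c) nl2 := nl_complete nl2_ok (rk_C h1 h2)

theorem nlOK_U {n : ℕ} {u : ℤ × ℤ × ℤ} : NlOK (recU n u) nl0 := nl_complete nl0_ok rk_U

end Pool.Agent.NNe
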