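import Pool.Agent.NNe.Rc

/-!
# The engine of MP_4b6a99_co: refinement stages

`refine_stage`: if all sectors of a stage have the field `0` and the checks `rfCk` of the next stage
are true, then the occurring dart types are darts of the next stage, and all sectors have its last
field.  `stage_dead`: the last stage.
-/

namespace Pool.Agent.NNe

open Pool.Agent.NNc

/-! ### Lists and tables -/

/-- the default side -/
def dfS : Sd := Sd.mk 0 0 0 0 Sb.nil Bl.nil

theorem Rf_allS (f : ℕ → Sd → Bool) : ∀ (l : Sl) (i : ℕ), allS f l i = true →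
    ∀ j, getS l j = dfS ∨ f (i + j) (getS l j) = true := by
  intro l
  induction l with
  | nil => intro i _ j; exact Or.inl rfl
  | cons s tl ih =>
    intro i h j
    have h' : andB (f i s) (allS f tl (i + 1)) = true := h
    rw [andB_eq, Bool.and_eq_true] at h'
    cases j with
    | zero => exact Or.inr h'.1
    | succ j =>
      have := ih (i + 1) h'.2 j
      have e : i + (j + 1) = i + 1 + j := by omega
      rw [e]
      exact this

theorem Rf_allR (f : ℕ → ℕ → Bool) (bl : Bl) (h : allR f bl = true) : ∀ X p, (X, p) ∈ bl.rs →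
    f X p = true := by
  induction bl with
  | nil => intro X p hm; exact absurd hm (by simp [Bl.rs])
  | r X' p' tl ih =>
    intro X p hm
    have h' : andB (f X' p') (allR f tl) = true := h
    rw [andB_eq, Bool.and_eq_true] at h'
    have hm' : (X, p) ∈ (X', p') :: tl.rs := hm
    rw [List.mem_cons] at hm'
    rcases hm' with h1 | h1
    · rw [Prod.mk.injEq] at h1
      rw [h1.1, h1.2]
      exact h'.1
    · exact ih h'.2 X p h1
  | c X' k' p' tl ih => exact ih h

theorem Rf_findR_mem (bl : Bl) (p : ℕ) (h : findR bl p ≠ 0) : (findR bl p, p) ∈ bl.rs := by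
  induction bl with
  | nil => exact absurd rfl h
  | r X' p' tl ih =>
    have e : findR (Bl.r X' p' tl) p = if Nat.beq p' p then X' else findR tl p :=
      ifN_eq _ _ _
    show (findR (Bl.r X' p' tl) p, p) ∈ (X', p') :: tl.rs
    rw [e] at h ⊢
    by_cases hb : Nat.beq p' p = true
    · rw [if_pos hb]
      have := Nat.eq_of_beq_eq_true hb
      subst this
      exact List.mem_cons_self
    · rw [if_neg hb] at h ⊢
      exact List.mem_cons_of_mem _ (ih h)
  | c X' k' p' tl ih => exact ih h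

theorem Rf_ext_eq (T b i : ℕ) : ext T b i = (T >>> (b * i)) % 2 ^ b := by
  show (T >>> (b * i)) % (1 <<< b) = _
  rw [Nat.one_shiftLeft]

theorem Rf_ext_lt (T b i : ℕ) : ext T b i < 2 ^ b := by
  rw [Rf_ext_eq]
  exact Nat.mod_lt _ (by positivity)

theorem Rf_inM {E r : ℕ} (h : inM E r = true) {i : ℕ} (hi : E.testBit i = true) :
    r.testBit i = true := by
  have h' : r ||| E = r := Nat.eq_of_beq_eq_true h
  rw [← h', Nat.testBit_or, hi, Bool.or_true]

theorem Rf_rowY {X FD i j : ℕ} (hj : j < FD) :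
    (rowY X FD i).testBit j = X.testBit (FD * i + j) := by
  have : rowY X FD i = (X >>> (FD * i)) % 2 ^ FD := Rf_ext_eq X FD i
  rw [this, Nat.testBit_mod_two_pow, Nat.testBit_shiftRight, decide_eq_true hj, Bool.true_and]

namespace Tr
def AL : Tr → ℕ | mk a _ _ _ => a
def A4 : Tr → ℕ | mk _ a _ _ => a
def IX : Tr → ℕ | mk _ _ a _ => a
def OL : Tr → ℕ | mk _ _ _ a => a
end Tr

/-- the checks of a refinement for one class -/
structure RfW (D F D' F' ft cb w : ℕ) (tl : Tl) (cl cl' : Cl) : Prop where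
  al : alCk D F (getT tl w).AL (getC cl w) = true
  a4 : a4Ck tl (getC cl w).R (getC cl w).SW (getC cl w).RV
    ((getT tl w).AL ^^^ ((getT tl w).AL &&& (getT tl w).A4)) (getT tl w).AL = true
  ex : inM (expM ft (getC cl w).CO (getT tl w).A4 (getC cl w).R)
    (gotM (getT tl w).OL (getC cl' w).R) = true
  nw : rfN cb tl (getT tl w).IX (getT tl w).OL (getC cl w) (getC cl' w) = true
  cv : rfC D F D' F' (getT tl w).OL (getC cl w) (getC cl' w) = true

theorem rfCk_iff {D F D' F' ft cb w : ℕ} {tl : Tl} {cl cl' : Cl}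
    (h : rfCk D F D' F' ft cb w tl cl cl' = true) : RfW D F D' F' ft cb w tl cl cl' := by
  unfold rfCk at h
  have hh : ∀ (r : Tr) (cd cd' : Cd), (Tr.rec (motive := fun _ => Bool) (fun AL A4 IX OL =>
      Cd.rec (motive := fun _ => Bool) (fun R' _ _ _ _ _ _ _ =>
      Cd.rec (motive := fun _ => Bool) (fun R _ _ _ SW RV CO _ =>
        andB (alCk D F AL cd)
        (andB (a4Ck tl R SW RV (Nat.xor AL (Nat.land AL A4)) AL)
        (andB (inM (expM ft CO A4 R) (gotM OL R'))
        (andB (rfN cb tl IX OL cd cd')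
          (rfC D F D' F' OL cd cd'))))) cd) cd') r : Bool) = true →
      alCk D F r.AL cd = true ∧
      a4Ck tl cd.R cd.SW cd.RV (r.AL ^^^ (r.AL &&& r.A4)) r.AL = true ∧
      inM (expM ft cd.CO r.A4 cd.R) (gotM r.OL cd'.R) = true ∧
      rfN cb tl r.IX r.OL cd cd' = true ∧ rfC D F D' F' r.OL cd cd' = true := by
    intro r cd cd' hr
    cases r with
    | mk AL A4 IX OL =>
      cases cd' with
      | mk R' v' mf' SI' SW' RV' CO' sl' =>
        cases cd with
        | mk R v mf SI SW RV CO sl =>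
          simp only [andB_eq, Bool.and_eq_true] at hr
          exact hr
  obtain ⟨h1, h2, h3, h4, h5⟩ := hh _ _ _ h
  exact ⟨h1, h2, h3, h4, h5⟩

/-! ### The darts of survivors -/

theorem Rf_orRows {D FD X q i j : ℕ} (hi : i < q)
    (h : (rowY X FD i % 2 ^ D).testBit j = true) : (orRows D FD X q).testBit j = true := by
  induction q with
  | zero => exact absurd hi (Nat.not_lt_zero _)
  | succ q ih =>
    have e : orRows D FD X (q + 1) = (rowY X FD q % (1 <<< D)) ||| orRows D FD X q := rfl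
    rw [e, Nat.one_shiftLeft, Nat.testBit_or]
    rcases Nat.lt_succ_iff_lt_or_eq.1 hi with h1 | h1
    · rw [ih h1, Bool.or_true]
    · rw [← h1, h, Bool.true_or]

theorem Rf_alCk {D F AL : ℕ} {cd : Cd} (h : alCk D F AL cd = true) (j : ℕ)
    (hq : 0 < (getS cd.sl j).q) : ∀ X p, (X, p) ∈ (getS cd.sl j).bl.rs →
    (∀ i < (getS cd.sl j).q, AL.testBit ((getS cd.sl j).o + i) = true ∨
      rowY X (F * D) i % 2 ^ D = 0) ∧
    inM (orRows D (F * D) X (getS cd.sl j).q) (AL >>> (getS cd.sl p).o) = true := by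
  cases cd with
  | mk R v mf SI SW RV CO sl =>
    have h1 := Rf_allS _ sl 0 h j
    have h2 : (getS sl j) ≠ dfS := by
      intro h3
      have h4 : 0 < (getS sl j).q := hq
      rw [h3] at h4
      exact absurd h4 (by decide)
    rcases h1 with h1 | h1
    · exact absurd h1 h2
    · intro X p hm
      have hm' : (X, p) ∈ (getS sl j).bl.rs := hm
      show (∀ i < (getS sl j).q, AL.testBit ((getS sl j).o + i) = true ∨
        rowY X (F * D) i % 2 ^ D = 0) ∧
        inM (orRows D (F * D) X (getS sl j).q) (AL >>> (getS sl p).o) = true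
      clear h h2 hq hm
      revert h1 hm'
      cases getS sl j with
      | mk t a4 o q sb bl =>
        intro h1 hm'
        have h3 := Rf_allR _ bl h1 X p hm'
        rw [andB_eq, Bool.and_eq_true, allN_iff] at h3
        obtain ⟨h4, h5⟩ := h3
        constructor
        · intro i hi
          have h6 := h4 i hi
          rw [orB_eq, Bool.or_eq_true, bitB_eq] at h6
          rcases h6 with h6 | h6
          · exact Or.inl h6
          · right
            have h7 := Nat.eq_of_beq_eq_true h6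
            have h8 : rowY X (F * D) i % (1 <<< D) = 0 := h7
            rwa [Nat.one_shiftLeft] at h8
        · revert h5
          cases getS sl p with
          | mk t' a4' o' q' sb' bl' => exact fun h5 => h5

theorem Rf_al {D F AL : ℕ} {cd : Cd} (hw : WFC D F cd) (h : alCk D F AL cd = true) {x y : ℕ}
    {g : ℕ → Bool} (hx : x < cd.R) (hy : y < cd.R) (hF : 0 < F) (hp : PairB D F cd x y g)
    (hg : g 0 = true) : AL.testBit x = true ∧ AL.testBit y = true := by
  obtain ⟨X, hm, hgX⟩ := hp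
  obtain ⟨x1, x2⟩ := hw.dart x hx
  obtain ⟨y1, y2⟩ := hw.dart y hy
  have hqy := hw.q_lt (siOf cd y)
  have sx : getS cd.sl (siOf cd x) = sdOf cd x := rfl
  have sy : getS cd.sl (siOf cd y) = sdOf cd y := rfl
  rw [sy] at hqy
  have h1 := Rf_alCk h (siOf cd x) (by rw [sx]; omega) X (siOf cd y) hm
  rw [sx, sy] at h1
  have hD : D ≤ F * D := Nat.le_mul_of_pos_left _ hF
  have hb := hgX 0 hF
  rw [hg, Nat.zero_mul, Nat.add_zero] at hb
  have hrow : (rowY X (F * D) (x - (sdOf cd x).o) % 2 ^ D).testBit (y - (sdOf cd y).o) = true := by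
    rw [Nat.testBit_mod_two_pow, Rf_rowY (by omega), ← hb, Bool.and_true, decide_eq_true_eq]
    omega
  constructor
  · rcases h1.1 (x - (sdOf cd x).o) (by omega) with h2 | h2
    · have e : (sdOf cd x).o + (x - (sdOf cd x).o) = x := by omega
      rwa [e] at h2
    · rw [h2, Nat.zero_testBit] at hrow
      exact absurd hrow (by simp)
  · have h2 := Rf_inM h1.2 (Rf_orRows (q := (sdOf cd x).q) (by omega) hrow)
    rw [Nat.testBit_shiftRight] at h2
    have e : (sdOf cd y).o + (y - (sdOf cd y).o) = y := by omega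
    rwa [e] at h2

/-- the first check: `AL` contains the occurring darts -/
theorem Rf_occ_al {sh : Shape} {O : OccS sh} {D F nw : ℕ} {cl : Cl} {t : ℕ} {pos : DT → ℕ}
    {G : DT → DT → ℕ → Bool} (hR : Rz O D F nw cl t pos G) (hF : 0 < F)
    (hG : ∀ x y, O.P x y → G x y 0 = true) {tl : Tl}
    (hal : ∀ w < nw, alCk D F (getT tl w).AL (getC cl w) = true) {x : DT} (hx : Occr O.P x) :
    (getT tl (sh.W.idxOf x.w)).AL.testBit (pos x) = true := by
  obtain ⟨y, h | h⟩ := hx
  · have hlt : sh.W.idxOf x.w < nw := lt_of_lt_of_le (idx_lt (O.w_mem h)) hR.len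
    have hy := hR.R y ⟨x, Or.inr h⟩
    have ew : y.w = x.w := O.weq h
    rw [ew] at hy
    exact (Rf_al (hR.wf _ hlt) (hal _ hlt) (hR.R x ⟨y, Or.inl h⟩) hy hF (hR.pair _ _ h)
      (hG _ _ h)).1
  · have ew : x.w = y.w := O.weq h
    rw [ew]
    have hlt : sh.W.idxOf y.w < nw := lt_of_lt_of_le (idx_lt (O.w_mem h)) hR.len
    have hx := hR.R x ⟨y, Or.inr h⟩
    rw [ew] at hx
    exact (Rf_al (hR.wf _ hlt) (hal _ hlt) (hR.R y ⟨x, Or.inl h⟩) hx hF (hR.pair _ _ h)
      (hG _ _ h)).2

/-! ### The four views -/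

section

variable {sh : Shape} {O : OccS sh} {D F nw : ℕ} {cl : Cl} {t : ℕ} {pos : DT → ℕ}
  {G : DT → DT → ℕ → Bool}

/-- the reversal data, decoded -/
theorem Rf_rv (hR : Rz O D F nw cl t pos G) {x : DT} (hx : Occr O.P x) :
    rvOf (cdW sh cl x.w) (pos x) % 8192 = pos x.rev ∧
    rvOf (cdW sh cl x.w) (pos x) / 8192 % 64 = sh.W.idxOf x.w' := by
  have h1 := hR.rv x hx
  have h2 := hR.ps _ (O.occ_rev hx)
  have h3 : rvOf (cdW sh cl x.w) (pos x) % 524288 < 524288 := Nat.mod_lt _ (by norm_num)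
  constructor
  · omega
  · omega

theorem Rf_aliveR (tl : Tl) (rv : ℕ) :
    aliveR tl rv = (getT tl (rv / 8192 % 64)).AL.testBit (rv % 8192) := by
  have h0 : aliveR tl rv = Tr.rec (motive := fun _ => Bool)
    (fun AL _ _ _ => bitB AL (rv % 8192)) (getT tl (rv / 8192 % 64)) := rfl
  rw [h0]
  cases getT tl (rv / 8192 % 64) with
  | mk AL A4 IX OL => exact bitB_eq _ _

theorem Rf_alive (hR : Rz O D F nw cl t pos G) {tl : Tl}
    (hal : ∀ x, Occr O.P x → (getT tl (sh.W.idxOf x.w)).AL.testBit (pos x) = true) {x : DT}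
    (hx : Occr O.P x) : aliveR tl (rvOf (cdW sh cl x.w) (pos x)) = true := by
  obtain ⟨h1, h2⟩ := Rf_rv hR hx
  rw [Rf_aliveR, h1, h2]
  exact hal _ (O.occ_rev hx)

theorem Rf_occ_a4 (hR : Rz O D F nw cl t pos G) {tl : Tl}
    (hal : ∀ x, Occr O.P x → (getT tl (sh.W.idxOf x.w)).AL.testBit (pos x) = true)
    (ha4 : ∀ w < nw, a4Ck tl (getC cl w).R (getC cl w).SW (getC cl w).RV
      ((getT tl w).AL ^^^ ((getT tl w).AL &&& (getT tl w).A4)) (getT tl w).AL = true)
    (hwx : ∀ x, Occr O.P x → x.w ∈ sh.W) {x : DT}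
    (hx : Occr O.P x) : (getT tl (sh.W.idxOf x.w)).A4.testBit (pos x) = true := by
  have hlt : sh.W.idxOf x.w < nw := lt_of_lt_of_le (idx_lt (hwx x hx)) hR.len
  have h1 := ha4 _ hlt
  unfold a4Ck at h1
  rw [orB_eq, Bool.or_eq_true] at h1
  have hALx := hal x hx
  have hRx := hR.R x hx
  set r := getT tl (sh.W.idxOf x.w) with hr
  by_contra hcon
  rw [Bool.not_eq_true] at hcon
  have hM : (r.AL ^^^ (r.AL &&& r.A4)).testBit (pos x) = true := by
    rw [Nat.testBit_xor, Nat.testBit_and, hALx, hcon]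
    rfl
  rcases h1 with h1 | h1
  · have h2 : r.AL ^^^ (r.AL &&& r.A4) = 0 := Nat.eq_of_beq_eq_true h1
    rw [h2, Nat.zero_testBit] at hM
    exact absurd hM (by simp)
  · rw [allN_iff] at h1
    have h2 := h1 (pos x) hRx
    rw [impB_eq, notB_eq, andB_eq, andB_eq, bitB_eq, bitB_eq, hM] at h2
    have e1 : ext (getC cl (sh.W.idxOf x.w)).SW 13 (pos x) = pos x.swp := hR.sw x hx
    have e2 := Rf_alive hR hal hx
    have e3 := Rf_alive hR hal (O.occ_swp hx)
    have e2' : aliveR tl (ext (getC cl (sh.W.idxOf x.w)).RV 24 (pos x)) = true := e2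
    have e3' : aliveR tl (ext (getC cl (sh.W.idxOf x.w)).RV 24 (pos x.swp)) = true := e3
    have e4 : r.AL.testBit (pos x.swp) = true := hal _ (O.occ_swp hx)
    rw [e1, e2', e3', e4] at h2
    exact absurd h2 (by simp)

end

/-! ### The possible values of the new bit -/

/-- the value of the new bit for a tile with the colour `c` -/
def bt (ft c : ℕ) : ℕ := if ft < 9 ∧ c.testBit ft = true then 1 else 0

theorem bt_lt (ft c : ℕ) : bt ft c < 2 := by
  unfold bt
  split <;> omega

theorem Rf_swS {x : DT} (h : Bnd x) : swS (slotC x) = slotC x.swp := by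
  have := h.k; have := h.b; have := h.la; have := h.lb; have := h.la'; have := h.lb'
  show slotC x / 4 % 4 + (4 * (slotC x % 4) + (16 * (slotC x / 256) +
    256 * (slotC x / 16 % 16))) = x.la' + 4 * x.lb' + 16 * x.k + 64 * x.la + 256 * x.b + 1024 * x.lb
  unfold slotC
  omega

theorem Rf_alwC {c x v : Bool} (h : c = true → x = v) : (alwC c x).testBit v.toNat = true := by
  cases c with
  | false =>
    have e : alwC false x = 3 := rfl
    rw [e]
    cases v <;> decide
  | true =>
    have := h rfl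
    subst this
    cases x with
    | false =>
      have e : alwC true false = 1 := rfl
      rw [e]
      decide
    | true =>
      have e : alwC true true = 2 := rfl
      rw [e]
      decide

theorem Rf_alwC_lt (c x : Bool) : alwC c x < 4 := by
  cases c with
  | false =>
    have e : alwC false x = 3 := rfl
    omega
  | true =>
    cases x with
    | false =>
      have e : alwC true false = 1 := rfl
      omega
    | true =>
      have e : alwC true true = 2 := rfl
      omega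

theorem Rf_alwT {g s : ℕ} {v : Bool}
    (h1 : s / 256 = g → decide (s / 64 % 4 = 3) = v)
    (h2 : s / 256 % 4 + 4 * (s / 4 % 4) = g → decide (s % 4 = 3) = v) :
    (alwT g s).testBit v.toNat = true := by
  have e : alwT g s = alwC (Nat.beq (s / 256) g) (Nat.beq (s / 64 % 4) 3) &&&
    alwC (Nat.beq (s / 256 % 4 + 4 * (s / 4 % 4)) g) (Nat.beq (s % 4) 3) := rfl
  rw [e, Nat.testBit_and, Rf_alwC, Rf_alwC]
  · rfl
  · intro h
    rw [beq_iff] at h ⊢
    exact h2 (of_decide_eq_true h)
  · intro h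
    rw [beq_iff] at h ⊢
    exact h1 (of_decide_eq_true h)

theorem Rf_alwT_lt (g s : ℕ) : alwT g s < 4 := by
  have e : alwT g s = alwC (Nat.beq (s / 256) g) (Nat.beq (s / 64 % 4) 3) &&&
    alwC (Nat.beq (s / 256 % 4 + 4 * (s / 4 % 4)) g) (Nat.beq (s % 4) 3) := rfl
  rw [e]
  exact lt_of_le_of_lt Nat.and_le_left (Rf_alwC_lt _ _)

/-- what `loc` says about the colour -/
theorem Rf_loc {x : DT} (h : x.loc = true) :
    (x.la < 3 → x.k = if x.dr then x.la else (x.la + 2) % 3) ∧
    x.c.testBit (6 + x.k) = decide (x.la < 3 ∧ x.la' < 3) ∧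
    (x.la < 3 → x.c.testBit (if x.dr then x.la else 3 + x.la) = decide (x.lb = 3)) := by
  unfold DT.loc at h
  simp only [Bool.and_eq_true, decide_eq_true_eq, beq_iff_eq] at h
  exact ⟨h.1.1.1.1.1.2, h.1.1.2, h.1.2⟩

/-- the bit of a corner, from one end of an edge -/
theorem Rf_end {x : DT} (h : x.loc = true) {a : ℕ} (ha : a < 3) (hla : x.la = a) :
    (x.k = a → x.c.testBit a = decide (x.lb = 3)) ∧
    (x.k = (a + 2) % 3 → x.c.testBit (3 + a) = decide (x.lb = 3)) := by
  obtain ⟨h1, -, h3⟩ := Rf_loc h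
  subst hla
  have h1' := h1 ha
  have h3' := h3 ha
  constructor
  · intro hk
    cases hd : x.dr with
    | true => rw [hd, if_pos rfl] at h3'; exact h3'
    | false =>
      rw [hd, if_neg (by simp)] at h1'
      omega
  · intro hk
    cases hd : x.dr with
    | true =>
      rw [hd, if_pos rfl] at h1'
      omega
    | false => rw [hd, if_neg (by simp)] at h3'; exact h3'

theorem Rf_alwB {x : DT} (hb : Bnd x) (h : x.loc = true) (h' : x.rev.loc = true) {ft : ℕ}
    (hft : ft < 9) : (alwB ft (slotC x)).testBit (x.c.testBit ft).toNat = true ∧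
      alwB ft (slotC x) < 4 := by
  have b1 := hb.k; have b2 := hb.b; have b3 := hb.la; have b4 := hb.lb; have b5 := hb.la'
  have b6 := hb.lb'
  have s1 : slotC x / 256 = x.k + 4 * x.la := by unfold slotC; omega
  have s2 : slotC x / 64 % 4 = x.lb := by unfold slotC; omega
  have s3 : slotC x / 4 % 4 = x.la' := by unfold slotC; omega
  have s4 : slotC x % 4 = x.lb' := by unfold slotC; omega
  have s5 : slotC x / 1024 = x.la := by unfold slotC; omega
  -- corner bits
  have key : ∀ a < 3, ∀ g, g = 4 * a + a ∧ (x.c.testBit a = x.c.testBit ft) ∨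
      g = 4 * a + (a + 2) % 3 ∧ (x.c.testBit (3 + a) = x.c.testBit ft) →
      (alwT g (slotC x)).testBit (x.c.testBit ft).toNat = true := by
    intro a ha g hg
    apply Rf_alwT
    · intro hs
      rw [s1] at hs
      rw [s2]
      rcases hg with ⟨hg, e⟩ | ⟨hg, e⟩
      · have e1 : x.la = a := by omega
        have e2 : x.k = a := by omega
        rw [← e, (Rf_end h ha e1).1 e2]
      · have e1 : x.la = a := by omega
        have e2 : x.k = (a + 2) % 3 := by omega
        rw [← e, (Rf_end h ha e1).2 e2]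
    · intro hs
      rw [s1, s3] at hs
      rw [s4]
      have e0 : (x.k + 4 * x.la) % 4 = x.k := by omega
      rw [e0] at hs
      rcases hg with ⟨hg, e⟩ | ⟨hg, e⟩
      · have e1 : x.rev.la = a := by
          show x.la' = a
          omega
        have e2 : x.rev.k = a := by
          show x.k = a
          omega
        rw [← e]
        exact ((Rf_end h' ha e1).1 e2).symm
      · have e1 : x.rev.la = a := by
          show x.la' = a
          omega
        have e2 : x.rev.k = (a + 2) % 3 := by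
          show x.k = (a + 2) % 3
          omega
        rw [← e]
        exact ((Rf_end h' ha e1).2 e2).symm
  -- side bits
  have key2 : ∀ k < 3, 6 + k = ft → (alwC (Nat.beq (slotC x / 256 % 4) k)
      (notB (orB (Nat.beq (slotC x / 1024) 3) (Nat.beq (slotC x / 4 % 4) 3)))).testBit
        (x.c.testBit ft).toNat = true := by
    intro k _ e
    apply Rf_alwC
    intro hc
    rw [beq_iff, s1] at hc
    have hk : (x.k + 4 * x.la) % 4 = k := of_decide_eq_true hc
    have hk' : x.k = k := by omega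
    have h2 := (Rf_loc h).2.1
    rw [hk', e] at h2
    rw [h2, notB_eq, orB_eq, beq_iff, beq_iff, s5, s3]
    by_cases c1 : x.la = 3
    · rw [decide_eq_true c1, Bool.true_or]
      have : ¬ (x.la < 3 ∧ x.la' < 3) := by omega
      rw [decide_eq_false this]
      rfl
    · by_cases c2 : x.la' = 3
      · rw [decide_eq_true c2, Bool.or_true]
        have : ¬ (x.la < 3 ∧ x.la' < 3) := by omega
        rw [decide_eq_false this]
        rfl
      · rw [decide_eq_false c1, decide_eq_false c2]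
        have : x.la < 3 ∧ x.la' < 3 := by omega
        rw [decide_eq_true this]
        rfl
  interval_cases ft
  · exact ⟨key 0 (by omega) 0 (Or.inl ⟨rfl, rfl⟩), Rf_alwT_lt _ _⟩
  · exact ⟨key 1 (by omega) 5 (Or.inl ⟨rfl, rfl⟩), Rf_alwT_lt _ _⟩
  · exact ⟨key 2 (by omega) 10 (Or.inl ⟨rfl, rfl⟩), Rf_alwT_lt _ _⟩
  · exact ⟨key 0 (by omega) 2 (Or.inr ⟨rfl, rfl⟩), Rf_alwT_lt _ _⟩
  · exact ⟨key 1 (by omega) 4 (Or.inr ⟨rfl, rfl⟩), Rf_alwT_lt _ _⟩
  · exact ⟨key 2 (by omega) 9 (Or.inr ⟨rfl, rfl⟩), Rf_alwT_lt _ _⟩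
  · exact ⟨key2 0 (by omega) rfl, Rf_alwC_lt _ _⟩
  · exact ⟨key2 1 (by omega) rfl, Rf_alwC_lt _ _⟩
  · exact ⟨key2 2 (by omega) rfl, Rf_alwC_lt _ _⟩

theorem Rf_mul4 (A : ℕ) (hA : A < 4) (B : ℕ) (hB : B < 4) (b : ℕ) (hb : b < 2) (b' : ℕ)
    (hb' : b' < 2) : A.testBit b' = true → B.testBit b = true →
    (A * (B % 2 + 4 * (B / 2))).testBit (2 * b + b') = true := by
  interval_cases A <;> interval_cases B <;> interval_cases b <;> interval_cases b' <;> decide

theorem Rf_alw4 {x : DT} (hb : Bnd x) (h1 : x.loc = true) (h2 : x.rev.loc = true)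
    (h3 : x.swp.loc = true) (h4 : x.swp.rev.loc = true) {ft : ℕ} (hft : ft ≤ 9) :
    (alw4 ft (slotC x)).testBit (2 * bt ft x.c + bt ft x.c') = true := by
  rcases Nat.lt_or_ge ft 9 with h9 | h9
  · have e : alw4 ft (slotC x) = alwB ft (swS (slotC x)) *
        (alwB ft (slotC x) % 2 + 4 * (alwB ft (slotC x) / 2)) := by
      have h0 : alw4 ft (slotC x) = Bool.rec (motive := fun _ => ℕ)
        (alwB ft (swS (slotC x)) * (alwB ft (slotC x) % 2 + 4 * (alwB ft (slotC x) / 2))) 1
        (Nat.beq ft 9) := rfl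
      have h10 : Nat.beq ft 9 = false := by
        rw [beq_iff, decide_eq_false_iff_not]
        omega
      rw [h0, h10]
    rw [e, Rf_swS hb]
    obtain ⟨a1, a2⟩ := Rf_alwB hb h1 h2 h9
    obtain ⟨a3, a4⟩ := Rf_alwB hb.swp h3 h4 h9
    have e1 : (x.c.testBit ft).toNat = bt ft x.c := by
      unfold bt
      cases x.c.testBit ft <;> simp [h9]
    have e2 : (x.swp.c.testBit ft).toNat = bt ft x.c' := by
      show (x.c'.testBit ft).toNat = _
      unfold bt
      cases x.c'.testBit ft <;> simp [h9]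
    rw [e1] at a1
    rw [e2] at a3
    exact Rf_mul4 _ a4 _ a2 _ (bt_lt _ _) _ (bt_lt _ _) a3 a1
  · have : ft = 9 := by omega
    subst this
    have e1 : bt 9 x.c = 0 := rfl
    have e2 : bt 9 x.c' = 0 := rfl
    have e3 : alw4 9 (slotC x) = 1 := rfl
    rw [e1, e2, e3]
    decide

/-! ### The tables of the codes -/

theorem Rf_expM {ft CO A4 j h : ℕ} : ∀ {R : ℕ}, h < R → A4.testBit h = true →
    (alw4 ft (ext CO 24 h / 64 % 4096)).testBit j = true →
    (expM ft CO A4 R).testBit (4 * h + j) = true := by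
  intro R
  induction R with
  | zero => intro hh; exact absurd hh (Nat.not_lt_zero _)
  | succ R ih =>
    intro hh ha hj
    have e : expM ft CO A4 (R + 1) = Bool.rec (motive := fun _ => ℕ) (expM ft CO A4 R)
      ((alw4 ft (ext CO 24 R / 64 % 4096) <<< (4 * R)) ||| expM ft CO A4 R) (bitB A4 R) := rfl
    rw [e, bitB_eq]
    rcases Nat.lt_succ_iff_lt_or_eq.1 hh with h1 | h1
    · have h2 := ih h1 ha hj
      cases A4.testBit R with
      | false => exact h2
      | true =>
        show ((alw4 ft (ext CO 24 R / 64 % 4096) <<< (4 * R)) ||| expM ft CO A4 R).testBit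
          (4 * h + j) = true
        rw [Nat.testBit_or, h2, Bool.or_true]
    · subst h1
      rw [ha]
      show ((alw4 ft (ext CO 24 h / 64 % 4096) <<< (4 * h)) ||| expM ft CO A4 h).testBit
        (4 * h + j) = true
      have e1 : 4 * h + j - 4 * h = j := by omega
      rw [Nat.testBit_or, Nat.testBit_shiftLeft, e1, hj, Bool.and_true,
        decide_eq_true (Nat.le_add_right _ _), Bool.true_or]

theorem Rf_gotM {OL c : ℕ} : ∀ {R' : ℕ}, (gotM OL R').testBit c = true →
    ∃ i < R', ext OL 15 i = c := by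
  intro R'
  induction R' with
  | zero =>
    intro h
    have : gotM OL 0 = 0 := rfl
    rw [this, Nat.zero_testBit] at h
    exact absurd h (by simp)
  | succ R' ih =>
    intro h
    have e : gotM OL (R' + 1) = (1 <<< ext OL 15 R') ||| gotM OL R' := rfl
    rw [e, Nat.testBit_or, Bool.or_eq_true, Nat.one_shiftLeft, Nat.testBit_two_pow] at h
    rcases h with h | h
    · exact ⟨R', by omega, of_decide_eq_true h⟩
    · obtain ⟨i, hi, h1⟩ := ih h
      exact ⟨i, by omega, h1⟩

/-! ### The new darts -/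

theorem Rf_rfN {cb : ℕ} {tl : Tl} {IX OL : ℕ} {cd cd' : Cd} (h : rfN cb tl IX OL cd cd' = true)
    {i c rv : ℕ} (hi : i < cd'.R) (hc : ext OL 15 i = c) (hrv : ext cd.RV 24 (c / 4) = rv) :
    ext IX 13 c = i ∧
    ext cd'.CO 24 i = ext cd.CO 24 (c / 4) + cb * (c % 4 / 2) ∧
    ext cd'.SW 13 i = ext IX 13 (4 * ext cd.SW 13 (c / 4) + 5 * (c % 4) / 2 % 4) ∧
    ext cd'.RV 24 i = ext (getT tl (rv / 8192 % 64)).IX 13 (4 * (rv % 8192) + c % 4) +
      8192 * (rv / 8192) := by
  cases cd with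
  | mk R v mf SI SW RV CO sl =>
    cases cd' with
    | mk R' v' mf' SI' SW' RV' CO' sl' =>
      have h0 : allN (fun i => rfD cb tl SW RV CO SW' RV' CO' IX i (ext OL 15 i)
        (ext OL 15 i / 4) (ext OL 15 i % 4) (ext RV 24 (ext OL 15 i / 4))) R' = true := h
      rw [allN_iff] at h0
      have h1 := h0 i hi
      have hrv' : ext RV 24 (c / 4) = rv := hrv
      rw [hc, hrv'] at h1
      unfold rfD at h1
      rw [andB_eq, Bool.and_eq_true, andB_eq, Bool.and_eq_true, andB_eq, Bool.and_eq_true] at h1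
      obtain ⟨h2, h3, h4, h5⟩ := h1
      refine ⟨Nat.eq_of_beq_eq_true h2, Nat.eq_of_beq_eq_true h3, Nat.eq_of_beq_eq_true h4, ?_⟩
      have h6 : (Tr.rec (motive := fun _ => Bool) (fun _ _ IX2 _ =>
        Nat.beq (ext RV' 24 i) (ext IX2 13 (4 * (rv % 8192) + c % 4) + 8192 * (rv / 8192)))
        (getT tl (rv / 8192 % 64)) : Bool) = true := h5
      revert h6
      cases getT tl (rv / 8192 % 64) with
      | mk a b c' d => exact fun h6 => Nat.eq_of_beq_eq_true h6

theorem Rf_sw4 (a b : ℕ) (ha : a < 2) (hb : b < 2) : 5 * (2 * a + b) / 2 % 4 = 2 * b + a := by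
  interval_cases a <;> interval_cases b <;> rfl

/-- the number of a dart type in the next stage -/
noncomputable def pos2 (sh : Shape) (tl : Tl) (ft : ℕ) (pos : DT → ℕ) (x : DT) : ℕ :=
  ext (getT tl (sh.W.idxOf x.w)).IX 13 (4 * pos x + (2 * bt ft x.c + bt ft x.c'))

section

variable {sh : Shape} {O : OccS sh} {D F D' F' nw : ℕ} {cl cl' : Cl} {t : ℕ} {pos : DT → ℕ}
  {G : DT → DT → ℕ → Bool} {ow : ℕ → ℕ} {ft m : ℕ} {tl : Tl}

theorem Rf_typ {x : DT} (hx : Occr O.P x) : x.typOK sh = true := by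
  obtain ⟨y, h | h⟩ := hx
  · exact O.typ1 h
  · exact O.typ2 h

theorem Rf_lt (hR : Rz O D F nw cl t pos G) {x : DT} (hx : Occr O.P x) :
    sh.W.idxOf x.w < nw := lt_of_lt_of_le (idx_lt (typ_w (Rf_typ hx)).1) hR.len

/-- the new number is the number of a new dart with the right old dart and bits -/
theorem Rf_new (hR : Rc O D F nw cl t pos G ow) (hG : ∀ x y, O.P x y → G x y 0 = true)
    (hF : 0 < F) (hck : ∀ w < nw, RfW D F D' F' ft (262144 * m) w tl cl cl') (hft : ft ≤ 9)
    {x : DT} (hx : Occr O.P x) : pos2 sh tl ft pos x < (cdW sh cl' x.w).R ∧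
      ext (getT tl (sh.W.idxOf x.w)).OL 15 (pos2 sh tl ft pos x) =
        4 * pos x + (2 * bt ft x.c + bt ft x.c') := by
  have hz := hR.toRz
  have hal : ∀ x, Occr O.P x → (getT tl (sh.W.idxOf x.w)).AL.testBit (pos x) = true :=
    fun x hx => Rf_occ_al hz hF hG (fun w hw => (hck w hw).al) hx
  have ha4 := Rf_occ_a4 hz hal (fun w hw => (hck w hw).a4)
    (fun x hx => (typ_w (Rf_typ hx)).1) hx
  have hlt := Rf_lt hz hx
  have hw := hck _ hlt
  have ht := Rf_typ hx
  have hb := typ_bnd ht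
  obtain ⟨l1, l2, l3, l4⟩ := typ_loc ht
  have hco : ext (getC cl (sh.W.idxOf x.w)).CO 24 (pos x) = cod sh.W x + 262144 * ow x.c :=
    hR.co x hx
  have hf := cod_facts (le_trans hR.len hR.nw64) hb (typ_w ht).2 (ow x.c)
  have h1 : (alw4 ft (ext (getC cl (sh.W.idxOf x.w)).CO 24 (pos x) / 64 % 4096)).testBit
      (2 * bt ft x.c + bt ft x.c') = true := by
    rw [hco, hf.slot]
    exact Rf_alw4 hb l1 l2 l3 l4 hft
  have h2 := Rf_expM (hR.R x hx) ha4 h1
  obtain ⟨i, hi, he⟩ := Rf_gotM (Rf_inM hw.ex h2)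
  obtain ⟨h3, -⟩ := Rf_rfN hw.nw hi he rfl
  have h4 : pos2 sh tl ft pos x = i := h3
  rw [h4]
  exact ⟨hi, he⟩

/-- the tables of the new darts -/
theorem Rf_tab (hR : Rc O D F nw cl t pos G ow) (hG : ∀ x y, O.P x y → G x y 0 = true)
    (hF : 0 < F) (hck : ∀ w < nw, RfW D F D' F' ft (262144 * m) w tl cl cl') (hft : ft ≤ 9)
    {x : DT} (hx : Occr O.P x) :
    ext (cdW sh cl' x.w).CO 24 (pos2 sh tl ft pos x) =
      cod sh.W x + 262144 * (ow x.c + m * bt ft x.c) ∧
    swOf (cdW sh cl' x.w) (pos2 sh tl ft pos x) = pos2 sh tl ft pos x.swp ∧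
    rvOf (cdW sh cl' x.w) (pos2 sh tl ft pos x) = pos2 sh tl ft pos x.rev +
      8192 * (rvOf (cdW sh cl x.w) (pos x) / 8192) := by
  have hz := hR.toRz
  have hlt := Rf_lt hz hx
  obtain ⟨h1, h2⟩ := Rf_new hR hG hF hck hft hx
  have hb1 := bt_lt ft x.c
  have hb2 := bt_lt ft x.c'
  obtain ⟨-, h3, h4, h5⟩ := Rf_rfN (hck _ hlt).nw h1 h2 rfl
  have e1 : (4 * pos x + (2 * bt ft x.c + bt ft x.c')) / 4 = pos x := by omega
  have e2 : (4 * pos x + (2 * bt ft x.c + bt ft x.c')) % 4 = 2 * bt ft x.c + bt ft x.c' := by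
    omega
  rw [e1, e2] at h3 h4 h5
  refine ⟨?_, ?_, ?_⟩
  · have hco : ext (getC cl (sh.W.idxOf x.w)).CO 24 (pos x) = cod sh.W x + 262144 * ow x.c :=
      hR.co x hx
    have h6 : ext (cdW sh cl' x.w).CO 24 (pos2 sh tl ft pos x) =
      ext (getC cl (sh.W.idxOf x.w)).CO 24 (pos x) +
        262144 * m * ((2 * bt ft x.c + bt ft x.c') / 2) := h3
    have e3 : (2 * bt ft x.c + bt ft x.c') / 2 = bt ft x.c := by omega
    rw [h6, hco, e3, Nat.mul_add, Nat.mul_assoc, Nat.add_assoc]
  · have h6 : swOf (cdW sh cl' x.w) (pos2 sh tl ft pos x) =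
      ext (getT tl (sh.W.idxOf x.w)).IX 13 (4 * swOf (cdW sh cl x.w) (pos x) +
        5 * (2 * bt ft x.c + bt ft x.c') / 2 % 4) := h4
    have e3 := Rf_sw4 _ _ hb1 hb2
    rw [h6, hR.sw x hx, e3]
    rfl
  · have h6 : rvOf (cdW sh cl' x.w) (pos2 sh tl ft pos x) =
      ext (getT tl (rvOf (cdW sh cl x.w) (pos x) / 8192 % 64)).IX 13
        (4 * (rvOf (cdW sh cl x.w) (pos x) % 8192) + (2 * bt ft x.c + bt ft x.c')) +
          8192 * (rvOf (cdW sh cl x.w) (pos x) / 8192) := h5
    obtain ⟨h7, h8⟩ := Rf_rv hz hx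
    rw [h6, h7, h8]
    rfl

/-- the code of the new dart, decoded -/
theorem Rf_cod (hR : Rc O D F nw cl t pos G ow) (hG : ∀ x y, O.P x y → G x y 0 = true)
    (hF : 0 < F) (hck : ∀ w < nw, RfW D F D' F' ft (262144 * m) w tl cl cl') (hft : ft ≤ 9)
    (hwf : ∀ w < nw, WFC D' F' (getC cl' w)) {x : DT} (hx : Occr O.P x) :
    (sdOf (cdW sh cl' x.w) (pos2 sh tl ft pos x)).t = tagC x + 16 * (ow x.c + m * bt ft x.c) ∧
    (sdOf (cdW sh cl' x.w) (pos2 sh tl ft pos x)).a4 = 4 * x.la ∧
    lbOf (cdW sh cl' x.w) (pos2 sh tl ft pos x) = x.lb := by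
  have hz := hR.toRz
  have hlt := Rf_lt hz hx
  have ht := Rf_typ hx
  obtain ⟨h1, -⟩ := Rf_new hR hG hF hck hft hx
  obtain ⟨h2, -, -⟩ := Rf_tab hR hG hF hck hft hx
  have hf := cod_facts (le_trans hR.len hR.nw64) (typ_bnd ht) (typ_w ht).2
    (ow x.c + m * bt ft x.c)
  have h3 : (sdOf (cdW sh cl' x.w) (pos2 sh tl ft pos x)).t =
      ext (cdW sh cl' x.w).CO 24 (pos2 sh tl ft pos x) / 16384 := (hwf _ hlt).tag _ h1
  have h4 : (sdOf (cdW sh cl' x.w) (pos2 sh tl ft pos x)).a4 =
      4 * ((sdOf (cdW sh cl' x.w) (pos2 sh tl ft pos x)).t / 4 % 4) := (hwf _ hlt).a4 _ h1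
  have h5 : lbOf (cdW sh cl' x.w) (pos2 sh tl ft pos x) =
      ext (cdW sh cl' x.w).CO 24 (pos2 sh tl ft pos x) / 4096 % 4 := rfl
  rw [h2, hf.tag] at h3
  refine ⟨h3, ?_, ?_⟩
  · rw [h4, h3]
    have hb := typ_bnd ht
    have := hb.k; have := hb.la
    unfold tagC
    omega
  · rw [h5, h2, hf.lb]

end

/-! ### The coverage -/

theorem Rf_geoK (D k : ℕ) : geoK D k = geo D k := by
  show ((1 <<< (D * k)) - 1) / ((1 <<< D) - 1) = geo D k
  rw [Nat.one_shiftLeft, Nat.one_shiftLeft]
  rfl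

theorem Rf_orN (a b i : ℕ) (h : a.testBit i = true ∨ b.testBit i = true) :
    (orN a b).testBit i = true := by
  have e : orN a b = Bool.rec (motive := fun _ => ℕ) (a ||| b) a (Nat.beq b 0) := rfl
  rw [e]
  rcases hb : Nat.beq b 0 with _ | _
  · show (a ||| b).testBit i = true
    rw [Nat.testBit_or, Bool.or_eq_true]
    exact h
  · have : b = 0 := Nat.eq_of_beq_eq_true hb
    subst this
    rw [Nat.zero_testBit] at h
    rcases h with h | h
    · exact h
    · exact absurd h (by simp)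

/-- the entry of `gthM` -/
theorem Rf_gthM {FD : ℕ} (hFD : 0 < FD) {sl : Sl} {SI OL : ℕ} {bl : Bl} {q o' j r h : ℕ}
    (hh : ext OL 15 (o' + j) / 4 = h) (hr : r < q)
    (hb : (findR bl (ext SI 10 h)).testBit (FD * r + (h - (getS sl (ext SI 10 h)).o)) = true) :
    ∀ {q' : ℕ}, j < q' → (gthM FD sl SI OL bl q o' q').testBit (FD * r + j) = true := by
  intro q'
  induction q' with
  | zero => intro hj; exact absurd hj (Nat.not_lt_zero _)
  | succ q' ih =>
    intro hj
    have e : gthM FD sl SI OL bl q o' (q' + 1) = orN (Sd.rec (motive := fun _ => ℕ)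
        (fun _ _ o _ _ _ => ((findR bl (ext SI 10 (ext OL 15 (o' + q') / 4)) >>>
          (ext OL 15 (o' + q') / 4 - o)) &&& geoK FD q) <<< q')
          (getS sl (ext SI 10 (ext OL 15 (o' + q') / 4)))) (gthM FD sl SI OL bl q o' q') := rfl
    rw [e]
    apply Rf_orN
    rcases Nat.lt_succ_iff_lt_or_eq.1 hj with h1 | h1
    · exact Or.inr (ih h1)
    · left
      subst h1
      rw [hh]
      revert hb
      cases getS sl (ext SI 10 h) with
      | mk t a4 o q2 sb bl2 =>
        intro hb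
        have hb' : (findR bl (ext SI 10 h)).testBit (FD * r + (h - o)) = true := hb
        show (((findR bl (ext SI 10 h) >>> (h - o)) &&& geoK FD q) <<< j).testBit (FD * r + j) =
          true
        have e1 : FD * r + j - j = FD * r := by omega
        rw [Nat.testBit_shiftLeft, e1, Nat.testBit_and, Nat.testBit_shiftRight, Rf_geoK,
          testBit_geo hFD, Nat.add_comm (h - o), hb', Bool.true_and, Bool.and_eq_true,
          decide_eq_true_eq, decide_eq_true_eq]
        exact ⟨Nat.le_add_left _ _, Nat.mul_mod_right _ _, Nat.mul_lt_mul_of_pos_left hr hFD⟩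

theorem Rf_rfC {D F D' F' OL : ℕ} {cd cd' : Cd} (h : rfC D F D' F' OL cd cd' = true) {j p : ℕ}
    (hj : 0 < (getS cd'.sl j).q) (hp : 0 < (getS cd'.sl p).q)
    (hmt : mtTag (getS cd'.sl j).t (getS cd'.sl p).t = true) :
    (getS cd'.sl p).q < F * D ∧ ∀ i < (getS cd'.sl j).q,
      inM (gthR (F * D) cd.sl cd.SI OL (getS cd'.sl p).o (getS cd'.sl p).q
        (ext OL 15 ((getS cd'.sl j).o + i) / 4)) (lastF D' F' (findR (getS cd'.sl j).bl p) i) =
        true := by
  cases cd with
  | mk R v mf SI SW RV CO sl =>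
    cases cd' with
    | mk R' v' mf' SI' SW' RV' CO' sl' =>
      have h1 := Rf_allS _ sl' 0 h j
      have h2 : (getS sl' j) ≠ dfS := by
        intro h3
        have h4 : 0 < (getS sl' j).q := hj
        rw [h3] at h4
        exact absurd h4 (by decide)
      rcases h1 with h1 | h1
      · exact absurd h1 h2
      · have hmt' : mtTag (getS sl' j).t (getS sl' p).t = true := hmt
        have hp' : 0 < (getS sl' p).q := hp
        show (getS sl' p).q < F * D ∧ ∀ i < (getS sl' j).q,
          inM (gthR (F * D) sl SI OL (getS sl' p).o (getS sl' p).q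
            (ext OL 15 ((getS sl' j).o + i) / 4))
              (lastF D' F' (findR (getS sl' j).bl p) i) = true
        clear h h2 hj hp hmt
        revert h1 hmt'
        cases getS sl' j with
        | mk t a4 o q sb bl =>
          intro h1 hmt'
          have h3 := Rf_allS _ sl' 0 h1 p
          have h4 : (getS sl' p) ≠ dfS := by
            intro h3
            rw [h3] at hp'
            exact absurd hp' (by decide)
          rcases h3 with h3 | h3
          · exact absurd h3 h4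
          · clear h4 hp'
            rw [Nat.zero_add] at h3
            revert h3 hmt'
            cases getS sl' p with
            | mk t' a4' o' q' sb' bl' =>
              intro hmt' h3
              have h5 : impB (mtTag t t') (andB (Nat.ble (q' + 1) (F * D))
                (allN (fun i => inM (gthR (F * D) sl SI OL o' q' (ext OL 15 (o + i) / 4))
                  (lastF D' F' (findR bl p) i)) q)) = true := h3
              have hmt2 : mtTag t t' = true := hmt'
              rw [impB_eq, hmt2, Bool.not_true, Bool.false_or, andB_eq, Bool.and_eq_true,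
                allN_iff] at h5
              exact ⟨Nat.le_of_ble_eq_true h5.1, h5.2⟩

theorem Rf_lastF {D F X i j : ℕ} (hF : 0 < F) (hj : j < D) :
    (lastF D F X i).testBit j = X.testBit (F * D * i + (F - 1) * D + j) := by
  have e : lastF D F X i = rowY X (F * D) i >>> ((F - 1) * D) := rfl
  have h1 : (F - 1) * D + j < F * D := by
    obtain ⟨f, rfl⟩ := Nat.exists_eq_succ_of_ne_zero (Nat.pos_iff_ne_zero.1 hF)
    rw [Nat.succ_sub_one, Nat.succ_mul]
    omega
  rw [e, Nat.testBit_shiftRight, Rf_rowY h1, Nat.add_assoc]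

theorem Rf_gthR {D F : ℕ} {cd : Cd} {OL o' q' x y : ℕ} (hw : WFC D F cd) (hx : x < cd.R)
    (hFD : 0 < F * D) {j : ℕ} (hj : j < q') (hq : q' < F * D) (hy : ext OL 15 (o' + j) / 4 = y)
    (hb : (findR (sdOf cd x).bl (siOf cd y)).testBit
      (F * D * (x - (sdOf cd x).o) + (y - (sdOf cd y).o)) = true) :
    (gthR (F * D) cd.sl cd.SI OL o' q' x).testBit j = true := by
  obtain ⟨x1, x2⟩ := hw.dart x hx
  have e : gthR (F * D) cd.sl cd.SI OL o' q' x = rowY (gthM (F * D) cd.sl cd.SI OL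
      (sdOf cd x).bl (sdOf cd x).q o' q') (F * D) (x - (sdOf cd x).o) := by
    have e0 : gthR (F * D) cd.sl cd.SI OL o' q' x = Sd.rec (motive := fun _ => ℕ)
      (fun _ _ o2 q2 _ bl2 => rowY (gthM (F * D) cd.sl cd.SI OL bl2 q2 o' q') (F * D) (x - o2))
      (sdOf cd x) := rfl
    rw [e0]
    cases sdOf cd x with
    | mk t a4 o q sb bl => rfl
  rw [e, Rf_rowY (by omega)]
  exact Rf_gthM hFD hy (by omega) hb hj

/-- the tags of the two darts of a sector match -/
theorem Rf_mt {sh : Shape} {O : OccS sh} {x y : DT} (h : O.P x y) (o : ℕ) :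
    mtTag (tagC x + 16 * o) (tagC y + 16 * o) = true := by
  have hx := typ_bnd (O.typ1 h)
  have hy := typ_bnd (O.typ2 h)
  have k1 := hx.k; have k2 := hy.k; have k3 := hx.la
  have e1 : y.la = x.la := O.laeq h
  obtain ⟨lx, -⟩ := typ_loc (O.typ1 h)
  obtain ⟨ly, -⟩ := typ_loc (O.typ2 h)
  have hl := O.legal x y h
  unfold secOK at hl
  simp only [Bool.and_eq_true, decide_eq_true_eq] at hl
  have h3 : x.la = 3 → y.k = x.k := hl.1.1.2
  have h4 := (Rf_loc lx).1
  have h5 := (Rf_loc ly).1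
  rw [O.dr1 h, if_neg (by simp)] at h4
  rw [O.dr2 h, if_pos rfl, e1] at h5
  have e2 : (tagC x + 16 * o) % 16 = tagC x := by
    unfold tagC
    omega
  have e3 : (tagC x + 16 * o) / 16 = o := by
    unfold tagC
    omega
  have e0 : mtTag (tagC x + 16 * o) (tagC y + 16 * o) = andB
    (inTag ((tagC x + 16 * o) % 16)) (Nat.beq (tagC y + 16 * o)
      (16 * ((tagC x + 16 * o) / 16) + ptTag ((tagC x + 16 * o) % 16))) := rfl
  rw [e0, e2, e3, andB_eq, Bool.and_eq_true, beq_iff, decide_eq_true_eq]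
  have e4 : inTag (tagC x) = orB (Nat.ble 12 (tagC x))
    (Nat.beq (tagC x % 4) ((tagC x / 4 + 2) % 3)) := rfl
  have e5 : ptTag (tagC x) = ifN (Nat.ble 12 (tagC x)) (tagC x) (5 * (tagC x / 4)) := rfl
  have e6 : tagC x % 4 = x.k := by
    unfold tagC
    omega
  have e7 : tagC x / 4 = x.la := by
    unfold tagC
    omega
  rw [e4, e5, e6, e7, orB_eq, ifN_eq, Bool.or_eq_true, beq_iff, decide_eq_true_eq]
  have e8 : tagC y = y.k + 4 * x.la := by
    unfold tagC
    rw [e1]
  by_cases c : x.la = 3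
  · have h6 : Nat.ble 12 (tagC x) = true := by
      rw [Nat.ble_eq]
      unfold tagC
      omega
    rw [h6, if_pos rfl, e8, h3 c]
    refine ⟨Or.inl rfl, ?_⟩
    unfold tagC
    omega
  · have h6 : Nat.ble 12 (tagC x) = false := by
      rw [Bool.eq_false_iff, Ne, Nat.ble_eq]
      unfold tagC
      omega
    rw [h6, if_neg (by simp), e8]
    have h7 := h4 (by omega)
    have h8 := h5 (by omega)
    refine ⟨Or.inr h7, ?_⟩
    omega

/-- the last field of the next stage -/
theorem Rf_last {sh : Shape} {O : OccS sh} {D F D' F' nw : ℕ} {cl cl' : Cl} {t : ℕ}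
    {pos : DT → ℕ} {G : DT → DT → ℕ → Bool} {ow : ℕ → ℕ} {ft m : ℕ} {tl : Tl}
    (hR : Rc O D F nw cl t pos G ow) (hG : ∀ x y, O.P x y → G x y 0 = true)
    (hF : 0 < F) (hF' : 0 < F')
    (hck : ∀ w < nw, RfW D F D' F' ft (262144 * m) w tl cl cl') (hft : ft ≤ 9)
    (hwf : ∀ w < nw, WFC D' F' (getC cl' w)) {x y : DT} (h : O.P x y) :
    (findR (sdOf (cdW sh cl' x.w) (pos2 sh tl ft pos x)).bl
      (siOf (cdW sh cl' x.w) (pos2 sh tl ft pos y))).testBit
      (F' * D' * (pos2 sh tl ft pos x -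
          (sdOf (cdW sh cl' x.w) (pos2 sh tl ft pos x)).o) + (F' - 1) * D' +
        (pos2 sh tl ft pos y - (sdOf (cdW sh cl' x.w) (pos2 sh tl ft pos y)).o)) = true := by
  have hz := hR.toRz
  have ox : Occr O.P x := ⟨y, Or.inl h⟩
  have oy : Occr O.P y := ⟨x, Or.inr h⟩
  have ew : y.w = x.w := O.weq h
  have hlt := Rf_lt hz ox
  have wf : WFC D F (cdW sh cl x.w) := hR.wf _ hlt
  have wf' : WFC D' F' (cdW sh cl' x.w) := hwf _ hlt
  obtain ⟨x1, x2⟩ := Rf_new hR hG hF hck hft ox
  obtain ⟨y1, y2⟩ := Rf_new hR hG hF hck hft oy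
  obtain ⟨x3, -, -⟩ := Rf_cod hR hG hF hck hft hwf ox
  obtain ⟨y3, -, -⟩ := Rf_cod hR hG hF hck hft hwf oy
  have hb1 := bt_lt ft x.c
  have hb2 := bt_lt ft x.c'
  have hb3 := bt_lt ft y.c
  have hb4 := bt_lt ft y.c'
  rw [ew] at y1 y2 y3
  have hfr := hR.fr x y h 0 hF
  rw [hG x y h, Nat.zero_mul, Nat.add_zero] at hfr
  have hRx : pos x < (cdW sh cl x.w).R := hR.R x ox
  have hRy := hR.R y oy
  rw [ew] at hRy
  have cv : rfC D F D' F' (getT tl (sh.W.idxOf x.w)).OL (cdW sh cl x.w) (cdW sh cl' x.w) = true :=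
    (hck _ hlt).cv
  have hmt := Rf_mt h (ow x.c + m * bt ft x.c)
  rw [O.ceq h] at y3
  rw [← x3, ← y3] at hmt
  clear x3 y3
  generalize cdW sh cl' x.w = cd' at *
  generalize cdW sh cl x.w = cd at *
  generalize pos2 sh tl ft pos x = px at *
  generalize pos2 sh tl ft pos y = py at *
  obtain ⟨x4, x5⟩ := wf'.dart _ x1
  obtain ⟨y4, y5⟩ := wf'.dart _ y1
  obtain ⟨x6, x7⟩ := wf.dart _ hRx
  obtain ⟨y6, y7⟩ := wf.dart _ hRy
  have qx := wf'.q_lt (siOf cd' px)
  have qy : (sdOf cd' py).q < D' := wf'.q_lt (siOf cd' py)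
  have qy2 : (sdOf cd (pos y)).q < D := wf.q_lt (siOf cd (pos y))
  have hFD : 0 < F * D := Nat.mul_pos hF (by omega)
  have hx0 : 0 < (sdOf cd' px).q := by omega
  have hy0 : 0 < (sdOf cd' py).q := by omega
  obtain ⟨r1, r2⟩ := Rf_rfC cv (j := siOf cd' px) (p := siOf cd' py) hx0 hy0 hmt
  have r3 := r2 (px - (sdOf cd' px).o) (by
    show px - (sdOf cd' px).o < (sdOf cd' px).q
    omega)
  have e1 : (getS cd'.sl (siOf cd' px)).o + (px - (sdOf cd' px).o) = px := by
    show (sdOf cd' px).o + (px - (sdOf cd' px).o) = px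
    omega
  rw [e1, x2] at r3
  have e2 : (4 * pos x + (2 * bt ft x.c + bt ft x.c')) / 4 = pos x := by omega
  rw [e2] at r3
  have e3 : (sdOf cd' py).o + (py - (sdOf cd' py).o) = py := by omega
  have e4 : ext (getT tl (sh.W.idxOf x.w)).OL 15 ((sdOf cd' py).o + (py - (sdOf cd' py).o)) / 4 =
      pos y := by
    rw [e3, y2]
    omega
  have hj : py - (sdOf cd' py).o < (sdOf cd' py).q := by omega
  have r4 := Rf_inM r3 (Rf_gthR wf hRx hFD hj r1 e4 hfr.symm)
  rwa [Rf_lastF hF' (by omega)] at r4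

/-- (R) **a refinement stage** -/
theorem refine_stage {sh : Shape} {O : OccS sh} {D F D' F' nw : ℕ} {cl cl' : Cl} {t : ℕ}
    {pos : DT → ℕ} {G : DT → DT → ℕ → Bool} {ow : ℕ → ℕ} {ft m : ℕ} {tl : Tl}
    (hR : Rc O D F nw cl t pos G ow) (hG : ∀ x y, O.P x y → G x y 0 = true)
    (hF : 0 < F) (hF' : 0 < F')
    (hck : ∀ w < nw, rfCk D F D' F' ft (262144 * m) w tl cl cl' = true) (hft : ft ≤ 9)
    (hwf : ∀ w < nw, WFC D' F' (getC cl' w))
    (hv : ∀ w ∈ sh.W, (cdW sh cl' w).v = w.sum)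
    (hmf : ∀ w ∈ sh.W, (cdW sh cl' w).mf = encW w)
    (how : ∀ c, ow c + m * bt ft c < 64) :
    ∃ (pos' : DT → ℕ) (G' : DT → DT → ℕ → Bool),
      Rc O D' F' nw cl' t pos' G' (fun c => ow c + m * bt ft c) ∧
      ∀ x y, O.P x y → G' x y (F' - 1) = true := by
  have hck' : ∀ w < nw, RfW D F D' F' ft (262144 * m) w tl cl cl' :=
    fun w hw => rfCk_iff (hck w hw)
  have new := fun {x : DT} (hx : Occr O.P x) => Rf_new hR hG hF hck' hft hx
  have tab := fun {x : DT} (hx : Occr O.P x) => Rf_tab hR hG hF hck' hft hx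
  have cdf := fun {x : DT} (hx : Occr O.P x) => Rf_cod hR hG hF hck' hft hwf hx
  have last := fun {x y : DT} (h : O.P x y) => Rf_last hR hG hF hF' hck' hft hwf h
  have pslt : ∀ x, pos2 sh tl ft pos x < 8192 := fun x => Rf_ext_lt _ 13 _
  refine ⟨pos2 sh tl ft pos, fun x y f => (findR (sdOf (cdW sh cl' x.w)
    (pos2 sh tl ft pos x)).bl (siOf (cdW sh cl' x.w) (pos2 sh tl ft pos y))).testBit
      (F' * D' * (pos2 sh tl ft pos x -
          (sdOf (cdW sh cl' x.w) (pos2 sh tl ft pos x)).o) + f * D' +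
        (pos2 sh tl ft pos y - (sdOf (cdW sh cl' x.w) (pos2 sh tl ft pos y)).o)),
    ⟨⟨hR.len, hR.nw64, fun x hx => (new hx).1, fun x hx => pslt x, fun x hx => (tab hx).2.1,
      ?_, ?_, ?_, fun x hx => (cdf hx).2.1, fun x hx => (cdf hx).2.2, hv, hR.v3, hR.lt16, hmf,
      hwf, ?_⟩, fun x hx => (tab hx).1, how, fun x y h f hf => rfl⟩, fun x y h => last h⟩
  · intro x hx
    have h1 := (tab hx).2.2
    have h2 := (Rf_rv hR.toRz hx).2
    have h3 := pslt x.rev
    rw [h1]
    omega
  · intro x hx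
    have h1 := (tab hx).2.2
    have h2 := hR.wt x hx
    have h3 := pslt x.rev
    rw [← h2, h1]
    omega
  · intro x y h
    have h1 := (tab ⟨x, Or.inr h⟩).2.2
    have h2 := hR.fl x y h
    have h3 := pslt y.rev
    rw [← h2, h1]
    omega
  · intro x y h
    refine ⟨findR (sdOf (cdW sh cl' x.w) (pos2 sh tl ft pos x)).bl
      (siOf (cdW sh cl' x.w) (pos2 sh tl ft pos y)), Rf_findR_mem _ _ ?_, fun f hf => rfl⟩
    intro h0
    have h1 := last h
    rw [h0, Nat.zero_testBit] at h1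
    exact absurd h1 (by simp)

/-! ### The last stage -/

theorem Rf_dead {D F : ℕ} {cd : Cd} (hw : WFC D F cd) (hF : 0 < F) (h : deadCk D F cd = true)
    {x y : ℕ} {g : ℕ → Bool} (hx : x < cd.R) (hy : y < cd.R) (hp : PairB D F cd x y g)
    (hg : g 0 = true) : False := by
  obtain ⟨X, hm, hgX⟩ := hp
  obtain ⟨x1, x2⟩ := hw.dart x hx
  obtain ⟨y1, y2⟩ := hw.dart y hy
  have hqy : (sdOf cd y).q < D := hw.q_lt (siOf cd y)
  have hb := hgX 0 hF
  rw [hg, Nat.zero_mul, Nat.add_zero] at hb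
  have h1 : ∀ X p, (X, p) ∈ (sdOf cd x).bl.rs →
      X &&& ((2 ^ D - 1) * geo (F * D) (sdOf cd x).q) = 0 := by
    have hj : 0 < (sdOf cd x).q := by omega
    clear hm hgX hb x1 x2 y1 y2 hqy hw hx hy hg
    cases cd with
    | mk R v mf SI SW RV CO sl =>
      have h1 := Rf_allS _ sl 0 h (ext SI 10 x)
      have h2 : (getS sl (ext SI 10 x)) ≠ dfS := by
        intro h3
        have h4 : 0 < (getS sl (ext SI 10 x)).q := hj
        rw [h3] at h4
        exact absurd h4 (by decide)
      rcases h1 with h1 | h1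
      · exact absurd h1 h2
      · intro X p hm
        have hm' : (X, p) ∈ (getS sl (ext SI 10 x)).bl.rs := hm
        show X &&& ((2 ^ D - 1) * geo (F * D) (getS sl (ext SI 10 x)).q) = 0
        clear h h2 hj hm
        revert h1 hm'
        cases getS sl (ext SI 10 x) with
        | mk t a4 o q sb bl =>
          intro h1 hm'
          have h3 := Rf_allR _ bl h1 X p hm'
          have h4 : X &&& (((1 <<< D) - 1) * geoK (F * D) q) = 0 := Nat.eq_of_beq_eq_true h3
          rw [Rf_geoK, Nat.one_shiftLeft] at h4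
          exact h4
  have h2 := h1 X _ hm
  have hFD : D ≤ F * D := Nat.le_mul_of_pos_left _ hF
  have h3 : (X &&& ((2 ^ D - 1) * geo (F * D) (sdOf cd x).q)).testBit
      (F * D * (x - (sdOf cd x).o) + (y - (sdOf cd y).o)) = true := by
    have hQ : 2 ^ D - 1 < 2 ^ (F * D) := by
      have := Nat.pow_le_pow_right (n := 2) (by norm_num) hFD
      have h0 : 0 < 2 ^ D := by positivity
      omega
    have e1 : (F * D * (x - (sdOf cd x).o) + (y - (sdOf cd y).o)) % (F * D) =
        y - (sdOf cd y).o := by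
      rw [Nat.mul_add_mod, Nat.mod_eq_of_lt (by omega)]
    have e2 : F * D * (x - (sdOf cd x).o) + (y - (sdOf cd y).o) < F * D * (sdOf cd x).q := by
      have h5 : x - (sdOf cd x).o + 1 ≤ (sdOf cd x).q := by omega
      have h6 := Nat.mul_le_mul_left (F * D) h5
      rw [Nat.mul_add, Nat.mul_one] at h6
      omega
    rw [Nat.testBit_and, ← hb, Bool.true_and, testBit_mul_geo (by omega) _ hQ, e1,
      decide_eq_true e2, Bool.true_and, Nat.testBit_two_pow_sub_one, decide_eq_true_eq]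
    omega
  rw [h2, Nat.zero_testBit] at h3
  exact absurd h3 (by simp)

/-- (D) **no survivors** -/
theorem stage_dead {sh : Shape} {O : OccS sh} {D F nw : ℕ} {cl : Cl} {t : ℕ}
    {pos : DT → ℕ} {G : DT → DT → ℕ → Bool} (hR : Rz O D F nw cl t pos G)
    (hG : ∀ x y, O.P x y → G x y 0 = true) (hF : 0 < F)
    (hck : ∀ w < nw, deadCk D F (getC cl w) = true) : False := by
  obtain ⟨x, y, h⟩ := O.ne
  have ox : Occr O.P x := ⟨y, Or.inl h⟩
  have hlt := Rf_lt hR ox
  have hy := hR.R y ⟨x, Or.inr h⟩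
  rw [O.weq h] at hy
  exact Rf_dead (hR.wf _ hlt) hF (hck _ hlt) (hR.R x ox) hy (hR.pair _ _ h) (hG _ _ h)

end Pool.Agent.NNe
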