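import Pool.Agent.NNe.Stg
import Pool.Agent.NNe.Rf
import Pool.Agent.NNe.M1
import Pool.Agent.NNe.PlN
import Pool.Agent.NNc.Occ7

/-!
# The engine of MP_4b6a99_co: the chain of the stages of a record

`CovB O D F nw cl t B f`: `Cov` for some own colours less than `B`.
`first_stage`, `run_stage`, `next_stage`, `last_stage`: the links of the chain, with all side
conditions as computable checks.
-/

namespace Pool.Agent.NNe

open Pool.Agent.NNc

/-! ### All `w < n` -/

theorem al0 {P : ℕ → Prop} : ∀ w < 0, P w := fun w hw => absurd hw (Nat.not_lt_zero w)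

theorem alS {P : ℕ → Prop} {n : ℕ} (h : ∀ w < n, P w) (hn : P n) : ∀ w < n + 1, P w := by
  intro w hw
  rcases Nat.lt_succ_iff_lt_or_eq.1 hw with h1 | h1
  · exact h w h1
  · rw [h1]
    exact hn

/-! ### No lanes -/

theorem geoK_zero (D : ℕ) : geoK D 0 = 0 := by
  rw [Rf_geoK, geo_zero]

theorem ckS_zero (f : ℕ → ℕ) (W : ℕ) : ∀ k : ℕ, ckS f W 0 k = true := by
  intro k
  induction k with
  | zero => rfl
  | succ k ih =>
    have e : ckS f W 0 (k + 1) = Bool.rec (motive := fun _ => Bool) false (ckS f W 0 k)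
      (Nat.beq (f k &&& (0 <<< (W * k))) 0) := rfl
    have h : Nat.beq (f k &&& (0 <<< (W * k))) 0 = true := by
      rw [Nat.zero_shiftLeft, Nat.and_zero]
      rfl
    rw [e, h]
    exact ih

theorem starCk_zero (D F s N oS s1 : ℕ) (cd : Cd) : starCk D F s 0 N oS s1 cd = true := by
  cases cd with
  | mk R v mf SI SW RV CO sl =>
    have hB : (geoK (2 * D) 0) <<< (2 * D - 1) = 0 := by
      rw [geoK_zero, Nat.zero_shiftLeft]
    have e : ∀ (g : ℕ → ℕ) (W : ℕ),
        ckS g W ((geoK (2 * D) 0) <<< (2 * D - 1)) N = true := by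
      intro g W
      rw [hB]
      exact ckS_zero _ _ _
    exact e _ _

theorem tileSt_zero (f : ℕ → ℕ → ℕ) (W : ℕ) (zl : Zl) : ∀ nw : ℕ, tileSt f W 0 zl nw = true := by
  intro nw
  induction nw with
  | zero => rfl
  | succ nw ih =>
    have e : tileSt f W 0 zl (nw + 1) = Bool.rec (motive := fun _ => Bool) false
      (tileSt f W 0 zl nw) (getZ zl true (fun oS z0 nS =>
        ckS (fun i => lit (f 0) (oS + i + 8192 * nw)) W (0 <<< (W * z0)) nS) nw) := rfl
    have h : getZ zl true (fun oS z0 nS =>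
        ckS (fun i => lit (f 0) (oS + i + 8192 * nw)) W (0 <<< (W * z0)) nS) nw = true := by
      have h1 : ∀ (l : Zl) (i : ℕ), getZ l true (fun oS z0 nS =>
          ckS (fun i => lit (f 0) (oS + i + 8192 * nw)) W (0 <<< (W * z0)) nS) i = true := by
        intro l
        induction l with
        | nil => intro i; rfl
        | cons oS z0 nS tl ih2 =>
          intro i
          cases i with
          | zero =>
            show ckS _ W (0 <<< (W * z0)) nS = true
            rw [Nat.zero_shiftLeft]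
            exact ckS_zero _ _ _
          | succ i => exact ih2 i
      exact h1 _ _
    rw [e, h]
    exact ih

theorem tileCk_zero (D F s N n nw : ℕ) (zl : Zl) (cl : Cl) :
    tileCk D F s 0 N n nw zl cl = true := by
  have hB : (geoK (2 * D) 0) <<< (2 * D - 1) = 0 := by
    rw [geoK_zero, Nat.zero_shiftLeft]
  have e : ∀ (g : ℕ → ℕ → ℕ) (W : ℕ),
      tileSt g W ((geoK (2 * D) 0) <<< (2 * D - 1)) zl nw = true := by
    intro g W
    rw [hB]
    exact tileSt_zero _ _ _ _
  exact e _ _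

/-! ### The checks of a stage -/

/-- a class: `s` label of the starts, `rl` ranges of starts from `lo` on -/
theorem stW {D F sS JS : ℕ} {cd : Cd} (s lo : ℕ) (rl : Rl) (h4 : Nat.ble s 3 = true)
    (h1 : stCov s lo rl cd = true)
    (h2 : rlAll (fun o n => starCk D F sS JS n o (2 ^ (4 * s)) cd = true) rl) :
    StW D F sS JS cd :=
  ⟨s, lo, rl, _, Nat.lt_succ_of_le (Nat.le_of_ble_eq_true h4), rfl, h1, h2⟩

/-- a class, `p = 16 ^ s` as a literal -/
theorem stX {D F sS JS : ℕ} {cd : Cd} (s lo p : ℕ) (rl : Rl) (h4 : Nat.ble s 3 = true)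
    (hp : Nat.beq (2 ^ (4 * s)) p = true) (h1 : stCov s lo rl cd = true)
    (h2 : rlAll (fun o n => starCk D F sS JS n o p cd = true) rl) : StW D F sS JS cd := by
  have hp' := Nat.eq_of_beq_eq_true hp
  subst hp'
  exact stW s lo rl h4 h1 h2

theorem rln {P : ℕ → ℕ → Prop} : rlAll P Rl.nil := trivial

theorem rlc {P : ℕ → ℕ → Prop} {o n : ℕ} {tl : Rl} (h : P o n) (t : rlAll P tl) :
    rlAll P (Rl.cons o n tl) := ⟨h, t⟩

theorem zzn {P : Zl → Prop} : zzAll P ZZ.nil := trivial

theorem zzc {P : Zl → Prop} {z : Zl} {tl : ZZ} (h : P z) (t : zzAll P tl) :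
    zzAll P (ZZ.cons z tl) := ⟨h, t⟩

/-- the tile checks -/
theorem tiS {D F sT JT n nw tc : ℕ} {cl : Cl} (zz : ZZ)
    (h1 : ∀ w < nw, tiCov tc w zz (getC cl w) = true)
    (h2 : zzAll (fun zl => ∃ N, zlOK N zl = true ∧ tileCk D F sT JT N n nw zl cl = true) zz) :
    TiS D F sT JT n nw tc cl := ⟨zz, h1, h2⟩

/-- the side conditions of a stage -/
def stA (D F sS JS sT JT tc : ℕ) : Bool :=
  Nat.ble 2 D && (Nat.ble 1 F && (Nat.ble tc 2 && (Nat.beq (sS + sT) 3 && (Nat.ble 1 sS &&
    (Nat.ble 1 sT && (Nat.ble (sS + 2 * JS) (F + 1) && (Nat.ble (sT + 2 * JT) (F + 1) &&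
      (Nat.ble F (sS + 2 * JS) && Nat.ble F (sT + 2 * JT)))))))))

/-- the occurring dart types are darts of the stage, with own colours less than `B`, and all sectors
have the field `f` -/
def CovB {sh : Shape} (O : OccS sh) (D F nw : ℕ) (cl : Cl) (t B f : ℕ) : Prop :=
  ∃ ow : ℕ → ℕ, (∀ c, ow c < B) ∧ Cov O D F nw cl t ow f

/-- star and tile programs -/
theorem run_stage {sh : Shape} {O : OccS sh} {D F nw t B f : ℕ} {cl : Cl}
    (h : CovB O D F nw cl t B f) (hf : Nat.beq f (F - 1) = true) (sS JS sT JT : ℕ)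
    (hA : stA D F sS JS sT JT t = true)
    (hst : ∀ w < nw, StW D F sS JS (getC cl w)) (hti : TiS D F sT JT sh.n nw t cl) :
    CovB O D F nw cl t B 0 := by
  obtain ⟨ow, h1, h2⟩ := h
  have hf' := Nat.eq_of_beq_eq_true hf
  subst hf'
  unfold stA at hA
  simp only [Bool.and_eq_true, Nat.ble_eq, Nat.beq_eq] at hA
  obtain ⟨a1, a2, a3, a4, a5, a6, a7, a8, a9, a10⟩ := hA
  exact ⟨ow, h1, stage_ok h2 (by omega) a1 a4 a5 a6 a7 a8 a9 a10 hst hti⟩

/-- all checks of the list of classes of the first stage -/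
noncomputable def recCk (W : List (List ℕ)) (nw : ℕ) (cl : Cl) : Bool :=
  andB (wokB W) (andB (Nat.beq W.length nw) (andB (Nat.ble nw 64) (wCk W cl)))

/-- the first stage -/
theorem first_stage {sh : Shape} {a b c : ℕ} {nl : Nl}
    (O : OccL sh (locOK a.testBit b.testBit c.testBit)) (tc : ℕ) {D F nw : ℕ} {cl : Cl}
    (hnl : NlOK sh nl)
    (hn : Nat.ble sh.n 15 = true) (hA : Nat.ble 1 D = true) (hF : Nat.ble 1 F = true)
    (htc : Nat.ble tc 2 = true) (hcl : recCk sh.W nw cl = true)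
    (hwf : ∀ w < nw, wfC D F (getC cl w) = true)
    (hck : ∀ w < nw, plCk D F sh.n a b c nw (4 * tc + (tc + 2) % 3) w nl cl = true) :
    CovB O.toOccS D F nw cl tc 1 (F - 1) := by
  unfold recCk at hcl
  simp only [andB_eq, Bool.and_eq_true, Nat.ble_eq, Nat.beq_eq] at hcl hn hA hF htc
  obtain ⟨pos, G, h1, h2⟩ := plain_stage O hF hn (by omega) hcl.2.1 hcl.2.2.1 hcl.2.2.2
    (fun w hw => wfC_iff hA (hwf w hw)) hnl hck
  exact ⟨fun _ => 0, fun _ => Nat.zero_lt_one, pos, G, h1, h2⟩

/-- the same valences and counts -/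
noncomputable def eqVM (cl cl' : Cl) (nw : ℕ) : Bool :=
  allN (fun w => Cd.rec (motive := fun _ => Bool) (fun _ v mf _ _ _ _ _ =>
    Cd.rec (motive := fun _ => Bool) (fun _ v' mf' _ _ _ _ _ =>
      andB (Nat.beq v' v) (Nat.beq mf' mf)) (getC cl' w)) (getC cl w)) nw

theorem eqVM_iff {cl cl' : Cl} {nw : ℕ} (h : eqVM cl cl' nw = true) :
    ∀ w < nw, (getC cl' w).v = (getC cl w).v ∧ (getC cl' w).mf = (getC cl w).mf := by
  intro w hw
  have h1 := (allN_iff _ _).1 h w hw
  revert h1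
  cases getC cl w with
  | mk R v mf SI SW RV CO sl =>
    cases getC cl' w with
    | mk R' v' mf' SI' SW' RV' CO' sl' =>
      intro h1
      have h2 : andB (Nat.beq v' v) (Nat.beq mf' mf) = true := h1
      rw [andB_eq, Bool.and_eq_true, Nat.beq_eq, Nat.beq_eq] at h2
      exact h2

/-- the next stage: `ft` = new bit (`9` = none), `m` = value of the new bit -/
theorem next_stage {sh : Shape} {O : OccS sh} {D F nw t B : ℕ} {cl : Cl}
    (h : CovB O D F nw cl t B 0) (D' F' ft m : ℕ) {tl : Tl} {cl' : Cl} (hF : Nat.ble 1 F = true)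
    (hD' : Nat.ble 1 D' = true) (hF' : Nat.ble 1 F' = true) (hft : Nat.ble ft 9 = true)
    (hB : Nat.ble (B + m) 64 = true) (hvm : eqVM cl cl' nw = true)
    (hwf : ∀ w < nw, wfC D' F' (getC cl' w) = true)
    (hck : ∀ w < nw, rfCk D F D' F' ft (262144 * m) w tl cl cl' = true) :
    CovB O D' F' nw cl' t (B + m) (F' - 1) := by
  obtain ⟨ow, h1, pos, G, hR, hG⟩ := h
  rw [Nat.ble_eq] at hF hD' hF' hft hB
  have hvm' := eqVM_iff hvm
  have hidx : ∀ w ∈ sh.W, sh.W.idxOf w < nw := fun w hw =>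
    lt_of_lt_of_le (idx_lt hw) hR.len
  have hm : ∀ c, m * bt ft c ≤ m := fun c => by
    have := bt_lt ft c
    have h2 : bt ft c ≤ 1 := by omega
    calc m * bt ft c ≤ m * 1 := Nat.mul_le_mul_left _ h2
      _ = m := Nat.mul_one _
  obtain ⟨pos', G', h2, h3⟩ := refine_stage hR hG hF hF' hck hft
    (fun w hw => wfC_iff hD' (hwf w hw))
    (fun w hw => ((hvm' _ (hidx w hw)).1).trans (hR.v w hw))
    (fun w hw => ((hvm' _ (hidx w hw)).2).trans (hR.mf w hw))
    (fun c => by
      have := h1 c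
      have := hm c
      omega)
  exact ⟨_, fun c => by
    have := h1 c
    have := hm c
    show ow c + m * bt ft c < B + m
    omega, pos', G', h2, h3⟩

/-- the last stage -/
theorem last_stage {sh : Shape} {O : OccS sh} {D F nw t B : ℕ} {cl : Cl}
    (h : CovB O D F nw cl t B 0) (hF : Nat.ble 1 F = true)
    (hck : ∀ w < nw, deadCk D F (getC cl w) = true) : False := by
  obtain ⟨ow, h1, pos, G, hR, hG⟩ := h
  rw [Nat.ble_eq] at hF
  exact stage_dead hR.toRz hG hF hck

/-! ### The families -/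

/-- the side rule which is always true, with masks -/
def occL7 {sh : Shape} (O : OccL sh (locOK (fun _ => true) (fun _ => true) (fun _ => true))) :
    OccL sh (locOK (Nat.testBit 7) (Nat.testBit 7) (Nat.testBit 7)) where
  toOccS := O.toOccS
  flat := by
    intro x y h
    have h1 := O.flat x y h
    have hk : x.k < 3 := (typ_bnd (O.toOccS.typ1 h)).k
    have h7 : Nat.testBit 7 x.k = true := by
      have : x.k = 0 ∨ x.k = 1 ∨ x.k = 2 := by omega
      rcases this with e | e | e <;> rw [e] <;> decide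
    unfold flatR at h1 ⊢
    rw [decide_eq_true_eq] at h1 ⊢
    intro h3
    have h4 := h1 h3
    unfold locOK at h4 ⊢
    rw [h7]
    exact h4

theorem dead_P {n : ℕ} {p : ℕ × ℕ × ℕ} (a b c : ℕ)
    (h1 : chkLoc p a.testBit b.testBit c.testBit = true) {nw : ℕ} {cl : Cl}
    (h2 : recCk (recP n p a b c).W nw cl = true)
    (h3 : OccL (recP n p a b c) (locOK a.testBit b.testBit c.testBit) → False) :
    ∃ ok, OkP p ok ∧ IsEmpty (LTil (shP n p ok)) := by
  unfold recCk at h2
  simp only [andB_eq, Bool.and_eq_true] at h2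
  exact deadP a b c h1 h2.1 h3

theorem dead_U {n : ℕ} {u : ℤ × ℤ × ℤ} {nw : ℕ} {cl : Cl} (h2 : recCk (recU n u).W nw cl = true)
    (h3 : OccL (recU n u) (locOK (Nat.testBit 7) (Nat.testBit 7) (Nat.testBit 7)) → False) :
    ∃ ok, OkU u ok ∧ IsEmpty (LTil (shU n u ok)) := by
  unfold recCk at h2
  simp only [andB_eq, Bool.and_eq_true] at h2
  exact deadU h2.1 (fun O => h3 (occL7 O))

end Pool.Agent.NNe
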