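import Pool.Agent.NNe.Core

/-!
# The engine of MP_4b6a99_co: checks of the tables of a stage (kernel side)

Code of a dart in a class (24 bits), from the lowest bits: far class `w2` (6 bits), `lb2`, `a2`
(labels across and own at the far node), `b` (side across), `lb` (label across), `k` (own side), `a`
(own label), 2 bits each, own colour (6 bits).
Tag of a side: `code / 2 ^ 14 = k + 4 * a + 16 * (own colour)`.
Slot: `code / 2 ^ 6` without the colour.
-/

namespace Pool.Agent.NNe

/-! ### Generic functions -/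

/-- conjunction, the second argument is evaluated only if the first one is true -/
noncomputable def andB (a b : Bool) : Bool := Bool.rec (motive := fun _ => Bool) false b a

/-- disjunction -/
noncomputable def orB (a b : Bool) : Bool := Bool.rec (motive := fun _ => Bool) b true a

/-- implication -/
noncomputable def impB (a b : Bool) : Bool := Bool.rec (motive := fun _ => Bool) true b a

/-- negation -/
noncomputable def notB (a : Bool) : Bool := Bool.rec (motive := fun _ => Bool) true false a

/-- choice of numbers -/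
noncomputable def ifN (c : Bool) (a b : ℕ) : ℕ := Bool.rec (motive := fun _ => ℕ) b a c

/-- the bit `i` of `n` -/
noncomputable def bitB (n i : ℕ) : Bool :=
  Nat.beq (Nat.mod (Nat.shiftRight n i) (nat_lit 2)) (nat_lit 1)

/-- all `i < k` -/
noncomputable def allN (f : ℕ → Bool) (k : ℕ) : Bool :=
  Nat.rec (motive := fun _ => Bool) true (fun i r => andB (f i) r) k

/-- all members of a list of sides, with their numbers `i, i + 1, ...` -/
noncomputable def allS (f : ℕ → Sd → Bool) (l : Sl) : ℕ → Bool :=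
  Sl.rec (motive := fun _ => ℕ → Bool) (fun _ => true)
    (fun s _ ih i => andB (f i s) (ih (Nat.succ i))) l

/-- all entries `r X p` -/
noncomputable def allR (f : ℕ → ℕ → Bool) (bl : Bl) : Bool :=
  Bl.rec (motive := fun _ => Bool) true (fun X p _ r => andB (f X p) r) (fun _ _ _ _ r => r) bl

/-- the entry `c X k p` with the given `k`, `p` and the same `X` exists -/
noncomputable def hasC (bl : Bl) (X k p : ℕ) : Bool :=
  Bl.rec (motive := fun _ => Bool) false (fun _ _ _ r => r)
    (fun X' k' p' _ r => orB (andB (Nat.beq p' p) (andB (Nat.beq k' k) (Nat.beq X' X))) r) bl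

/-- the matrix of the first entry `r X p` -/
noncomputable def findR (bl : Bl) (p : ℕ) : ℕ :=
  Bl.rec (motive := fun _ => ℕ) (nat_lit 0) (fun X p' _ r => ifN (Nat.beq p' p) X r)
    (fun _ _ _ _ r => r) bl

/-- the fields `o, ..., o + q - 1` of `b` bits of the table `T`, masked by `msk`, are all `v` -/
noncomputable def allF (T b o q msk v : ℕ) : Bool :=
  Nat.beq (Nat.land (Nat.shiftRight T (Nat.mul b o)) (Nat.mul msk (geoK b q)))
    (Nat.mul v (geoK b q))

/-! ### Well-formed class data -/

/-- the subdivision covers `j, ..., q - 1` and has the right labels across -/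
noncomputable def sbOK (CO o q : ℕ) (sb : Sb) : ℕ → Bool :=
  Sb.rec (motive := fun _ => ℕ → Bool) (fun j => Nat.beq j q)
    (fun b4 j0 n _ ih j => andB (Nat.beq j0 j)
      (andB (allF CO (nat_lit 24) (Nat.add o j0) n (nat_lit 12288) (Nat.mul (nat_lit 1024) b4))
      (ih (Nat.add j n)))) sb

/-- well-formed class data -/
noncomputable def wfC (D F : ℕ) (cd : Cd) : Bool :=
  Cd.rec (motive := fun _ => Bool) (fun R _ _ SI _ _ CO sl =>
    Sl.rec (motive := fun _ => ℕ → ℕ → Bool) (fun _ o => Nat.beq o R)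
      (fun s _ ih i o => Sd.rec (motive := fun _ => Bool) (fun t a4 o' q sb bl =>
        andB (Nat.beq o' o) (andB (Nat.ble (Nat.succ q) D)
        (andB (Nat.beq a4 (Nat.mul (nat_lit 4) (Nat.mod (Nat.div t (nat_lit 4)) (nat_lit 4))))
        (andB (allF CO (nat_lit 24) o q (nat_lit 16760832) (Nat.mul (nat_lit 16384) t))
        (andB (allF SI (nat_lit 10) o q (nat_lit 1023) i)
        (andB (sbOK CO o q sb (nat_lit 0))
        (andB (allR (fun X p => Sd.rec (motive := fun _ => Bool) (fun _ _ _ _ _ bl' =>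
            hasC bl' X (Nat.mul F q) i) (getS sl p)) bl)
          (ih (Nat.succ i) (Nat.add o q))))))))) s) sl (nat_lit 0) (nat_lit 0)) cd

/-! ### Starts -/

/-- the tag belongs to backward darts with the label `s` -/
noncomputable def stTag (s t : ℕ) : Bool :=
  orB (Nat.beq (Nat.mod t (nat_lit 16)) (Nat.add (Nat.mul (nat_lit 4) s)
      (Nat.mod (Nat.add s (nat_lit 2)) (nat_lit 3))))
    (andB (Nat.beq s (nat_lit 3)) (Nat.ble (nat_lit 12) (Nat.mod t (nat_lit 16))))

/-- lists of ranges -/
inductive Rl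
  | nil
  | cons (o n : ℕ) (tl : Rl)

/-- the ranges are consecutive, from `o` on; the result is `1 +` the end (`0` = failure) -/
noncomputable def rlEnd (rl : Rl) : ℕ → ℕ :=
  Rl.rec (motive := fun _ => ℕ → ℕ) (fun e => Nat.succ e)
    (fun o n _ ih e => ifN (Nat.beq o e) (ih (Nat.add e n)) (nat_lit 0)) rl

/-- all starts with the label `s` are in the ranges, and the class has a tile with the label `s` -/
noncomputable def stCov (s lo : ℕ) (rl : Rl) (cd : Cd) : Bool :=
  Cd.rec (motive := fun _ => Bool) (fun _ _ mf _ _ _ _ sl =>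
    andB (Nat.ble (nat_lit 1) (Nat.mod (Nat.shiftRight mf (Nat.mul (nat_lit 4) s)) (nat_lit 16)))
      (allS (fun _ sd => Sd.rec (motive := fun _ => Bool) (fun t _ o q _ _ =>
        impB (stTag s t) (andB (Nat.ble lo o) (Nat.ble (Nat.succ (Nat.add o q)) (rlEnd rl lo))))
        sd) sl (nat_lit 0))) cd

/-- lists of lists of starts -/
inductive ZZ
  | nil
  | cons (z : Zl) (tl : ZZ)

/-- the dart `x` of the class `w` is a start of one of the lists -/
noncomputable def inZZ (zz : ZZ) (w x : ℕ) : Bool :=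
  ZZ.rec (motive := fun _ => Bool) false
    (fun zl _ r => orB (getZ zl false (fun oS _ nS =>
      andB (Nat.ble oS x) (Nat.ble (Nat.succ x) (Nat.add oS nS))) w) r) zz

/-- all backward darts with the label `s` of the class `w` are starts -/
noncomputable def tiCov (s w : ℕ) (zz : ZZ) (cd : Cd) : Bool :=
  Cd.rec (motive := fun _ => Bool) (fun _ _ _ _ _ _ _ sl =>
    allS (fun _ sd => Sd.rec (motive := fun _ => Bool) (fun t _ o q _ _ =>
      impB (stTag s t) (allN (fun i => inZZ zz w (Nat.add o i)) q)) sd) sl (nat_lit 0)) cd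

/-- all starts have numbers below `N` -/
noncomputable def zlOK (N : ℕ) (zl : Zl) : Bool :=
  Zl.rec (motive := fun _ => Bool) true
    (fun _ z0 nS _ r => andB (Nat.ble (Nat.add z0 nS) N) r) zl

/-! ### The plain stage: the darts of a class -/

/-- lists of slots -/
inductive Fl
  | nil
  | cons (c : ℕ) (tl : Fl)

/-- lists of near labels with the possible slots -/
inductive Nl
  | nil
  | cons (a lb : ℕ) (fl : Fl) (tl : Nl)

/-- masks of the classes with at least one (two) tiles with the label 0, 1, 2, 3 -/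
inductive Mk
  | mk (a0 a1 a2 a3 b0 b1 b2 b3 : ℕ)

/-- choice of four -/
noncomputable def sel4 (a0 a1 a2 a3 l : ℕ) : ℕ :=
  Nat.rec (motive := fun _ => ℕ) a0 (fun l _ => Nat.rec (motive := fun _ => ℕ) a1
    (fun l _ => Nat.rec (motive := fun _ => ℕ) a2 (fun _ _ => a3) l) l) l

/-- mask of the classes in which the labels `a`, `lb` can be neighbours -/
noncomputable def nearM (mk : Mk) (a lb : ℕ) : ℕ :=
  Mk.rec (motive := fun _ => ℕ) (fun a0 a1 a2 a3 b0 b1 b2 b3 =>
    ifN (Nat.beq a lb) (sel4 b0 b1 b2 b3 a)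
      (Nat.land (sel4 a0 a1 a2 a3 a) (sel4 a0 a1 a2 a3 lb))) mk

/-- the number of bits `i < n` of `m` -/
noncomputable def cntM (m n : ℕ) : ℕ :=
  Nat.rec (motive := fun _ => ℕ) (nat_lit 0)
    (fun i r => Nat.add r (Nat.mod (Nat.shiftRight m i) (nat_lit 2))) n

/-- the list of the bits `i < n` of `m`, fields of 24 bits -/
noncomputable def lstM (m n : ℕ) : ℕ :=
  Nat.rec (motive := fun _ => ℕ) (nat_lit 0)
    (fun i r => lit (fun w => ifN (bitB m w) (Nat.add (Nat.shiftLeft r (nat_lit 24)) w) r)
      (Nat.sub n (Nat.succ i))) n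

/-- the darts `i, i + 1, ...` have the codes of the slot `c` with the far classes in `m`; `i` and the
result are `1 +` the number of the next dart, `0` = failure -/
noncomputable def scanM (CO c nw m i : ℕ) : ℕ :=
  ifN (Nat.beq (Nat.land (Nat.shiftRight CO (Nat.mul (nat_lit 24) (Nat.pred i)))
      (Nat.mul (nat_lit 16777215) (geoK (nat_lit 24) (cntM m nw))))
      (Nat.add (lstM m nw) (Nat.mul (Nat.mul (nat_lit 64) c) (geoK (nat_lit 24) (cntM m nw)))))
    (Nat.add i (cntM m nw)) (nat_lit 0)

/-- all slots of the list -/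
noncomputable def scanF (mk : Mk) (CO VM nw : ℕ) (fl : Fl) : ℕ → ℕ :=
  Fl.rec (motive := fun _ => ℕ → ℕ) (fun i => i)
    (fun c _ ih i => Nat.rec (motive := fun _ => ℕ) (nat_lit 0) (fun _ _ =>
      lit ih (lit (fun m => scanM CO c nw m i)
        (Nat.land (nearM mk (Nat.mod (Nat.div c (nat_lit 4)) (nat_lit 4))
          (Nat.mod c (nat_lit 4))) VM))) i) fl

/-- all near labels of the list -/
noncomputable def scanN (mk : Mk) (CO VM nw w : ℕ) (nl : Nl) : ℕ → ℕ :=
  Nl.rec (motive := fun _ => ℕ → ℕ) (fun i => i)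
    (fun a lb fl _ ih i => lit ih (Bool.rec (motive := fun _ => ℕ) i (scanF mk CO VM nw fl i)
      (bitB (nearM mk a lb) w))) nl

/-- the bits `i, ..., i + n - 1` of all `R` fields of 24 bits of the table -/
noncomputable def bitsT (T i n R : ℕ) : ℕ :=
  Nat.land T (Nat.mul (Nat.shiftLeft (Nat.pred (Nat.shiftLeft (nat_lit 1) n)) i)
    (geoK (nat_lit 24) R))

/-- the codes of the darts across, for all fields of the table (without colours) -/
noncomputable def swT (T R : ℕ) : ℕ :=
  Nat.add (bitsT T (nat_lit 0) (nat_lit 6) R)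
    (Nat.add (Nat.shiftLeft (bitsT T (nat_lit 6) (nat_lit 2) R) (nat_lit 2))
    (Nat.add (Nat.shiftRight (bitsT T (nat_lit 8) (nat_lit 2) R) (nat_lit 2))
    (Nat.add (Nat.shiftLeft (bitsT T (nat_lit 10) (nat_lit 4) R) (nat_lit 4))
      (Nat.shiftRight (bitsT T (nat_lit 14) (nat_lit 4) R) (nat_lit 4)))))

/-- the codes of the reversed darts, for all fields of the table (without colours); `w` = the class
of the darts -/
noncomputable def rvT (w T R : ℕ) : ℕ :=
  Nat.add (Nat.mul w (geoK (nat_lit 24) R))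
    (Nat.add (Nat.shiftRight (bitsT T (nat_lit 12) (nat_lit 2) R) (nat_lit 6))
    (Nat.add (Nat.shiftRight (bitsT T (nat_lit 16) (nat_lit 2) R) (nat_lit 8))
    (Nat.add (bitsT T (nat_lit 10) (nat_lit 2) R)
    (Nat.add (Nat.shiftLeft (bitsT T (nat_lit 6) (nat_lit 2) R) (nat_lit 6))
    (Nat.add (bitsT T (nat_lit 14) (nat_lit 2) R)
      (Nat.shiftLeft (bitsT T (nat_lit 8) (nat_lit 2) R) (nat_lit 8)))))))

/-- the reversal data `rv` of a dart; `w2` = far class, `e'` = code of the reversed dart, `R'`, `v'`,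
`CO'` = data of the far class, `tt` = tag of the starts of the tiles -/
noncomputable def plR (tt w2 e' rv : ℕ) (cd' : Cd) : Bool :=
  Cd.rec (motive := fun _ => Bool) (fun R' v' _ _ _ _ CO' _ =>
    andB (Nat.ble (Nat.succ (Nat.mod rv (nat_lit 8192))) R')
    (andB (Nat.beq (ext CO' (nat_lit 24) (Nat.mod rv (nat_lit 8192))) e')
    (Nat.beq (Nat.div rv (nat_lit 8192)) (Nat.add w2
      (Nat.mul (nat_lit 64) (Nat.add (Nat.sub v' (nat_lit 3))
        (ifN (Nat.beq (Nat.div e' (nat_lit 16384)) tt) (nat_lit 16) (nat_lit 0)))))))) cd'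

/-- the table entries of the dart `x` of the class `w` of the plain stage; `ST`, `RT` = codes of the
darts across and of the reversed darts -/
noncomputable def plD (cl : Cl) (tt R SW RV CO ST RT x : ℕ) : Bool :=
  andB (impB (Nat.ble (Nat.add x (nat_lit 2)) R)
      (Nat.ble (Nat.succ (ext CO (nat_lit 24) x)) (ext CO (nat_lit 24) (Nat.succ x))))
    (andB (Nat.ble (Nat.succ (ext SW (nat_lit 13) x)) R)
    (andB (Nat.beq (ext CO (nat_lit 24) (ext SW (nat_lit 13) x)) (ext ST (nat_lit 24) x))
      (plR tt (Nat.mod (ext CO (nat_lit 24) x) (nat_lit 64)) (ext RT (nat_lit 24) x)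
        (ext RV (nat_lit 24) x) (getCL cl (Nat.mod (ext CO (nat_lit 24) x) (nat_lit 64))))))

/-! ### The plain stage: coverage of the legal pairs -/

/-- remove one tile with the label shift `l4` from the counts (alive flag `65536`) -/
noncomputable def takeD (m l4 : ℕ) : ℕ :=
  ifN (Nat.beq (Nat.mod (Nat.shiftRight m l4) (nat_lit 16)) (nat_lit 0)) (nat_lit 0)
    (Nat.sub m (Nat.shiftLeft (nat_lit 1) l4))

/-- the counts allow three tiles with the given labels -/
noncomputable def cmpL (mf a4 x4 y4 : ℕ) : Bool :=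
  Nat.ble (nat_lit 1) (takeD (takeD (takeD (Nat.add mf (nat_lit 65536)) a4) x4) y4)

/-- columns with a label across which is possible together with the labels `a4`, `x4` -/
noncomputable def maskL (mf a4 x4 : ℕ) (sb : Sb) : ℕ :=
  Sb.rec (motive := fun _ => ℕ) (nat_lit 0) (fun b4 j0 n _ r =>
    Nat.lor (ifN (cmpL mf a4 x4 b4) (Nat.shiftLeft (Nat.pred (Nat.shiftLeft (nat_lit 1) n)) j0)
      (nat_lit 0)) r) sb

/-- field `v` of `D` bits: the columns with a far node of valence at most `v` -/
noncomputable def maskV (D VT CO o q : ℕ) : ℕ :=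
  Nat.rec (motive := fun _ => ℕ) (nat_lit 0) (fun j r => Nat.lor (lit (fun v =>
    Nat.shiftLeft (geoK D (Nat.sub (nat_lit 32) v)) (Nat.add (Nat.mul D v) j))
      (ext VT (nat_lit 5) (Nat.mod (ext CO (nat_lit 24) (Nat.add o j)) (nat_lit 64)))) r) q

/-- the type of the piece across of the dart with the code `e`: full + 2 (side 1) + 4 (far node is a
corner) -/
noncomputable def typF (e : ℕ) : ℕ :=
  Nat.add (ifN (orB (Nat.beq (Nat.mod (Nat.div e (nat_lit 4096)) (nat_lit 4)) (nat_lit 3))
      (Nat.beq (Nat.mod (Nat.div e (nat_lit 64)) (nat_lit 4)) (nat_lit 3)))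
      (nat_lit 0) (nat_lit 1))
    (Nat.add (ifN (Nat.beq (Nat.mod (Nat.div e (nat_lit 1024)) (nat_lit 4)) (nat_lit 1))
        (nat_lit 2) (nat_lit 0))
      (ifN (Nat.beq (Nat.mod (Nat.div e (nat_lit 256)) (nat_lit 4)) (nat_lit 3))
        (nat_lit 0) (nat_lit 4)))

/-- the local side rule on the side `k` for pieces of the types `x`, `y` -/
noncomputable def locK (a b c k x y : ℕ) : Bool :=
  Bool.rec (motive := fun _ => Bool)
    (orB (notB (Nat.beq (Nat.land (Nat.land x y) (nat_lit 6)) (nat_lit 6))) (bitB c k))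
    (andB (bitB (Nat.land x y) (nat_lit 1)) (andB (notB (Nat.beq k (nat_lit 1)))
      (orB (bitB a k) (andB (bitB b k) (bitB (Nat.land x y) (nat_lit 2))))))
    (bitB (Nat.land x y) (nat_lit 0))

/-- field `t` of `D` bits: the forward darts of the type `t` on the side `k` -/
noncomputable def maskT (D k CO o q : ℕ) : ℕ :=
  Nat.rec (motive := fun _ => ℕ) (nat_lit 0) (fun j r => Nat.lor (lit (fun e =>
    ifN (Nat.beq (Nat.mod (Nat.div e (nat_lit 256)) (nat_lit 4)) k) (nat_lit 0)
      (Nat.shiftLeft (nat_lit 1) (Nat.add (Nat.mul D (typF e)) j)))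
      (ext CO (nat_lit 24) (Nat.add o j))) r) q

/-- the columns which are possible by the side rule for a row of the type `x` -/
noncomputable def maskF (D a b c k TY x : ℕ) : ℕ :=
  Nat.rec (motive := fun _ => ℕ) (nat_lit 0) (fun y r => Nat.lor (ifN (locK a b c k x y)
    (Nat.mod (Nat.shiftRight TY (Nat.mul D y)) (Nat.shiftLeft (nat_lit 1) D)) (nat_lit 0)) r)
    (nat_lit 8)

/-- all what matters for the possible columns of a backward dart with the code `e`: label across
(4 bits), bound for the valence of the other far node (6 bits), `1 +` type or `0` = not backward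
(only for flat nodes) -/
noncomputable def keyE (n v VT t e : ℕ) : ℕ :=
  Nat.add (Nat.mod (Nat.div e (nat_lit 4096)) (nat_lit 4)) (Nat.mul (nat_lit 16)
    (Nat.add (Nat.sub (Nat.add n (nat_lit 6)) (Nat.add v (ext VT (nat_lit 5)
        (Nat.mod e (nat_lit 64)))))
      (Nat.mul (nat_lit 64) (Bool.rec (motive := fun _ => ℕ) (nat_lit 0)
        (ifN (Nat.beq (Nat.mod (Nat.div e (nat_lit 256)) (nat_lit 4))
          (Nat.mod (Nat.sub t (nat_lit 11)) (nat_lit 3))) (nat_lit 0) (Nat.succ (typF e)))
        (Nat.ble (nat_lit 12) t)))))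

/-- the columns of a side which are possible for a backward dart with the key `y` -/
noncomputable def maskK (D a b c mf VT CO t a4 o' q' : ℕ) (sb' : Sb) (y : ℕ) : ℕ :=
  Nat.land (Nat.land (maskL mf a4 (Nat.mul (nat_lit 4) (Nat.mod y (nat_lit 16))) sb')
    (Nat.shiftRight (maskV D VT CO o' q') (Nat.mul D (Nat.mod (Nat.div y (nat_lit 16))
      (nat_lit 64)))))
    (Bool.rec (motive := fun _ => ℕ) (Nat.pred (Nat.shiftLeft (nat_lit 1) D))
      (Nat.rec (motive := fun _ => ℕ) (nat_lit 0) (fun x _ =>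
        maskF D a b c (Nat.sub t (nat_lit 12)) (maskT D (Nat.sub t (nat_lit 12)) CO o' q') x)
        (Nat.div y (nat_lit 1024)))
      (Nat.ble (nat_lit 12) t))

/-- the columns of a side which are possible for a backward dart with the (reduced) code `e` -/
noncomputable def maskE (D n a b c v mf VT CO t a4 o' q' : ℕ) (sb' : Sb) (e : ℕ) : ℕ :=
  lit (maskK D a b c mf VT CO t a4 o' q' sb') (keyE n v VT t e)

/-- the part of the code which matters for the possible columns -/
noncomputable def redE (t : ℕ) : ℕ := ifN (Nat.ble (nat_lit 12) t) (nat_lit 16383) (nat_lit 12351)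

/-- the base tag belongs to rows -/
noncomputable def inTag (g : ℕ) : Bool :=
  orB (Nat.ble (nat_lit 12) g) (Nat.beq (Nat.mod g (nat_lit 4))
    (Nat.mod (Nat.add (Nat.div g (nat_lit 4)) (nat_lit 2)) (nat_lit 3)))

/-- the base tag of the columns for the base tag of the rows -/
noncomputable def ptTag (g : ℕ) : ℕ :=
  ifN (Nat.ble (nat_lit 12) g) g (Nat.mul (nat_lit 5) (Nat.div g (nat_lit 4)))

/-- the side with the tag `t'` contains the columns for the rows of the side with the tag `t` -/
noncomputable def mtTag (t t' : ℕ) : Bool :=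
  andB (inTag (Nat.mod t (nat_lit 16)))
    (Nat.beq t' (Nat.add (Nat.mul (nat_lit 16) (Nat.div t (nat_lit 16)))
      (ptTag (Nat.mod t (nat_lit 16)))))

/-- the mask `E` is contained in the mask `r` -/
noncomputable def inM (E r : ℕ) : Bool := Nat.beq (Nat.lor r E) r

/-- the last field of the row `i` of the matrix `X` -/
noncomputable def lastF (D F X i : ℕ) : ℕ :=
  Nat.shiftRight (rowY X (Nat.mul F D) i) (Nat.mul (Nat.pred F) D)

/-- valences of the classes `w < nw`, 5 bits each -/
noncomputable def vtT (cl : Cl) (nw : ℕ) : ℕ :=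
  Nat.rec (motive := fun _ => ℕ) (nat_lit 0) (fun w r => Nat.add r
    (Nat.shiftLeft (Cd.rec (motive := fun _ => ℕ) (fun _ v _ _ _ _ _ _ => v) (getC cl w))
      (Nat.mul (nat_lit 5) w))) nw

/-- mask of the classes `w < nw` with valence at most `u` -/
noncomputable def vmM (cl : Cl) (u nw : ℕ) : ℕ :=
  Nat.rec (motive := fun _ => ℕ) (nat_lit 0) (fun w r => Nat.add r
    (ifN (Nat.ble (Cd.rec (motive := fun _ => ℕ) (fun _ v _ _ _ _ _ _ => v) (getC cl w)) u)
      (Nat.shiftLeft (nat_lit 1) w) (nat_lit 0))) nw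

/-- mask of the classes `w < nw` with at least `k` tiles with the label `l` -/
noncomputable def clM (cl : Cl) (l k nw : ℕ) : ℕ :=
  Nat.rec (motive := fun _ => ℕ) (nat_lit 0) (fun w r => Nat.add r
    (ifN (Nat.ble k (Nat.mod (Nat.shiftRight
      (Cd.rec (motive := fun _ => ℕ) (fun _ _ mf _ _ _ _ _ => mf) (getC cl w))
      (Nat.mul (nat_lit 4) l)) (nat_lit 16))) (Nat.shiftLeft (nat_lit 1) w) (nat_lit 0))) nw

/-- all masks of labels -/
noncomputable def mkM (cl : Cl) (nw : ℕ) : Mk :=
  Mk.mk (clM cl (nat_lit 0) (nat_lit 1) nw) (clM cl (nat_lit 1) (nat_lit 1) nw)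
    (clM cl (nat_lit 2) (nat_lit 1) nw) (clM cl (nat_lit 3) (nat_lit 1) nw)
    (clM cl (nat_lit 0) (nat_lit 2) nw) (clM cl (nat_lit 1) (nat_lit 2) nw)
    (clM cl (nat_lit 2) (nat_lit 2) nw) (clM cl (nat_lit 3) (nat_lit 2) nw)

/-- the coverage between two sides of the plain stage -/
noncomputable def plE (D F n a b c v mf VT CO t a4 o q : ℕ) (bl : Bl) (p o' q' : ℕ) (sb' : Sb) :
    Bool :=
  allN (fun i => inM (lit (maskE D n a b c v mf VT CO t a4 o' q' sb')
    (Nat.land (ext CO (nat_lit 24) (Nat.add o i)) (redE t))) (lastF D F (findR bl p) i)) q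

/-- the checks of the class `w` of the plain stage: `n` total weight, `a`, `b`, `c` masks of the
local side rule, `nl` slots, `tt` tag of the starts of the tiles -/
noncomputable def plCk (D F n a b c nw tt w : ℕ) (nl : Nl) (cl : Cl) : Bool :=
  Cd.rec (motive := fun _ => Bool) (fun R v mf _ SW RV CO sl =>
    andB (Nat.beq (scanN (mkM cl nw) CO (vmM cl (Nat.sub (Nat.add n (nat_lit 3)) v) nw) nw w nl
      (nat_lit 1)) (Nat.succ R))
    (andB (allN (plD cl tt R SW RV CO (swT CO R) (rvT w CO R)) R)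
      (allS (fun _ s => Sd.rec (motive := fun _ => Bool) (fun t a4 o q _ bl =>
        allS (fun p s' => Sd.rec (motive := fun _ => Bool) (fun t' _ o' q' sb' _ =>
          impB (mtTag t t') (plE D F n a b c v mf (vtT cl nw) CO t a4 o q bl p o' q' sb')) s')
          sl (nat_lit 0)) s) sl (nat_lit 0))))
    (getC cl w)

/-! ### Refinement stages -/

/-- data of a refinement for a class: mask of the darts which are in a pair of survivors, mask of
the darts with all four views in it, new dart for `4 * (old dart) + 2 * (own bit) + (bit across)`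
(13 bits), the inverse table (15 bits) -/
inductive Tr
  | mk (AL A4 IX OL : ℕ)

/-- lists of data -/
inductive Tl
  | nil
  | cons (r : Tr) (tl : Tl)

/-- the data of the class `i` -/
noncomputable def getT (l : Tl) : ℕ → Tr :=
  Tl.rec (motive := fun _ => ℕ → Tr)
    (fun _ => Tr.mk (nat_lit 0) (nat_lit 0) (nat_lit 0) (nat_lit 0))
    (fun c _ ih i => Nat.rec (motive := fun _ => Tr) c (fun j _ => ih j) i) l

/-- the data of the class `w`, evaluated once for every value of `w` -/
noncomputable def getTL (l : Tl) (w : ℕ) : Tr :=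
  Nat.rec (motive := fun _ => Tr) (Tr.mk (nat_lit 0) (nat_lit 0) (nat_lit 0) (nat_lit 0))
    (fun i _ => getT l i) (Nat.succ w)

/-- the union of the fields `0` of the rows `i < q` of a matrix -/
noncomputable def orRows (D FD X q : ℕ) : ℕ :=
  Nat.rec (motive := fun _ => ℕ) (nat_lit 0) (fun i r =>
    Nat.lor (Nat.mod (rowY X FD i) (Nat.shiftLeft (nat_lit 1) D)) r) q

/-- `AL` contains all rows and columns of survivors -/
noncomputable def alCk (D F AL : ℕ) (cd : Cd) : Bool :=
  Cd.rec (motive := fun _ => Bool) (fun _ _ _ _ _ _ _ sl =>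
    allS (fun _ s => Sd.rec (motive := fun _ => Bool) (fun _ _ o q _ bl =>
      allR (fun X p => andB
        (allN (fun i => orB (bitB AL (Nat.add o i)) (Nat.beq (Nat.mod (rowY X (Nat.mul F D) i)
          (Nat.shiftLeft (nat_lit 1) D)) (nat_lit 0))) q)
        (Sd.rec (motive := fun _ => Bool) (fun _ _ o' _ _ _ =>
          inM (orRows D (Nat.mul F D) X q) (Nat.shiftRight AL o')) (getS sl p))) bl) s)
      sl (nat_lit 0)) cd

/-- the reversed dart is in a pair of survivors -/
noncomputable def aliveR (tl : Tl) (rv : ℕ) : Bool :=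
  Tr.rec (motive := fun _ => Bool) (fun AL _ _ _ => bitB AL (Nat.mod rv (nat_lit 8192)))
    (getTL tl (Nat.mod (Nat.div rv (nat_lit 8192)) (nat_lit 64)))

/-- all darts of `AL` with all four views in `AL` are in `A4` -/
noncomputable def a4Ck (tl : Tl) (R SW RV M AL : ℕ) : Bool :=
  orB (Nat.beq M (nat_lit 0)) (allN (fun h => impB (bitB M h)
    (notB (andB (bitB AL (ext SW (nat_lit 13) h)) (andB (aliveR tl (ext RV (nat_lit 24) h))
      (aliveR tl (ext RV (nat_lit 24) (ext SW (nat_lit 13) h))))))) R)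

/-- the slot of the dart across -/
noncomputable def swS (s : ℕ) : ℕ :=
  Nat.add (Nat.mod (Nat.div s (nat_lit 4)) (nat_lit 4))
    (Nat.add (Nat.mul (nat_lit 4) (Nat.mod s (nat_lit 4)))
    (Nat.add (Nat.mul (nat_lit 16) (Nat.div s (nat_lit 256)))
      (Nat.mul (nat_lit 256) (Nat.mod (Nat.div s (nat_lit 16)) (nat_lit 16)))))

/-- values of a bit: `1` if it must be `0`, `2` if it must be `1` (`x` = the value), `3` = both if the
condition `c` is false -/
noncomputable def alwC (c x : Bool) : ℕ := ifN c (ifN x (nat_lit 2) (nat_lit 1)) (nat_lit 3)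

/-- the flat node rules for the tag `g` -/
noncomputable def alwT (g s : ℕ) : ℕ :=
  Nat.land (alwC (Nat.beq (Nat.div s (nat_lit 256)) g)
      (Nat.beq (Nat.mod (Nat.div s (nat_lit 64)) (nat_lit 4)) (nat_lit 3)))
    (alwC (Nat.beq (Nat.add (Nat.mod (Nat.div s (nat_lit 256)) (nat_lit 4))
        (Nat.mul (nat_lit 4) (Nat.mod (Nat.div s (nat_lit 4)) (nat_lit 4)))) g)
      (Nat.beq (Nat.mod s (nat_lit 4)) (nat_lit 3)))

/-- the possible values (`1`: `0`, `2`: `1`, `3`: both) of the bit `ft` of the colour of the own tile of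
a dart with the slot `s` (12 bits): `ft < 9`; `9` = no new bit -/
noncomputable def alwB (ft s : ℕ) : ℕ :=
  Bool.rec (motive := fun _ => ℕ)
    (Bool.rec (motive := fun _ => ℕ)
      (Bool.rec (motive := fun _ => ℕ) (nat_lit 1)
        (alwC (Nat.beq (Nat.mod (Nat.div s (nat_lit 256)) (nat_lit 4)) (Nat.sub ft (nat_lit 6)))
          (notB (orB (Nat.beq (Nat.div s (nat_lit 1024)) (nat_lit 3))
            (Nat.beq (Nat.mod (Nat.div s (nat_lit 4)) (nat_lit 4)) (nat_lit 3)))))
        (Nat.ble ft (nat_lit 8)))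
      (alwT (Nat.add (Nat.mul (nat_lit 4) (Nat.sub ft (nat_lit 3)))
        (Nat.mod (Nat.sub ft (nat_lit 1)) (nat_lit 3))) s)
      (Nat.ble ft (nat_lit 5)))
    (alwT (Nat.mul (nat_lit 5) ft) s)
    (Nat.ble ft (nat_lit 2))

/-- bit `2 b + b'`: the values `b`, `b'` of the own bit and the bit across are possible for the slot
`s` -/
noncomputable def alw4 (ft s : ℕ) : ℕ :=
  Bool.rec (motive := fun _ => ℕ)
    (Nat.mul (lit (alwB ft) (swS s)) (Nat.add (Nat.mod (alwB ft s) (nat_lit 2))
      (Nat.mul (nat_lit 4) (Nat.div (alwB ft s) (nat_lit 2)))))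
    (nat_lit 1) (Nat.beq ft (nat_lit 9))

/-- the codes `4 h + 2 b + b'` which must have a new dart, as a mask -/
noncomputable def expM (ft CO A4 R : ℕ) : ℕ :=
  Nat.rec (motive := fun _ => ℕ) (nat_lit 0) (fun h r => Bool.rec (motive := fun _ => ℕ) r
    (Nat.lor (Nat.shiftLeft (lit (alw4 ft) (Nat.mod (Nat.div (ext CO (nat_lit 24) h)
      (nat_lit 64)) (nat_lit 4096))) (Nat.mul (nat_lit 4) h)) r) (bitB A4 h)) R

/-- the codes which have a new dart, as a mask -/
noncomputable def gotM (OL R' : ℕ) : ℕ :=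
  Nat.rec (motive := fun _ => ℕ) (nat_lit 0) (fun i r =>
    Nat.lor (Nat.shiftLeft (nat_lit 1) (ext OL (nat_lit 15) i)) r) R'

/-- the new dart `i` with `c = 4 h + 2 b + b'`, `x = 2 b + b'`; `cb` = value of the new bit in the
codes -/
noncomputable def rfD (cb : ℕ) (tl : Tl) (SW RV CO SW' RV' CO' IX i c h x rv : ℕ) : Bool :=
  andB (Nat.beq (ext IX (nat_lit 13) c) i)
  (andB (Nat.beq (ext CO' (nat_lit 24) i) (Nat.add (ext CO (nat_lit 24) h)
    (Nat.mul cb (Nat.div x (nat_lit 2)))))
  (andB (Nat.beq (ext SW' (nat_lit 13) i) (ext IX (nat_lit 13)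
    (Nat.add (Nat.mul (nat_lit 4) (ext SW (nat_lit 13) h))
      (Nat.mod (Nat.div (Nat.mul (nat_lit 5) x) (nat_lit 2)) (nat_lit 4)))))
    (Tr.rec (motive := fun _ => Bool) (fun _ _ IX2 _ =>
      Nat.beq (ext RV' (nat_lit 24) i) (Nat.add (ext IX2 (nat_lit 13)
        (Nat.add (Nat.mul (nat_lit 4) (Nat.mod rv (nat_lit 8192))) x))
        (Nat.mul (nat_lit 8192) (Nat.div rv (nat_lit 8192)))))
      (getTL tl (Nat.mod (Nat.div rv (nat_lit 8192)) (nat_lit 64))))))

/-- the checks of the new darts of the class `w` -/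
noncomputable def rfN (cb : ℕ) (tl : Tl) (IX OL : ℕ) (cd cd' : Cd) : Bool :=
  Cd.rec (motive := fun _ => Bool) (fun _ _ _ _ SW RV CO _ =>
    Cd.rec (motive := fun _ => Bool) (fun R' _ _ _ SW' RV' CO' _ =>
      allN (fun i => litB (fun c => rfD cb tl SW RV CO SW' RV' CO' IX i c
        (Nat.div c (nat_lit 4)) (Nat.mod c (nat_lit 4)) (ext RV (nat_lit 24)
          (Nat.div c (nat_lit 4)))) (ext OL (nat_lit 15) i)) R') cd') cd

/-- the survivors (field `0`) between the rows with the entries `bl` (`q` rows) and the old darts of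
the new darts `o' + j`, `j < q'`: bit `j` of the fields of `FD` bits -/
noncomputable def gthM (FD : ℕ) (sl : Sl) (SI OL : ℕ) (bl : Bl) (q o' q' : ℕ) : ℕ :=
  Nat.rec (motive := fun _ => ℕ) (nat_lit 0) (fun j r => orN (lit (fun h =>
      Sd.rec (motive := fun _ => ℕ) (fun _ _ o _ _ _ =>
        Nat.shiftLeft (Nat.land (Nat.shiftRight (lit (findR bl) (ext SI (nat_lit 10) h))
          (Nat.sub h o)) (geoK FD q)) j) (sideOf sl SI h))
      (Nat.div (ext OL (nat_lit 15) (Nat.add o' j)) (nat_lit 4))) r) q'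

/-- the survivors in the row of the old dart `h` -/
noncomputable def gthR (FD : ℕ) (sl : Sl) (SI OL o' q' h : ℕ) : ℕ :=
  Sd.rec (motive := fun _ => ℕ) (fun _ _ o2 q2 _ bl2 =>
    rowY (gthM FD sl SI OL bl2 q2 o' q') FD (Nat.sub h o2)) (sideOf sl SI h)

/-- coverage of a refinement: all survivors occur among the new pairs -/
noncomputable def rfC (D F D' F' OL : ℕ) (cd cd' : Cd) : Bool :=
  Cd.rec (motive := fun _ => Bool) (fun _ _ _ SI _ _ _ sl =>
    Cd.rec (motive := fun _ => Bool) (fun _ _ _ _ _ _ _ sl' =>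
      allS (fun _ s => Sd.rec (motive := fun _ => Bool) (fun t _ o q _ bl =>
        allS (fun p s' => Sd.rec (motive := fun _ => Bool) (fun t' _ o' q' _ _ =>
          impB (mtTag t t') (andB (Nat.ble (Nat.succ q') (Nat.mul F D))
            (allN (fun i => inM (lit (gthR (Nat.mul F D) sl SI OL o' q')
              (Nat.div (ext OL (nat_lit 15) (Nat.add o i)) (nat_lit 4)))
              (lastF D' F' (findR bl p) i)) q)))
          s') sl' (nat_lit 0)) s) sl' (nat_lit 0)) cd') cd

/-- all checks of a refinement for the class `w`: `ft` = new bit, `cb` = value of the new bit in the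
codes -/
noncomputable def rfCk (D F D' F' ft cb w : ℕ) (tl : Tl) (cl cl' : Cl) : Bool :=
  Tr.rec (motive := fun _ => Bool) (fun AL A4 IX OL =>
    Cd.rec (motive := fun _ => Bool) (fun R' _ _ _ _ _ _ _ =>
      Cd.rec (motive := fun _ => Bool) (fun R _ _ _ SW RV CO _ =>
        andB (alCk D F AL (getC cl w))
        (andB (a4Ck tl R SW RV (Nat.xor AL (Nat.land AL A4)) AL)
        (andB (inM (expM ft CO A4 R) (gotM OL R'))
        (andB (rfN cb tl IX OL (getC cl w) (getC cl' w))
          (rfC D F D' F' OL (getC cl w) (getC cl' w)))))) (getC cl w)) (getC cl' w)) (getT tl w)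

/-- there are no survivors -/
noncomputable def deadCk (D F : ℕ) (cd : Cd) : Bool :=
  Cd.rec (motive := fun _ => Bool) (fun _ _ _ _ _ _ _ sl =>
    allS (fun _ s => Sd.rec (motive := fun _ => Bool) (fun _ _ _ q _ bl =>
      allR (fun X _ => Nat.beq (Nat.land X (Nat.mul (Nat.pred (Nat.shiftLeft (nat_lit 1) D))
        (geoK (Nat.mul F D) q))) (nat_lit 0)) bl) s) sl (nat_lit 0)) cd

end Pool.Agent.NNe
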