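import Mathlib.Data.Nat.Notation

/-!
# The engine of MP_4b6a99_co: packed matrices and the two dynamic programs

A *stage* has `T` times `0, ..., T - 1` (`T` = survivors) and `F = T + 1` fields: the field `f` of a
pair of darts is the bit: time at least `T - f`.  A packed matrix has rows of `F` fields of `D` bits
(bit `j` of a field = column `j`).

A value of the dynamic programs is a number with fields of `D` bits, `2 * J` fields for every start,
two for every lane `l < J`; the lane `l` belongs to the field `s + 2 * l` of the matrices.  The field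
`2 * l` (`2 * l + 1`) of a start has its bit `D - 1` set if there is a path to the start with all
pairs in the field `s + 2 * l` (and one of them not in the field `s + 2 * l - 1`).

All functions are written with recursors and raw literals, so that the kernel evaluates them fast;
the arguments of `V` and `U` are always literals, so the kernel cache makes the recursion a dynamic
program.
-/

namespace Pool.Agent.NNe

/-- entries of a side: a packed matrix between the side and the side number `p`; `r`: the darts of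
the side are the rows, `c`: they are the columns (`k` fields in total) -/
inductive Bl
  | nil
  | r (X p : ℕ) (tl : Bl)
  | c (X k p : ℕ) (tl : Bl)

/-- subdivision of a side by the label across: shift of the label, first index, number -/
inductive Sb
  | nil
  | cons (b4 j n : ℕ) (tl : Sb)

/-- a side: tag, shift of the label, first dart, number of darts, subdivision, entries -/
inductive Sd
  | mk (t a4 o q : ℕ) (sb : Sb) (bl : Bl)

/-- lists of sides -/
inductive Sl
  | nil
  | cons (s : Sd) (tl : Sl)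

/-- class data: number of darts, valence, counts of the labels (radix 16), packed tables:
sides (10 bits), darts across (13 bits), reversals (24 bits: dart, class, weight - 1, flag),
codes (22 bits); list of the sides -/
inductive Cd
  | mk (R v mf SI SW RV CO : ℕ) (sl : Sl)

/-- lists of class data -/
inductive Cl
  | nil
  | cons (c : Cd) (tl : Cl)

/-- starts of the tile program for every class: first dart, number of the first start, number of
starts -/
inductive Zl
  | nil
  | cons (oS z0 nS : ℕ) (tl : Zl)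

/-- parameters: bits of a field, bits of a row, shift of the lanes, mask of the lanes, replication -/
inductive Pm
  | mk (D FD s E REP : ℕ)

/-- apply `f` to the literal value of `n` -/
noncomputable def lit (f : ℕ → ℕ) (n : ℕ) : ℕ :=
  Nat.rec (motive := fun _ => ℕ) (nat_lit 0) (fun m _ => f m) (Nat.succ n)

/-- apply `f` to the literal value of `n` -/
noncomputable def litB (f : ℕ → Bool) (n : ℕ) : Bool :=
  Nat.rec (motive := fun _ => Bool) false (fun m _ => f m) (Nat.succ n)

/-- the field `i` of `b` bits of the packed table `T` -/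
noncomputable def ext (T b i : ℕ) : ℕ :=
  Nat.mod (Nat.shiftRight T (Nat.mul b i)) (Nat.shiftLeft (nat_lit 1) b)

/-- the side number `i` -/
noncomputable def getS (l : Sl) : ℕ → Sd :=
  Sl.rec (motive := fun _ => ℕ → Sd)
    (fun _ => Sd.mk (nat_lit 0) (nat_lit 0) (nat_lit 0) (nat_lit 0) Sb.nil Bl.nil)
    (fun s _ ih i => Nat.rec (motive := fun _ => Sd) s (fun j _ => ih j) i) l

/-- the side of the dart `x` -/
noncomputable def sideOf (sl : Sl) (SI x : ℕ) : Sd :=
  Nat.rec (motive := fun _ => Sd)
    (Sd.mk (nat_lit 0) (nat_lit 0) (nat_lit 0) (nat_lit 0) Sb.nil Bl.nil)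
    (fun i _ => getS sl i) (Nat.succ (ext SI (nat_lit 10) x))

/-- the row `i` of a packed matrix, `FD` bits -/
noncomputable def rowY (X FD i : ℕ) : ℕ :=
  Nat.mod (Nat.shiftRight X (Nat.mul FD i)) (Nat.shiftLeft (nat_lit 1) FD)

/-- `geo`, kernel form -/
noncomputable def geoK (D k : ℕ) : ℕ :=
  Nat.div (Nat.pred (Nat.shiftLeft (nat_lit 1) (Nat.mul D k)))
    (Nat.pred (Nat.shiftLeft (nat_lit 1) D))

/-- the column `j` of a packed matrix with `k` fields -/
noncomputable def colY (X D FD k j : ℕ) : ℕ :=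
  Nat.mod (Nat.land (Nat.shiftRight X j) (geoK D k))
    (Nat.sub (Nat.shiftLeft (nat_lit 1) FD) (nat_lit 2))

/-- the masks of all lanes, for both fields -/
noncomputable def maskG (D s E Y : ℕ) : ℕ :=
  lit (fun g => Nat.lor g (Nat.shiftLeft g D)) (Nat.land (Nat.shiftRight Y s) E)

/-- the masks of the exact times -/
noncomputable def maskX (D s E Y : ℕ) : ℕ :=
  Nat.land (Nat.shiftRight (Nat.xor Y (Nat.shiftLeft Y D)) s) E

/-- masks of the row `i`, for all starts -/
noncomputable def rG (pm : Pm) (X i : ℕ) : ℕ :=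
  Pm.rec (motive := fun _ => ℕ) (fun D FD s E REP => Nat.mul (maskG D s E (rowY X FD i)) REP) pm

/-- exact masks of the row `i`, for all starts -/
noncomputable def rX (pm : Pm) (X i : ℕ) : ℕ :=
  Pm.rec (motive := fun _ => ℕ) (fun D FD s E REP => Nat.mul (maskX D s E (rowY X FD i)) REP) pm

/-- masks of the column `i`, for all starts -/
noncomputable def cG (pm : Pm) (X k i : ℕ) : ℕ :=
  Pm.rec (motive := fun _ => ℕ) (fun D FD s E REP => Nat.mul (maskG D s E (colY X D FD k i)) REP)
    pm

/-- exact masks of the column `i`, for all starts -/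
noncomputable def cX (pm : Pm) (X k i : ℕ) : ℕ :=
  Pm.rec (motive := fun _ => ℕ) (fun D FD s E REP => Nat.mul (maskX D s E (colY X D FD k i)) REP)
    pm

/-- `a ||| b`, fast if `b = 0` -/
noncomputable def orN (a b : ℕ) : ℕ :=
  Bool.rec (motive := fun _ => ℕ) (Nat.lor a b) a (Nat.beq b (nat_lit 0))

/-- `(v >>> k) ||| r`, fast if `v = 0` -/
noncomputable def orShr (v k r : ℕ) : ℕ :=
  Bool.rec (motive := fun _ => ℕ) (Nat.lor (Nat.shiftRight v k) r) r (Nat.beq v (nat_lit 0))

/-- selection: `B` the collected values, `g`, `x` the masks -/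
noncomputable def cmb (D B g x : ℕ) : ℕ :=
  Bool.rec (motive := fun _ => ℕ)
    (Nat.lor (Nat.land B g) (Nat.shiftLeft (Nat.land B x) D)) (Nat.land B g) (Nat.beq x (nat_lit 0))

/-- nonempty fields -/
noncomputable def nz (K H M : ℕ) : ℕ :=
  Bool.rec (motive := fun _ => ℕ) (Nat.land (Nat.add M K) H) (nat_lit 0) (Nat.beq M (nat_lit 0))

/-! ### The star program -/

/-- the collected values of the darts of the side `p` (shifted to their columns) -/
noncomputable def Bv (D1 s1 : ℕ) (sl : Sl) (SW : ℕ) (ih : ℕ → ℕ → ℕ) (m p : ℕ) : ℕ :=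
  Sd.rec (motive := fun _ => ℕ)
    (fun _ _ o _ sb _ => Sb.rec (motive := fun _ => ℕ) (nat_lit 0)
      (fun b4 j0 n _ r => Nat.rec (motive := fun _ => ℕ) r
        (fun _ _ => Nat.rec (motive := fun _ => ℕ) r
          (fun j r => orShr (lit (ih m)
            (Nat.mod (Nat.shiftRight SW (Nat.mul (nat_lit 13) (Nat.add o (Nat.add j0 j))))
              (nat_lit 8192))) (Nat.sub D1 (Nat.add j0 j)) r) n)
        (Nat.mod (Nat.shiftRight (Nat.add m (Nat.mul s1 (Nat.sub (nat_lit 1) m))) b4)
          (nat_lit 16))) sb) (getS sl p)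

/-- one step of the star program: remaining counts `m` (radix 16), arrival dart `x` -/
noncomputable def stepV (pm : Pm) (D K H D1 s1 : ℕ) (sl : Sl) (SI SW : ℕ) (ih : ℕ → ℕ → ℕ)
    (m x : ℕ) : ℕ :=
  Sd.rec (motive := fun _ => ℕ)
    (fun _ a4 o _ _ bl => lit (fun m' => lit (fun i =>
      nz K H (Bl.rec (motive := fun _ => ℕ) (nat_lit 0)
          (fun X p _ r => orN (cmb D (Bv D1 s1 sl SW ih m' p) (rG pm X i) (rX pm X i)) r)
          (fun X k p _ r => orN (cmb D (Bv D1 s1 sl SW ih m' p) (cG pm X k i) (cX pm X k i)) r)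
        bl)) (Nat.sub x o)) (Nat.sub m (Nat.shiftLeft (nat_lit 1) a4)))
    (sideOf sl SI x)

/-- the star program: `L` tiles still to be placed, remaining counts `m`, arrival dart `x` -/
noncomputable def V (st : (ℕ → ℕ → ℕ) → ℕ → ℕ → ℕ) (base : ℕ → ℕ) (L : ℕ) : ℕ → ℕ → ℕ :=
  Nat.rec (motive := fun _ => ℕ → ℕ → ℕ) (fun _ x => base x) (fun _ ih => st ih) L

/-- base value of the dart `x`: `W` bits for every start -/
noncomputable def baseS (oS N W B0 x : ℕ) : ℕ :=
  Bool.rec (motive := fun _ => ℕ) (nat_lit 0)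
    (Bool.rec (motive := fun _ => ℕ) (Nat.shiftLeft B0 (Nat.mul W (Nat.sub x oS))) (nat_lit 0)
      (Nat.ble (Nat.add oS N) x)) (Nat.ble oS x)

/-- the check of the starts -/
noncomputable def ckS (f : ℕ → ℕ) (W HB : ℕ) (k : ℕ) : Bool :=
  Nat.rec (motive := fun _ => Bool) true (fun i r =>
    Bool.rec (motive := fun _ => Bool) false r
      (Nat.beq (Nat.land (f i) (Nat.shiftLeft HB (Nat.mul W i))) (nat_lit 0))) k

/-- the star check of one class: `D` bits per field, `F` fields, lanes `s + 2 l` (`l < J`),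
starts `oS + i` with `i < N`, `s1` = one tile with the label of the starts -/
noncomputable def starCk (D F s J N oS s1 : ℕ) (cd : Cd) : Bool :=
  Cd.rec (motive := fun _ => Bool) (fun _ v mf SI SW _ _ sl =>
    litB (fun W => litB (fun REP => litB (fun K => litB (fun H => litB (fun E =>
        (fun F => ckS (fun i => lit (F mf) (Nat.add oS i)) W
          (Nat.shiftLeft (geoK (Nat.mul (nat_lit 2) D) J) (Nat.pred (Nat.mul (nat_lit 2) D))) N)
        (V (stepV (Pm.mk D (Nat.mul F D) (Nat.mul s D) E REP) D K H (Nat.pred D) s1 sl SI SW)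
          (baseS oS N W (Nat.shiftLeft (geoK (Nat.mul (nat_lit 2) D) J) (Nat.pred D))) v))
      (Nat.mul (Nat.pred (Nat.shiftLeft (nat_lit 1) (Nat.pred D)))
        (geoK (Nat.mul (nat_lit 2) D) J)))
      (Nat.mul (Nat.shiftLeft (nat_lit 1) (Nat.pred D))
        (geoK D (Nat.mul (Nat.mul (nat_lit 2) J) N))))
      (Nat.mul (Nat.pred (Nat.shiftLeft (nat_lit 1) (Nat.pred D)))
        (geoK D (Nat.mul (Nat.mul (nat_lit 2) J) N))))
      (geoK W N))
      (Nat.mul (Nat.mul (nat_lit 2) J) D)) cd

/-! ### The tile program -/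

/-- the data of the class `i` -/
noncomputable def getC (l : Cl) : ℕ → Cd :=
  Cl.rec (motive := fun _ => ℕ → Cd) (fun _ => Cd.mk (nat_lit 0) (nat_lit 0) (nat_lit 0)
    (nat_lit 0) (nat_lit 0) (nat_lit 0) (nat_lit 0) Sl.nil)
    (fun c _ ih i => Nat.rec (motive := fun _ => Cd) c (fun j _ => ih j) i) l

/-- the class data of the state `c = x + 8192 * w` -/
noncomputable def clsOf (cl : Cl) (c : ℕ) : Cd :=
  Nat.rec (motive := fun _ => Cd) (Cd.mk (nat_lit 0) (nat_lit 0) (nat_lit 0)
    (nat_lit 0) (nat_lit 0) (nat_lit 0) (nat_lit 0) Sl.nil)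
    (fun i _ => getC cl i) (Nat.succ (Nat.div c (nat_lit 8192)))

/-- the data of the class `w`, evaluated once for every value of `w` -/
noncomputable def getCL (cl : Cl) (w : ℕ) : Cd :=
  Nat.rec (motive := fun _ => Cd) (Cd.mk (nat_lit 0) (nat_lit 0) (nat_lit 0)
    (nat_lit 0) (nat_lit 0) (nat_lit 0) (nat_lit 0) Sl.nil) (fun i _ => getC cl i) (Nat.succ w)

/-- apply `g` to the starts of the class `i` -/
noncomputable def getZ {α : Type} (l : Zl) (d : α) (g : ℕ → ℕ → ℕ → α) : ℕ → α :=
  Zl.rec (motive := fun _ => ℕ → α) (fun _ => d)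
    (fun oS z0 nS _ ih i => Nat.rec (motive := fun _ => α) (g oS z0 nS) (fun j _ => ih j) i) l

/-- a state of the tile program: index of the row, entries, sides and reversals of the class -/
inductive Ts
  | mk (i : ℕ) (bl : Bl) (sl : Sl) (RV : ℕ)

/-- the data of the state `c` -/
noncomputable def stOf (cl : Cl) (c : ℕ) : Ts :=
  Cd.rec (motive := fun _ => Ts) (fun _ _ _ SI _ RV _ sl =>
    Sd.rec (motive := fun _ => Ts) (fun _ _ o _ _ bl =>
      Nat.rec (motive := fun _ => Ts) (Ts.mk (nat_lit 0) Bl.nil Sl.nil (nat_lit 0))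
        (fun i _ => Ts.mk i bl sl RV) (Nat.succ (Nat.sub (Nat.mod c (nat_lit 8192)) o)))
      (sideOf sl SI (Nat.mod c (nat_lit 8192)))) (clsOf cl c)

/-- the base value of the start state `c` -/
noncomputable def baseT (zl : Zl) (W B0 c : ℕ) : ℕ :=
  getZ zl (nat_lit 0) (fun oS z0 nS => Bool.rec (motive := fun _ => ℕ) (nat_lit 0)
      (Bool.rec (motive := fun _ => ℕ)
        (Nat.shiftLeft B0 (Nat.mul W (Nat.add z0 (Nat.sub (Nat.mod c (nat_lit 8192)) oS))))
        (nat_lit 0) (Nat.ble (Nat.add oS nS) (Nat.mod c (nat_lit 8192))))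
      (Nat.ble oS (Nat.mod c (nat_lit 8192)))) (Nat.div c (nat_lit 8192))

/-- the value behind the dart with reversal data `rv`; `s` = remaining weight, `ih` = the program
at level `s - 1` -/
noncomputable def behind (bs : ℕ → ℕ) (ih : ℕ → ℕ → ℕ) (s rv : ℕ) : ℕ :=
  lit (fun c => Bool.rec (motive := fun _ => ℕ)
      (lit (fun r => ih r c) (Nat.div rv (nat_lit 524288)))
      (Bool.rec (motive := fun _ => ℕ) (nat_lit 0) (bs c)
        (Nat.beq (Nat.add s (nat_lit 15)) (Nat.div rv (nat_lit 524288))))
      (Nat.ble (nat_lit 8388608) rv)) (Nat.mod rv (nat_lit 524288))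

/-- the collected values of the darts of the side `p` of a class -/
noncomputable def Bt (D1 : ℕ) (bs : ℕ → ℕ) (sl : Sl) (RV : ℕ) (ih : ℕ → ℕ → ℕ)
    (s p : ℕ) : ℕ :=
  Sd.rec (motive := fun _ => ℕ)
    (fun _ _ o q _ _ => Nat.rec (motive := fun _ => ℕ) (nat_lit 0)
      (fun j r => orShr (lit (behind bs ih s)
        (Nat.mod (Nat.shiftRight RV (Nat.mul (nat_lit 24) (Nat.add o j)))
          (nat_lit 16777216))) (Nat.sub D1 j) r) q) (getS sl p)

/-- the body of the tile program: remaining weight `s`, arrival state `c` -/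
noncomputable def bodyU (pm : Pm) (D K H D1 : ℕ) (bs : ℕ → ℕ) (cl : Cl) (ih : ℕ → ℕ → ℕ)
    (s c : ℕ) : ℕ :=
  Ts.rec (motive := fun _ => ℕ) (fun i bl sl RV =>
    nz K H (Bl.rec (motive := fun _ => ℕ) (nat_lit 0)
      (fun X p _ r => orN (cmb D (Bt D1 bs sl RV ih s p) (rG pm X i) (rX pm X i)) r)
      (fun _ _ _ _ r => r) bl)) (stOf cl c)

/-- the tile program: level = remaining weight, pending weight `r`, arrival state `c` -/
noncomputable def U (bd : (ℕ → ℕ → ℕ) → ℕ → ℕ → ℕ) (n : ℕ) : ℕ → ℕ → ℕ :=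
  Nat.rec (motive := fun _ => ℕ → ℕ → ℕ) (fun _ _ => nat_lit 0)
    (fun s ih => Nat.rec (motive := fun _ => ℕ → ℕ) (bd ih (Nat.succ s)) (fun r _ => ih r)) n

/-- the starts of the classes `w < nw` -/
noncomputable def tileSt (F : ℕ → ℕ → ℕ) (W HB : ℕ) (zl : Zl) (nw : ℕ) : Bool :=
  Nat.rec (motive := fun _ => Bool) true (fun w r =>
    Bool.rec (motive := fun _ => Bool) false r
      (getZ zl true (fun oS z0 nS =>
        ckS (fun i => lit (F (nat_lit 0)) (Nat.add (Nat.add oS i) (Nat.mul (nat_lit 8192) w))) W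
          (Nat.shiftLeft HB (Nat.mul W z0)) nS) w)) nw

/-- the tile check: `D` bits per field, `F` fields, lanes `s + 2 l` (`l < J`), `N` starts, `n` total
weight, `nw` classes -/
noncomputable def tileCk (D F s J N n nw : ℕ) (zl : Zl) (cl : Cl) : Bool :=
  litB (fun W => litB (fun REP => litB (fun K => litB (fun H => litB (fun E =>
      tileSt (U (bodyU (Pm.mk D (Nat.mul F D) (Nat.mul s D) E REP) D K H
        (Nat.pred D) (baseT zl W
          (Nat.shiftLeft (geoK (Nat.mul (nat_lit 2) D) J) (Nat.pred D))) cl) n) W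
        (Nat.shiftLeft (geoK (Nat.mul (nat_lit 2) D) J) (Nat.pred (Nat.mul (nat_lit 2) D))) zl nw)
    (Nat.mul (Nat.pred (Nat.shiftLeft (nat_lit 1) (Nat.pred D)))
      (geoK (Nat.mul (nat_lit 2) D) J)))
    (Nat.mul (Nat.shiftLeft (nat_lit 1) (Nat.pred D))
      (geoK D (Nat.mul (Nat.mul (nat_lit 2) J) N))))
    (Nat.mul (Nat.pred (Nat.shiftLeft (nat_lit 1) (Nat.pred D)))
      (geoK D (Nat.mul (Nat.mul (nat_lit 2) J) N))))
    (geoK W N))
    (Nat.mul (Nat.mul (nat_lit 2) J) D)

end Pool.Agent.NNe
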