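import Pool.Agent.NNe.Sem

/-!
# The engine of MP_4b6a99_co: (M2) the bits of the masks, of the selection and of the closing step
-/

namespace Pool.Agent.NNe

theorem geoK_eq {D : ℕ} (_ : 0 < D) (k : ℕ) : geoK D k = geo D k := by
  show ((1 <<< (D * k)) - 1) / ((1 <<< D) - 1) = geo D k
  rw [Nat.one_shiftLeft, Nat.one_shiftLeft]
  rfl

theorem wd_eq (D J N : ℕ) : wd D J * N = D * (2 * J * N) := by
  unfold wd
  ring

theorem two_pow_pred_lt {D : ℕ} (hD : 2 ≤ D) : 2 ^ (D - 1) - 1 < 2 ^ (2 * D) := by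
  have h1 : 2 ^ (D - 1) ≤ 2 ^ (2 * D) := Nat.pow_le_pow_right (by norm_num) (by omega)
  have h2 : 0 < 2 ^ (D - 1) := by positivity
  omega

theorem testBit_eM {D J : ℕ} (hD : 2 ≤ D) (i : ℕ) :
    (eM D J).testBit i = decide (i < wd D J ∧ i % (2 * D) < D - 1) := by
  unfold eM
  rw [testBit_mul_geo (by omega) J (two_pow_pred_lt hD), Nat.testBit_two_pow_sub_one,
    ← Bool.decide_and]
  have : 2 * D * J = wd D J := by
    unfold wd
    ring
  rw [this]

/-- a place in a period of two fields -/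
theorem M2_mod {D l e j : ℕ} (he : e < 2) (hj : j < D) :
    ((2 * l + e) * D + j) % (2 * D) = e * D + j := by
  have h1 : (2 * l + e) * D + j = e * D + j + 2 * D * l := by ring
  have h2 : e * D + j < 2 * D := by
    have : e * D ≤ 1 * D := Nat.mul_le_mul_right D (by omega)
    omega
  rw [h1, Nat.add_mul_mod_self_left, Nat.mod_eq_of_lt h2]

theorem M2_lt {D J l e j : ℕ} (hl : l < J) (he : e < 2) (hj : j < D) :
    (2 * l + e) * D + j < wd D J := by
  unfold wd
  have h1 : (2 * l + e + 1) * D ≤ 2 * J * D := Nat.mul_le_mul_right D (by omega)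
  have h2 : (2 * l + e + 1) * D = (2 * l + e) * D + D := by ring
  omega

/-- the masks before the replication -/
theorem testBit_maskG0 {D s J : ℕ} (hD : 2 ≤ D) {Y : ℕ} (l e j : ℕ) (hl : l < J) (he : e < 2)
    (hj : j < D - 1) :
    (maskG D (s * D) (eM D J) Y).testBit ((2 * l + e) * D + j) = Y.testBit ((s + 2 * l) * D + j) := by
  have h0 : maskG D (s * D) (eM D J) Y = ((Y >>> (s * D)) &&& eM D J) |||
    (((Y >>> (s * D)) &&& eM D J) <<< D) := rfl
  have hjD : j < D := by omega
  have key : ((Y >>> (s * D)) &&& eM D J).testBit (2 * l * D + j) =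
      Y.testBit ((s + 2 * l) * D + j) := by
    have h1 := M2_mod (D := D) (l := l) (e := 0) (j := j) (by omega) hjD
    have h2 := M2_lt (D := D) (J := J) (l := l) (e := 0) (j := j) hl (by omega) hjD
    rw [Nat.add_zero] at h1 h2
    rw [Nat.testBit_and, Nat.testBit_shiftRight, testBit_eM hD, h1, decide_eq_true ⟨h2, by omega⟩,
      Bool.and_true]
    congr 1
    ring
  rw [h0, Nat.testBit_or, Nat.testBit_shiftLeft]
  have he' : e = 0 ∨ e = 1 := by omega
  rcases he' with rfl | rfl
  · rw [Nat.add_zero, key]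
    have h3 : (decide (2 * l * D + j ≥ D) &&
        ((Y >>> (s * D)) &&& eM D J).testBit (2 * l * D + j - D)) = false := by
      rcases Nat.eq_zero_or_pos l with h | h
      · subst h
        rw [decide_eq_false (by omega), Bool.false_and]
      · obtain ⟨m, rfl⟩ : ∃ m, l = m + 1 := ⟨l - 1, by omega⟩
        have h4 : 2 * (m + 1) * D + j - D = (2 * m + 1) * D + j := by
          have : 2 * (m + 1) * D = (2 * m + 1) * D + D := by ring
          omega
        rw [h4, Nat.testBit_and, testBit_eM hD, M2_mod (by omega) hjD]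
        rw [decide_eq_false (p := _ ∧ _) (by omega), Bool.and_false, Bool.and_false]
    rw [h3, Bool.or_false]
  · have h3 : ((Y >>> (s * D)) &&& eM D J).testBit ((2 * l + 1) * D + j) = false := by
      rw [Nat.testBit_and, testBit_eM hD, M2_mod (by omega) hjD,
        decide_eq_false (p := _ ∧ _) (by omega), Bool.and_false]
    have h4 : (2 * l + 1) * D + j - D = 2 * l * D + j := by
      have : (2 * l + 1) * D = 2 * l * D + D := by ring
      omega
    have h5 : (2 * l + 1) * D + j ≥ D := by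
      have : (2 * l + 1) * D = 2 * l * D + D := by ring
      omega
    rw [h3, Bool.false_or, decide_eq_true h5, Bool.true_and, h4, key]

/-- the places of the bits of the masks -/
theorem maskG_bits {D s J : ℕ} (hD : 2 ≤ D) {Y i : ℕ}
    (h : (maskG D (s * D) (eM D J) Y).testBit i = true) : i < wd D J ∧ i % D < D - 1 := by
  have h0 : maskG D (s * D) (eM D J) Y = ((Y >>> (s * D)) &&& eM D J) |||
    (((Y >>> (s * D)) &&& eM D J) <<< D) := rfl
  have hm : ∀ i, i % (2 * D) < D - 1 → i % D = i % (2 * D) ∧ (i + D) % D = i % (2 * D) := by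
    intro i hi
    have h1 : i % D = i % (2 * D) % D := (Nat.mod_mod_of_dvd i ⟨2, by ring⟩).symm
    have h2 : i % (2 * D) % D = i % (2 * D) := Nat.mod_eq_of_lt (by omega)
    rw [Nat.add_mod_right]
    omega
  rw [h0, Nat.testBit_or, Bool.or_eq_true, Nat.testBit_shiftLeft, Bool.and_eq_true,
    decide_eq_true_eq, Nat.testBit_and, Nat.testBit_and, Bool.and_eq_true, Bool.and_eq_true,
    testBit_eM hD, testBit_eM hD, decide_eq_true_eq, decide_eq_true_eq] at h
  rcases h with ⟨-, h1, h2⟩ | ⟨h0, -, h1, h2⟩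
  · exact ⟨h1, by have := hm i h2; omega⟩
  · have h3 := hm (i - D) h2
    have h4 : i - D + D = i := by omega
    rw [h4] at h3
    refine ⟨?_, by omega⟩
    -- `i - D` is in the first half of a period
    have h5 := Nat.div_add_mod (i - D) (2 * D)
    have h6 : (i - D) / (2 * D) < J := by
      rw [Nat.div_lt_iff_lt_mul (by omega)]
      unfold wd at h1
      calc i - D < 2 * J * D := h1
        _ = J * (2 * D) := by ring
    have h7 : 2 * D * ((i - D) / (2 * D) + 1) ≤ 2 * D * J := Nat.mul_le_mul_left _ h6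
    have h8 : 2 * D * ((i - D) / (2 * D) + 1) = 2 * D * ((i - D) / (2 * D)) + 2 * D := by ring
    unfold wd
    have h9 : 2 * J * D = 2 * D * J := by ring
    omega

theorem maskX_bits {D s J : ℕ} (hD : 2 ≤ D) {Y i : ℕ}
    (h : (maskX D (s * D) (eM D J) Y).testBit i = true) :
    i + D < wd D J ∧ i % D < D - 1 := by
  have h0 : maskX D (s * D) (eM D J) Y = ((Y ^^^ (Y <<< D)) >>> (s * D)) &&& eM D J := rfl
  rw [h0, Nat.testBit_and, Bool.and_eq_true, testBit_eM hD, decide_eq_true_eq] at h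
  obtain ⟨-, h1, h2⟩ := h
  have h3 : i % D = i % (2 * D) % D := (Nat.mod_mod_of_dvd i ⟨2, by ring⟩).symm
  have h4 : i % (2 * D) % D = i % (2 * D) := Nat.mod_eq_of_lt (by omega)
  refine ⟨?_, by omega⟩
  have h5 := Nat.div_add_mod i (2 * D)
  have h6 : i / (2 * D) < J := by
    rw [Nat.div_lt_iff_lt_mul (by omega)]
    unfold wd at h1
    calc i < 2 * J * D := h1
      _ = J * (2 * D) := by ring
  have h7 : 2 * D * (i / (2 * D) + 1) ≤ 2 * D * J := Nat.mul_le_mul_left _ h6
  have h8 : 2 * D * (i / (2 * D) + 1) = 2 * D * (i / (2 * D)) + 2 * D := by ring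
  unfold wd
  have h9 : 2 * J * D = 2 * D * J := by ring
  omega

theorem lt_of_bits {M n : ℕ} (h : ∀ i, M.testBit i = true → i < n) : M < 2 ^ n := by
  refine Nat.lt_pow_two_of_testBit M fun i hi => ?_
  by_contra hc
  rw [Bool.not_eq_false] at hc
  have := h i hc
  omega

theorem maskG_lt {D s J : ℕ} (hD : 2 ≤ D) (Y : ℕ) : maskG D (s * D) (eM D J) Y < 2 ^ wd D J :=
  lt_of_bits fun _ h => (maskG_bits hD h).1

theorem maskX_lt {D s J : ℕ} (hD : 2 ≤ D) (Y : ℕ) : maskX D (s * D) (eM D J) Y < 2 ^ wd D J :=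
  lt_of_bits fun _ h => by
    have := (maskX_bits hD h).1
    omega

/-- the masks at the field `2 l + e` of the start `z`: `e < 2`, column `j < D - 1` -/
theorem testBit_maskG {D F s J N : ℕ} (hD : 2 ≤ D) {Y : ℕ} (z l e j : ℕ) (hz : z < N) (hl : l < J)
    (he : e < 2) (hj : j < D - 1) :
    (maskG D (s * D) (eM D J) Y * geo (wd D J) N).testBit (wd D J * z + (2 * l + e) * D + j) =
      Y.testBit ((s + 2 * l) * D + j) := by
  have h1 := M2_lt (D := D) (J := J) (l := l) (e := e) (j := j) hl he (by omega)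
  have h2 : wd D J * z + (2 * l + e) * D + j < wd D J * N := by
    have h3 : wd D J * (z + 1) ≤ wd D J * N := Nat.mul_le_mul_left _ hz
    rw [Nat.mul_add, Nat.mul_one] at h3
    omega
  rw [testBit_mul_geo (by omega) N (maskG_lt hD Y), decide_eq_true h2, Bool.true_and, Nat.add_assoc,
    Nat.mul_add_mod, Nat.mod_eq_of_lt h1]
  exact testBit_maskG0 hD l e j hl he hj

theorem testBit_maskX {D F s J N : ℕ} (hD : 2 ≤ D) (hs : 1 ≤ s) {Y : ℕ} (z l j : ℕ) (hz : z < N)
    (hl : l < J) (hj : j < D - 1) :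
    (maskX D (s * D) (eM D J) Y * geo (wd D J) N).testBit (wd D J * z + 2 * l * D + j) =
      (Y.testBit ((s + 2 * l) * D + j) ^^ Y.testBit ((s + 2 * l - 1) * D + j)) := by
  have h0 : maskX D (s * D) (eM D J) Y = ((Y ^^^ (Y <<< D)) >>> (s * D)) &&& eM D J := rfl
  have h1 := M2_lt (D := D) (J := J) (l := l) (e := 0) (j := j) hl (by omega) (by omega)
  have h1' := M2_mod (D := D) (l := l) (e := 0) (j := j) (by omega) (by omega)
  rw [Nat.add_zero] at h1 h1'
  have h2 : wd D J * z + 2 * l * D + j < wd D J * N := by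
    have h3 : wd D J * (z + 1) ≤ wd D J * N := Nat.mul_le_mul_left _ hz
    rw [Nat.mul_add, Nat.mul_one] at h3
    omega
  rw [testBit_mul_geo (by omega) N (maskX_lt hD Y), decide_eq_true h2, Bool.true_and, Nat.add_assoc,
    Nat.mul_add_mod, Nat.mod_eq_of_lt h1, h0, Nat.testBit_and, testBit_eM hD, h1',
    decide_eq_true ⟨h1, by omega⟩, Bool.and_true, Nat.testBit_shiftRight, Nat.testBit_xor,
    Nat.testBit_shiftLeft]
  obtain ⟨m, hm⟩ : ∃ m, s + 2 * l = m + 1 := ⟨s + 2 * l - 1, by omega⟩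
  have h3 : s * D + (2 * l * D + j) = (s + 2 * l) * D + j := by ring
  have h4 : (s + 2 * l) * D + j - D = (s + 2 * l - 1) * D + j := by
    rw [hm, Nat.add_sub_cancel, Nat.add_mul, Nat.one_mul]
    omega
  have h5 : (s + 2 * l) * D + j ≥ D := by
    rw [hm, Nat.add_mul, Nat.one_mul]
    omega
  rw [h3, decide_eq_true h5, Bool.true_and, h4]

/-- `Cln` from the bits -/
theorem cln_of {D J N M : ℕ} (hD : 2 ≤ D)
    (h : ∀ i, M.testBit i = true → i < wd D J * N ∧ i % D < D - 1) : Cln D J N M := by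
  refine ⟨lt_of_bits fun i hi => (h i hi).1, ?_⟩
  refine Nat.eq_of_testBit_eq fun i => ?_
  rw [Nat.testBit_and, Nat.zero_testBit, Bool.and_eq_false_iff]
  by_cases hi : M.testBit i = true
  · right
    have h1 := (h i hi).2
    have h2 : 2 ^ (D - 1) < 2 ^ D := Nat.pow_lt_pow_right (by norm_num) (by omega)
    rw [testBit_mul_geo (by omega) _ h2, Nat.testBit_two_pow, Bool.and_eq_false_iff]
    right
    rw [decide_eq_false_iff_not]
    omega
  · left
    rwa [Bool.not_eq_true] at hi

/-- the bits of a replicated mask -/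
theorem M2_rep {D J N Q i : ℕ} (hQ : Q < 2 ^ wd D J)
    (h : (Q * geo (wd D J) N).testBit i = true) :
    i < wd D J * N ∧ Q.testBit (i % wd D J) = true ∧ i % wd D J % D = i % D := by
  rcases Nat.eq_zero_or_pos (wd D J) with h0 | h0
  · rw [h0] at h hQ
    have : Q = 0 := by
      rw [pow_zero] at hQ
      omega
    rw [this, Nat.zero_mul, Nat.zero_testBit] at h
    exact absurd h (by simp)
  · rw [testBit_mul_geo h0 N hQ, Bool.and_eq_true, decide_eq_true_eq] at h
    refine ⟨h.1, h.2, Nat.mod_mod_of_dvd i ?_⟩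
    unfold wd
    exact ⟨2 * J, by ring⟩

theorem testBit_orN (a b i : ℕ) : (orN a b).testBit i = (a.testBit i || b.testBit i) := by
  have e : orN a b = Bool.rec (motive := fun _ => ℕ) (a ||| b) a (Nat.beq b 0) := rfl
  rw [e]
  rcases hb : Nat.beq b 0 with _ | _
  · exact Nat.testBit_or _ _ _
  · have : b = 0 := Nat.eq_of_beq_eq_true hb
    subst this
    show a.testBit i = (a.testBit i || (0 : ℕ).testBit i)
    rw [Nat.zero_testBit, Bool.or_false]

theorem testBit_orShr (v k r i : ℕ) :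
    (orShr v k r).testBit i = (v.testBit (i + k) || r.testBit i) := by
  have e : orShr v k r = Bool.rec (motive := fun _ => ℕ) ((v >>> k) ||| r) r (Nat.beq v 0) := rfl
  rw [e]
  rcases hb : Nat.beq v 0 with _ | _
  · show ((v >>> k) ||| r).testBit i = _
    rw [Nat.testBit_or, Nat.testBit_shiftRight, Nat.add_comm]
  · have : v = 0 := Nat.eq_of_beq_eq_true hb
    subst this
    show r.testBit i = ((0 : ℕ).testBit (i + k) || r.testBit i)
    rw [Nat.zero_testBit, Bool.false_or]

theorem testBit_cmb (D B g x i : ℕ) : (cmb D B g x).testBit i =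
    ((B.testBit i && g.testBit i) || (decide (D ≤ i) && B.testBit (i - D) && x.testBit (i - D))) := by
  have e : cmb D B g x = Bool.rec (motive := fun _ => ℕ) ((B &&& g) ||| ((B &&& x) <<< D)) (B &&& g)
    (Nat.beq x 0) := rfl
  rw [e]
  rcases hb : Nat.beq x 0 with _ | _
  · show ((B &&& g) ||| ((B &&& x) <<< D)).testBit i = _
    rw [Nat.testBit_or, Nat.testBit_and, Nat.testBit_shiftLeft, Nat.testBit_and, Bool.and_assoc]
  · have : x = 0 := Nat.eq_of_beq_eq_true hb
    subst this
    show (B &&& g).testBit i = _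
    rw [Nat.testBit_and, Nat.zero_testBit, Bool.and_false, Bool.or_false]

theorem cln_cmb {D s J N : ℕ} (hD : 2 ≤ D) (_ : 1 ≤ s) (Y B : ℕ) :
    Cln D J N (cmb D B (maskG D (s * D) (eM D J) Y * geo (wd D J) N)
      (maskX D (s * D) (eM D J) Y * geo (wd D J) N)) := by
  refine cln_of hD fun i hi => ?_
  rw [testBit_cmb, Bool.or_eq_true, Bool.and_eq_true, Bool.and_eq_true, Bool.and_eq_true,
    decide_eq_true_eq] at hi
  rcases hi with ⟨-, h1⟩ | ⟨⟨h1, -⟩, h2⟩
  · obtain ⟨h3, h4, h5⟩ := M2_rep (maskG_lt hD Y) h1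
    have h6 := maskG_bits hD h4
    exact ⟨h3, by omega⟩
  · obtain ⟨h3, h4, h5⟩ := M2_rep (maskX_lt hD Y) h2
    have h6 := maskX_bits hD h4
    have h7 : i % D = (i - D) % D := by
      have e : i - D + D = i := by omega
      calc i % D = (i - D + D) % D := by rw [e]
        _ = (i - D) % D := Nat.add_mod_right _ _
    have h8 := Nat.div_add_mod (i - D) (wd D J)
    have h0 : 0 < wd D J := by omega
    have h9 : (i - D) / wd D J < N := by
      rw [Nat.div_lt_iff_lt_mul h0, Nat.mul_comm]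
      exact h3
    have h10 : wd D J * ((i - D) / wd D J + 1) ≤ wd D J * N := Nat.mul_le_mul_left _ h9
    rw [Nat.mul_add, Nat.mul_one] at h10
    exact ⟨by omega, by omega⟩

theorem M2_bits {D J N M : ℕ} (hD : 2 ≤ D) (h : Cln D J N M) :
    ∀ i, M.testBit i = true → i < wd D J * N ∧ i % D ≠ D - 1 := by
  intro i hi
  have h1 : i < wd D J * N := by
    by_contra hc
    rw [Nat.testBit_lt_two_pow (lt_of_lt_of_le h.1 (Nat.pow_le_pow_right (by norm_num)
      (Nat.le_of_not_lt hc)))] at hi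
    exact absurd hi (by simp)
  refine ⟨h1, fun h2 => ?_⟩
  have h3 : (M &&& (2 ^ (D - 1) * geo D (2 * J * N))).testBit i = true := by
    have h4 : 2 ^ (D - 1) < 2 ^ D := Nat.pow_lt_pow_right (by norm_num) (by omega)
    rw [Nat.testBit_and, hi, Bool.true_and, testBit_mul_geo (by omega) _ h4, Nat.testBit_two_pow,
      Bool.and_eq_true, decide_eq_true_eq, decide_eq_true_eq, ← wd_eq]
    exact ⟨h1, h2.symm⟩
  rw [h.2, Nat.zero_testBit] at h3
  exact absurd h3 (by simp)

theorem cln_or {D J N a b : ℕ} (ha : Cln D J N a) (hb : Cln D J N b) : Cln D J N (orN a b) := by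
  have e : orN a b = a ||| b := Nat.eq_of_testBit_eq fun i => by
    rw [testBit_orN, Nat.testBit_or]
  rw [e]
  refine ⟨Nat.or_lt_two_pow ha.1 hb.1, ?_⟩
  rw [Nat.and_or_distrib_right, ha.2, hb.2]
  rfl

theorem testBit_nzF {D J N M : ℕ} (hD : 2 ≤ D) (hM : Cln D J N M) (u j : ℕ) (hu : u < 2 * J * N)
    (hj : j < D - 1) (hb : M.testBit (D * u + j) = true) :
    (nz ((2 ^ (D - 1) - 1) * geo D (2 * J * N)) (2 ^ (D - 1) * geo D (2 * J * N)) M).testBit
      (D * u + (D - 1)) = true := by
  have e : ∀ K H, nz K H M = Bool.rec (motive := fun _ => ℕ) ((M + K) &&& H) 0 (Nat.beq M 0) :=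
    fun _ _ => rfl
  rw [e]
  rcases h0 : Nat.beq M 0 with _ | _
  · show ((M + (2 ^ (D - 1) - 1) * geo D (2 * J * N)) &&&
      (2 ^ (D - 1) * geo D (2 * J * N))).testBit (D * u + (D - 1)) = true
    have hM1 := hM.1
    rw [wd_eq] at hM1
    rw [testBit_nz (by omega) (2 * J * N) M hM1 hM.2, decide_eq_true_eq]
    have h1 : D * (u + 1) ≤ D * (2 * J * N) := Nat.mul_le_mul_left _ hu
    rw [Nat.mul_add, Nat.mul_one] at h1
    refine ⟨by omega, ?_, j, hj, ?_⟩
    · rw [Nat.mul_add_mod, Nat.mod_eq_of_lt (by omega)]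
    · have h2 : D * u + (D - 1) - (D - 1) + j = D * u + j := by omega
      rw [h2]
      exact hb
  · have : M = 0 := Nat.eq_of_beq_eq_true h0
    rw [this, Nat.zero_testBit] at hb
    exact absurd hb (by simp)

theorem testBit_rowY {X D F i f j : ℕ} (hf : f < F) (hj : j < D) :
    (rowY X (F * D) i).testBit (f * D + j) = X.testBit (F * D * i + f * D + j) := by
  have e : rowY X (F * D) i = (X >>> (F * D * i)) % (1 <<< (F * D)) := rfl
  have h1 : (f + 1) * D ≤ F * D := Nat.mul_le_mul_right D hf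
  rw [Nat.add_mul, Nat.one_mul] at h1
  rw [e, Nat.one_shiftLeft, Nat.testBit_mod_two_pow, decide_eq_true (by omega), Bool.true_and,
    Nat.testBit_shiftRight, Nat.add_assoc]

/-- the column `j` of a matrix with `q < D` rows -/
theorem testBit_colY {X D F q j i f : ℕ} (hq : q < D) (hf : f < F) (hi : i < q) :
    (colY X D (F * D) (F * q) j).testBit (f * D + i) = X.testBit (F * D * i + f * D + j) := by
  have e : colY X D (F * D) (F * q) j = ((X >>> j) &&& geoK D (F * q)) % ((1 <<< (F * D)) - 2) := rfl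
  rw [e, geoK_eq (by omega), Nat.one_shiftLeft, testBit_col' hq X j hi hf]
  congr 1
  ring

end Pool.Agent.NNe
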