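import Pool.Agent.NNe.M4

/-!
# The engine of MP_4b6a99_co: soundness of the star program
-/

namespace Pool.Agent.NNe

/-! ### Unfolding the program -/

theorem M3_step_eq (pm : Pm) (D K H D1 s1 : ℕ) (cd : Cd) (ih : ℕ → ℕ → ℕ) (m x : ℕ) :
    stepV pm D K H D1 s1 cd.sl cd.SI cd.SW ih m x = nz K H (Bl.rec (motive := fun _ => ℕ) 0
      (fun X p _ r => orN (cmb D (Bv D1 s1 cd.sl cd.SW ih (m - 1 <<< (sdOf cd x).a4) p)
        (rG pm X (x - (sdOf cd x).o)) (rX pm X (x - (sdOf cd x).o))) r)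
      (fun X k p _ r => orN (cmb D (Bv D1 s1 cd.sl cd.SW ih (m - 1 <<< (sdOf cd x).a4) p)
        (cG pm X k (x - (sdOf cd x).o)) (cX pm X k (x - (sdOf cd x).o))) r)
      (sdOf cd x).bl) := by
  have h0 : sideOf cd.sl cd.SI x = sdOf cd x := rfl
  unfold stepV
  rw [h0]
  cases sdOf cd x with
  | mk t a4 o q sb bl => rfl

/-- the collected value of one part of the subdivision -/
noncomputable def M3_part (D1 s1 : ℕ) (SW : ℕ) (ih : ℕ → ℕ → ℕ) (m o b4 j0 n r : ℕ) : ℕ :=
  Nat.rec (motive := fun _ => ℕ) r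
    (fun _ _ => Nat.rec (motive := fun _ => ℕ) r
      (fun j r => orShr (ih m (ext SW 13 (o + (j0 + j)))) (D1 - (j0 + j)) r) n)
    (((m + s1 * (1 - m)) >>> b4) % 16)

theorem M3_rec_r (f sh : ℕ → ℕ) (r b : ℕ) (h : r.testBit b = true) : ∀ q,
    (Nat.rec (motive := fun _ => ℕ) r (fun j r => orShr (f j) (sh j) r) q : ℕ).testBit b =
      true := by
  intro q
  induction q with
  | zero => exact h
  | succ q ih =>
    show (orShr (f q) (sh q) (Nat.rec (motive := fun _ => ℕ) r
      (fun j r => orShr (f j) (sh j) r) q : ℕ)).testBit b = true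
    rw [testBit_orShr, ih, Bool.or_true]

theorem M3_rec (f sh : ℕ → ℕ) (r j b : ℕ) : ∀ q, j < q → (f j).testBit (b + sh j) = true →
    (Nat.rec (motive := fun _ => ℕ) r (fun j r => orShr (f j) (sh j) r) q : ℕ).testBit b =
      true := by
  intro q
  induction q with
  | zero => intro h; exact absurd h (Nat.not_lt_zero _)
  | succ q ih =>
    intro hj hb
    show (orShr (f q) (sh q) (Nat.rec (motive := fun _ => ℕ) r
      (fun j r => orShr (f j) (sh j) r) q : ℕ)).testBit b = true
    rw [testBit_orShr]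
    rcases Nat.lt_succ_iff_lt_or_eq.1 hj with h | h
    · rw [ih h hb, Bool.or_true]
    · subst h
      rw [hb, Bool.true_or]

theorem M3_part_r (D1 s1 SW : ℕ) (ih : ℕ → ℕ → ℕ) (m o b4 j0 n r b : ℕ)
    (h : r.testBit b = true) : (M3_part D1 s1 SW ih m o b4 j0 n r).testBit b = true := by
  unfold M3_part
  cases ((m + s1 * (1 - m)) >>> b4) % 16 with
  | zero => exact h
  | succ c => exact M3_rec_r _ _ r b h n

theorem M3_part_bit (D1 s1 SW : ℕ) (ih : ℕ → ℕ → ℕ) (m o b4 j0 n r j b : ℕ)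
    (hc : ((m + s1 * (1 - m)) >>> b4) % 16 ≠ 0) (h1 : j0 ≤ j) (h2 : j < j0 + n)
    (h : (ih m (ext SW 13 (o + j))).testBit (b + (D1 - j)) = true) :
    (M3_part D1 s1 SW ih m o b4 j0 n r).testBit b = true := by
  unfold M3_part
  cases hcc : ((m + s1 * (1 - m)) >>> b4) % 16 with
  | zero => exact absurd hcc hc
  | succ c =>
    refine M3_rec (fun j => ih m (ext SW 13 (o + (j0 + j)))) (fun j => D1 - (j0 + j)) r (j - j0) b n
      (by omega) ?_
    have : j0 + (j - j0) = j := by omega
    show (ih m (ext SW 13 (o + (j0 + (j - j0))))).testBit (b + (D1 - (j0 + (j - j0)))) = true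
    rw [this]
    exact h

theorem M3_sb (D1 s1 SW : ℕ) (ih : ℕ → ℕ → ℕ) (m o j b : ℕ) : ∀ (sb : Sb) (b4 j0 n : ℕ),
    (b4, j0, n) ∈ sb.l → ((m + s1 * (1 - m)) >>> b4) % 16 ≠ 0 → j0 ≤ j → j < j0 + n →
    (ih m (ext SW 13 (o + j))).testBit (b + (D1 - j)) = true →
    (Sb.rec (motive := fun _ => ℕ) 0
      (fun b4 j0 n _ r => M3_part D1 s1 SW ih m o b4 j0 n r) sb : ℕ).testBit b = true := by
  intro sb
  induction sb with
  | nil => intro b4 j0 n hm; exact absurd hm (by simp [Sb.l])
  | cons b4' j0' n' tl ih' =>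
    intro b4 j0 n hm hc h1 h2 h
    show (M3_part D1 s1 SW ih m o b4' j0' n' (Sb.rec (motive := fun _ => ℕ) 0
      (fun b4 j0 n _ r => M3_part D1 s1 SW ih m o b4 j0 n r) tl : ℕ)).testBit b = true
    have hm' : (b4, j0, n) ∈ (b4', j0', n') :: tl.l := hm
    rw [List.mem_cons] at hm'
    rcases hm' with h3 | h3
    · rw [Prod.mk.injEq, Prod.mk.injEq] at h3
      obtain ⟨rfl, rfl, rfl⟩ := h3
      exact M3_part_bit D1 s1 SW ih m o b4 j0 n _ j b hc h1 h2 h
    · exact M3_part_r D1 s1 SW ih m o b4' j0' n' _ b (ih' b4 j0 n h3 hc h1 h2 h)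

/-- a bit of the collected value of the side `p` -/
theorem M3_Bv (D1 s1 : ℕ) (sl : Sl) (SW : ℕ) (ih : ℕ → ℕ → ℕ) (m p j b b4 j0 n : ℕ)
    (hm : (b4, j0, n) ∈ (getS sl p).sb.l) (hc : ((m + s1 * (1 - m)) >>> b4) % 16 ≠ 0)
    (h1 : j0 ≤ j) (h2 : j < j0 + n)
    (h : (ih m (ext SW 13 ((getS sl p).o + j))).testBit (b + (D1 - j)) = true) :
    (Bv D1 s1 sl SW ih m p).testBit b = true := by
  unfold Bv
  revert hm h
  cases getS sl p with
  | mk t a4 o q sb bl =>
    intro hm h
    exact M3_sb D1 s1 SW ih m o j b sb b4 j0 n hm hc h1 h2 h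

/-! ### The entries -/

theorem M3_orR_r (f : ℕ → ℕ → ℕ) (f' : ℕ → ℕ → ℕ → ℕ) (bl : Bl) (X p b : ℕ) (hm : (X, p) ∈ bl.rs)
    (hb : (f X p).testBit b = true) :
    (Bl.rec (motive := fun _ => ℕ) 0 (fun X p _ r => orN (f X p) r)
      (fun X k p _ r => orN (f' X k p) r) bl : ℕ).testBit b = true := by
  induction bl with
  | nil => exact absurd hm (by simp [Bl.rs])
  | r X' p' tl ih =>
    show (orN (f X' p') (Bl.rec (motive := fun _ => ℕ) 0 (fun X p _ r => orN (f X p) r)
      (fun X k p _ r => orN (f' X k p) r) tl : ℕ)).testBit b = true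
    rw [testBit_orN]
    have hm' : (X, p) ∈ (X', p') :: tl.rs := hm
    rw [List.mem_cons] at hm'
    rcases hm' with h | h
    · rw [Prod.mk.injEq] at h
      rw [← h.1, ← h.2, hb, Bool.true_or]
    · rw [ih h, Bool.or_true]
  | c X' k' p' tl ih =>
    show (orN (f' X' k' p') (Bl.rec (motive := fun _ => ℕ) 0 (fun X p _ r => orN (f X p) r)
      (fun X k p _ r => orN (f' X k p) r) tl : ℕ)).testBit b = true
    rw [testBit_orN, ih hm, Bool.or_true]

theorem M3_orR_c (f : ℕ → ℕ → ℕ) (f' : ℕ → ℕ → ℕ → ℕ) (bl : Bl) (X k p b : ℕ)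
    (hm : (X, k, p) ∈ bl.cs) (hb : (f' X k p).testBit b = true) :
    (Bl.rec (motive := fun _ => ℕ) 0 (fun X p _ r => orN (f X p) r)
      (fun X k p _ r => orN (f' X k p) r) bl : ℕ).testBit b = true := by
  induction bl with
  | nil => exact absurd hm (by simp [Bl.cs])
  | r X' p' tl ih =>
    show (orN (f X' p') (Bl.rec (motive := fun _ => ℕ) 0 (fun X p _ r => orN (f X p) r)
      (fun X k p _ r => orN (f' X k p) r) tl : ℕ)).testBit b = true
    rw [testBit_orN, ih hm, Bool.or_true]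
  | c X' k' p' tl ih =>
    show (orN (f' X' k' p') (Bl.rec (motive := fun _ => ℕ) 0 (fun X p _ r => orN (f X p) r)
      (fun X k p _ r => orN (f' X k p) r) tl : ℕ)).testBit b = true
    rw [testBit_orN]
    have hm' : (X, k, p) ∈ (X', k', p') :: tl.cs := hm
    rw [List.mem_cons] at hm'
    rcases hm' with h | h
    · rw [Prod.mk.injEq, Prod.mk.injEq] at h
      rw [← h.1, ← h.2.1, ← h.2.2, hb, Bool.true_or]
    · rw [ih h, Bool.or_true]

theorem M3_orR_cln {D J N : ℕ} (f : ℕ → ℕ → ℕ) (f' : ℕ → ℕ → ℕ → ℕ)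
    (hf : ∀ X p, Cln D J N (f X p)) (hf' : ∀ X k p, Cln D J N (f' X k p)) (bl : Bl) :
    Cln D J N (Bl.rec (motive := fun _ => ℕ) 0 (fun X p _ r => orN (f X p) r)
      (fun X k p _ r => orN (f' X k p) r) bl : ℕ) := by
  induction bl with
  | nil =>
    refine ⟨Nat.two_pow_pos _, ?_⟩
    exact Nat.zero_and _
  | r X' p' tl ih => exact cln_or (hf X' p') ih
  | c X' k' p' tl ih => exact cln_or (hf' X' k' p') ih

/-! ### One step -/

/-- the bits of the selection; `Y` = the row or the column -/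
theorem M3_cmb {D s J N : ℕ} (hD : 2 ≤ D) (hs : 1 ≤ s) {z l j B Y : ℕ}
    (hz : z < N) (hl : l < J) (hj : j < D - 1) (hY : Y.testBit ((s + 2 * l) * D + j) = true)
    (hN : B.testBit (wd D J * z + 2 * l * D + j) = true) :
    (cmb D B (maskG D (s * D) (eM D J) Y * geo (wd D J) N)
      (maskX D (s * D) (eM D J) Y * geo (wd D J) N)).testBit
        (wd D J * z + 2 * l * D + j) = true ∧
    (B.testBit (wd D J * z + (2 * l + 1) * D + j) = true ∨
      Y.testBit ((s + 2 * l - 1) * D + j) = false →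
      (cmb D B (maskG D (s * D) (eM D J) Y * geo (wd D J) N)
        (maskX D (s * D) (eM D J) Y * geo (wd D J) N)).testBit
          (wd D J * z + (2 * l + 1) * D + j) = true) := by
  have hG : ∀ e < 2, (maskG D (s * D) (eM D J) Y * geo (wd D J) N).testBit
      (wd D J * z + (2 * l + e) * D + j) = true := by
    intro e he
    rw [testBit_maskG (F := 0) hD z l e j hz hl he hj]
    exact hY
  have hX : (maskX D (s * D) (eM D J) Y * geo (wd D J) N).testBit
      (wd D J * z + 2 * l * D + j) = (true ^^ Y.testBit ((s + 2 * l - 1) * D + j)) := by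
    rw [testBit_maskX (F := 0) hD hs z l j hz hl hj, hY]
  constructor
  · have h0 := hG 0 (by omega)
    rw [Nat.add_zero] at h0
    rw [testBit_cmb, h0, hN]
    rfl
  · intro hH
    rw [testBit_cmb, hG 1 (by omega)]
    rcases hH with hH | hH
    · rw [hH]
      rfl
    · have e1 : wd D J * z + (2 * l + 1) * D + j - D = wd D J * z + 2 * l * D + j := by
        have : (2 * l + 1) * D = 2 * l * D + D := by ring
        rw [this]
        omega
      have e2 : D ≤ wd D J * z + (2 * l + 1) * D + j := by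
        have : (2 * l + 1) * D = 2 * l * D + D := by ring
        rw [this]
        omega
      rw [e1, hX, hN, hH, decide_eq_true e2]
      simp

/-- the masks of the program -/
theorem M3_cG (D F s J N X k i : ℕ) :
    cG (Pm.mk D (F * D) (s * D) (eM D J) (geo (wd D J) N)) X k i =
      maskG D (s * D) (eM D J) (colY X D (F * D) k i) * geo (wd D J) N := rfl

theorem M3_cX (D F s J N X k i : ℕ) :
    cX (Pm.mk D (F * D) (s * D) (eM D J) (geo (wd D J) N)) X k i =
      maskX D (s * D) (eM D J) (colY X D (F * D) k i) * geo (wd D J) N := rfl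

/-! ### Counts -/

/-- the number of the tiles `j`, `i ≤ j < v`, with the label `l` -/
noncomputable def M3_c (cd : Cd) (x : ℕ → ℕ) (i l : ℕ) : ℕ :=
  ∑ j ∈ Finset.Ico i cd.v, if (sdOf cd (x j)).a4 = 4 * l then 1 else 0

/-- the remaining counts -/
noncomputable def M3_M (cd : Cd) (x : ℕ → ℕ) (i : ℕ) : ℕ :=
  ∑ j ∈ Finset.Ico i cd.v, 2 ^ (sdOf cd (x j)).a4

theorem M3_countP (p : ℕ → Prop) [DecidablePred p] (v : ℕ) :
    (List.range v).countP (fun i => decide (p i)) =
      ∑ j ∈ Finset.range v, if p j then 1 else 0 := by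
  induction v with
  | zero => rfl
  | succ v ih =>
    rw [List.range_succ, List.countP_append, ih, Finset.sum_range_succ, List.countP_singleton]
    simp only [decide_eq_true_eq]

theorem M3_c_le (cd : Cd) (x : ℕ → ℕ) (i l : ℕ) : M3_c cd x i l ≤ M3_c cd x 0 l := by
  unfold M3_c
  refine Finset.sum_le_sum_of_subset ?_
  intro j hj
  rw [Finset.mem_Ico] at hj ⊢
  omega

theorem M3_M_eq {cd : Cd} {x : ℕ → ℕ} (hlab : ∀ i < cd.v, ∃ l < 4, (sdOf cd (x i)).a4 = 4 * l)
    (i : ℕ) : M3_M cd x i = M3_c cd x i 0 + 16 * M3_c cd x i 1 + 256 * M3_c cd x i 2 +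
      4096 * M3_c cd x i 3 := by
  unfold M3_M M3_c
  rw [Finset.mul_sum, Finset.mul_sum, Finset.mul_sum, ← Finset.sum_add_distrib,
    ← Finset.sum_add_distrib, ← Finset.sum_add_distrib]
  refine Finset.sum_congr rfl ?_
  intro j hj
  rw [Finset.mem_Ico] at hj
  obtain ⟨l, hl, h⟩ := hlab j hj.2
  rw [h]
  interval_cases l <;> simp

theorem M3_digit {c0 c1 c2 c3 l : ℕ} (h0 : c0 < 16) (h1 : c1 < 16) (h2 : c2 < 16) (h3 : c3 < 16)
    (hl : l < 4) : ((c0 + 16 * c1 + 256 * c2 + 4096 * c3) >>> (4 * l)) % 16 =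
      if l = 0 then c0 else if l = 1 then c1 else if l = 2 then c2 else c3 := by
  rw [Nat.shiftRight_eq_div_pow]
  interval_cases l
  · norm_num
    omega
  · norm_num
    omega
  · norm_num
    omega
  · norm_num
    omega

theorem M3_M_succ (cd : Cd) (x : ℕ → ℕ) {i : ℕ} (h : i < cd.v) :
    M3_M cd x i = 2 ^ (sdOf cd (x i)).a4 + M3_M cd x (i + 1) :=
  Finset.sum_eq_sum_Ico_succ_bot h _

theorem M3_M_self (cd : Cd) (x : ℕ → ℕ) : M3_M cd x cd.v = 0 := by
  unfold M3_M
  rw [Finset.Ico_self, Finset.sum_empty]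

/-! ### The check -/

theorem M3_base {D J l oS N x : ℕ} (hD : 0 < D) (hl : l < J) (h1 : oS ≤ x) (h2 : x < oS + N) :
    (baseS oS N (wd D J) (geo (2 * D) J <<< (D - 1)) x).testBit
      (wd D J * (x - oS) + 2 * l * D + (D - 1)) = true := by
  have h0 : baseS oS N (wd D J) (geo (2 * D) J <<< (D - 1)) x =
      Bool.rec (motive := fun _ => ℕ) 0
      (Bool.rec (motive := fun _ => ℕ)
        ((geo (2 * D) J <<< (D - 1)) <<< (wd D J * (x - oS)))
        0 (Nat.ble (oS + N) x))
      (Nat.ble oS x) := rfl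
  have h3 : Nat.ble oS x = true := by rw [Nat.ble_eq]; exact h1
  have h4 : Nat.ble (oS + N) x = false := by
    rw [← Bool.not_eq_true, Nat.ble_eq]
    omega
  rw [h0, h3, h4]
  show ((geo (2 * D) J <<< (D - 1)) <<< (wd D J * (x - oS))).testBit _ = true
  rw [Nat.testBit_shiftLeft, Nat.testBit_shiftLeft]
  have e1 : wd D J * (x - oS) + 2 * l * D + (D - 1) -
      wd D J * (x - oS) - (D - 1) = 2 * l * D := by omega
  rw [e1, M4_geo_bit hD hl, Bool.and_true, Bool.and_eq_true, decide_eq_true_eq,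
    decide_eq_true_eq]
  omega

/-- the program, with the masks in standard form -/
noncomputable def M3_prog (D F s J N oS s1 : ℕ) (cd : Cd) : ℕ → ℕ → ℕ → ℕ :=
  V (stepV (Pm.mk D (F * D) (s * D) (eM D J) (geo (wd D J) N)) D
    ((2 ^ (D - 1) - 1) * geo D (2 * J * N)) (2 ^ (D - 1) * geo D (2 * J * N)) (D - 1) s1
    cd.sl cd.SI cd.SW) (baseS oS N (wd D J) (geo (2 * D) J <<< (D - 1)))

theorem M3_starCk_eq {D F s J N oS s1 : ℕ} {cd : Cd} (hD : 2 ≤ D) (hJ : 0 < J) :
    starCk D F s J N oS s1 cd = ckS (fun i => M3_prog D F s J N oS s1 cd cd.v cd.mf (oS + i))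
      (wd D J) (geo (2 * D) J <<< (2 * D - 1)) N := by
  have hw : 0 < wd D J := by
    unfold wd
    exact Nat.mul_pos (by omega) (by omega)
  have e1 : Nat.shiftLeft 1 (Nat.pred D) = 2 ^ (D - 1) := Nat.one_shiftLeft _
  have e2 : geoK (2 * D) J = geo (2 * D) J := geoK_eq (by omega) J
  have e3 : geoK D (2 * J * N) = geo D (2 * J * N) := geoK_eq (by omega) _
  have e4 : geoK (wd D J) N = geo (wd D J) N := geoK_eq hw N
  cases cd with
  | mk R v mf SI SW RV CO sl =>
    show ckS (fun i => V (stepV (Pm.mk D (F * D) (s * D)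
      (Nat.mul (Nat.pred (Nat.shiftLeft 1 (Nat.pred D))) (geoK (2 * D) J)) (geoK (wd D J) N)) D
      (Nat.mul (Nat.pred (Nat.shiftLeft 1 (Nat.pred D))) (geoK D (2 * J * N)))
      (Nat.mul (Nat.shiftLeft 1 (Nat.pred D)) (geoK D (2 * J * N))) (Nat.pred D) s1 sl SI SW)
      (baseS oS N (wd D J) (Nat.shiftLeft (geoK (2 * D) J) (Nat.pred D))) v mf (oS + i)) (wd D J)
      (Nat.shiftLeft (geoK (2 * D) J) (Nat.pred (2 * D))) N = _
    rw [e1, e2, e3, e4]
    rfl

/-- what the check says about one start -/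
theorem M3_ck {D F s J N oS s1 : ℕ} {cd : Cd} (hD : 2 ≤ D) (hJ : 0 < J)
    (h : starCk D F s J N oS s1 cd = true) {x : ℕ} (h1 : oS ≤ x) (h2 : x < oS + N) {l : ℕ}
    (hl : l < J) : (M3_prog D F s J N oS s1 cd cd.v cd.mf x).testBit
      (wd D J * (x - oS) + (2 * l + 1) * D + (D - 1)) = false := by
  rw [M3_starCk_eq hD hJ] at h
  have h4 := M4_ckS _ _ _ _ h (x - oS) (by omega)
  have e1 : oS + (x - oS) = x := by omega
  simp only [e1] at h4
  by_contra hcon
  rw [Bool.not_eq_false] at hcon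
  have h5 : (M3_prog D F s J N oS s1 cd cd.v cd.mf x &&&
      (geo (2 * D) J <<< (2 * D - 1)) <<< (wd D J * (x - oS))).testBit
      (wd D J * (x - oS) + (2 * l + 1) * D + (D - 1)) = true := by
    rw [Nat.testBit_and, hcon, Bool.true_and, Nat.testBit_shiftLeft, Nat.testBit_shiftLeft]
    have e2 : (2 * l + 1) * D = 2 * l * D + D := by ring
    have e4 : wd D J * (x - oS) + (2 * l + 1) * D + (D - 1) -
        wd D J * (x - oS) - (2 * D - 1) = 2 * l * D := by
      rw [e2]
      omega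
    rw [e4, M4_geo_bit (by omega) hl, Bool.and_true, Bool.and_eq_true,
      decide_eq_true_eq, decide_eq_true_eq, e2]
    omega
  rw [h4, Nat.zero_testBit] at h5
  exact absurd h5 (by simp)

/-! ### The theorem -/

/-- (M3) the star program -/
theorem star_sound {D F s J N oS s1 : ℕ} {cd : Cd} (hD : 2 ≤ D) (hs : 1 ≤ s)
    (hF : s + 2 * J ≤ F + 1) (hmf : cd.mf < 16 ^ 4) (hv : 0 < cd.v) (hwf : WFC D F cd)
    (h : starCk D F s J N oS s1 cd = true) {x y : ℕ → ℕ} {g : ℕ → ℕ → Bool}
    (hP : StarP D F cd x y g) (h1 : oS ≤ x 0) (h2 : x 0 < oS + N)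
    (h3 : s1 = 2 ^ (sdOf cd (x 0)).a4) (l : ℕ) (hl : l < J)
    (hg : ∀ i < cd.v, g i (s + 2 * l) = true) : ∀ i < cd.v, g i (s + 2 * l - 1) = true := by
  have hJ : 0 < J := by omega
  set z := x 0 - oS with hzdef
  have hzN : z < N := by omega
  -- counts
  have hc0 : ∀ l < 4, M3_c cd x 0 l = cd.mf / 16 ^ l % 16 := by
    intro l hl4
    rw [← hP.cnt l hl4, M3_countP, Finset.range_eq_Ico]
    rfl
  have hc16 : ∀ i, ∀ l < 4, M3_c cd x i l < 16 := by
    intro i l hl4
    have e1 := M3_c_le cd x i l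
    have e2 := hc0 l hl4
    have e3 : cd.mf / 16 ^ l % 16 < 16 := Nat.mod_lt _ (by norm_num)
    omega
  have hM0 : M3_M cd x 0 = cd.mf := by
    rw [M3_M_eq hP.lab, hc0 0 (by omega), hc0 1 (by omega), hc0 2 (by omega), hc0 3 (by omega)]
    norm_num
    norm_num at hmf
    omega
  have hdig : ∀ i, ∀ l < 4, (M3_M cd x i >>> (4 * l)) % 16 = M3_c cd x i l := by
    intro i l hl4
    rw [M3_M_eq hP.lab, M3_digit (hc16 i 0 (by omega)) (hc16 i 1 (by omega))
      (hc16 i 2 (by omega)) (hc16 i 3 (by omega)) hl4]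
    interval_cases l <;> simp
  set P := M3_prog D F s J N oS s1 cd with hPdef
  -- one step
  have hstep : ∀ i < cd.v, ∀ L, cd.v - i = L + 1 →
      (P L (M3_M cd x (i + 1)) (x (i + 1))).testBit
        (wd D J * z + 2 * l * D + (D - 1)) = true →
      (P (L + 1) (M3_M cd x i) (x i)).testBit (wd D J * z + 2 * l * D + (D - 1)) = true ∧
      ((P L (M3_M cd x (i + 1)) (x (i + 1))).testBit
        (wd D J * z + (2 * l + 1) * D + (D - 1)) = true ∨ g i (s + 2 * l - 1) = false →
        (P (L + 1) (M3_M cd x i) (x i)).testBit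
          (wd D J * z + (2 * l + 1) * D + (D - 1)) = true) := by
    intro i hi L hL hbN
    have e0 : P (L + 1) (M3_M cd x i) (x i) =
        stepV (Pm.mk D (F * D) (s * D) (eM D J) (geo (wd D J) N)) D
        ((2 ^ (D - 1) - 1) * geo D (2 * J * N)) (2 ^ (D - 1) * geo D (2 * J * N)) (D - 1) s1
        cd.sl cd.SI cd.SW (P L) (M3_M cd x i) (x i) := rfl
    have em : M3_M cd x i - 1 <<< (sdOf cd (x i)).a4 = M3_M cd x (i + 1) := by
      rw [M3_M_succ cd x hi, Nat.one_shiftLeft]
      omega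
    rw [e0, M3_step_eq, em]
    obtain ⟨dx1, dx2⟩ := hwf.dart _ (hP.x_lt i hi)
    obtain ⟨dy1, dy2⟩ := hwf.dart _ (hP.y_lt i hi)
    have hqx := hwf.q_lt (siOf cd (x i))
    have hqy := hwf.q_lt (siOf cd (y i))
    have sx : getS cd.sl (siOf cd (x i)) = sdOf cd (x i) := rfl
    have sy : getS cd.sl (siOf cd (y i)) = sdOf cd (y i) := rfl
    rw [sx] at hqx
    rw [sy] at hqy
    have hj : y i - (sdOf cd (y i)).o < D - 1 := by omega
    have hjq : y i - (sdOf cd (y i)).o < (sdOf cd (y i)).q := by omega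
    have hjx : x i - (sdOf cd (x i)).o < (sdOf cd (x i)).q := by omega
    -- the collected value
    have hcol : ∀ t, (P L (M3_M cd x (i + 1)) (x (i + 1))).testBit (t + (D - 1)) = true →
        (Bv (D - 1) s1 cd.sl cd.SW (P L) (M3_M cd x (i + 1)) (siOf cd (y i))).testBit
          (t + (y i - (sdOf cd (y i)).o)) = true := by
      intro t ht
      obtain ⟨b4, j0, n, hm, k1, k2, k3⟩ := hwf.sub (siOf cd (y i)) (y i - (sdOf cd (y i)).o)
        (by rw [sy]; exact hjq)
      rw [sy] at k3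
      have e1 : (sdOf cd (y i)).o + (y i - (sdOf cd (y i)).o) = y i := by omega
      rw [e1, ← hP.across i hi] at k3
      refine M3_Bv _ _ _ _ _ _ _ (y i - (sdOf cd (y i)).o) _ b4 j0 n hm ?_ k1 k2 ?_
      · rw [k3]
        rcases Nat.lt_or_ge (i + 1) cd.v with h5 | h5
        · obtain ⟨l', hl', h6⟩ := hP.lab (i + 1) h5
          have h7 : 1 ≤ M3_M cd x (i + 1) := by
            rw [M3_M_succ cd x h5]
            have : 0 < 2 ^ (sdOf cd (x (i + 1))).a4 := by positivity
            omega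
          have h8 : 1 - M3_M cd x (i + 1) = 0 := by omega
          rw [h8, Nat.mul_zero, Nat.add_zero, h6, hdig _ _ hl']
          have h9 : 0 < M3_c cd x (i + 1) l' := by
            unfold M3_c
            rw [Finset.sum_eq_sum_Ico_succ_bot h5, if_pos h6]
            omega
          omega
        · have h6 : i + 1 = cd.v := by omega
          rw [h6, M3_M_self, hP.clos, Nat.zero_add, Nat.sub_zero, Nat.mul_one, h3,
            Nat.shiftRight_eq_div_pow, Nat.div_self (by positivity)]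
          norm_num
      · rw [sy, e1]
        have e2 : ext cd.SW 13 (y i) = x (i + 1) := (hP.next i hi).symm
        have e3 : t + (y i - (sdOf cd (y i)).o) + (D - 1 - (y i - (sdOf cd (y i)).o)) =
            t + (D - 1) := by omega
        rw [e2, e3]
        exact ht
    -- the entries
    set fr : ℕ → ℕ → ℕ := fun X p => cmb D
      (Bv (D - 1) s1 cd.sl cd.SW (P L) (M3_M cd x (i + 1)) p)
      (rG (Pm.mk D (F * D) (s * D) (eM D J) (geo (wd D J) N)) X (x i - (sdOf cd (x i)).o))
      (rX (Pm.mk D (F * D) (s * D) (eM D J) (geo (wd D J) N)) X (x i - (sdOf cd (x i)).o))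
      with hfr
    set fc : ℕ → ℕ → ℕ → ℕ := fun X k p => cmb D
      (Bv (D - 1) s1 cd.sl cd.SW (P L) (M3_M cd x (i + 1)) p)
      (cG (Pm.mk D (F * D) (s * D) (eM D J) (geo (wd D J) N)) X k (x i - (sdOf cd (x i)).o))
      (cX (Pm.mk D (F * D) (s * D) (eM D J) (geo (wd D J) N)) X k (x i - (sdOf cd (x i)).o))
      with hfc
    have hcln := M3_orR_cln (D := D) (J := J) (N := N) fr fc
      (fun X' p' => by
        rw [hfr]
        simp only [M4_rG, M4_rX]
        exact cln_cmb hD hs _ _)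
      (fun X' k' p' => by
        rw [hfc]
        simp only [M3_cG, M3_cX]
        exact cln_cmb hD hs _ _) (sdOf cd (x i)).bl
    -- the bits of one entry
    have hent : ∃ Mv : ℕ, (∀ b, Mv.testBit b = true →
        (Bl.rec (motive := fun _ => ℕ) 0 (fun X p _ r => orN (fr X p) r)
          (fun X k p _ r => orN (fc X k p) r) (sdOf cd (x i)).bl : ℕ).testBit b = true) ∧
        Mv.testBit (wd D J * z + 2 * l * D + (y i - (sdOf cd (y i)).o)) = true ∧
        ((P L (M3_M cd x (i + 1)) (x (i + 1))).testBit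
          (wd D J * z + (2 * l + 1) * D + (D - 1)) = true ∨ g i (s + 2 * l - 1) = false →
          Mv.testBit (wd D J * z + (2 * l + 1) * D + (y i - (sdOf cd (y i)).o)) = true) := by
      have hgi := hg i hi
      rcases hP.pair i hi with ⟨X, hm, hgX⟩ | ⟨X, hm, hgX⟩
      · have hgl := hgX (s + 2 * l) (by omega)
        have hgl1 := hgX (s + 2 * l - 1) (by omega)
        rw [hgi] at hgl
        have hY0 : (rowY X (F * D) (x i - (sdOf cd (x i)).o)).testBit
            ((s + 2 * l) * D + (y i - (sdOf cd (y i)).o)) = true := by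
          rw [testBit_rowY (by omega) (by omega)]
          exact hgl.symm
        have hY1 : (rowY X (F * D) (x i - (sdOf cd (x i)).o)).testBit
            ((s + 2 * l - 1) * D + (y i - (sdOf cd (y i)).o)) = g i (s + 2 * l - 1) := by
          rw [testBit_rowY (by omega) (by omega)]
          exact hgl1.symm
        obtain ⟨r1, r2⟩ := M3_cmb (N := N) hD hs hzN hl hj hY0 (hcol _ hbN)
        refine ⟨fr X (siOf cd (y i)), fun b hb => M3_orR_r fr fc _ X _ b hm hb, r1, ?_⟩
        intro h5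
        apply r2
        rcases h5 with h5 | h5
        · exact Or.inl (hcol _ h5)
        · right
          rw [hY1]
          exact h5
      · have hmc := hwf.sym _ _ _ hm
        have hgl := hgX (s + 2 * l) (by omega)
        have hgl1 := hgX (s + 2 * l - 1) (by omega)
        rw [hgi] at hgl
        have hY0 : (colY X D (F * D) (F * (sdOf cd (y i)).q) (x i - (sdOf cd (x i)).o)).testBit
            ((s + 2 * l) * D + (y i - (sdOf cd (y i)).o)) = true := by
          rw [testBit_colY hqy (by omega) hjq]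
          exact hgl.symm
        have hY1 : (colY X D (F * D) (F * (sdOf cd (y i)).q) (x i - (sdOf cd (x i)).o)).testBit
            ((s + 2 * l - 1) * D + (y i - (sdOf cd (y i)).o)) = g i (s + 2 * l - 1) := by
          rw [testBit_colY hqy (by omega) hjq]
          exact hgl1.symm
        obtain ⟨r1, r2⟩ := M3_cmb (N := N) hD hs hzN hl hj hY0 (hcol _ hbN)
        refine ⟨fc X (F * (sdOf cd (y i)).q) (siOf cd (y i)),
          fun b hb => M3_orR_c fr fc _ X _ _ b hmc hb, r1, ?_⟩
        intro h5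
        apply r2
        rcases h5 with h5 | h5
        · exact Or.inl (hcol _ h5)
        · right
          rw [hY1]
          exact h5
    obtain ⟨Mv, m1, m2, m3⟩ := hent
    have hu : J * z + l < J * N := by
      calc J * z + l < J * z + J := by omega
        _ = J * (z + 1) := by ring
        _ ≤ J * N := Nat.mul_le_mul_left _ (by omega)
    have hw : ∀ e < 2, wd D J * z + (2 * l + e) * D = D * (2 * (J * z + l) + e) := by
      intro e _
      unfold wd
      ring
    have hlt : ∀ e < 2, 2 * (J * z + l) + e < 2 * J * N := by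
      intro e he
      have : 2 * J * N = 2 * (J * N) := by ring
      omega
    have hw0 : wd D J * z + 2 * l * D = D * (2 * (J * z + l) + 0) := by
      have := hw 0 (by omega)
      rwa [Nat.add_zero] at this
    constructor
    · rw [hw0] at m2
      have h6 := testBit_nzF hD hcln _ _ (hlt 0 (by omega)) hj (m1 _ m2)
      rw [← hw0] at h6
      exact h6
    · intro h5
      have m4 := m3 h5
      rw [hw 1 (by omega)] at m4
      have h6 := testBit_nzF hD hcln _ _ (hlt 1 (by omega)) hj (m1 _ m4)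
      rw [← hw 1 (by omega)] at h6
      exact h6
  have main : ∀ m i, i + m = cd.v →
      (P m (M3_M cd x i) (x i)).testBit (wd D J * z + 2 * l * D + (D - 1)) = true ∧
      ((∃ i', i ≤ i' ∧ i' < cd.v ∧ g i' (s + 2 * l - 1) = false) →
        (P m (M3_M cd x i) (x i)).testBit
          (wd D J * z + (2 * l + 1) * D + (D - 1)) = true) := by
    intro m
    induction m with
    | zero =>
      intro i hi
      have hi' : i = cd.v := by omega
      subst hi'
      constructor
      · rw [hP.clos]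
        exact M3_base (by omega) hl h1 h2
      · rintro ⟨i', h5, h6, -⟩
        omega
    | succ m ih =>
      intro i hi
      have hik : i < cd.v := by omega
      obtain ⟨ih1, ih2⟩ := ih (i + 1) (by omega)
      have h4 := hstep i hik m (by omega) ih1
      refine ⟨h4.1, ?_⟩
      rintro ⟨i', h5, h6, h7⟩
      rcases Nat.eq_or_lt_of_le h5 with h8 | h8
      · subst h8
        exact h4.2 (Or.inr h7)
      · exact h4.2 (Or.inl (ih2 ⟨i', h8, h6, h7⟩))
  by_contra hcon
  push Not at hcon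
  obtain ⟨i, hi, hgi⟩ := hcon
  rw [ne_eq, Bool.not_eq_true] at hgi
  have h4 := (main cd.v 0 (by omega)).2 ⟨i, Nat.zero_le _, hi, hgi⟩
  rw [hM0] at h4
  have h5 := M3_ck hD hJ h h1 h2 hl
  rw [h5] at h4
  exact absurd h4 (by simp)

end Pool.Agent.NNe
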