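import Pool.Agent.NNe.M2

/-!
# The engine of MP_4b6a99_co: soundness of the tile program
-/

namespace Pool.Agent.NNe

/-! ### Unfolding the program -/

theorem M4_U_succ (bd : (ℕ → ℕ → ℕ) → ℕ → ℕ → ℕ) (s c : ℕ) :
    U bd (s + 1) 0 c = bd (U bd s) (s + 1) c := rfl

theorem M4_U_pend (bd : (ℕ → ℕ → ℕ) → ℕ → ℕ → ℕ) : ∀ (r m c : ℕ), r < m →
    U bd m r c = U bd (m - r) 0 c := by
  intro r
  induction r with
  | zero => intro m c _; rfl
  | succ r ih =>
    intro m c h
    obtain ⟨m', rfl⟩ : ∃ m', m = m' + 1 := ⟨m - 1, by omega⟩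
    have h1 : U bd (m' + 1) (r + 1) c = U bd m' r c := rfl
    rw [h1, ih m' c (by omega), Nat.add_sub_add_right]

theorem M4_behind (bs : ℕ → ℕ) (ih : ℕ → ℕ → ℕ) (s rv : ℕ) : behind bs ih s rv =
    if 8388608 ≤ rv then (if s + 15 = rv / 524288 then bs (rv % 524288) else 0)
    else ih (rv / 524288) (rv % 524288) := by
  have h0 : behind bs ih s rv = Bool.rec (motive := fun _ => ℕ)
      (ih (rv / 524288) (rv % 524288))
      (Bool.rec (motive := fun _ => ℕ) 0 (bs (rv % 524288))
        (Nat.beq (s + 15) (rv / 524288)))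
      (Nat.ble 8388608 rv) := rfl
  rw [h0]
  by_cases h1 : 8388608 ≤ rv
  · rw [if_pos h1, show Nat.ble 8388608 rv = true by rw [Nat.ble_eq]; exact h1]
    show Bool.rec (motive := fun _ => ℕ) 0 (bs (rv % 524288)) (Nat.beq (s + 15) (rv / 524288)) = _
    by_cases h2 : s + 15 = rv / 524288
    · rw [if_pos h2, show Nat.beq (s + 15) (rv / 524288) = true by rw [Nat.beq_eq]; exact h2]
    · rw [if_neg h2]
      have h3 : Nat.beq (s + 15) (rv / 524288) = false := by
        rw [← Bool.not_eq_true, Nat.beq_eq]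
        exact h2
      rw [h3]
  · rw [if_neg h1]
    have h3 : Nat.ble 8388608 rv = false := by
      rw [← Bool.not_eq_true, Nat.ble_eq]
      exact h1
    rw [h3]

/-- the entry of the state -/
theorem M4_stOf (cl : Cl) (c : ℕ) : stOf cl c =
    Ts.mk (c % 8192 - (sdOf (getC cl (c / 8192)) (c % 8192)).o)
      (sdOf (getC cl (c / 8192)) (c % 8192)).bl (getC cl (c / 8192)).sl
      (getC cl (c / 8192)).RV := by
  have h0 : stOf cl c = Cd.rec (motive := fun _ => Ts) (fun _ _ _ SI _ RV _ sl =>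
      Sd.rec (motive := fun _ => Ts) (fun _ _ o _ _ bl => Ts.mk (c % 8192 - o) bl sl RV)
      (getS sl (ext SI 10 (c % 8192)))) (getC cl (c / 8192)) := rfl
  rw [h0]
  cases getC cl (c / 8192) with
  | mk R v mf SI SW RV CO sl =>
    show Sd.rec (motive := fun _ => Ts) (fun _ _ o _ _ bl => Ts.mk (c % 8192 - o) bl sl RV)
      (getS sl (ext SI 10 (c % 8192))) = Ts.mk (c % 8192 - (getS sl (ext SI 10 (c % 8192))).o)
      (getS sl (ext SI 10 (c % 8192))).bl sl RV
    cases getS sl (ext SI 10 (c % 8192)) with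
    | mk t a4 o q sb bl => rfl

theorem M4_body (pm : Pm) (D K H D1 : ℕ) (bs : ℕ → ℕ) (cl : Cl) (ih : ℕ → ℕ → ℕ) (s c : ℕ) :
    bodyU pm D K H D1 bs cl ih s c = nz K H (Bl.rec (motive := fun _ => ℕ) 0
      (fun X p _ r => orN (cmb D (Bt D1 bs (cdOf cl c).sl (cdOf cl c).RV ih s p)
        (rG pm X (c % 8192 - (sdOf (cdOf cl c) (c % 8192)).o))
        (rX pm X (c % 8192 - (sdOf (cdOf cl c) (c % 8192)).o))) r)
      (fun _ _ _ _ r => r) (sdOf (cdOf cl c) (c % 8192)).bl) := by
  unfold bodyU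
  rw [M4_stOf]
  rfl

/-! ### Collecting -/

theorem M4_rec (f sh : ℕ → ℕ) (j b : ℕ) : ∀ q, j < q → (f j).testBit (b + sh j) = true →
    (Nat.rec (motive := fun _ => ℕ) 0 (fun j r => orShr (f j) (sh j) r) q : ℕ).testBit b = true := by
  intro q
  induction q with
  | zero => intro h; exact absurd h (Nat.not_lt_zero _)
  | succ q ih =>
    intro hj hb
    show (orShr (f q) (sh q) (Nat.rec (motive := fun _ => ℕ) 0
      (fun j r => orShr (f j) (sh j) r) q : ℕ)).testBit b = true
    rw [testBit_orShr]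
    rcases Nat.lt_succ_iff_lt_or_eq.1 hj with h | h
    · rw [ih h hb, Bool.or_true]
    · subst h
      rw [hb, Bool.true_or]

theorem M4_Bt (D1 : ℕ) (bs : ℕ → ℕ) (sl : Sl) (RV : ℕ) (ih : ℕ → ℕ → ℕ) (s p j b : ℕ)
    (hj : j < (getS sl p).q)
    (h : (behind bs ih s (ext RV 24 ((getS sl p).o + j))).testBit (b + (D1 - j)) = true) :
    (Bt D1 bs sl RV ih s p).testBit b = true := by
  unfold Bt
  revert hj h
  cases getS sl p with
  | mk t a4 o q sb bl =>
    intro hj h
    exact M4_rec (fun j => behind bs ih s (ext RV 24 (o + j))) (fun j => D1 - j) j b q hj h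

theorem M4_orR_bit (f : ℕ → ℕ → ℕ) (bl : Bl) (X p b : ℕ) (hm : (X, p) ∈ bl.rs)
    (hb : (f X p).testBit b = true) :
    (Bl.rec (motive := fun _ => ℕ) 0 (fun X p _ r => orN (f X p) r) (fun _ _ _ _ r => r)
      bl : ℕ).testBit b = true := by
  induction bl with
  | nil => exact absurd hm (by simp [Bl.rs])
  | r X' p' tl ih =>
    show (orN (f X' p') (Bl.rec (motive := fun _ => ℕ) 0 (fun X p _ r => orN (f X p) r)
      (fun _ _ _ _ r => r) tl : ℕ)).testBit b = true
    rw [testBit_orN]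
    have hm' : (X, p) ∈ (X', p') :: tl.rs := hm
    rw [List.mem_cons] at hm'
    rcases hm' with h | h
    · rw [Prod.mk.injEq] at h
      rw [← h.1, ← h.2, hb, Bool.true_or]
    · rw [ih h, Bool.or_true]
  | c X' k' p' tl ih => exact ih hm

theorem M4_orR_cln {D J N : ℕ} (f : ℕ → ℕ → ℕ) (hf : ∀ X p, Cln D J N (f X p)) (bl : Bl) :
    Cln D J N (Bl.rec (motive := fun _ => ℕ) 0 (fun X p _ r => orN (f X p) r)
      (fun _ _ _ _ r => r) bl : ℕ) := by
  induction bl with
  | nil =>
    refine ⟨Nat.two_pow_pos _, ?_⟩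
    exact Nat.zero_and _
  | r X' p' tl ih => exact cln_or (hf X' p') ih
  | c X' k' p' tl ih => exact ih

/-! ### The checks -/

theorem M4_ckS (f : ℕ → ℕ) (W HB : ℕ) : ∀ k, ckS f W HB k = true → ∀ i < k,
    f i &&& (HB <<< (W * i)) = 0 := by
  intro k
  induction k with
  | zero => intro _ i hi; exact absurd hi (Nat.not_lt_zero _)
  | succ k ih =>
    intro h i hi
    have h0 : ckS f W HB (k + 1) = Bool.rec (motive := fun _ => Bool) false (ckS f W HB k)
        (Nat.beq (f k &&& (HB <<< (W * k))) 0) := rfl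
    rw [h0] at h
    cases hb : Nat.beq (f k &&& (HB <<< (W * k))) 0 with
    | false => rw [hb] at h; exact absurd h (by simp)
    | true =>
      rw [hb] at h
      rcases Nat.lt_succ_iff_lt_or_eq.1 hi with h1 | h1
      · exact ih h i h1
      · subst h1
        exact Nat.eq_of_beq_eq_true hb

theorem M4_tileSt (G : ℕ → Bool) : ∀ nw, (Nat.rec (motive := fun _ => Bool) true (fun w r =>
    Bool.rec (motive := fun _ => Bool) false r (G w)) nw : Bool) = true → ∀ w < nw,
    G w = true := by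
  intro nw
  induction nw with
  | zero => intro _ i hi; exact absurd hi (Nat.not_lt_zero _)
  | succ k ih =>
    intro h i hi
    have h' : Bool.rec (motive := fun _ => Bool) false
      (Nat.rec (motive := fun _ => Bool) true (fun w r =>
        Bool.rec (motive := fun _ => Bool) false r (G w)) k : Bool) (G k) = true := h
    cases hb : G k with
    | false => rw [hb] at h'; exact absurd h' (by simp)
    | true =>
      rw [hb] at h'
      rcases Nat.lt_succ_iff_lt_or_eq.1 hi with h1 | h1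
      · exact ih h' i h1
      · subst h1
        exact hb

/-- the entry of the table of the starts -/
theorem M4_getZ (G : ℕ → ℕ → ℕ → Prop) : ∀ (zl : Zl) (w : ℕ), getZ zl False G w →
    ∃ oS z0 nS, G oS z0 nS ∧
      ∀ {α : Type} (d : α) (g : ℕ → ℕ → ℕ → α), getZ zl d g w = g oS z0 nS := by
  intro zl
  induction zl with
  | nil => intro w h; exact h.elim
  | cons oS z0 nS tl ih =>
    intro w h
    cases w with
    | zero => exact ⟨oS, z0, nS, h, fun d g => rfl⟩
    | succ w =>
      obtain ⟨oS', z0', nS', h1, h2⟩ := ih w h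
      exact ⟨oS', z0', nS', h1, fun d g => h2 d g⟩

/-! ### Bits of the base -/

theorem M4_geo_bit {D J l : ℕ} (hD : 0 < D) (hl : l < J) :
    (geo (2 * D) J).testBit (2 * l * D) = true := by
  rw [testBit_geo (by omega), decide_eq_true_eq]
  constructor
  · have : 2 * l * D = 2 * D * l := by ring
    rw [this, Nat.mul_mod_right]
  · have : 2 * l * D = 2 * D * l := by ring
    rw [this]
    exact Nat.mul_lt_mul_of_pos_left hl (by omega)

theorem M4_baseT {D J l : ℕ} (hD : 0 < D) (hl : l < J) {zl : Zl} {c oS z0 nS : ℕ}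
    (hg : ∀ {α : Type} (d : α) (g : ℕ → ℕ → ℕ → α), getZ zl d g (c / 8192) = g oS z0 nS)
    (h1 : oS ≤ c % 8192) (h2 : c % 8192 < oS + nS) :
    (baseT zl (wd D J) (geo (2 * D) J <<< (D - 1)) c).testBit
      (wd D J * (z0 + (c % 8192 - oS)) + 2 * l * D + (D - 1)) = true := by
  have h0 : baseT zl (wd D J) (geo (2 * D) J <<< (D - 1)) c =
      Bool.rec (motive := fun _ => ℕ) 0
      (Bool.rec (motive := fun _ => ℕ)
        ((geo (2 * D) J <<< (D - 1)) <<< (wd D J * (z0 + (c % 8192 - oS))))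
        0 (Nat.ble (oS + nS) (c % 8192)))
      (Nat.ble oS (c % 8192)) := by
    unfold baseT
    exact hg _ _
  have h3 : Nat.ble oS (c % 8192) = true := by rw [Nat.ble_eq]; exact h1
  have h4 : Nat.ble (oS + nS) (c % 8192) = false := by
    rw [← Bool.not_eq_true, Nat.ble_eq]
    omega
  rw [h0, h3, h4]
  show ((geo (2 * D) J <<< (D - 1)) <<< (wd D J * (z0 + (c % 8192 - oS)))).testBit _ = true
  rw [Nat.testBit_shiftLeft, Nat.testBit_shiftLeft]
  have e1 : wd D J * (z0 + (c % 8192 - oS)) + 2 * l * D + (D - 1) -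
      wd D J * (z0 + (c % 8192 - oS)) - (D - 1) = 2 * l * D := by omega
  rw [e1, M4_geo_bit hD hl, Bool.and_true, Bool.and_eq_true, decide_eq_true_eq,
    decide_eq_true_eq]
  omega

/-! ### One step -/

/-- the masks of the program -/
theorem M4_rG (D F s J N X i : ℕ) :
    rG (Pm.mk D (F * D) (s * D) (eM D J) (geo (wd D J) N)) X i =
      maskG D (s * D) (eM D J) (rowY X (F * D) i) * geo (wd D J) N := rfl

theorem M4_rX (D F s J N X i : ℕ) :
    rX (Pm.mk D (F * D) (s * D) (eM D J) (geo (wd D J) N)) X i =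
      maskX D (s * D) (eM D J) (rowY X (F * D) i) * geo (wd D J) N := rfl

/-- one step of the program: `Bq` = the collected value -/
theorem M4_step {D F s J N : ℕ} (hD : 2 ≤ D) (hs : 1 ≤ s) (hF : s + 2 * J ≤ F + 1) {z l j X i : ℕ}
    (hz : z < N) (hl : l < J) (hj : j < D - 1) (Bq : ℕ → ℕ) (bl : Bl) (p : ℕ)
    (hm : (X, p) ∈ bl.rs) (hg : X.testBit (F * D * i + (s + 2 * l) * D + j) = true)
    (hN : (Bq p).testBit (wd D J * z + 2 * l * D + j) = true) :
    (nz ((2 ^ (D - 1) - 1) * geo D (2 * J * N)) (2 ^ (D - 1) * geo D (2 * J * N))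
      (Bl.rec (motive := fun _ => ℕ) 0
        (fun X p _ r => orN (cmb D (Bq p)
          (rG (Pm.mk D (F * D) (s * D) (eM D J) (geo (wd D J) N)) X i)
          (rX (Pm.mk D (F * D) (s * D) (eM D J) (geo (wd D J) N)) X i)) r)
        (fun _ _ _ _ r => r) bl)).testBit (wd D J * z + 2 * l * D + (D - 1)) = true ∧
    ((Bq p).testBit (wd D J * z + (2 * l + 1) * D + j) = true ∨
      X.testBit (F * D * i + (s + 2 * l - 1) * D + j) = false →
    (nz ((2 ^ (D - 1) - 1) * geo D (2 * J * N)) (2 ^ (D - 1) * geo D (2 * J * N))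
      (Bl.rec (motive := fun _ => ℕ) 0
        (fun X p _ r => orN (cmb D (Bq p)
          (rG (Pm.mk D (F * D) (s * D) (eM D J) (geo (wd D J) N)) X i)
          (rX (Pm.mk D (F * D) (s * D) (eM D J) (geo (wd D J) N)) X i)) r)
        (fun _ _ _ _ r => r) bl)).testBit (wd D J * z + (2 * l + 1) * D + (D - 1)) = true) := by
  set f : ℕ → ℕ → ℕ := fun X p => cmb D (Bq p)
    (rG (Pm.mk D (F * D) (s * D) (eM D J) (geo (wd D J) N)) X i)
    (rX (Pm.mk D (F * D) (s * D) (eM D J) (geo (wd D J) N)) X i) with hf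
  have hcln := M4_orR_cln (D := D) (J := J) (N := N) f (fun X' p' => by
    rw [hf]
    simp only [M4_rG, M4_rX]
    exact cln_cmb hD hs _ _) bl
  have hu : J * z + l < J * N := by
    calc J * z + l < J * z + J := by omega
      _ = J * (z + 1) := by ring
      _ ≤ J * N := Nat.mul_le_mul_left _ (by omega)
  -- the masks
  have hY0 : (rowY X (F * D) i).testBit ((s + 2 * l) * D + j) = true := by
    rw [testBit_rowY (by omega) (by omega)]
    exact hg
  have hY1 : (rowY X (F * D) i).testBit ((s + 2 * l - 1) * D + j) =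
      X.testBit (F * D * i + (s + 2 * l - 1) * D + j) :=
    testBit_rowY (by omega) (by omega)
  have hG : ∀ e < 2, (rG (Pm.mk D (F * D) (s * D) (eM D J) (geo (wd D J) N)) X i).testBit
      (wd D J * z + (2 * l + e) * D + j) = true := by
    intro e he
    rw [M4_rG, testBit_maskG (F := F) hD z l e j hz hl he hj]
    exact hY0
  have hX : (rX (Pm.mk D (F * D) (s * D) (eM D J) (geo (wd D J) N)) X i).testBit
      (wd D J * z + 2 * l * D + j) = (true ^^ X.testBit (F * D * i + (s + 2 * l - 1) * D + j)) := by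
    rw [M4_rX, testBit_maskX (F := F) hD hs z l j hz hl hj, hY0, hY1]
  have w1 : wd D J * z = 2 * (J * z) * D := by unfold wd; ring
  have hw : ∀ e < 2, wd D J * z + (2 * l + e) * D = D * (2 * (J * z + l) + e) := by
    intro e _
    rw [w1]
    ring
  have hlt : ∀ e < 2, 2 * (J * z + l) + e < 2 * J * N := by
    intro e he
    have : 2 * J * N = 2 * (J * N) := by ring
    omega
  constructor
  · have hb : (f X p).testBit (wd D J * z + (2 * l + 0) * D + j) = true := by
      rw [hf]
      simp only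
      rw [testBit_cmb, hG 0 (by omega)]
      have : wd D J * z + (2 * l + 0) * D + j = wd D J * z + 2 * l * D + j := by
        rw [Nat.add_zero]
      rw [this, hN]
      rfl
    rw [hw 0 (by omega)] at hb
    have h1 := testBit_nzF hD hcln _ j (hlt 0 (by omega)) hj (M4_orR_bit f bl X p _ hm hb)
    rw [← hw 0 (by omega), Nat.add_zero] at h1
    exact h1
  · intro hH
    have hb : (f X p).testBit (wd D J * z + (2 * l + 1) * D + j) = true := by
      rw [hf]
      simp only
      rw [testBit_cmb, hG 1 (by omega)]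
      rcases hH with hH | hH
      · rw [hH]
        rfl
      · have e1 : wd D J * z + (2 * l + 1) * D + j - D = wd D J * z + 2 * l * D + j := by
          have : (2 * l + 1) * D = 2 * l * D + D := by ring
          rw [this]
          omega
        have e2 : D ≤ wd D J * z + (2 * l + 1) * D + j := by
          have : (2 * l + 1) * D = 2 * l * D + D := by ring
          rw [this]
          omega
        rw [e1, hX, hN, hH, decide_eq_true e2]
        simp
    rw [hw 1 (by omega)] at hb
    have h1 := testBit_nzF hD hcln _ j (hlt 1 (by omega)) hj (M4_orR_bit f bl X p _ hm hb)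
    rw [← hw 1 (by omega)] at h1
    exact h1

/-! ### The check -/

/-- the program, with the masks in standard form -/
noncomputable def M4_prog (D F s J N : ℕ) (zl : Zl) (cl : Cl) : ℕ → ℕ → ℕ → ℕ :=
  U (bodyU (Pm.mk D (F * D) (s * D) (eM D J) (geo (wd D J) N)) D
    ((2 ^ (D - 1) - 1) * geo D (2 * J * N)) (2 ^ (D - 1) * geo D (2 * J * N)) (D - 1)
    (baseT zl (wd D J) (geo (2 * D) J <<< (D - 1))) cl)

theorem M4_tileCk_eq {D F s J N n nw : ℕ} {zl : Zl} {cl : Cl} (hD : 2 ≤ D) (hJ : 0 < J) :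
    tileCk D F s J N n nw zl cl = tileSt (M4_prog D F s J N zl cl n) (wd D J)
      (geo (2 * D) J <<< (2 * D - 1)) zl nw := by
  have hw : 0 < wd D J := by
    unfold wd
    exact Nat.mul_pos (by omega) (by omega)
  have e1 : Nat.shiftLeft 1 (Nat.pred D) = 2 ^ (D - 1) := Nat.one_shiftLeft _
  have e2 : geoK (2 * D) J = geo (2 * D) J := geoK_eq (by omega) J
  have e3 : geoK D (2 * J * N) = geo D (2 * J * N) := geoK_eq (by omega) _
  have e4 : geoK (wd D J) N = geo (wd D J) N := geoK_eq hw N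
  show tileSt (U (bodyU (Pm.mk D (F * D) (s * D)
    (Nat.mul (Nat.pred (Nat.shiftLeft 1 (Nat.pred D))) (geoK (2 * D) J)) (geoK (wd D J) N)) D
    (Nat.mul (Nat.pred (Nat.shiftLeft 1 (Nat.pred D))) (geoK D (2 * J * N)))
    (Nat.mul (Nat.shiftLeft 1 (Nat.pred D)) (geoK D (2 * J * N))) (Nat.pred D)
    (baseT zl (wd D J) (Nat.shiftLeft (geoK (2 * D) J) (Nat.pred D))) cl) n) (wd D J)
    (Nat.shiftLeft (geoK (2 * D) J) (Nat.pred (2 * D))) zl nw = _
  rw [e1, e2, e3, e4]
  rfl

/-- what the check says about one start -/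
theorem M4_ck {D F s J N n nw : ℕ} {zl : Zl} {cl : Cl} (hD : 2 ≤ D) (hJ : 0 < J)
    (h : tileCk D F s J N n nw zl cl = true) {c oS z0 nS : ℕ} (hw : c / 8192 < nw)
    (hg : ∀ {α : Type} (d : α) (g : ℕ → ℕ → ℕ → α), getZ zl d g (c / 8192) = g oS z0 nS)
    (h1 : oS ≤ c % 8192) (h2 : c % 8192 < oS + nS) {l : ℕ} (hl : l < J) :
    (M4_prog D F s J N zl cl n 0 c).testBit
      (wd D J * (z0 + (c % 8192 - oS)) + (2 * l + 1) * D + (D - 1)) = false := by
  rw [M4_tileCk_eq hD hJ] at h
  have h3 : getZ zl true (fun oS z0 nS =>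
        ckS (fun i => M4_prog D F s J N zl cl n 0 (oS + i + 8192 * (c / 8192))) (wd D J)
          ((geo (2 * D) J <<< (2 * D - 1)) <<< (wd D J * z0)) nS) (c / 8192) = true :=
    M4_tileSt _ nw h _ hw
  rw [hg] at h3
  have h4 := M4_ckS _ _ _ _ h3 (c % 8192 - oS) (by omega)
  have e1 : oS + (c % 8192 - oS) + 8192 * (c / 8192) = c := by
    have := Nat.mod_add_div c 8192
    omega
  simp only [e1] at h4
  by_contra hcon
  rw [Bool.not_eq_false] at hcon
  have h5 : (M4_prog D F s J N zl cl n 0 c &&&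
      ((geo (2 * D) J <<< (2 * D - 1)) <<< (wd D J * z0)) <<< (wd D J * (c % 8192 - oS))).testBit
      (wd D J * (z0 + (c % 8192 - oS)) + (2 * l + 1) * D + (D - 1)) = true := by
    rw [Nat.testBit_and, hcon, Bool.true_and, Nat.testBit_shiftLeft, Nat.testBit_shiftLeft,
      Nat.testBit_shiftLeft]
    have e2 : (2 * l + 1) * D = 2 * l * D + D := by ring
    have e3 : wd D J * (z0 + (c % 8192 - oS)) = wd D J * z0 + wd D J * (c % 8192 - oS) := by ring
    have e4 : wd D J * (z0 + (c % 8192 - oS)) + (2 * l + 1) * D + (D - 1) -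
        wd D J * (c % 8192 - oS) - wd D J * z0 - (2 * D - 1) = 2 * l * D := by
      rw [e2, e3]
      omega
    rw [e4, M4_geo_bit (by omega) hl, Bool.and_true, Bool.and_eq_true, Bool.and_eq_true,
      decide_eq_true_eq, decide_eq_true_eq, decide_eq_true_eq, e2, e3]
    omega
  rw [h4, Nat.zero_testBit] at h5
  exact absurd h5 (by simp)

/-! ### The theorem -/

/-- the weight of the step `i` -/
noncomputable def M4_w (cl : Cl) (c y : ℕ → ℕ) (i : ℕ) : ℕ :=
  rvOf (cdOf cl (c i)) (y i) / 524288 % 16 + 1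

/-- the remaining weight before the step `i` -/
noncomputable def M4_R (cl : Cl) (c y : ℕ → ℕ) (k i : ℕ) : ℕ :=
  ∑ j ∈ Finset.Ico i k, M4_w cl c y j

theorem M4_R_succ (cl : Cl) (c y : ℕ → ℕ) {k i : ℕ} (h : i < k) :
    M4_R cl c y k i = M4_w cl c y i + M4_R cl c y k (i + 1) :=
  Finset.sum_eq_sum_Ico_succ_bot h _

theorem M4_R_self (cl : Cl) (c y : ℕ → ℕ) (k : ℕ) : M4_R cl c y k k = 0 := by
  unfold M4_R
  rw [Finset.Ico_self, Finset.sum_empty]

/-- (M4) the tile program -/
theorem tile_sound {D F s J N n nw : ℕ} {zl : Zl} {cl : Cl} (hD : 2 ≤ D) (hs : 1 ≤ s)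
    (hF : s + 2 * J ≤ F + 1) (hwf : ∀ w < nw, WFC D F (getC cl w))
    (h : tileCk D F s J N n nw zl cl = true) {k : ℕ} {c y : ℕ → ℕ} {g : ℕ → ℕ → Bool}
    (hP : TileP D F cl nw n k c y g)
    (hz : getZ zl False (fun oS z0 nS => oS ≤ c 0 % 8192 ∧ c 0 % 8192 < oS + nS ∧ z0 + nS ≤ N)
      (c 0 / 8192))
    (l : ℕ) (hl : l < J) (hg : ∀ i < k, g i (s + 2 * l) = true) :
    ∀ i < k, g i (s + 2 * l - 1) = true := by
  obtain ⟨oS, z0, nS, ⟨z1, z2, z3⟩, hgz⟩ := M4_getZ _ zl _ hz
  set z := z0 + (c 0 % 8192 - oS) with hzdef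
  have hzN : z < N := by omega
  have hJ : 0 < J := by omega
  have hk := hP.k_pos
  set P := M4_prog D F s J N zl cl with hPdef
  set bs := baseT zl (wd D J) (geo (2 * D) J <<< (D - 1)) with hbs
  have hstep : ∀ i < k, ∀ R', M4_R cl c y k i = R' + 1 →
      (behind bs (P R') (R' + 1) (rvOf (cdOf cl (c i)) (y i))).testBit
        (wd D J * z + 2 * l * D + (D - 1)) = true →
      (P (R' + 1) 0 (c i)).testBit (wd D J * z + 2 * l * D + (D - 1)) = true ∧
      ((behind bs (P R') (R' + 1) (rvOf (cdOf cl (c i)) (y i))).testBit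
        (wd D J * z + (2 * l + 1) * D + (D - 1)) = true ∨ g i (s + 2 * l - 1) = false →
        (P (R' + 1) 0 (c i)).testBit (wd D J * z + (2 * l + 1) * D + (D - 1)) = true) := by
    intro i hi R' _ hbN
    obtain ⟨X, hm, hgX⟩ := hP.pair i hi
    have hW := hwf _ (hP.w_lt i hi)
    obtain ⟨d1, d2⟩ := hW.dart _ (hP.y_lt i hi)
    have hq := hW.q_lt (siOf (cdOf cl (c i)) (y i))
    set o := (sdOf (cdOf cl (c i)) (y i)).o with ho
    have hqs : (getS (cdOf cl (c i)).sl (siOf (cdOf cl (c i)) (y i))).q =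
      (sdOf (cdOf cl (c i)) (y i)).q := rfl
    have hoy : (getS (cdOf cl (c i)).sl (siOf (cdOf cl (c i)) (y i))).o = o := rfl
    have hWq : (getS (getC cl (c i / 8192)).sl (siOf (cdOf cl (c i)) (y i))).q =
      (sdOf (cdOf cl (c i)) (y i)).q := rfl
    have d2' : y i < o + (sdOf (cdOf cl (c i)) (y i)).q := d2
    have d1' : o ≤ y i := d1
    rw [hWq] at hq
    have hj : y i - o < D - 1 := by omega
    have e0 : P (R' + 1) 0 (c i) = bodyU (Pm.mk D (F * D) (s * D) (eM D J) (geo (wd D J) N)) D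
        ((2 ^ (D - 1) - 1) * geo D (2 * J * N)) (2 ^ (D - 1) * geo D (2 * J * N)) (D - 1) bs cl
        (P R') (R' + 1) (c i) := rfl
    rw [e0, M4_body]
    have hcol : ∀ t, (behind bs (P R') (R' + 1) (rvOf (cdOf cl (c i)) (y i))).testBit
        (t + (D - 1)) = true →
        (Bt (D - 1) bs (cdOf cl (c i)).sl (cdOf cl (c i)).RV (P R') (R' + 1)
          (siOf (cdOf cl (c i)) (y i))).testBit (t + (y i - o)) = true := by
      intro t ht
      refine M4_Bt _ _ _ _ _ _ _ (y i - o) _ (by rw [hqs]; omega) ?_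
      rw [hoy]
      have e1 : o + (y i - o) = y i := by omega
      have e2 : t + (y i - o) + (D - 1 - (y i - o)) = t + (D - 1) := by omega
      rw [e1, e2]
      exact ht
    have hgl := hgX (s + 2 * l) (by omega)
    have hgl1 := hgX (s + 2 * l - 1) (by omega)
    rw [hg i hi] at hgl
    have hres := M4_step (D := D) (F := F) (s := s) (J := J) (N := N) hD hs hF (z := z) (l := l)
      (j := y i - o) (X := X)
      (i := c i % 8192 - (sdOf (cdOf cl (c i)) (c i % 8192)).o) hzN hl hj
      (fun p => Bt (D - 1) bs (cdOf cl (c i)).sl (cdOf cl (c i)).RV (P R') (R' + 1) p)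
      (sdOf (cdOf cl (c i)) (c i % 8192)).bl (siOf (cdOf cl (c i)) (y i)) hm hgl.symm
      (hcol _ hbN)
    refine ⟨hres.1, fun h5 => hres.2 ?_⟩
    rcases h5 with h5 | h5
    · exact Or.inl (hcol _ h5)
    · right
      rw [← hgl1]
      exact h5
  have main : ∀ m i, i + m + 1 = k →
      (P (M4_R cl c y k i) 0 (c i)).testBit (wd D J * z + 2 * l * D + (D - 1)) = true ∧
      ((∃ i', i ≤ i' ∧ i' < k ∧ g i' (s + 2 * l - 1) = false) →
        (P (M4_R cl c y k i) 0 (c i)).testBit (wd D J * z + (2 * l + 1) * D + (D - 1)) = true) := by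
    intro m
    induction m with
    | zero =>
      intro i hi
      have hik : i < k := by omega
      have hR := M4_R_succ cl c y hik
      have hi1 : i + 1 = k := by omega
      rw [hi1, M4_R_self, Nat.add_zero] at hR
      obtain ⟨R', hR'⟩ : ∃ R', M4_R cl c y k i = R' + 1 := ⟨_, hR⟩
      have hfl := hP.flag i hik
      rw [if_pos hi1] at hfl
      have hnx := hP.next i hik
      rw [hi1, hP.clos] at hnx
      have hbeh : behind bs (P R') (R' + 1) (rvOf (cdOf cl (c i)) (y i)) = bs (c 0) := by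
        rw [M4_behind, if_pos (by omega), if_pos ?_, hnx]
        have e3 : M4_w cl c y i = rvOf (cdOf cl (c i)) (y i) / 524288 % 16 + 1 := rfl
        omega
      have hbase := M4_baseT (D := D) (J := J) (l := l) (by omega) hl hgz z1 z2
      have h1 := hstep i hik R' hR' (by rw [hbeh]; exact hbase)
      rw [hR']
      refine ⟨h1.1, ?_⟩
      rintro ⟨i', h2, h3, h4⟩
      have : i' = i := by omega
      subst this
      exact h1.2 (Or.inr h4)
    | succ m ih =>
      intro i hi
      have hik : i < k := by omega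
      have hR := M4_R_succ cl c y hik
      obtain ⟨ih1, ih2⟩ := ih (i + 1) (by omega)
      have hR2 := M4_R_succ cl c y (show i + 1 < k by omega)
      have e3 : M4_w cl c y i = rvOf (cdOf cl (c i)) (y i) / 524288 % 16 + 1 := rfl
      have e4 : 1 ≤ M4_w cl c y (i + 1) := by unfold M4_w; omega
      obtain ⟨R', hR'⟩ : ∃ R', M4_R cl c y k i = R' + 1 := ⟨M4_R cl c y k i - 1, by omega⟩
      have hfl := hP.flag i hik
      rw [if_neg (by omega)] at hfl
      have hnx := hP.next i hik
      have hbeh : behind bs (P R') (R' + 1) (rvOf (cdOf cl (c i)) (y i)) =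
          P (M4_R cl c y k (i + 1)) 0 (c (i + 1)) := by
        rw [M4_behind, if_neg (by omega), hnx, hPdef]
        unfold M4_prog
        rw [M4_U_pend _ _ _ _ (by omega)]
        congr 1
        omega
      have h1 := hstep i hik R' hR' (by rw [hbeh]; exact ih1)
      rw [hR']
      refine ⟨h1.1, ?_⟩
      rintro ⟨i', h2, h3, h4⟩
      rcases Nat.eq_or_lt_of_le h2 with h5 | h5
      · subst h5
        exact h1.2 (Or.inr h4)
      · refine h1.2 (Or.inl ?_)
        rw [hbeh]
        exact ih2 ⟨i', h5, h3, h4⟩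
  by_contra hcon
  push Not at hcon
  obtain ⟨i, hi, hgi⟩ := hcon
  rw [ne_eq, Bool.not_eq_true] at hgi
  have h1 := (main (k - 1) 0 (by omega)).2 ⟨i, Nat.zero_le _, hi, hgi⟩
  have h2 : M4_R cl c y k 0 = n := by
    unfold M4_R
    rw [← hP.sum, Finset.range_eq_Ico]
    rfl
  rw [h2] at h1
  have h3 := M4_ck hD hJ h (hP.w_lt 0 hk) hgz z1 z2 hl
  rw [h3] at h1
  exact absurd h1 (by simp)

end Pool.Agent.NNe
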