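import Pool.Agent.NNe.Rc

/-!
# The engine of MP_4b6a99_co: packed tables with fields of 24 bits
-/

namespace Pool.Agent.NNe

/-- the packed table with the fields `f j`, `j < q` -/
def pk (f : ℕ → ℕ) : ℕ → ℕ
  | 0 => 0
  | q + 1 => pk f q + f q * 2 ^ (24 * q)

theorem geoK_eq' (D k : ℕ) : geoK D k = geo D k := by
  show ((1 <<< (D * k)) - 1) / ((1 <<< D) - 1) = geo D k
  rw [Nat.one_shiftLeft, Nat.one_shiftLeft]
  rfl

theorem ext_eq (T b i : ℕ) : ext T b i = T / 2 ^ (b * i) % 2 ^ b := by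
  show (T >>> (b * i)) % (1 <<< b) = _
  rw [Nat.shiftRight_eq_div_pow, Nat.one_shiftLeft]

theorem ext_lt (T b i : ℕ) : ext T b i < 2 ^ b := by
  rw [ext_eq]
  exact Nat.mod_lt _ (by positivity)

theorem pk_lt {f : ℕ → ℕ} {q : ℕ} (h : ∀ j < q, f j < 2 ^ 24) : pk f q < 2 ^ (24 * q) := by
  induction q with
  | zero => simp [pk]
  | succ q ih =>
    have h1 := ih (fun j hj => h j (by omega))
    have h2 := h q (by omega)
    have h3 : (f q + 1) * 2 ^ (24 * q) ≤ 2 ^ 24 * 2 ^ (24 * q) := Nat.mul_le_mul_right _ h2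
    have h4 : 2 ^ (24 * (q + 1)) = 2 ^ 24 * 2 ^ (24 * q) := by rw [← pow_add]; congr 1; ring
    rw [h4]
    have h5 : (f q + 1) * 2 ^ (24 * q) = f q * 2 ^ (24 * q) + 2 ^ (24 * q) := by ring
    show pk f q + f q * 2 ^ (24 * q) < _
    omega

theorem pk_testBit {f : ℕ → ℕ} {q : ℕ} (h : ∀ j < q, f j < 2 ^ 24) (i : ℕ) :
    (pk f q).testBit i = (decide (i < 24 * q) && (f (i / 24)).testBit (i % 24)) := by
  induction q with
  | zero => simp [pk]
  | succ q ih =>
    have h1 := ih (fun j hj => h j (by omega))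
    have h2 := pk_lt (fun j (hj : j < q) => h j (by omega))
    have e : pk f (q + 1) = 2 ^ (24 * q) * f q + pk f q := by
      show pk f q + f q * 2 ^ (24 * q) = _
      ring
    rw [e, Nat.testBit_two_pow_mul_add _ h2]
    by_cases hi : i < 24 * q
    · rw [if_pos hi, h1]
      have : i < 24 * (q + 1) := by omega
      simp [hi, this]
    · rw [if_neg hi]
      by_cases hi2 : i < 24 * (q + 1)
      · have e1 : i / 24 = q := by omega
        have e2 : i - 24 * q = i % 24 := by omega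
        simp [hi2, e1, e2]
      · have e3 : (f q).testBit (i - 24 * q) = false := by
          refine Nat.testBit_lt_two_pow (lt_of_lt_of_le (h q (by omega)) ?_)
          exact Nat.pow_le_pow_right (by norm_num) (by omega)
        simp [hi2, e3]

theorem ext_testBit (T b j i : ℕ) : (ext T b j).testBit i = (decide (i < b) && T.testBit (b * j + i)) := by
  rw [ext_eq, Nat.testBit_mod_two_pow, Nat.testBit_div_two_pow, Nat.add_comm]

theorem pk_ext {f : ℕ → ℕ} {q j : ℕ} (h : ∀ j < q, f j < 2 ^ 24) (hj : j < q) :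
    ext (pk f q) 24 j = f j := by
  refine Nat.eq_of_testBit_eq (fun i => ?_)
  rw [ext_testBit, pk_testBit h]
  by_cases hi : i < 24
  · have e1 : (24 * j + i) / 24 = j := by omega
    have e2 : (24 * j + i) % 24 = i := by omega
    have e3 : 24 * j + i < 24 * q := by omega
    rw [e1, e2]
    simp [hi, e3]
  · have e3 : (f j).testBit i = false := by
      refine Nat.testBit_lt_two_pow (lt_of_lt_of_le (h j hj) ?_)
      exact Nat.pow_le_pow_right (by norm_num) (by omega)
    rw [e3]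
    simp [hi]

theorem pk_congr {f g : ℕ → ℕ} {q : ℕ} (h : ∀ j < q, f j = g j) : pk f q = pk g q := by
  induction q with
  | zero => rfl
  | succ q ih =>
    show pk f q + f q * _ = pk g q + g q * _
    rw [ih (fun j hj => h j (by omega)), h q (by omega)]

theorem pk_add (f g : ℕ → ℕ) (q : ℕ) : pk f q + pk g q = pk (fun j => f j + g j) q := by
  induction q with
  | zero => rfl
  | succ q ih =>
    show pk f q + f q * _ + (pk g q + g q * _) = pk (fun j => f j + g j) q + (f q + g q) * _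
    rw [← ih]
    ring

theorem pk_mul (c : ℕ) (f : ℕ → ℕ) (q : ℕ) : c * pk f q = pk (fun j => c * f j) q := by
  induction q with
  | zero => rfl
  | succ q ih =>
    show c * (pk f q + f q * _) = pk (fun j => c * f j) q + (c * f q) * _
    rw [← ih]
    ring

theorem pk_const (c q : ℕ) : c * geo 24 q = pk (fun _ => c) q := by
  induction q with
  | zero => rw [geo_zero]; rfl
  | succ q ih =>
    show _ = pk (fun _ => c) q + c * 2 ^ (24 * q)
    rw [← ih, geo_succ (by norm_num)]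
    ring

theorem pk_shl (n : ℕ) (f : ℕ → ℕ) (q : ℕ) : pk f q <<< n = pk (fun j => f j * 2 ^ n) q := by
  rw [Nat.shiftLeft_eq, mul_comm, pk_mul]
  exact pk_congr (fun j _ => mul_comm _ _)

theorem pk_shr (n : ℕ) (f : ℕ → ℕ) (q : ℕ) : pk (fun j => f j * 2 ^ n) q >>> n = pk f q := by
  rw [← pk_shl, Nat.shiftLeft_shiftRight]

theorem land_shl (T n i : ℕ) : T &&& ((2 ^ n - 1) <<< i) = T / 2 ^ i % 2 ^ n * 2 ^ i := by
  refine Nat.eq_of_testBit_eq (fun j => ?_)
  rw [Nat.testBit_and, Nat.testBit_shiftLeft, Nat.testBit_two_pow_sub_one, Nat.testBit_mul_two_pow,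
    Nat.testBit_mod_two_pow, Nat.testBit_div_two_pow]
  by_cases h : i ≤ j
  · have e : j - i + i = j := by omega
    rw [e]
    have h' : j ≥ i := h
    simp only [h, h', decide_true, Bool.true_and]
    rw [Bool.and_comm]
  · have h' : ¬ j ≥ i := h
    simp [h, h']

theorem pk_land (T M q : ℕ) (hM : M < 2 ^ 24) :
    T &&& (M * geo 24 q) = pk (fun j => ext T 24 j &&& M) q := by
  refine Nat.eq_of_testBit_eq (fun i => ?_)
  have hlt : ∀ j < q, ext T 24 j &&& M < 2 ^ 24 :=
    fun j _ => lt_of_le_of_lt Nat.and_le_right hM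
  rw [pk_testBit hlt, Nat.testBit_and, testBit_mul_geo (by norm_num) _ hM, Nat.testBit_and,
    ext_testBit]
  have e1 : 24 * (i / 24) + i % 24 = i := Nat.div_add_mod _ _
  have e2 : i % 24 < 24 := Nat.mod_lt _ (by norm_num)
  rw [e1]
  simp only [e2, decide_true, Bool.true_and]
  rcases decide (i < 24 * q) <;> rcases T.testBit i <;> rcases M.testBit (i % 24) <;> rfl

theorem bitsT_eq (T i n R : ℕ) (h : i + n ≤ 24) :
    bitsT T i n R = pk (fun x => ext T 24 x / 2 ^ i % 2 ^ n * 2 ^ i) R := by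
  have e : bitsT T i n R = T &&& (((1 <<< n) - 1) <<< i) * geoK 24 R := rfl
  rw [e, geoK_eq', Nat.one_shiftLeft, pk_land]
  · refine pk_congr (fun x _ => ?_)
    rw [land_shl]
  · rw [Nat.shiftLeft_eq]
    have h1 : 0 < 2 ^ n := by positivity
    calc (2 ^ n - 1) * 2 ^ i < 2 ^ n * 2 ^ i := Nat.mul_lt_mul_of_pos_right (by omega) (by positivity)
      _ = 2 ^ (n + i) := by rw [pow_add]
      _ ≤ 2 ^ 24 := Nat.pow_le_pow_right (by norm_num) (by omega)

/-- the code of the dart across -/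
def swC (e : ℕ) : ℕ :=
  e % 64 + e / 64 % 4 * 256 + e / 256 % 4 * 64 + e / 1024 % 16 * 16384 + e / 16384 % 16 * 1024

/-- the code of the reversed dart; `w` = the class of the dart -/
def rvC (w e : ℕ) : ℕ :=
  w + e / 4096 % 4 * 64 + e / 65536 % 4 * 256 + e / 1024 % 4 * 1024 + e / 64 % 4 * 4096 +
    e / 16384 % 4 * 16384 + e / 256 % 4 * 65536

theorem swT_ext {T R x : ℕ} (hx : x < R) : ext (swT T R) 24 x = swC (ext T 24 x) := by
  have e : swT T R = bitsT T 0 6 R + (bitsT T 6 2 R <<< 2 + (bitsT T 8 2 R >>> 2 +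
    (bitsT T 10 4 R <<< 4 + bitsT T 14 4 R >>> 4))) := rfl
  rw [e, bitsT_eq _ _ _ _ (by norm_num), bitsT_eq _ _ _ _ (by norm_num),
    bitsT_eq _ _ _ _ (by norm_num), bitsT_eq _ _ _ _ (by norm_num), bitsT_eq _ _ _ _ (by norm_num)]
  rw [pk_shl, pk_shl]
  have e1 : pk (fun x => ext T 24 x / 2 ^ 8 % 2 ^ 2 * 2 ^ 8) R =
      pk (fun x => (ext T 24 x / 2 ^ 8 % 2 ^ 2 * 2 ^ 6) * 2 ^ 2) R :=
    pk_congr (fun j _ => by ring)
  have e2 : pk (fun x => ext T 24 x / 2 ^ 14 % 2 ^ 4 * 2 ^ 14) R =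
      pk (fun x => (ext T 24 x / 2 ^ 14 % 2 ^ 4 * 2 ^ 10) * 2 ^ 4) R :=
    pk_congr (fun j _ => by ring)
  rw [e1, e2, pk_shr, pk_shr, pk_add, pk_add, pk_add, pk_add]
  have hlt : ∀ j, ext T 24 j / 2 ^ 0 % 2 ^ 6 * 2 ^ 0 + (ext T 24 j / 2 ^ 6 % 2 ^ 2 * 2 ^ 6 * 2 ^ 2 +
      (ext T 24 j / 2 ^ 8 % 2 ^ 2 * 2 ^ 6 + (ext T 24 j / 2 ^ 10 % 2 ^ 4 * 2 ^ 10 * 2 ^ 4 +
      ext T 24 j / 2 ^ 14 % 2 ^ 4 * 2 ^ 10))) = swC (ext T 24 j) := by
    intro j
    unfold swC
    norm_num
    omega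
  rw [pk_congr (fun j _ => hlt j)]
  refine pk_ext (fun j _ => ?_) hx
  unfold swC
  omega

theorem rvT_ext {w T R x : ℕ} (hw : w < 64) (hx : x < R) :
    ext (rvT w T R) 24 x = rvC w (ext T 24 x) := by
  have e : rvT w T R = w * geoK 24 R + (bitsT T 12 2 R >>> 6 + (bitsT T 16 2 R >>> 8 +
    (bitsT T 10 2 R + (bitsT T 6 2 R <<< 6 + (bitsT T 14 2 R + bitsT T 8 2 R <<< 8))))) := rfl
  rw [e, bitsT_eq _ _ _ _ (by norm_num), bitsT_eq _ _ _ _ (by norm_num),
    bitsT_eq _ _ _ _ (by norm_num), bitsT_eq _ _ _ _ (by norm_num),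
    bitsT_eq _ _ _ _ (by norm_num), bitsT_eq _ _ _ _ (by norm_num)]
  rw [pk_shl, pk_shl]
  have e1 : pk (fun x => ext T 24 x / 2 ^ 12 % 2 ^ 2 * 2 ^ 12) R =
      pk (fun x => (ext T 24 x / 2 ^ 12 % 2 ^ 2 * 2 ^ 6) * 2 ^ 6) R :=
    pk_congr (fun j _ => by ring)
  have e2 : pk (fun x => ext T 24 x / 2 ^ 16 % 2 ^ 2 * 2 ^ 16) R =
      pk (fun x => (ext T 24 x / 2 ^ 16 % 2 ^ 2 * 2 ^ 8) * 2 ^ 8) R :=
    pk_congr (fun j _ => by ring)
  rw [e1, e2, pk_shr, pk_shr, geoK_eq', pk_const, pk_add, pk_add, pk_add, pk_add, pk_add, pk_add]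
  have hlt : ∀ j, w + (ext T 24 j / 2 ^ 12 % 2 ^ 2 * 2 ^ 6 + (ext T 24 j / 2 ^ 16 % 2 ^ 2 * 2 ^ 8 +
      (ext T 24 j / 2 ^ 10 % 2 ^ 2 * 2 ^ 10 + (ext T 24 j / 2 ^ 6 % 2 ^ 2 * 2 ^ 6 * 2 ^ 6 +
      (ext T 24 j / 2 ^ 14 % 2 ^ 2 * 2 ^ 14 + ext T 24 j / 2 ^ 8 % 2 ^ 2 * 2 ^ 8 * 2 ^ 8))))) =
        rvC w (ext T 24 j) := by
    intro j
    unfold rvC
    norm_num
    omega
  rw [pk_congr (fun j _ => hlt j)]
  refine pk_ext (fun j _ => ?_) hx
  unfold rvC
  omega

/-! ### Lists -/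

/-- the packed list -/
def pkl : List ℕ → ℕ
  | [] => 0
  | a :: l => a + 2 ^ 24 * pkl l

theorem pkl_ext : ∀ {l : List ℕ} {j : ℕ} (hj : j < l.length), (∀ a ∈ l, a < 2 ^ 24) →
    pkl l / 2 ^ (24 * j) % 2 ^ 24 = l[j] := by
  intro l
  induction l with
  | nil => intro j hj; exact absurd hj (by simp)
  | cons a l ih =>
    intro j hj h
    have ha := h a (by simp)
    cases j with
    | zero =>
      show (a + 2 ^ 24 * pkl l) / 2 ^ (24 * 0) % 2 ^ 24 = a
      rw [Nat.mul_zero, pow_zero, Nat.div_one, Nat.add_mul_mod_self_left, Nat.mod_eq_of_lt ha]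
    | succ j =>
      have h1 := ih (j := j) (by simpa using hj) (fun b hb => h b (by simp [hb]))
      rw [List.getElem_cons_succ]
      show (a + 2 ^ 24 * pkl l) / 2 ^ (24 * (j + 1)) % 2 ^ 24 = _
      have e : 2 ^ (24 * (j + 1)) = 2 ^ 24 * 2 ^ (24 * j) := by rw [← pow_add]; congr 1; ring
      rw [e, ← Nat.div_div_eq_div_mul, Nat.add_mul_div_left _ _ (by positivity),
        Nat.div_eq_of_lt ha, Nat.zero_add]
      exact h1

theorem pkl_add (K : ℕ) : ∀ l : List ℕ, pkl l + K * geo 24 l.length = pkl (l.map (· + K)) := by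
  intro l
  induction l with
  | nil => simp [pkl, geo_zero]
  | cons a l ih =>
    show a + 2 ^ 24 * pkl l + K * geo 24 (l.length + 1) = a + K + 2 ^ 24 * pkl (l.map (· + K))
    rw [← ih, geo_succ' (by norm_num)]
    ring

theorem cntM_eq (m : ℕ) : ∀ n, cntM m n = ((List.range n).filter (fun w => m.testBit w)).length := by
  intro n
  induction n with
  | zero => rfl
  | succ n ih =>
    have e : cntM m (n + 1) = cntM m n + (m >>> n) % 2 := rfl
    rw [e, ih, List.range_succ, List.filter_append, List.length_append]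
    congr 1
    have h : m.testBit n = decide ((m >>> n) % 2 = 1) := by
      rw [Nat.testBit_eq_decide_div_mod_eq, Nat.shiftRight_eq_div_pow]
    rcases Nat.mod_two_eq_zero_or_one (m >>> n) with h1 | h1
    · rw [h1] at h ⊢
      simp [h]
    · rw [h1] at h ⊢
      simp [h]

theorem lstM_eq (m n : ℕ) : lstM m n = pkl ((List.range n).filter (fun w => m.testBit w)) := by
  have key : ∀ k ≤ n, (Nat.rec (motive := fun _ => ℕ) (nat_lit 0)
      (fun i r => lit (fun w => ifN (bitB m w) (Nat.add (Nat.shiftLeft r (nat_lit 24)) w) r)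
      (Nat.sub n (Nat.succ i))) k : ℕ) =
        pkl ((List.range' (n - k) k).filter (fun w => m.testBit w)) := by
    intro k
    induction k with
    | zero => intro _; rfl
    | succ k ih =>
      intro hk
      have h1 := ih (by omega)
      show ifN (bitB m (n - (k + 1))) ((_ : ℕ) <<< 24 + (n - (k + 1))) _ = _
      rw [h1, List.range'_succ, bitB_eq, ifN_eq]
      have e : n - (k + 1) + 1 = n - k := by omega
      rw [e, List.filter_cons]
      by_cases hb : m.testBit (n - (k + 1)) = true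
      · rw [if_pos hb, if_pos hb, Nat.shiftLeft_eq]
        show _ = (n - (k + 1)) + 2 ^ 24 * pkl _
        ring
      · rw [if_neg hb, if_neg hb]
  have h := key n (le_refl n)
  rw [Nat.sub_self] at h
  rw [List.range_eq_range']
  exact h

/-! ### Masks of classes -/

theorem maskSum {P : ℕ → Bool} : ∀ n i, (Nat.rec (motive := fun _ => ℕ) (nat_lit 0)
    (fun w r => Nat.add r (ifN (P w) (Nat.shiftLeft (nat_lit 1) w) (nat_lit 0))) n : ℕ) < 2 ^ n ∧
    (Nat.rec (motive := fun _ => ℕ) (nat_lit 0)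
    (fun w r => Nat.add r (ifN (P w) (Nat.shiftLeft (nat_lit 1) w) (nat_lit 0))) n : ℕ).testBit i =
      (decide (i < n) && P i) := by
  intro n i
  induction n with
  | zero =>
    refine ⟨by simp, ?_⟩
    simp
  | succ n ih =>
    obtain ⟨h1, h2⟩ := ih
    set r := (Nat.rec (motive := fun _ => ℕ) (nat_lit 0)
      (fun w r => Nat.add r (ifN (P w) (Nat.shiftLeft (nat_lit 1) w) (nat_lit 0))) n : ℕ) with hr
    have e : (Nat.rec (motive := fun _ => ℕ) (nat_lit 0)
      (fun w r => Nat.add r (ifN (P w) (Nat.shiftLeft (nat_lit 1) w) (nat_lit 0))) (n + 1) : ℕ) =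
        2 ^ n * (if P n then 1 else 0) + r := by
      show r + ifN (P n) (1 <<< n) 0 = _
      rw [ifN_eq, Nat.one_shiftLeft]
      split_ifs <;> ring
    rw [e]
    constructor
    · rw [pow_succ]
      split_ifs <;> omega
    · rw [Nat.testBit_two_pow_mul_add _ h1]
      by_cases hi : i < n
      · rw [if_pos hi, h2]
        have : i < n + 1 := by omega
        simp [hi, this]
      · rw [if_neg hi]
        by_cases hi2 : i = n
        · subst hi2
          rw [Nat.sub_self]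
          rcases P i <;> simp
        · have h3 : ¬ i < n + 1 := by omega
          obtain ⟨d, hd⟩ : ∃ d, i - n = d + 1 := ⟨i - n - 1, by omega⟩
          rw [hd]
          split_ifs
          · rw [Nat.testBit_succ]
            simp [h3]
          · simp [h3]

end Pool.Agent.NNe
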