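import Pool.Agent.NNe.PlS

/-!
# The engine of MP_4b6a99_co: the plain stage

`wCk`: the class data of a stage belong to the list of the classes.
`plain_stage`: if all checks of the plain stage succeed, the occurring dart types are darts of the
stage and all sectors have the last field.
-/

namespace Pool.Agent.NNe

open Pool.Agent.NNc

/-! ### Class facts -/

/-- sum of a list, kernel form -/
noncomputable def sumL (w : List ℕ) : ℕ :=
  List.rec (motive := fun _ => ℕ) (nat_lit 0) (fun a _ r => Nat.add a r) w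

/-- packed list, kernel form -/
noncomputable def encL (w : List ℕ) : ℕ :=
  List.rec (motive := fun _ => ℕ) (nat_lit 0) (fun a _ r => Nat.add a (Nat.mul (nat_lit 16) r)) w

/-- length of a list, kernel form -/
noncomputable def lenL (w : List ℕ) : ℕ :=
  List.rec (motive := fun _ => ℕ) (nat_lit 0) (fun _ _ r => Nat.succ r) w

/-- all entries are at most `15` -/
noncomputable def ltL (w : List ℕ) : Bool :=
  List.rec (motive := fun _ => Bool) true (fun a _ r => andB (Nat.ble a (nat_lit 15)) r) w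

/-- the class data belong to the list of the classes -/
noncomputable def wCk (W : List (List ℕ)) : Cl → Bool :=
  List.rec (motive := fun _ => Cl → Bool) (fun _ => true)
    (fun w _ ih cl => Cl.rec (motive := fun _ => Bool) false (fun cd tl _ =>
      Cd.rec (motive := fun _ => Bool) (fun _ v mf _ _ _ _ _ =>
        andB (Nat.beq (sumL w) v) (andB (Nat.beq (encL w) mf) (andB (Nat.ble (nat_lit 3) v)
        (andB (Nat.ble v (nat_lit 31)) (andB (ltL w) (andB (Nat.beq (lenL w) (nat_lit 4))
          (ih tl))))))) cd) cl) W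

/-- what `wCk` says about the class number `i` -/
structure ClI (w : List ℕ) (cd : Cd) : Prop where
  v : cd.v = w.sum
  mf : cd.mf = encW w
  v3 : 3 ≤ w.sum
  v31 : w.sum ≤ 31
  lt16 : ∀ i < 4, w.getD i 0 < 16

theorem sumL_eq (w : List ℕ) : sumL w = w.sum := by
  induction w with
  | nil => rfl
  | cons a w ih =>
    show a + sumL w = _
    rw [ih, List.sum_cons]

theorem encL_eq {w : List ℕ} (h : w.length = 4) : encL w = encW w := by
  match w, h with
  | [a, b, c, d], _ =>
    show a + 16 * (b + 16 * (c + 16 * (d + 16 * 0))) = a + 16 * b + 256 * c + 4096 * d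
    ring

theorem lenL_eq (w : List ℕ) : lenL w = w.length := by
  induction w with
  | nil => rfl
  | cons a w ih =>
    show lenL w + 1 = _
    rw [ih, List.length_cons]

theorem ltL_iff {w : List ℕ} (h : ltL w = true) (i : ℕ) : w.getD i 0 < 16 := by
  induction w generalizing i with
  | nil => simp
  | cons a w ih =>
    have e : ltL (a :: w) = andB (Nat.ble a 15) (ltL w) := rfl
    rw [e, andB_eq, Bool.and_eq_true, Nat.ble_eq] at h
    cases i with
    | zero =>
      show a < 16
      omega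
    | succ i => exact ih h.2 i

theorem wCk_iff : ∀ {W : List (List ℕ)} {cl : Cl}, wCk W cl = true →
    ∀ (i : ℕ) (h : i < W.length), ClI W[i] (getC cl i) := by
  intro W
  induction W with
  | nil => intro cl _ i h; exact absurd h (by simp)
  | cons w W ih =>
    intro cl hc i hi
    cases cl with
    | nil => exact absurd hc (by simp [wCk])
    | cons cd tl =>
      rcases cd with ⟨R, v, mf, SI, SW, RV, CO, sl⟩
      have e : wCk (w :: W) (.cons ⟨R, v, mf, SI, SW, RV, CO, sl⟩ tl) =
        andB (Nat.beq (sumL w) v) (andB (Nat.beq (encL w) mf) (andB (Nat.ble 3 v)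
        (andB (Nat.ble v 31) (andB (ltL w) (andB (Nat.beq (lenL w) 4) (wCk W tl)))))) := rfl
      rw [e] at hc
      simp only [andB_eq, Bool.and_eq_true] at hc
      obtain ⟨h1, h2, h3, h4, h5, h6, h7⟩ := hc
      cases i with
      | zero =>
        have g1 := Nat.eq_of_beq_eq_true h1
        have g2 := Nat.eq_of_beq_eq_true h2
        have g3 := Nat.le_of_ble_eq_true h3
        have g4 := Nat.le_of_ble_eq_true h4
        have g6 := Nat.eq_of_beq_eq_true h6
        rw [lenL_eq] at g6
        rw [encL_eq g6] at g2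
        rw [sumL_eq] at g1
        exact ⟨g1.symm, g2.symm, by show 3 ≤ w.sum; omega, by show w.sum ≤ 31; omega,
          fun i _ => ltL_iff h5 i⟩
      | succ i => exact ih h7 i (by simpa using hi)

/-- the class facts of a stage -/
theorem cl_facts {sh : Shape} {cl : Cl} (h : wCk sh.W cl = true) {w : List ℕ} (hw : w ∈ sh.W) :
    ClI w (cdW sh cl w) := by
  have h1 := wCk_iff h _ (idx_lt hw)
  rw [List.getElem_idxOf] at h1
  exact h1

theorem vtT_ext {cl : Cl} : ∀ {nw : ℕ}, (∀ i < nw, (getC cl i).v ≤ 31) →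
    vtT cl nw < 2 ^ (5 * nw) ∧ ∀ i < nw, ext (vtT cl nw) 5 i = (getC cl i).v := by
  intro nw
  induction nw with
  | zero => intro _; exact ⟨by simp [vtT], fun i hi => absurd hi (by omega)⟩
  | succ n ih =>
    intro h
    obtain ⟨h1, h2⟩ := ih (fun i hi => h i (by omega))
    have hn := h n (by omega)
    have e : vtT cl (n + 1) = vtT cl n + 2 ^ (5 * n) * (getC cl n).v := by
      have e1 : vtT cl (n + 1) = vtT cl n + (Cd.rec (motive := fun _ => ℕ)
        (fun _ v _ _ _ _ _ _ => v) (getC cl n)) <<< (5 * n) := rfl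
      rw [e1, Nat.shiftLeft_eq]
      rcases getC cl n with ⟨R, v, mf, SI, SW, RV, CO, sl⟩
      show _ + v * _ = _ + _ * v
      ring
    rw [e]
    have e2 : 2 ^ (5 * (n + 1)) = 2 ^ (5 * n) * 32 := by
      have : (32 : ℕ) = 2 ^ 5 := by norm_num
      rw [this, ← pow_add]; congr 1
    constructor
    · rw [e2]
      have h3 : 2 ^ (5 * n) * (getC cl n).v ≤ 2 ^ (5 * n) * 31 := Nat.mul_le_mul_left _ hn
      omega
    · intro i hi
      rw [ext_eq]
      rcases Nat.lt_succ_iff_lt_or_eq.1 hi with hi | rfl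
      · have e3 : 2 ^ (5 * n) = 2 ^ (5 * i) * (2 ^ 5 * 2 ^ (5 * (n - i - 1))) := by
          rw [← pow_add, ← pow_add]; congr 1; omega
        rw [e3, Nat.mul_assoc, Nat.add_mul_div_left _ _ (by positivity), Nat.mul_assoc,
          Nat.add_mul_mod_self_left, ← ext_eq]
        exact h2 i hi
      · rw [Nat.add_mul_div_left _ _ (by positivity), Nat.div_eq_of_lt h1, Nat.zero_add,
          Nat.mod_eq_of_lt (by omega)]

/-! ### Codes -/

theorem cod_swp {W : List (List ℕ)} (hW : W.length ≤ 64) {x : DT} (h : Bnd x) (hw : x.w' ∈ W) :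
    swC (cod W x) = cod W x.swp := by
  have h1 := idx_lt hw
  have := h.k; have := h.b; have := h.la; have := h.lb; have := h.la'; have := h.lb'
  unfold swC cod slotC DT.swp
  simp only
  omega

theorem cod_rev {W : List (List ℕ)} (hW : W.length ≤ 64) {x : DT} (h : Bnd x) (hw : x.w' ∈ W) :
    rvC (W.idxOf x.w) (cod W x) = cod W x.rev := by
  have hcx := cod_facts hW h hw 0
  rw [Nat.mul_zero, Nat.add_zero] at hcx
  unfold rvC
  rw [hcx.lb, hcx.la, hcx.b, hcx.lb', hcx.k, hcx.la']
  unfold cod slotC DT.rev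
  simp only
  ring

theorem co_inj {f : ℕ → ℕ} {R : ℕ} (h : ∀ x < R, x + 2 ≤ R → f x < f (x + 1)) {i j : ℕ}
    (hi : i < R) (hj : j < R) (hij : f i = f j) : i = j := by
  have key : ∀ d i, i + d + 1 < R → f i < f (i + d + 1) := by
    intro d
    induction d with
    | zero => intro i hi; exact h i (by omega) (by omega)
    | succ d ih =>
      intro i hi
      exact lt_trans (ih i (by omega)) (h (i + d + 1) (by omega) (by omega))
  rcases lt_trichotomy i j with h1 | h1 | h1
  · have := key (j - i - 1) i (by omega)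
    rw [show i + (j - i - 1) + 1 = j by omega] at this
    omega
  · exact h1
  · have := key (i - j - 1) j (by omega)
    rw [show j + (i - j - 1) + 1 = i by omega] at this
    omega

theorem allS_get {f : ℕ → Sd → Bool} : ∀ {l : Sl} {k : ℕ}, allS f l k = true →
    ∀ i < l.l.length, f (k + i) (getS l i) = true := by
  intro l
  induction l with
  | nil => intro k _ i hi; exact absurd hi (by simp [Sl.l])
  | cons s tl ih =>
    intro k h i hi
    have e : allS f (.cons s tl) k = andB (f k s) (allS f tl (k + 1)) := rfl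
    rw [e, andB_eq, Bool.and_eq_true] at h
    cases i with
    | zero => exact h.1
    | succ i =>
      have := ih h.2 i (by simpa [Sl.l] using hi)
      rw [show k + (i + 1) = k + 1 + i by omega]
      exact this

theorem getS_lt : ∀ {l : Sl} {i : ℕ}, 0 < (getS l i).q → i < l.l.length := by
  intro l
  induction l with
  | nil => intro i h; exact absurd h (by simp [getS, Sd.q])
  | cons s tl ih =>
    intro i h
    cases i with
    | zero => simp [Sl.l]
    | succ i =>
      have := ih (i := i) h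
      simp only [Sl.l, List.length_cons]
      omega

theorem findR_mem {p : ℕ} : ∀ {bl : Bl}, findR bl p ≠ 0 → (findR bl p, p) ∈ bl.rs := by
  intro bl
  induction bl with
  | nil => intro h; exact absurd rfl h
  | r X p' tl ih =>
    intro h
    have e : findR (.r X p' tl) p = ifN (Nat.beq p' p) X (findR tl p) := rfl
    rw [e, ifN_eq, beq_iff] at h ⊢
    by_cases hp : p' = p
    · subst hp
      simp [Bl.rs]
    · have hp' : ¬ (decide (p' = p) = true) := by simpa using hp
      rw [if_neg hp'] at h ⊢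
      exact List.mem_cons_of_mem _ (ih h)
  | c X k p' tl ih =>
    intro h
    exact ih h

theorem rowY_testBit (X FD i m : ℕ) : (rowY X FD i).testBit m =
    (decide (m < FD) && X.testBit (FD * i + m)) := by
  have e : rowY X FD i = (X >>> (FD * i)) % (1 <<< FD) := rfl
  rw [e, Nat.one_shiftLeft, Nat.testBit_mod_two_pow, Nat.testBit_shiftRight]

theorem lastF_testBit {D F X i j : ℕ} (hF : 1 ≤ F) (hj : j < D) :
    (lastF D F X i).testBit j = X.testBit (F * D * i + (F - 1) * D + j) := by
  have e : lastF D F X i = (rowY X (F * D) i) >>> ((F - 1) * D) := rfl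
  have h1 : (F - 1) * D + j < F * D := by
    have : F * D = (F - 1) * D + D := by
      obtain ⟨g, rfl⟩ : ∃ g, F = g + 1 := ⟨F - 1, by omega⟩
      rw [Nat.add_sub_cancel]
      ring
    omega
  rw [e, Nat.testBit_shiftRight, rowY_testBit]
  simp [h1, Nat.add_assoc]

theorem inM_iff {E r j : ℕ} (h : inM E r = true) (hj : E.testBit j = true) : r.testBit j = true := by
  have h1 : (r ||| E) = r := Nat.eq_of_beq_eq_true h
  rw [← h1, Nat.testBit_or, hj, Bool.or_true]

/-! ### Occurring darts -/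

theorem occ_typ {sh : Shape} (O : OccS sh) {x : DT} (h : Occr O.P x) : x.typOK sh = true := by
  obtain ⟨y, h | h⟩ := h
  · exact O.typ1 h
  · exact O.typ2 h

theorem occ_sum {sh : Shape} (O : OccS sh) (hv3 : ∀ w ∈ sh.W, 3 ≤ w.sum) {x : DT}
    (h : Occr O.P x) : x.w.sum + x.w'.sum ≤ sh.n + 3 := by
  obtain ⟨y, h | h⟩ := h
  · have hs := secF_of (O.legal _ _ h)
    have h1 := hs.sum
    have h2 := hv3 _ (typ_w hs.tx).1
    have h3 := hv3 _ (typ_w hs.tx).2
    have h4 := hv3 _ (typ_w hs.ty).2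
    omega
  · have hs := secF_of (O.legal _ _ h)
    have h1 := hs.sum
    have h2 := hv3 _ (typ_w hs.tx).1
    have h3 := hv3 _ (typ_w hs.tx).2
    have h4 := hv3 _ (typ_w hs.ty).2
    rw [hs.w]
    omega

/-- the slots of all legal dart types are in the list -/
structure NlOK (sh : Shape) (nl : Nl) : Prop where
  lt : ∀ p ∈ nl.l, ∀ c ∈ p.2.2, c < 4096
  mem : ∀ x : DT, x.typOK sh = true → ∃ p ∈ nl.l, p.1 = x.la ∧ p.2.1 = x.lb ∧ slotC x ∈ p.2.2

/-- what `plCk` says -/
structure PlCk (D F n a b c nw tt w : ℕ) (nl : Nl) (cl : Cl) : Prop where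
  scan : scanN (mkM cl nw) (getC cl w).CO (vmM cl (n + 3 - (getC cl w).v) nw) nw w nl 1 =
    (getC cl w).R + 1
  dart : ∀ x < (getC cl w).R, PlD cl tt w (getC cl w) x
  cov : ∀ i < (getC cl w).sl.l.length, ∀ p < (getC cl w).sl.l.length,
    mtTag (getS (getC cl w).sl i).t (getS (getC cl w).sl p).t = true →
    ∀ j < (getS (getC cl w).sl i).q, inM (maskE D n a b c (getC cl w).v (getC cl w).mf (vtT cl nw)
      (getC cl w).CO (getS (getC cl w).sl i).t (getS (getC cl w).sl i).a4
      (getS (getC cl w).sl p).o (getS (getC cl w).sl p).q (getS (getC cl w).sl p).sb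
      (ext (getC cl w).CO 24 ((getS (getC cl w).sl i).o + j) &&& redE (getS (getC cl w).sl i).t))
      (lastF D F (findR (getS (getC cl w).sl i).bl p) j) = true

theorem plCk_iff {D F n a b c nw tt w : ℕ} {nl : Nl} {cl : Cl} (hw : w < 64)
    (h : plCk D F n a b c nw tt w nl cl = true) : PlCk D F n a b c nw tt w nl cl := by
  obtain ⟨cd, hcd⟩ : ∃ cd, cd = getC cl w := ⟨_, rfl⟩
  have e : plCk D F n a b c nw tt w nl cl =
    andB (Nat.beq (scanN (mkM cl nw) cd.CO (vmM cl (n + 3 - cd.v) nw) nw w nl 1) (cd.R + 1))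
    (andB (allN (plD cl tt cd.R cd.SW cd.RV cd.CO (swT cd.CO cd.R) (rvT w cd.CO cd.R)) cd.R)
      (allS (fun _ s => allS (fun p s' => impB (mtTag s.t s'.t)
          (plE D F n a b c cd.v cd.mf (vtT cl nw) cd.CO s.t s.a4 s.o s.q s.bl p s'.o s'.q s'.sb))
          cd.sl 0) cd.sl 0)) := by
    have e1 : plCk D F n a b c nw tt w nl cl = Cd.rec (motive := fun _ => Bool)
      (fun R v mf _ SW RV CO sl =>
    andB (Nat.beq (scanN (mkM cl nw) CO (vmM cl (n + 3 - v) nw) nw w nl 1) (R + 1))
    (andB (allN (plD cl tt R SW RV CO (swT CO R) (rvT w CO R)) R)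
      (allS (fun _ s => Sd.rec (motive := fun _ => Bool) (fun t a4 o q _ bl =>
        allS (fun p s' => Sd.rec (motive := fun _ => Bool) (fun t' _ o' q' sb' _ =>
          impB (mtTag t t') (plE D F n a b c v mf (vtT cl nw) CO t a4 o q bl p o' q' sb')) s')
          sl 0) s) sl 0))) (getC cl w) := rfl
    rw [e1, ← hcd]
    rcases cd with ⟨R, v, mf, SI, SW, RV, CO, sl⟩
    have e2 : (fun (_ : ℕ) (s : Sd) => Sd.rec (motive := fun _ => Bool) (fun t a4 o q _ bl =>
        allS (fun p s' => Sd.rec (motive := fun _ => Bool) (fun t' _ o' q' sb' _ =>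
          impB (mtTag t t') (plE D F n a b c v mf (vtT cl nw) CO t a4 o q bl p o' q' sb')) s')
          sl 0) s) = (fun (_ : ℕ) (s : Sd) => allS (fun p s' => impB (mtTag s.t s'.t)
          (plE D F n a b c v mf (vtT cl nw) CO s.t s.a4 s.o s.q s.bl p s'.o s'.q s'.sb))
          sl 0) := by
      funext _ s
      rcases s with ⟨t, a4, o, q, sb, bl⟩
      have e3 : (fun (p : ℕ) (s' : Sd) => Sd.rec (motive := fun _ => Bool) (fun t' _ o' q' sb' _ =>
          impB (mtTag t t') (plE D F n a b c v mf (vtT cl nw) CO t a4 o q bl p o' q' sb')) s') =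
          (fun p s' => impB (mtTag t s'.t)
          (plE D F n a b c v mf (vtT cl nw) CO t a4 o q bl p s'.o s'.q s'.sb)) := by
        funext p s'
        rcases s' with ⟨t', a4', o', q', sb', bl'⟩
        rfl
      show allS (fun (p : ℕ) (s' : Sd) => Sd.rec (motive := fun _ => Bool) (fun t' _ o' q' sb' _ =>
          impB (mtTag t t') (plE D F n a b c v mf (vtT cl nw) CO t a4 o q bl p o' q' sb')) s')
          sl 0 = _
      rw [e3]
      rfl
    show andB _ (andB _ (allS _ sl 0)) = _
    rw [e2]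
    rfl
  rw [e, andB_eq, andB_eq, Bool.and_eq_true, Bool.and_eq_true] at h
  obtain ⟨h1, h2, h3⟩ := h
  rw [allN_iff] at h2
  refine ⟨?_, ?_, ?_⟩
  · rw [← hcd]
    exact Nat.eq_of_beq_eq_true h1
  · rw [← hcd]
    intro x hx
    exact plD_iff hw hx (h2 x hx)
  · rw [← hcd]
    intro i hi p hp ht j hj
    have h4 := allS_get h3 i hi
    have h5 := allS_get h4 p hp
    rw [Nat.zero_add, impB_eq, ht, Bool.not_true, Bool.false_or] at h5
    have h6 := (allN_iff _ _).1 h5 j hj
    exact h6

theorem mtTag_of {x y : DT} (hx : Bnd x) (hy : Bnd y) (hlx : x.loc = true) (hly : y.loc = true)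
    (hla : y.la = x.la) (hdx : x.dr = false) (hdy : y.dr = true) (hk : x.la = 3 → y.k = x.k)
    {o : ℕ} : mtTag (tagC x + 16 * o) (tagC y + 16 * o) = true := by
  have h1 := loc_dir hlx
  have h2 := loc_dir hly
  rw [hdx, if_neg (by simp)] at h1
  rw [hdy, if_pos rfl] at h2
  have hk1 := hx.k
  have hk2 := hy.k
  have hl1 := hx.la
  have hl2 := hy.la
  have e : ∀ t t', mtTag t t' = andB (orB (Nat.ble 12 (t % 16))
    (Nat.beq (t % 16 % 4) ((t % 16 / 4 + 2) % 3))) (Nat.beq t' (16 * (t / 16) +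
      ifN (Nat.ble 12 (t % 16)) (t % 16) (5 * (t % 16 / 4)))) := fun _ _ => rfl
  have e1 : (tagC x + 16 * o) % 16 = tagC x := by unfold tagC; omega
  have e2 : (tagC x + 16 * o) / 16 = o := by unfold tagC; omega
  have e3 : tagC x / 4 = x.la := by unfold tagC; omega
  have e4 : tagC x % 4 = x.k := by unfold tagC; omega
  rw [e, e1, e2, e3, e4, andB_eq, orB_eq, Bool.and_eq_true, Bool.or_eq_true, ifN_eq]
  unfold tagC
  by_cases h3 : x.la = 3
  · have h4 := hk h3
    have hb : Nat.ble 12 (x.k + 4 * x.la) = true := by rw [Nat.ble_eq]; omega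
    rw [if_pos hb]
    refine ⟨Or.inl hb, ?_⟩
    rw [Nat.beq_eq]
    omega
  · have h4 := h1 (by omega)
    have h5 := h2 (by omega)
    have hb : ¬ Nat.ble 12 (x.k + 4 * x.la) = true := by rw [Nat.ble_eq]; omega
    rw [if_neg hb]
    refine ⟨Or.inr ?_, ?_⟩
    · rw [Nat.beq_eq]
      omega
    · rw [Nat.beq_eq]
      omega

/-- the plain stage -/
theorem plain_stage {sh : Shape} {a b c : ℕ}
    (O : OccL sh (locOK a.testBit b.testBit c.testBit)) {D F nw tc : ℕ} {nl : Nl} {cl : Cl}
    (hF : 1 ≤ F) (hn : sh.n ≤ 15) (htc : tc < 3) (hlen : sh.W.length = nw) (hnw : nw ≤ 64)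
    (hcl : wCk sh.W cl = true) (hwf : ∀ w < nw, WFC D F (getC cl w)) (hnl : NlOK sh nl)
    (hck : ∀ w < nw, plCk D F sh.n a b c nw (4 * tc + (tc + 2) % 3) w nl cl = true) :
    ∃ pos G, Rc O.toOccS D F nw cl tc pos G (fun _ => 0) ∧
      ∀ x y, O.P x y → G x y (F - 1) = true := by
  classical
  have hW64 : sh.W.length ≤ 64 := by omega
  have hcf : ∀ w ∈ sh.W, ClI w (cdW sh cl w) := fun w hw => cl_facts hcl hw
  have hv3 : ∀ w ∈ sh.W, 3 ≤ w.sum := fun w hw => (hcf w hw).v3
  have hidx : ∀ w ∈ sh.W, sh.W.idxOf w < nw := fun w hw => by rw [← hlen]; exact idx_lt hw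
  have hpl : ∀ w ∈ sh.W, PlCk D F sh.n a b c nw (4 * tc + (tc + 2) % 3) (sh.W.idxOf w) nl cl :=
    fun w hw => plCk_iff (by have := hidx w hw; omega) (hck _ (hidx w hw))
  have hinj : ∀ w ∈ sh.W, ∀ i j, i < (cdW sh cl w).R → j < (cdW sh cl w).R →
      coOf (cdW sh cl w) i = coOf (cdW sh cl w) j → i = j := fun w hw i j hi hj h =>
    co_inj (f := coOf (cdW sh cl w)) (fun x hx => ((hpl w hw).dart x hx).inc) hi hj h
  -- existence
  have hex : ∀ x, Occr O.P x → ∃ i < (cdW sh cl x.w).R, coOf (cdW sh cl x.w) i = cod sh.W x := by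
    intro x hx
    have ht := occ_typ O.toOccS hx
    have hb := typ_bnd ht
    obtain ⟨hwx, hwx'⟩ := typ_w ht
    obtain ⟨l1, l2, -, -⟩ := typ_loc ht
    have hsc := (hpl _ hwx).scan
    obtain ⟨-, -, h3⟩ := scanN_spec hnw hnl.lt hsc
    obtain ⟨p, hp, hp1, hp2, hp3⟩ := hnl.mem x ht
    have hn1 : (nearM (mkM cl nw) p.1 p.2.1).testBit (sh.W.idxOf x.w) = true := by
      rw [hp1, hp2]
      exact nearM_of hb l1 (hidx _ hwx) (hcf _ hwx).mf (hcf _ hwx).lt16
    have e1 : slotC x / 4 % 4 = x.la' := by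
      have := hb.la'; have := hb.lb'
      unfold slotC; omega
    have e2 : slotC x % 4 = x.lb' := by
      have := hb.la'; have := hb.lb'
      unfold slotC; omega
    have hn2 : (nearM (mkM cl nw) (slotC x / 4 % 4) (slotC x % 4) &&&
        vmM cl (sh.n + 3 - (getC cl (sh.W.idxOf x.w)).v) nw).testBit (sh.W.idxOf x.w') = true := by
      rw [e1, e2, Nat.testBit_and, Bool.and_eq_true]
      refine ⟨nearM_of hb.rev l2 (hidx _ hwx') (hcf _ hwx').mf (hcf _ hwx').lt16, ?_⟩
      rw [vmM_testBit, Bool.and_eq_true, Nat.ble_eq]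
      refine ⟨decide_eq_true (hidx _ hwx'), ?_⟩
      have g1 := (hcf _ hwx).v
      have g2 := (hcf _ hwx').v
      have g3 := occ_sum O.toOccS hv3 hx
      unfold cdW at g1 g2
      rw [g1, g2]
      omega
    obtain ⟨i, -, hi2, hi3⟩ := h3 p hp hn1 _ hp3 _ (hidx _ hwx') hn2
    exact ⟨i, hi2, hi3⟩
  set pos : DT → ℕ := fun x => if h : ∃ i < (cdW sh cl x.w).R, coOf (cdW sh cl x.w) i = cod sh.W x
    then h.choose else 0 with hpos
  have hps : ∀ x, Occr O.P x → pos x < (cdW sh cl x.w).R ∧
      coOf (cdW sh cl x.w) (pos x) = cod sh.W x := by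
    intro x hx
    have h := hex x hx
    simp only [hpos, dif_pos h]
    exact h.choose_spec
  -- the darts across and reversed
  have hsw : ∀ x, Occr O.P x → swOf (cdW sh cl x.w) (pos x) = pos x.swp := by
    intro x hx
    have ht := occ_typ O.toOccS hx
    obtain ⟨hwx, hwx'⟩ := typ_w ht
    have hd := (hpl _ hwx).dart (pos x) (hps x hx).1
    have hs := hps _ (O.toOccS.occ_swp hx)
    refine hinj _ hwx _ _ hd.swR hs.1 ?_
    have e1 := hd.sw
    have e2 := hs.2
    have e3 := (hps x hx).2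
    unfold cdW at e2 e3 ⊢
    rw [e1, e3, cod_swp hW64 (typ_bnd ht) hwx']
    exact e2.symm
  have hrv : ∀ x, Occr O.P x → rvOf (cdW sh cl x.w) (pos x) % 8192 = pos x.rev ∧
      rvOf (cdW sh cl x.w) (pos x) / 8192 = sh.W.idxOf x.w' + 64 * (x.w'.sum - 3 +
        if tagC x.rev = 4 * tc + (tc + 2) % 3 then 16 else 0) := by
    intro x hx
    have ht := occ_typ O.toOccS hx
    have hb := typ_bnd ht
    obtain ⟨hwx, hwx'⟩ := typ_w ht
    have hd := (hpl _ hwx).dart (pos x) (hps x hx).1
    have hs := hps _ (O.toOccS.occ_rev hx)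
    have e3 := (hps x hx).2
    have hcx := cod_facts hW64 hb hwx' 0
    rw [Nat.mul_zero, Nat.add_zero] at hcx
    have hcr := cod_facts hW64 hb.rev (show x.rev.w' ∈ sh.W from hwx) 0
    rw [Nat.mul_zero, Nat.add_zero] at hcr
    have d1 := hd.rR
    have d2 := hd.rc
    have d3 := hd.rd
    have e3' : coOf (getC cl (sh.W.idxOf x.w)) (pos x) = cod sh.W x := e3
    rw [e3', hcx.w2] at d1 d2 d3
    rw [cod_rev hW64 hb hwx'] at d2 d3
    rw [hcr.tag] at d3
    have hv' := (hcf _ hwx').v
    unfold cdW at hv'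
    rw [hv'] at d3
    constructor
    · refine hinj _ hwx' _ _ d1 hs.1 ?_
      exact d2.trans hs.2.symm
    · exact d3
  -- the sides
  have hside : ∀ x, Occr O.P x → (sdOf (cdW sh cl x.w) (pos x)).t = tagC x ∧
      (sdOf (cdW sh cl x.w) (pos x)).a4 = 4 * x.la ∧
      lbOf (cdW sh cl x.w) (pos x) = x.lb := by
    intro x hx
    have ht := occ_typ O.toOccS hx
    have hb := typ_bnd ht
    obtain ⟨hwx, hwx'⟩ := typ_w ht
    have hcx := cod_facts hW64 hb hwx' 0
    rw [Nat.mul_zero, Nat.add_zero] at hcx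
    have hwfx : WFC D F (cdW sh cl x.w) := hwf _ (hidx _ hwx)
    have e3 : ext (cdW sh cl x.w).CO 24 (pos x) = cod sh.W x := (hps x hx).2
    have h1 := hwfx.tag _ (hps x hx).1
    have h2 := hwfx.a4 _ (hps x hx).1
    rw [e3, hcx.tag] at h1
    rw [h1] at h2
    refine ⟨h1, ?_, ?_⟩
    · rw [h2]
      have := hb.k; have := hb.la
      unfold tagC
      omega
    · unfold lbOf
      rw [e3, hcx.lb]
  set G : DT → DT → ℕ → Bool := fun x y f =>
    (findR (sdOf (cdW sh cl x.w) (pos x)).bl (siOf (cdW sh cl x.w) (pos y))).testBit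
      (F * D * (pos x - (sdOf (cdW sh cl x.w) (pos x)).o) + f * D +
        (pos y - (sdOf (cdW sh cl x.w) (pos y)).o)) with hG
  -- coverage
  have hcov : ∀ x y, O.P x y → G x y (F - 1) = true := by
    intro x y hxy
    have hs := secF_of (O.legal _ _ hxy)
    have hox : Occr O.P x := ⟨y, Or.inl hxy⟩
    have hoy : Occr O.P y := ⟨x, Or.inr hxy⟩
    obtain ⟨hwx, hwx'⟩ := typ_w hs.tx
    have hwfx : WFC D F (cdW sh cl x.w) := hwf _ (hidx _ hwx)
    have hwy : cdW sh cl y.w = cdW sh cl x.w := by rw [hs.w]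
    have hpx := hps x hox
    have hpy := hps y hoy
    rw [hwy] at hpy
    have hdx := hwfx.dart _ hpx.1
    have hdy := hwfx.dart _ hpy.1
    have hsx := hside x hox
    have hsy := hside y hoy
    rw [hwy] at hsy
    obtain ⟨l1, -, -, -⟩ := typ_loc hs.tx
    obtain ⟨l2, -, -, -⟩ := typ_loc hs.ty
    have hmt := mtTag_of (o := 0) (typ_bnd hs.tx) (typ_bnd hs.ty) l1 l2 hs.la hs.drx hs.dry hs.k
    rw [Nat.mul_zero, Nat.add_zero, Nat.add_zero, ← hsx.1, ← hsy.1] at hmt
    have hcov := (hpl _ hwx).cov (siOf (cdW sh cl x.w) (pos x))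
      (getS_lt (by
        have h1 : (getS (getC cl (sh.W.idxOf x.w)).sl (siOf (cdW sh cl x.w) (pos x))) =
          sdOf (cdW sh cl x.w) (pos x) := rfl
        rw [h1]; omega))
      (siOf (cdW sh cl x.w) (pos y)) (getS_lt (by
        have h1 : (getS (getC cl (sh.W.idxOf x.w)).sl (siOf (cdW sh cl x.w) (pos y))) =
          sdOf (cdW sh cl x.w) (pos y) := rfl
        rw [h1]; omega)) hmt (pos x - (sdOf (cdW sh cl x.w) (pos x)).o) (by
        show _ < (sdOf (cdW sh cl x.w) (pos x)).q
        omega)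
    have hq := hwfx.q_lt (siOf (cdW sh cl x.w) (pos y))
    have hjq : pos y - (sdOf (cdW sh cl x.w) (pos y)).o < (sdOf (cdW sh cl x.w) (pos y)).q := by
      omega
    have hjD : pos y - (sdOf (cdW sh cl x.w) (pos y)).o < D := lt_trans hjq hq
    have hoj : (sdOf (cdW sh cl x.w) (pos y)).o + (pos y - (sdOf (cdW sh cl x.w) (pos y)).o) =
      pos y := by omega
    have hoi : (sdOf (cdW sh cl x.w) (pos x)).o + (pos x - (sdOf (cdW sh cl x.w) (pos x)).o) =
      pos x := by omega
    have hVT : ∀ w ∈ sh.W, ext (vtT cl nw) 5 (sh.W.idxOf w) = w.sum := by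
      intro w hw
      have h1 : ∀ i < nw, (getC cl i).v ≤ 31 := by
        intro i hi
        have h2 := wCk_iff hcl i (by omega)
        rw [h2.v]
        exact h2.v31
      rw [(vtT_ext h1).2 _ (hidx _ hw)]
      exact (hcf _ hw).v
    have hsub := hwfx.sub (siOf (cdW sh cl x.w) (pos y)) _ hjq
    have hmask := maskE_of (sh := sh) hW64 (a := a) (b := b) (c := c) hs (O.flat _ _ hxy)
      (hcf _ hwx).lt16 (D := D) (VT := vtT cl nw) (CO := (cdW sh cl x.w).CO)
      (o' := (sdOf (cdW sh cl x.w) (pos y)).o) (q' := (sdOf (cdW sh cl x.w) (pos y)).q)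
      (sb' := (sdOf (cdW sh cl x.w) (pos y)).sb) (by omega) hjq hjD hVT hv3 (by
        rw [hoj]; exact hpy.2) (by
        obtain ⟨b4, j0, m, g1, g2, g3, g4⟩ := hsub
        have g5 : (getS (cdW sh cl x.w).sl (siOf (cdW sh cl x.w) (pos y))).o +
            (pos y - (sdOf (cdW sh cl x.w) (pos y)).o) = pos y := hoj
        rw [g5, hsy.2.2] at g4
        subst g4
        exact ⟨j0, m, g1, g2, g3⟩)
    have hlast := inM_iff (j := pos y - (sdOf (cdW sh cl x.w) (pos y)).o) hcov (by
      have e1 : (getC cl (sh.W.idxOf x.w)).v = x.w.sum := (hcf _ hwx).v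
      have e2 : (getC cl (sh.W.idxOf x.w)).mf = encW x.w := (hcf _ hwx).mf
      have e3 : (getS (getC cl (sh.W.idxOf x.w)).sl (siOf (cdW sh cl x.w) (pos x))).t = tagC x :=
        hsx.1
      have e4 : (getS (getC cl (sh.W.idxOf x.w)).sl (siOf (cdW sh cl x.w) (pos x))).a4 =
        4 * x.la := hsx.2.1
      have e5 : ext (getC cl (sh.W.idxOf x.w)).CO 24
          ((getS (getC cl (sh.W.idxOf x.w)).sl (siOf (cdW sh cl x.w) (pos x))).o +
            (pos x - (sdOf (cdW sh cl x.w) (pos x)).o)) = cod sh.W x := by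
        have g5 : (getS (getC cl (sh.W.idxOf x.w)).sl (siOf (cdW sh cl x.w) (pos x))).o +
            (pos x - (sdOf (cdW sh cl x.w) (pos x)).o) = pos x := hoi
        rw [g5]
        exact hpx.2
      rw [e1, e2, e3, e4, e5]
      exact hmask)
    rw [lastF_testBit hF hjD] at hlast
    exact hlast
  refine ⟨pos, G, ⟨⟨by omega, hnw, fun x hx => (hps x hx).1, ?_, hsw, ?_, ?_, ?_,
    fun x hx => (hside x hx).2.1, fun x hx => (hside x hx).2.2, fun w hw => (hcf w hw).v,
    hv3, fun w hw => (hcf w hw).lt16, fun w hw => (hcf w hw).mf, hwf, ?_⟩, ?_, ?_, ?_⟩, hcov⟩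
  · intro x hx
    have h1 := hsw _ (O.toOccS.occ_swp hx)
    rw [NNc.DT.swp_swp] at h1
    rw [← h1]
    exact ext_lt _ 13 _
  · intro x hx
    have h1 := hrv x hx
    obtain ⟨hwx, hwx'⟩ := typ_w (occ_typ O.toOccS hx)
    have h2 := hidx _ hwx'
    omega
  · intro x hx
    have h1 := hrv x hx
    obtain ⟨hwx, hwx'⟩ := typ_w (occ_typ O.toOccS hx)
    have h2 := hidx _ hwx'
    have h3 := occ_sum O.toOccS hv3 hx
    have h4 := hv3 _ hwx
    have h5 := hv3 _ hwx'
    have h6 := h1.2
    split_ifs at h6 <;> omega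
  · intro x y hxy
    have hs := secF_of (O.legal _ _ hxy)
    have hoy : Occr O.P y := ⟨x, Or.inr hxy⟩
    have h1 := (hrv y hoy).2
    obtain ⟨hwx, hwx'⟩ := typ_w hs.ty
    have h2 := hidx _ hwx'
    have h3 := occ_sum O.toOccS hv3 hoy
    have h4 := hv3 _ hwx
    have h5 := hv3 _ hwx'
    have hb := typ_bnd hs.ty
    obtain ⟨-, l2, -, -⟩ := typ_loc hs.ty
    have hd := loc_dir l2
    have eyl : y.rev.la = y.la' := rfl
    have eyk : y.rev.k = y.k := rfl
    have eyd : y.rev.dr = false := by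
      show (!y.dr) = false
      rw [hs.dry]; rfl
    rw [eyl, eyk, eyd, if_neg (by simp)] at hd
    have hk := hb.k
    have hla' := hb.la'
    have hiff : tagC y.rev = 4 * tc + (tc + 2) % 3 ↔ y.la' = tc := by
      have e : tagC y.rev = y.k + 4 * y.la' := rfl
      rw [e]
      constructor
      · intro h; omega
      · intro h
        have := hd (by omega)
        omega
    by_cases h : y.la' = tc
    · rw [if_pos (hiff.2 h)] at h1
      rw [if_pos h]
      omega
    · rw [if_neg (fun h' => h (hiff.1 h'))] at h1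
      rw [if_neg h]
      omega
  · intro x y hxy
    refine ⟨findR (sdOf (cdW sh cl x.w) (pos x)).bl (siOf (cdW sh cl x.w) (pos y)),
      findR_mem ?_, fun f _ => rfl⟩
    intro h0
    have h1 := hcov x y hxy
    simp only [hG] at h1
    rw [h0, Nat.zero_testBit] at h1
    exact absurd h1 (by simp)
  · intro x hx
    rw [Nat.mul_zero, Nat.add_zero]
    exact (hps x hx).2
  · intro c
    norm_num
  · intro x y _ f _
    rfl

end Pool.Agent.NNe
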