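import Pool.Agent.NNe.Pk

/-!
# The engine of MP_4b6a99_co: semantics of the checks of the plain stage
-/

namespace Pool.Agent.NNe

open Pool.Agent.NNc

/-! ### (P1) the scan of the codes -/

theorem ext_shr (T b i j : ℕ) : ext (T >>> (b * i)) b j = ext T b (i + j) := by
  rw [ext_eq, ext_eq, Nat.shiftRight_eq_div_pow, Nat.div_div_eq_div_mul, ← pow_add, ← Nat.mul_add]

theorem scanM_spec {CO c nw m i r : ℕ} (hnw : nw ≤ 64) (hc : c < 4096)
    (h : scanM CO c nw m (i + 1) = r + 1) :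
    i ≤ r ∧ ∀ w2 < nw, m.testBit w2 = true → ∃ x, i ≤ x ∧ x < r ∧ ext CO 24 x = w2 + 64 * c := by
  have e : scanM CO c nw m (i + 1) = ifN (Nat.beq ((CO >>> (24 * i)) &&&
      (16777215 * geoK 24 (cntM m nw))) (lstM m nw + (64 * c) * geoK 24 (cntM m nw)))
      (i + 1 + cntM m nw) 0 := rfl
  rw [e, ifN_eq] at h
  split_ifs at h with hb
  have hb' := Nat.eq_of_beq_eq_true hb
  rw [geoK_eq', pk_land _ _ _ (by norm_num), lstM_eq, cntM_eq] at hb'
  rw [cntM_eq] at h
  set l := (List.range nw).filter (fun w => m.testBit w) with hl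
  rw [pkl_add] at hb'
  have hr : r = i + l.length := by omega
  refine ⟨by omega, ?_⟩
  intro w2 hw2 hm
  have hmem : w2 ∈ l := by
    rw [hl, List.mem_filter]
    exact ⟨List.mem_range.2 hw2, hm⟩
  obtain ⟨j, hj, hjw⟩ := List.getElem_of_mem hmem
  refine ⟨i + j, by omega, by omega, ?_⟩
  have h1 : ext (pk (fun j => ext (CO >>> (24 * i)) 24 j &&& 16777215) l.length) 24 j =
      ext (pkl (l.map (· + 64 * c))) 24 j := by rw [hb']
  rw [pk_ext (fun j _ => lt_of_le_of_lt Nat.and_le_right (by norm_num)) hj, ext_shr, ext_eq (pkl _),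
    pkl_ext (j := j) (by rw [List.length_map]; exact hj) (by
      intro a ha
      obtain ⟨b, hb1, rfl⟩ := List.mem_map.1 ha
      have hb2 := (List.mem_filter.1 (hl ▸ hb1)).1
      rw [List.mem_range] at hb2
      norm_num
      omega), List.getElem_map, hjw] at h1
  rw [← h1]
  have h2 := ext_lt CO 24 (i + j)
  have h3 : (16777215 : ℕ) = 2 ^ 24 - 1 := by norm_num
  rw [h3, Nat.and_two_pow_sub_one_eq_mod, Nat.mod_eq_of_lt h2]

/-- the list of the slots -/
def Fl.l : Fl → List ℕ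
  | .nil => []
  | .cons a tl => a :: tl.l

/-- the list of the near labels with the lists of the slots -/
def Nl.l : Nl → List (ℕ × ℕ × List ℕ)
  | .nil => []
  | .cons a lb fl tl => (a, lb, fl.l) :: tl.l

theorem scanF_spec {mk : Mk} {CO VM nw : ℕ} (hnw : nw ≤ 64) : ∀ {fl : Fl} {i r : ℕ},
    (∀ c ∈ fl.l, c < 4096) → scanF mk CO VM nw fl i = r + 1 → 1 ≤ i ∧ i ≤ r + 1 ∧
      ∀ c ∈ fl.l, ∀ w2 < nw, (nearM mk (c / 4 % 4) (c % 4) &&& VM).testBit w2 = true →
        ∃ x, i ≤ x + 1 ∧ x < r ∧ ext CO 24 x = w2 + 64 * c := by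
  intro fl
  induction fl with
  | nil =>
    intro i r _ h
    have h' : i = r + 1 := h
    refine ⟨by omega, by omega, ?_⟩
    intro c h2
    exact absurd h2 (by simp [Fl.l])
  | cons a tl ih =>
    intro i r hc h
    cases i with
    | zero => exact absurd h (by simp [scanF])
    | succ i =>
      have e : scanF mk CO VM nw (.cons a tl) (i + 1) = scanF mk CO VM nw tl
        (scanM CO a nw (nearM mk (a / 4 % 4) (a % 4) &&& VM) (i + 1)) := rfl
      rw [e] at h
      obtain ⟨h1, h2, h3⟩ := ih (fun c hc' => hc c (List.mem_cons_of_mem _ hc')) h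
      obtain ⟨r', hr'⟩ : ∃ r', scanM CO a nw (nearM mk (a / 4 % 4) (a % 4) &&& VM) (i + 1) =
          r' + 1 := ⟨scanM CO a nw (nearM mk (a / 4 % 4) (a % 4) &&& VM) (i + 1) - 1,
            (Nat.sub_add_cancel h1).symm⟩
      rw [hr'] at h2 h3
      obtain ⟨h4, h5⟩ := scanM_spec hnw (hc a (List.mem_cons_self ..)) hr'
      refine ⟨by omega, by omega, ?_⟩
      intro c hc w2 hw2 hm
      rcases List.mem_cons.1 (show c ∈ a :: tl.l from hc) with rfl | hc
      · obtain ⟨x, hx1, hx2, hx3⟩ := h5 w2 hw2 hm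
        exact ⟨x, by omega, by omega, hx3⟩
      · obtain ⟨x, hx1, hx2, hx3⟩ := h3 c hc w2 hw2 hm
        exact ⟨x, by omega, hx2, hx3⟩

theorem scanN_spec {mk : Mk} {CO VM nw w : ℕ} (hnw : nw ≤ 64) : ∀ {nl : Nl} {i r : ℕ},
    (∀ p ∈ nl.l, ∀ c ∈ p.2.2, c < 4096) → scanN mk CO VM nw w nl i = r + 1 →
      1 ≤ i ∧ i ≤ r + 1 ∧ ∀ p ∈ nl.l, (nearM mk p.1 p.2.1).testBit w = true →
      ∀ c ∈ p.2.2, ∀ w2 < nw, (nearM mk (c / 4 % 4) (c % 4) &&& VM).testBit w2 = true →
        ∃ x, i ≤ x + 1 ∧ x < r ∧ ext CO 24 x = w2 + 64 * c := by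
  intro nl
  induction nl with
  | nil =>
    intro i r _ h
    have h' : i = r + 1 := h
    refine ⟨by omega, by omega, ?_⟩
    intro p hp
    exact absurd hp (by simp [Nl.l])
  | cons a lb fl tl ih =>
    intro i r hc h
    have hc1 : ∀ c ∈ fl.l, c < 4096 := hc (a, lb, fl.l) (List.mem_cons_self ..)
    have hc2 : ∀ p ∈ tl.l, ∀ c ∈ p.2.2, c < 4096 := fun p hp => hc p (List.mem_cons_of_mem _ hp)
    have e : scanN mk CO VM nw w (.cons a lb fl tl) i = scanN mk CO VM nw w tl
      (Bool.rec (motive := fun _ => ℕ) i (scanF mk CO VM nw fl i)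
      (bitB (nearM mk a lb) w)) := rfl
    rw [e, bitB_eq] at h
    rcases hb : (nearM mk a lb).testBit w with _ | _
    · rw [hb] at h
      obtain ⟨h1, h2, h3⟩ := ih hc2 h
      refine ⟨h1, h2, ?_⟩
      intro p hp hpw
      rcases List.mem_cons.1 (show p ∈ (a, lb, fl.l) :: tl.l from hp) with rfl | hp
      · rw [hb] at hpw
        exact absurd hpw (by simp)
      · exact h3 p hp hpw
    · rw [hb] at h
      obtain ⟨h1, h2, h3⟩ := ih hc2 h
      simp only at h1 h2 h3
      obtain ⟨r', hr'⟩ : ∃ r', scanF mk CO VM nw fl i = r' + 1 :=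
        ⟨scanF mk CO VM nw fl i - 1, by omega⟩
      rw [hr'] at h2 h3
      obtain ⟨h4, h5, h6⟩ := scanF_spec hnw hc1 hr'
      refine ⟨h4, by omega, ?_⟩
      intro p hp hpw c hc w2 hw2 hm
      rcases List.mem_cons.1 (show p ∈ (a, lb, fl.l) :: tl.l from hp) with rfl | hp
      · obtain ⟨x, hx1, hx2, hx3⟩ := h6 c hc w2 hw2 hm
        exact ⟨x, hx1, by omega, hx3⟩
      · obtain ⟨x, hx1, hx2, hx3⟩ := h3 p hp hpw c hc w2 hw2 hm
        exact ⟨x, by omega, hx2, hx3⟩

/-! ### (P2) masks of the classes -/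

theorem encW_get {w : List ℕ} (h : ∀ i < 4, w.getD i 0 < 16) {l : ℕ} (hl : l < 4) :
    encW w / 16 ^ l % 16 = w.getD l 0 := by
  have h0 := h 0 (by norm_num)
  have h1 := h 1 (by norm_num)
  have h2 := h 2 (by norm_num)
  have h3 := h 3 (by norm_num)
  unfold encW
  rcases (show l = 0 ∨ l = 1 ∨ l = 2 ∨ l = 3 by omega) with rfl | rfl | rfl | rfl
  · rw [pow_zero]; omega
  · rw [pow_one]; omega
  · have : 16 ^ 2 = 256 := by norm_num
    rw [this]; omega
  · have : 16 ^ 3 = 4096 := by norm_num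
    rw [this]; omega

theorem clM_testBit (cl : Cl) (l k nw i : ℕ) : (clM cl l k nw).testBit i =
    (decide (i < nw) && Nat.ble k (((getC cl i).mf >>> (4 * l)) % 16)) := by
  have h := (maskSum (P := fun w => Nat.ble k (Nat.mod (Nat.shiftRight
      (Cd.rec (motive := fun _ => ℕ) (fun _ _ mf _ _ _ _ _ => mf) (getC cl w))
      (Nat.mul (nat_lit 4) l)) (nat_lit 16))) nw i).2
  have e : Nat.ble k (Nat.mod (Nat.shiftRight
      (Cd.rec (motive := fun _ => ℕ) (fun _ _ mf _ _ _ _ _ => mf) (getC cl i))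
      (Nat.mul (nat_lit 4) l)) (nat_lit 16)) = Nat.ble k (((getC cl i).mf >>> (4 * l)) % 16) := by
    rcases getC cl i with ⟨R, v, mf, SI, SW, RV, CO, sl⟩
    rfl
  rw [e] at h
  exact h

theorem vmM_testBit (cl : Cl) (u nw i : ℕ) : (vmM cl u nw).testBit i =
    (decide (i < nw) && Nat.ble (getC cl i).v u) := by
  have h := (maskSum (P := fun w => Nat.ble (Cd.rec (motive := fun _ => ℕ)
      (fun _ v _ _ _ _ _ _ => v) (getC cl w)) u) nw i).2
  have e : Nat.ble (Cd.rec (motive := fun _ => ℕ) (fun _ v _ _ _ _ _ _ => v) (getC cl i)) u =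
      Nat.ble (getC cl i).v u := by
    rcases getC cl i with ⟨R, v, mf, SI, SW, RV, CO, sl⟩
    rfl
  rw [e] at h
  exact h

theorem loc_cnt {x : DT} (h : x.loc = true) (c : ℕ) (hc : c < 4) :
    [x.la, x.lb].count c ≤ x.w.getD c 0 := by
  unfold DT.loc at h
  simp only [Bool.and_eq_true] at h
  have h2 := h.1.1.1.2
  rw [List.all_eq_true] at h2
  exact of_decide_eq_true (h2 c (List.mem_range.2 hc))

theorem nearM_of {cl : Cl} {nw : ℕ} {x : DT} (hb : Bnd x) (hl : x.loc = true) {i : ℕ}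
    (hi : i < nw) (hw : (getC cl i).mf = encW x.w) (h16 : ∀ i < 4, x.w.getD i 0 < 16) :
    (nearM (mkM cl nw) x.la x.lb).testBit i = true := by
  have e : nearM (mkM cl nw) x.la x.lb =
      ifN (Nat.beq x.la x.lb) (sel4 (clM cl 0 2 nw) (clM cl 1 2 nw) (clM cl 2 2 nw) (clM cl 3 2 nw)
        x.la) (sel4 (clM cl 0 1 nw) (clM cl 1 1 nw) (clM cl 2 1 nw) (clM cl 3 1 nw) x.la &&&
        sel4 (clM cl 0 1 nw) (clM cl 1 1 nw) (clM cl 2 1 nw) (clM cl 3 1 nw) x.lb) := rfl
  have hla := hb.la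
  have hlb := hb.lb
  have hs : ∀ k l, l ≤ 3 → k ≤ x.w.getD l 0 →
      (sel4 (clM cl 0 k nw) (clM cl 1 k nw) (clM cl 2 k nw) (clM cl 3 k nw) l).testBit i = true := by
    intro k l hl3 hk
    have e2 : sel4 (clM cl 0 k nw) (clM cl 1 k nw) (clM cl 2 k nw) (clM cl 3 k nw) l =
        clM cl l k nw := by
      rcases (show l = 0 ∨ l = 1 ∨ l = 2 ∨ l = 3 by omega) with rfl | rfl | rfl | rfl <;> rfl
    rw [e2, clM_testBit, hw, Nat.shiftRight_eq_div_pow]
    have e3 : 2 ^ (4 * l) = 16 ^ l := by rw [pow_mul]; norm_num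
    rw [e3, encW_get h16 (by omega), Bool.and_eq_true, Nat.ble_eq]
    exact ⟨decide_eq_true hi, hk⟩
  rw [e, ifN_eq, beq_iff]
  have c1 := loc_cnt hl x.la (by omega)
  have c2 := loc_cnt hl x.lb (by omega)
  rcases eq_or_ne x.la x.lb with hab | hab
  · rw [if_pos (decide_eq_true hab)]
    refine hs 2 _ hla ?_
    rw [← hab] at c1
    have c3 : [x.la, x.la].count x.la = 2 := by simp
    rw [c3] at c1
    exact c1
  · rw [if_neg (by simpa using hab), Nat.testBit_and, Bool.and_eq_true]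
    have c3 : 1 ≤ [x.la, x.lb].count x.la := by
      rw [Nat.one_le_iff_ne_zero, ← Nat.pos_iff_ne_zero, List.count_pos_iff]; simp
    have c4 : 1 ≤ [x.la, x.lb].count x.lb := by
      rw [Nat.one_le_iff_ne_zero, ← Nat.pos_iff_ne_zero, List.count_pos_iff]; simp
    exact ⟨hs 1 _ hla (by omega), hs 1 _ hlb (by omega)⟩

/-! ### (P3) the table entries of one dart -/

/-- the code of the dart `x` -/
noncomputable def coOf (cd : Cd) (x : ℕ) : ℕ := ext cd.CO 24 x

/-- what `plD` says -/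
structure PlD (cl : Cl) (tt w : ℕ) (cd : Cd) (x : ℕ) : Prop where
  inc : x + 2 ≤ cd.R → coOf cd x < coOf cd (x + 1)
  swR : swOf cd x < cd.R
  sw : coOf cd (swOf cd x) = swC (coOf cd x)
  rR : rvOf cd x % 8192 < (getC cl (coOf cd x % 64)).R
  rc : coOf (getC cl (coOf cd x % 64)) (rvOf cd x % 8192) = rvC w (coOf cd x)
  rd : rvOf cd x / 8192 = coOf cd x % 64 + 64 * ((getC cl (coOf cd x % 64)).v - 3 +
    if rvC w (coOf cd x) / 16384 = tt then 16 else 0)

theorem plD_iff {cl : Cl} {tt w x : ℕ} {cd : Cd} (hw : w < 64) (hx : x < cd.R)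
    (h : plD cl tt cd.R cd.SW cd.RV cd.CO (swT cd.CO cd.R) (rvT w cd.CO cd.R) x = true) :
    PlD cl tt w cd x := by
  have e : plD cl tt cd.R cd.SW cd.RV cd.CO (swT cd.CO cd.R) (rvT w cd.CO cd.R) x = andB
      (impB (Nat.ble (x + 2) cd.R) (Nat.ble (coOf cd x + 1) (coOf cd (x + 1))))
      (andB (Nat.ble (swOf cd x + 1) cd.R)
      (andB (Nat.beq (coOf cd (swOf cd x)) (ext (swT cd.CO cd.R) 24 x))
        (plR tt (coOf cd x % 64) (ext (rvT w cd.CO cd.R) 24 x) (rvOf cd x)
          (getC cl (coOf cd x % 64))))) := rfl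
  rw [e, swT_ext hx, rvT_ext hw hx] at h
  rw [andB_eq, andB_eq, andB_eq, impB_eq, Bool.and_eq_true, Bool.and_eq_true, Bool.and_eq_true] at h
  obtain ⟨h1, h2, h3, h4⟩ := h
  have e5 : rvOf cd x % 8192 < (getC cl (coOf cd x % 64)).R ∧
      coOf (getC cl (coOf cd x % 64)) (rvOf cd x % 8192) = rvC w (coOf cd x) ∧
      rvOf cd x / 8192 = coOf cd x % 64 + 64 * ((getC cl (coOf cd x % 64)).v - 3 +
        if rvC w (coOf cd x) / 16384 = tt then 16 else 0) := by
    rcases hcd : getC cl (coOf cd x % 64) with ⟨R', v', m', s1, s2, s3, CO', sl'⟩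
    rw [hcd] at h4
    have h5 : andB (Nat.ble (rvOf cd x % 8192 + 1) R')
        (andB (Nat.beq (ext CO' 24 (rvOf cd x % 8192)) (rvC w (coOf cd x)))
        (Nat.beq (rvOf cd x / 8192) (coOf cd x % 64 + 64 * (v' - 3 +
          ifN (Nat.beq (rvC w (coOf cd x) / 16384) tt) 16 0)))) = true := h4
    rw [andB_eq, andB_eq, Bool.and_eq_true, Bool.and_eq_true, Nat.ble_eq, Nat.beq_eq,
      Nat.beq_eq, ifN_eq, beq_iff] at h5
    obtain ⟨g1, g2, g3⟩ := h5
    refine ⟨g1, g2, ?_⟩
    rw [g3]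
    by_cases hh : rvC w (coOf cd x) / 16384 = tt
    · rw [if_pos hh, if_pos (decide_eq_true hh)]
      rfl
    · rw [if_neg hh, if_neg (by simpa using hh)]
      rfl
  refine ⟨?_, Nat.le_of_ble_eq_true h2, Nat.eq_of_beq_eq_true h3, e5.1, e5.2.1, e5.2.2⟩
  intro hx
  rw [Bool.or_eq_true] at h1
  rcases h1 with h1 | h1
  · have h1' : Nat.ble (x + 2) cd.R = true := by rw [Nat.ble_eq]; exact hx
    rw [h1'] at h1
    exact absurd h1 (by simp)
  · exact Nat.le_of_ble_eq_true h1

/-! ### (P4) masks of the columns -/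

/-- the packed counts with the alive flag -/
def encF (c : ℕ → ℕ) : ℕ := c 0 + 16 * c 1 + 256 * c 2 + 4096 * c 3 + 65536

theorem takeD_eq (m l4 : ℕ) : takeD m l4 = if Nat.beq ((m >>> l4) % 16) 0 then 0 else
    m - 1 <<< l4 := by
  show ifN _ _ _ = _
  rw [ifN_eq]
  rfl

/-- one tile with the label `l` less -/
def decF (c : ℕ → ℕ) (l : ℕ) : ℕ → ℕ := fun i => if i = l then c i - 1 else c i

theorem decF_self (c : ℕ → ℕ) (l : ℕ) : decF c l l = c l - 1 := by
  unfold decF
  rw [if_pos rfl]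

theorem decF_ne (c : ℕ → ℕ) {l i : ℕ} (h : i ≠ l) : decF c l i = c i := by
  unfold decF
  rw [if_neg h]

theorem takeD_encF {c : ℕ → ℕ} (hc : ∀ i < 4, c i < 16) {l : ℕ} (hl : l < 4) (h1 : 1 ≤ c l) :
    takeD (encF c) (4 * l) = encF (decF c l) := by
  have h0' := hc 0 (by norm_num)
  have h1' := hc 1 (by norm_num)
  have h2' := hc 2 (by norm_num)
  have h3' := hc 3 (by norm_num)
  obtain ⟨m, hm⟩ : ∃ m, m = encF c := ⟨_, rfl⟩
  rw [← hm, takeD_eq]
  unfold encF at hm
  have e2 : (m >>> (4 * l)) % 16 = c l := by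
    rw [Nat.shiftRight_eq_div_pow]
    rcases (show l = 0 ∨ l = 1 ∨ l = 2 ∨ l = 3 by omega) with rfl | rfl | rfl | rfl
    · have : (2 : ℕ) ^ (4 * 0) = 1 := by norm_num
      rw [this]; omega
    · have : (2 : ℕ) ^ (4 * 1) = 16 := by norm_num
      rw [this]; omega
    · have : (2 : ℕ) ^ (4 * 2) = 256 := by norm_num
      rw [this]; omega
    · have : (2 : ℕ) ^ (4 * 3) = 4096 := by norm_num
      rw [this]; omega
  rw [e2]
  have e3 : Nat.beq (c l) 0 = false := by
    rw [← Bool.not_eq_true]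
    intro h
    have := Nat.eq_of_beq_eq_true h
    omega
  rw [e3, if_neg (by simp), Nat.one_shiftLeft]
  unfold encF
  rcases (show l = 0 ∨ l = 1 ∨ l = 2 ∨ l = 3 by omega) with rfl | rfl | rfl | rfl
  · have : (2 : ℕ) ^ (4 * 0) = 1 := by norm_num
    rw [this, decF_self, decF_ne _ (by norm_num : 1 ≠ 0), decF_ne _ (by norm_num : 2 ≠ 0),
      decF_ne _ (by norm_num : 3 ≠ 0)]
    omega
  · have : (2 : ℕ) ^ (4 * 1) = 16 := by norm_num
    rw [this, decF_self, decF_ne _ (by norm_num : 0 ≠ 1), decF_ne _ (by norm_num : 2 ≠ 1),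
      decF_ne _ (by norm_num : 3 ≠ 1)]
    omega
  · have : (2 : ℕ) ^ (4 * 2) = 256 := by norm_num
    rw [this, decF_self, decF_ne _ (by norm_num : 0 ≠ 2), decF_ne _ (by norm_num : 1 ≠ 2),
      decF_ne _ (by norm_num : 3 ≠ 2)]
    omega
  · have : (2 : ℕ) ^ (4 * 3) = 4096 := by norm_num
    rw [this, decF_self, decF_ne _ (by norm_num : 0 ≠ 3), decF_ne _ (by norm_num : 1 ≠ 3),
      decF_ne _ (by norm_num : 2 ≠ 3)]
    omega

theorem decF_lt {c : ℕ → ℕ} (hc : ∀ i < 4, c i < 16) (l : ℕ) :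
    ∀ i < 4, decF c l i < 16 := by
  intro i hi
  have := hc i hi
  unfold decF
  split_ifs <;> omega

theorem cmpL_eq (m a4 x4 y4 : ℕ) : cmpL m a4 x4 y4 =
    Nat.ble 1 (takeD (takeD (takeD (m + 65536) a4) x4) y4) := rfl

theorem cmpL_of {c : ℕ → ℕ} (hc : ∀ i < 4, c i < 16) {a x y : ℕ} (ha : a < 4) (hx : x < 4)
    (hy : y < 4) (h : ∀ i < 4, [a, x, y].count i ≤ c i) :
    cmpL (c 0 + 16 * c 1 + 256 * c 2 + 4096 * c 3) (4 * a) (4 * x) (4 * y) = true := by
  rw [cmpL_eq]
  change Nat.ble 1 (takeD (takeD (takeD (encF c) (4 * a)) (4 * x)) (4 * y)) = true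
  have h1 : 1 ≤ c a := by
    have := h a ha
    have h2 : 1 ≤ [a, x, y].count a := by
      rw [Nat.one_le_iff_ne_zero, ← Nat.pos_iff_ne_zero, List.count_pos_iff]; simp
    omega
  rw [takeD_encF hc ha h1]
  have h2 : 1 ≤ decF c a x := by
    have h3 := h x hx
    rcases eq_or_ne x a with rfl | hne
    · rw [decF_self]
      have h4 : 2 ≤ [x, x, y].count x := by
        rw [List.count_cons_self, List.count_cons_self]; omega
      omega
    · rw [decF_ne _ hne]
      have h4 : 1 ≤ [a, x, y].count x := by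
        rw [Nat.one_le_iff_ne_zero, ← Nat.pos_iff_ne_zero, List.count_pos_iff]; simp
      omega
  rw [takeD_encF (decF_lt hc a) hx h2]
  have h3 : 1 ≤ decF (decF c a) x y := by
    have h4 := h y hy
    rw [List.count_cons, List.count_cons, List.count_cons_self, List.count_nil] at h4
    unfold decF
    simp only [beq_iff_eq] at h4
    split_ifs at h4 ⊢ <;> omega
  rw [takeD_encF (decF_lt (decF_lt hc a) x) hy h3, Nat.ble_eq]
  unfold encF
  omega

theorem maskL_of {mf a4 x4 : ℕ} : ∀ {sb : Sb} {b4 j0 n j : ℕ}, (b4, j0, n) ∈ sb.l →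
    cmpL mf a4 x4 b4 = true → j0 ≤ j → j < j0 + n → (maskL mf a4 x4 sb).testBit j = true := by
  intro sb
  induction sb with
  | nil =>
    intro b4 j0 n j h
    exact absurd h (by simp [Sb.l])
  | cons b4' j0' n' tl ih =>
    intro b4 j0 n j h hc h1 h2
    have e : maskL mf a4 x4 (.cons b4' j0' n' tl) =
      (ifN (cmpL mf a4 x4 b4') (((1 <<< n') - 1) <<< j0') 0) ||| maskL mf a4 x4 tl := rfl
    rw [e, Nat.testBit_or, Bool.or_eq_true]
    rcases List.mem_cons.1 (show (b4, j0, n) ∈ (b4', j0', n') :: tl.l from h) with h | h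
    · left
      rw [Prod.mk.injEq, Prod.mk.injEq] at h
      obtain ⟨rfl, rfl, rfl⟩ := h
      rw [hc, ifN_eq, if_pos rfl, Nat.one_shiftLeft, Nat.testBit_shiftLeft,
        Nat.testBit_two_pow_sub_one, Bool.and_eq_true, decide_eq_true_iff, decide_eq_true_iff]
      omega
    · right
      exact ih h hc h1 h2

theorem maskV_of {D VT CO o : ℕ} (hD : 0 < D) : ∀ {q j v u : ℕ}, j < q →
    ext VT 5 (ext CO 24 (o + j) % 64) = v → v ≤ u → u < 32 →
      (maskV D VT CO o q).testBit (D * u + j) = true := by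
  intro q
  induction q with
  | zero =>
    intro j v u h
    omega
  | succ q ih =>
    intro j v u h hv h1 h2
    have e : maskV D VT CO o (q + 1) =
      (geoK D (32 - ext VT 5 (ext CO 24 (o + q) % 64)) <<<
        (D * ext VT 5 (ext CO 24 (o + q) % 64) + q)) ||| maskV D VT CO o q := rfl
    rw [e, Nat.testBit_or, Bool.or_eq_true]
    rcases Nat.lt_succ_iff_lt_or_eq.1 h with h | rfl
    · right
      exact ih h hv h1 h2
    · left
      rw [hv, geoK_eq', Nat.testBit_shiftLeft, testBit_geo hD, Bool.and_eq_true,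
        decide_eq_true_iff, decide_eq_true_iff]
      have h3 : D * v ≤ D * u := Nat.mul_le_mul_left _ h1
      have h4 : D * u + j - (D * v + j) = D * (u - v) := by
        rw [Nat.mul_sub]
        omega
      refine ⟨by omega, ?_, ?_⟩
      · rw [h4, Nat.mul_mod_right]
      · rw [h4]
        exact Nat.mul_lt_mul_of_pos_left (by omega) hD

theorem maskT_of {D k CO o : ℕ} : ∀ {q j e : ℕ}, j < q →
    ext CO 24 (o + j) = e → e / 256 % 4 ≠ k →
      (maskT D k CO o q).testBit (D * typF e + j) = true := by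
  intro q
  induction q with
  | zero =>
    intro j e h
    omega
  | succ q ih =>
    intro j e h h1 h2
    have e' : maskT D k CO o (q + 1) =
      (ifN (Nat.beq (ext CO 24 (o + q) / 256 % 4) k) 0
        (1 <<< (D * typF (ext CO 24 (o + q)) + q))) |||
          maskT D k CO o q := rfl
    rw [e', Nat.testBit_or, Bool.or_eq_true]
    rcases Nat.lt_succ_iff_lt_or_eq.1 h with h | rfl
    · right
      exact ih h h1 h2
    · left
      rw [h1, beq_iff, ifN_eq, if_neg (by simpa using h2), Nat.one_shiftLeft,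
        Nat.testBit_two_pow_self]

theorem maskF_of {D a b c k TY x y j : ℕ} (hj : j < D) (hy : y < 8)
    (hl : locK a b c k x y = true) (ht : TY.testBit (D * y + j) = true) :
    (maskF D a b c k TY x).testBit j = true := by
  have key : ∀ m, y < m → (Nat.rec (motive := fun _ => ℕ) (nat_lit 0) (fun y r =>
      Nat.lor (ifN (locK a b c k x y) (Nat.mod (Nat.shiftRight TY (Nat.mul D y))
        (Nat.shiftLeft (nat_lit 1) D)) (nat_lit 0)) r) m : ℕ).testBit j = true := by
    intro m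
    induction m with
    | zero => intro h; omega
    | succ m ih =>
      intro h
      show ((ifN (locK a b c k x m) ((TY >>> (D * m)) % (1 <<< D)) 0) ||| _).testBit j = true
      rw [Nat.testBit_or, Bool.or_eq_true]
      rcases Nat.lt_succ_iff_lt_or_eq.1 h with h | rfl
      · right
        exact ih h
      · left
        rw [hl, ifN_eq, if_pos rfl, Nat.one_shiftLeft, Nat.testBit_mod_two_pow,
          Nat.testBit_shiftRight, ht, Bool.and_true]
        exact decide_eq_true hj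
  exact key 8 hy

/-! ### The side rule -/

theorem typF_eq (e : ℕ) : typF e = (if e / 4096 % 4 = 3 ∨ e / 64 % 4 = 3 then 0 else 1) +
    ((if e / 1024 % 4 = 1 then 2 else 0) + if e / 256 % 4 = 3 then 0 else 4) := by
  have h : typF e = ifN (orB (Nat.beq (e / 4096 % 4) 3) (Nat.beq (e / 64 % 4) 3)) 0 1 +
    (ifN (Nat.beq (e / 1024 % 4) 1) 2 0 + ifN (Nat.beq (e / 256 % 4) 3) 0 4) := rfl
  rw [h, ifN_eq, ifN_eq, ifN_eq, orB_eq, beq_iff, beq_iff, beq_iff, beq_iff]
  simp only [Bool.or_eq_true, decide_eq_true_eq]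

theorem typF_lt (e : ℕ) : typF e < 8 := by
  rw [typF_eq]
  split_ifs <;> omega

/-- the bits of the type of the piece -/
theorem typF_bits {W : List (List ℕ)} {x : DT} {e o : ℕ} (h : Bnd x) (he : CodF W x e o) :
    (typF e).testBit 0 = x.swp.full ∧ (typF e).testBit 1 = decide (x.b = 1) ∧
    (typF e).testBit 2 = decide (x.la' < 3) := by
  rw [typF_eq, he.lb, he.lb', he.b, he.la']
  have h1 := h.lb
  have h2 := h.lb'
  have h3 := h.la'
  have e1 : x.swp.full = decide (x.lb < 3 ∧ x.lb' < 3) := rfl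
  rw [e1]
  have e2 : decide (x.lb < 3 ∧ x.lb' < 3) = !decide (x.lb = 3 ∨ x.lb' = 3) := by
    rw [Bool.eq_iff_iff]
    simp only [decide_eq_true_eq, Bool.not_eq_true', decide_eq_false_iff_not]
    omega
  have e3 : decide (x.la' < 3) = !decide (x.la' = 3) := by
    rw [Bool.eq_iff_iff]
    simp only [decide_eq_true_eq, Bool.not_eq_true', decide_eq_false_iff_not]
    omega
  rw [e2, e3]
  by_cases g1 : x.lb = 3 ∨ x.lb' = 3 <;> by_cases g2 : x.b = 1 <;> by_cases g3 : x.la' = 3 <;>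
    simp only [g1, g2, g3, if_true, if_false, decide_true, decide_false, Bool.not_true,
      Bool.not_false] <;> decide

/-- the side rule of the engine -/
theorem locK_of {a b c : ℕ} {x y : DT} {W : List (List ℕ)} {ex ey ox oy : ℕ} (hx : Bnd x)
    (hy : Bnd y) (hex : CodF W x ex ox) (hey : CodF W y ey oy)
    (h : locOK a.testBit b.testBit c.testBit x.k (decide (x.la' < 3)) (decide (y.la' < 3))
      (x.b, x.swp.full) (y.b, y.swp.full) = true) :
    locK a b c x.k (typF ex) (typF ey) = true := by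
  obtain ⟨x0, x1, x2⟩ := typF_bits hx hex
  obtain ⟨y0, y1, y2⟩ := typF_bits hy hey
  have hxl := typF_lt ex
  have hyl := typF_lt ey
  generalize typF ex = tx at *
  generalize typF ey = ty at *
  generalize x.swp.full = fx at *
  generalize y.swp.full = fy at *
  have e : locK a b c x.k tx ty = Bool.rec (motive := fun _ => Bool)
    (orB (notB (Nat.beq ((tx &&& ty) &&& 6) 6)) (bitB c x.k))
    (andB (bitB (tx &&& ty) 1) (andB (notB (Nat.beq x.k 1))
      (orB (bitB a x.k) (andB (bitB b x.k) (bitB (tx &&& ty) 2)))))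
    (bitB (tx &&& ty) 0) := rfl
  rw [e, bitB_eq, bitB_eq, bitB_eq, bitB_eq, bitB_eq, bitB_eq, Nat.testBit_and, Nat.testBit_and,
    Nat.testBit_and, x0, y0, x1, y1, x2, y2]
  have e6 : Nat.beq ((tx &&& ty) &&& 6) 6 = (tx.testBit 1 && ty.testBit 1 && (tx.testBit 2 &&
      ty.testBit 2)) := by
    interval_cases tx <;> interval_cases ty <;> decide
  rw [e6, x1, y1, x2, y2]
  unfold locOK at h
  simp only [beq_iff] at h
  rw [beq_iff]
  simp only [andB_eq, orB_eq, notB_eq]
  clear e6 e x0 x1 x2 y0 y1 y2 hxl hyl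
  generalize decide (x.b = 1) = p1 at *
  generalize decide (y.b = 1) = p2 at *
  generalize decide (x.k = 1) = p3 at *
  generalize decide (x.la' < 3) = p4 at *
  generalize decide (y.la' < 3) = p5 at *
  generalize a.testBit x.k = p6 at *
  generalize b.testBit x.k = p7 at *
  generalize c.testBit x.k = p8 at *
  revert h
  revert fx fy p1 p2 p3 p4 p5 p6 p7 p8
  decide

/-! ### One sector -/

theorem loc_dir {x : DT} (h : x.loc = true) (hla : x.la < 3) :
    x.k = if x.dr then x.la else (x.la + 2) % 3 := by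
  unfold DT.loc at h
  simp only [Bool.and_eq_true, decide_eq_true_eq] at h
  exact h.1.1.1.1.1.2 hla

/-- the facts about a sector -/
structure SecF (sh : Shape) (x y : DT) : Prop where
  tx : x.typOK sh = true
  ty : y.typOK sh = true
  w : y.w = x.w
  la : y.la = x.la
  c : y.c = x.c
  drx : x.dr = false
  dry : y.dr = true
  k : x.la = 3 → y.k = x.k
  cnt : ∀ i < 4, [x.la, x.lb, y.lb].count i ≤ x.w.getD i 0
  sum : (x.w.sum - 2) + (x.w'.sum - 2) + (y.w'.sum - 2) ≤ sh.n

theorem secF_of {sh : Shape} {x y : DT} (h : secOK sh x y = true) : SecF sh x y := by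
  unfold secOK at h
  simp only [Bool.and_eq_true, decide_eq_true_eq, List.all_eq_true, List.mem_range] at h
  obtain ⟨⟨⟨⟨⟨⟨⟨⟨⟨h1, h2⟩, h3⟩, h4⟩, h5⟩, h6⟩, h7⟩, h8⟩, h9⟩, h10⟩ := h
  exact ⟨h1, h2, h3, h4, h5, h6, h7, h8, h9, h10⟩

/-- the reduced code gives the same result -/
theorem and12351 (e : ℕ) : (e &&& 12351) % 64 = e % 64 ∧ (e &&& 12351) / 4096 % 4 = e / 4096 % 4 := by
  have k1 : ∀ i < 6, Nat.testBit 12351 i = true := by decide
  have k2 : ∀ i < 2, Nat.testBit 12351 (i + 12) = true := by decide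
  constructor
  · have h : (64 : ℕ) = 2 ^ 6 := by norm_num
    refine Nat.eq_of_testBit_eq (fun i => ?_)
    rw [h, Nat.testBit_mod_two_pow, Nat.testBit_mod_two_pow, Nat.testBit_and]
    by_cases hi : i < 6
    · rw [k1 i hi, Bool.and_true]
    · simp [hi]
  · have h : (4096 : ℕ) = 2 ^ 12 := by norm_num
    have h' : (4 : ℕ) = 2 ^ 2 := by norm_num
    refine Nat.eq_of_testBit_eq (fun i => ?_)
    rw [h, h', Nat.testBit_mod_two_pow, Nat.testBit_mod_two_pow, Nat.testBit_div_two_pow,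
      Nat.testBit_div_two_pow, Nat.testBit_and]
    by_cases hi : i < 2
    · rw [k2 i hi, Bool.and_true]
    · simp [hi]

theorem and16383 (e : ℕ) : e &&& 16383 = e % 16384 := by
  have h : (16383 : ℕ) = 2 ^ 14 - 1 := by norm_num
  rw [h, Nat.and_two_pow_sub_one_eq_mod]

theorem maskE_of {sh : Shape} (hW : sh.W.length ≤ 64) {a b c : ℕ} {x y : DT}
    (hs : SecF sh x y) (hf : flatR (locOK a.testBit b.testBit c.testBit) x y = true)
    (hlt : ∀ i < 4, x.w.getD i 0 < 16) {D VT CO o' q' j : ℕ} {sb' : Sb}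
    (hn25 : sh.n ≤ 25) (hj : j < q') (hjD : j < D)
    (hVT : ∀ w ∈ sh.W, ext VT 5 (sh.W.idxOf w) = w.sum) (hv3 : ∀ w ∈ sh.W, 3 ≤ w.sum)
    (hco : ext CO 24 (o' + j) = cod sh.W y)
    (hsub : ∃ j0 m, (4 * y.lb, j0, m) ∈ sb'.l ∧ j0 ≤ j ∧ j < j0 + m) :
    (maskE D sh.n a b c x.w.sum (encW x.w) VT CO (tagC x) (4 * x.la) o' q' sb'
      (cod sh.W x &&& redE (tagC x))).testBit j = true := by
  have hbx := typ_bnd hs.tx
  have hby := typ_bnd hs.ty
  have hwx := typ_w hs.tx
  have hwy := typ_w hs.ty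
  have hcx := cod_facts hW hbx hwx.2 0
  have hcy := cod_facts hW hby hwy.2 0
  rw [Nat.mul_zero, Nat.add_zero] at hcx hcy
  have hv1 := hv3 _ hwx.1
  have hv2 := hv3 _ hwx.2
  have hv4 := hv3 _ hwy.2
  have hsum := hs.sum
  have hk3 := hbx.k
  have hla3 := hbx.la
  have hlb3 := hbx.lb
  -- the reduced code
  obtain ⟨e, he⟩ : ∃ e, e = cod sh.W x &&& redE (tagC x) := ⟨_, rfl⟩
  have hred : redE (tagC x) = if Nat.ble 12 (tagC x) then 16383 else 12351 := by
    show ifN _ _ _ = _
    rw [ifN_eq]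
  have he64 : e % 64 = sh.W.idxOf x.w' := by
    rw [← hcx.w2, he, hred]
    split_ifs
    · rw [and16383]; omega
    · exact (and12351 _).1
  have helb : e / 4096 % 4 = x.lb := by
    rw [← hcx.lb, he, hred]
    split_ifs
    · rw [and16383]; omega
    · exact (and12351 _).2
  rw [← he]
  -- the key
  have ek : keyE sh.n x.w.sum VT (tagC x) e = e / 4096 % 4 + 16 * (sh.n + 6 - (x.w.sum +
      ext VT 5 (e % 64)) + 64 * (Bool.rec (motive := fun _ => ℕ) 0
        (ifN (Nat.beq (e / 256 % 4) ((tagC x - 11) % 3)) 0 (typF e + 1))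
        (Nat.ble 12 (tagC x)))) := rfl
  obtain ⟨u, hu⟩ : ∃ u, u = sh.n + 6 - (x.w.sum + x.w'.sum) := ⟨_, rfl⟩
  rw [helb, he64, hVT _ hwx.2, ← hu] at ek
  obtain ⟨T, hT⟩ : ∃ T, T = (Bool.rec (motive := fun _ => ℕ) 0
        (ifN (Nat.beq (e / 256 % 4) ((tagC x - 11) % 3)) 0 (typF e + 1))
        (Nat.ble 12 (tagC x)) : ℕ) := ⟨_, rfl⟩
  rw [← hT] at ek
  have eE : maskE D sh.n a b c x.w.sum (encW x.w) VT CO (tagC x) (4 * x.la) o' q' sb' e =
      maskK D a b c (encW x.w) VT CO (tagC x) (4 * x.la) o' q' sb'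
        (keyE sh.n x.w.sum VT (tagC x) e) := rfl
  have eK : ∀ z, maskK D a b c (encW x.w) VT CO (tagC x) (4 * x.la) o' q' sb' z =
      (maskL (encW x.w) (4 * x.la) (4 * (z % 16)) sb' &&&
        (maskV D VT CO o' q' >>> (D * (z / 16 % 64)))) &&&
      (Bool.rec (motive := fun _ => ℕ) ((1 <<< D) - 1)
        (Nat.rec (motive := fun _ => ℕ) 0 (fun x' _ =>
          maskF D a b c (tagC x - 12) (maskT D (tagC x - 12) CO o' q') x') (z / 1024))
        (Nat.ble 12 (tagC x))) := fun z => rfl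
  rw [eE, eK, ek]
  have z1 : (x.lb + 16 * (u + 64 * T)) % 16 = x.lb := by omega
  have z2 : (x.lb + 16 * (u + 64 * T)) / 16 % 64 = u := by omega
  have z3 : (x.lb + 16 * (u + 64 * T)) / 1024 = T := by omega
  rw [z1, z2, z3, Nat.testBit_and, Nat.testBit_and, Bool.and_eq_true, Bool.and_eq_true]
  refine ⟨⟨?_, ?_⟩, ?_⟩
  · obtain ⟨j0, m, h1, h2, h3⟩ := hsub
    refine maskL_of h1 ?_ h2 h3
    exact cmpL_of (c := fun i => x.w.getD i 0) hlt (by omega) (by omega)
      (by have := hby.lb; omega) hs.cnt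
  · rw [Nat.testBit_shiftRight]
    refine maskV_of (by omega) hj (by rw [hco, hcy.w2, hVT _ hwy.2]) ?_ ?_ <;> omega
  · by_cases h3 : x.la = 3
    · have htg : tagC x = x.k + 12 := by unfold tagC; omega
      have hble : Nat.ble 12 (tagC x) = true := by
        rw [Nat.ble_eq]; omega
      have hek : e = cod sh.W x % 16384 := by rw [he, hred, hble, if_pos rfl, and16383]
      have hety : typF e = typF (cod sh.W x) := by
        rw [typF_eq, typF_eq, hek]
        have e1 : cod sh.W x % 16384 / 4096 % 4 = cod sh.W x / 4096 % 4 := by omega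
        have e2 : cod sh.W x % 16384 / 64 % 4 = cod sh.W x / 64 % 4 := by omega
        have e3 : cod sh.W x % 16384 / 1024 % 4 = cod sh.W x / 1024 % 4 := by omega
        have e4 : cod sh.W x % 16384 / 256 % 4 = cod sh.W x / 256 % 4 := by omega
        rw [e1, e2, e3, e4]
      have hela : e / 256 % 4 = x.la' := by
        rw [← hcx.la', hek]
        omega
      obtain ⟨-, hxr, -, -⟩ := typ_loc hs.tx
      obtain ⟨-, hyr, -, -⟩ := typ_loc hs.ty
      have hx' := loc_dir hxr
      have hy' := loc_dir hyr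
      have exl : x.rev.la = x.la' := rfl
      have eyl : y.rev.la = y.la' := rfl
      have exd : x.rev.dr = true := by
        show (!x.dr) = true
        rw [hs.drx]; rfl
      have eyd : y.rev.dr = false := by
        show (!y.dr) = false
        rw [hs.dry]; rfl
      rw [exl, exd, if_pos rfl] at hx'
      rw [eyl, eyd, if_neg (by simp)] at hy'
      have exk : x.rev.k = x.k := rfl
      have eyk : y.rev.k = x.k := hs.k h3
      rw [exk] at hx'
      rw [eyk] at hy'
      have hxla := hbx.la'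
      have hyla := hby.la'
      rw [hble, hela, beq_iff, ifN_eq, if_neg (by
        rw [decide_eq_true_eq, htg]
        intro h
        have h2 := hx' (by omega)
        omega), hety] at hT
      have hT' : T = typF (cod sh.W x) + 1 := hT
      rw [hble, hT']
      have h12 : tagC x - 12 = x.k := by omega
      rw [h12]
      refine maskF_of hjD (typF_lt (cod sh.W y)) ?_ ?_
      · refine locK_of hbx hby hcx hcy ?_
        unfold flatR at hf
        exact of_decide_eq_true hf h3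
      · refine maskT_of hj hco ?_
        rw [hcy.la']
        intro h
        have h2 := hy' (by omega)
        omega
    · have hble : Nat.ble 12 (tagC x) = false := by
        rw [← Bool.not_eq_true, Nat.ble_eq]; unfold tagC; omega
      rw [hble]
      show ((1 <<< D) - 1).testBit j = true
      rw [Nat.one_shiftLeft, Nat.testBit_two_pow_sub_one]
      exact decide_eq_true hjD

end Pool.Agent.NNe
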