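import Pool.Agent.NNe.Sem
import Pool.Agent.NNc.Occ7

/-!
# The engine of MP_4b6a99_co: the occurring dart types as darts of a stage

`cod W x`: the 18 low bits of the code of the dart type `x`.
`Rz`: the occurring dart types are darts of a stage (`pos`), `G` = the fields of the sectors.
`Rc`: the same with the codes; `ow` = own colour as a function of the colour of the tile.
-/

namespace Pool.Agent.NNe

open Pool.Agent.NNc

theorem lit_eq (f : ℕ → ℕ) (n : ℕ) : lit f n = f n := rfl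

theorem litB_eq (f : ℕ → Bool) (n : ℕ) : litB f n = f n := rfl

theorem andB_eq (a b : Bool) : andB a b = (a && b) := by cases a <;> rfl

theorem orB_eq (a b : Bool) : orB a b = (a || b) := by cases a <;> rfl

theorem impB_eq (a b : Bool) : impB a b = (!a || b) := by cases a <;> rfl

theorem notB_eq (a : Bool) : notB a = !a := by cases a <;> rfl

theorem ifN_eq (c : Bool) (a b : ℕ) : ifN c a b = if c then a else b := by cases c <;> rfl

theorem beq_iff (a b : ℕ) : Nat.beq a b = decide (a = b) := by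
  rw [Bool.eq_iff_iff, Nat.beq_eq, decide_eq_true_iff]

theorem allN_iff (f : ℕ → Bool) (k : ℕ) : allN f k = true ↔ ∀ i < k, f i = true := by
  induction k with
  | zero => exact ⟨fun _ i hi => absurd hi (by omega), fun _ => rfl⟩
  | succ k ih =>
    have e : allN f (k + 1) = andB (f k) (allN f k) := rfl
    rw [e, andB_eq, Bool.and_eq_true, ih]
    constructor
    · rintro ⟨h1, h2⟩ i hi
      rcases Nat.lt_succ_iff_lt_or_eq.1 hi with h | rfl
      · exact h2 i h
      · exact h1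
    · intro h
      exact ⟨h k (by omega), fun i hi => h i (by omega)⟩

theorem bitB_eq (m w : ℕ) : bitB m w = m.testBit w := by
  show Nat.beq ((m >>> w) % 2) 1 = m.testBit w
  rw [Nat.testBit_eq_decide_div_mod_eq, Nat.shiftRight_eq_div_pow]
  rcases h : Nat.beq (m / 2 ^ w % 2) 1 with _ | _
  · rw [eq_comm, decide_eq_false_iff_not]
    exact Nat.ne_of_beq_eq_false h
  · rw [eq_comm, decide_eq_true_iff]
    exact Nat.eq_of_beq_eq_true h

/-! ### Codes of dart types -/

/-- the bounds of the entries of a dart type -/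
structure Bnd (x : DT) : Prop where
  k : x.k < 3
  b : x.b < 3
  la : x.la ≤ 3
  la' : x.la' ≤ 3
  lb : x.lb ≤ 3
  lb' : x.lb' ≤ 3

theorem Bnd.rev {x : DT} (h : Bnd x) : Bnd x.rev := ⟨h.k, h.b, h.la', h.la, h.lb', h.lb⟩

theorem Bnd.swp {x : DT} (h : Bnd x) : Bnd x.swp := ⟨h.b, h.k, h.lb, h.lb', h.la, h.la'⟩

theorem loc_bnd {x : DT} (h : x.loc = true) : x.k < 3 ∧ x.la ≤ 3 := by
  unfold DT.loc at h
  simp only [Bool.and_eq_true, decide_eq_true_eq] at h
  exact ⟨h.1.1.1.1.1.1.1, h.1.1.1.1.1.1.2⟩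

theorem typ_loc {sh : Shape} {x : DT} (h : x.typOK sh = true) :
    x.loc = true ∧ x.rev.loc = true ∧ x.swp.loc = true ∧ x.swp.rev.loc = true := by
  unfold DT.typOK at h
  simp only [Bool.and_eq_true] at h
  exact ⟨h.1.1.1.1.1.1.2, h.1.1.1.1.1.2, h.1.1.1.1.2, h.1.1.1.2⟩

theorem typ_bnd {sh : Shape} {x : DT} (h : x.typOK sh = true) : Bnd x := by
  obtain ⟨h1, h2, h3, h4⟩ := typ_loc h
  exact ⟨(loc_bnd h1).1, (loc_bnd h3).1, (loc_bnd h1).2, (loc_bnd h2).2, (loc_bnd h3).2,
    (loc_bnd h4).2⟩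

theorem typ_w {sh : Shape} {x : DT} (h : x.typOK sh = true) : x.w ∈ sh.W ∧ x.w' ∈ sh.W := by
  unfold DT.typOK at h
  simp only [Bool.and_eq_true, decide_eq_true_eq] at h
  exact ⟨h.1.1.1.1.1.1.1.1, h.1.1.1.1.1.1.1.2⟩

/-- slot of a dart type (12 bits) -/
def slotC (x : DT) : ℕ := x.lb' + 4 * x.la' + 16 * x.b + 64 * x.lb + 256 * x.k + 1024 * x.la

/-- the 18 low bits of the code of a dart type -/
def cod (W : List (List ℕ)) (x : DT) : ℕ := W.idxOf x.w' + 64 * slotC x

/-- the tag of a dart type -/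
def tagC (x : DT) : ℕ := x.k + 4 * x.la

theorem slotC_lt {x : DT} (h : Bnd x) : slotC x < 4096 := by
  have := h.k; have := h.b; have := h.la; have := h.lb; have := h.la'; have := h.lb'
  unfold slotC
  omega

/-- the facts about the decoded code; `e` = the code with the own colour `o` -/
structure CodF (W : List (List ℕ)) (x : DT) (e o : ℕ) : Prop where
  w2 : e % 64 = W.idxOf x.w'
  slot : e / 64 % 4096 = slotC x
  lb' : e / 64 % 4 = x.lb'
  la' : e / 256 % 4 = x.la'
  b : e / 1024 % 4 = x.b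
  lb : e / 4096 % 4 = x.lb
  k : e / 16384 % 4 = x.k
  la : e / 65536 % 4 = x.la
  tag : e / 16384 = tagC x + 16 * o

theorem idx_lt {W : List (List ℕ)} {w : List ℕ} (h : w ∈ W) : W.idxOf w < W.length :=
  List.idxOf_lt_length_iff.2 h

theorem cod_facts {W : List (List ℕ)} (hW : W.length ≤ 64) {x : DT} (h : Bnd x) (hw : x.w' ∈ W)
    (o : ℕ) : CodF W x (cod W x + 262144 * o) o := by
  have h1 := idx_lt hw
  have := h.k; have := h.b; have := h.la; have := h.lb; have := h.la'; have := h.lb'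
  refine ⟨?_, ?_, ?_, ?_, ?_, ?_, ?_, ?_, ?_⟩ <;> unfold cod slotC <;> (try unfold tagC) <;> omega

/-! ### Realisations -/

/-- the packed counts of a class -/
def encW (w : List ℕ) : ℕ :=
  w.getD 0 0 + 16 * w.getD 1 0 + 256 * w.getD 2 0 + 4096 * w.getD 3 0

/-- the class data of the class `w` -/
noncomputable def cdW (sh : Shape) (cl : Cl) (w : List ℕ) : Cd := getC cl (sh.W.idxOf w)

/-- the occurring dart types are darts of a stage: `pos` = the number of the dart, `G` = the fields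
of the sectors -/
structure Rz {sh : Shape} (O : OccS sh) (D F nw : ℕ) (cl : Cl) (t : ℕ) (pos : DT → ℕ)
    (G : DT → DT → ℕ → Bool) : Prop where
  len : sh.W.length ≤ nw
  nw64 : nw ≤ 64
  R : ∀ x, Occr O.P x → pos x < (cdW sh cl x.w).R
  ps : ∀ x, Occr O.P x → pos x < 8192
  sw : ∀ x, Occr O.P x → swOf (cdW sh cl x.w) (pos x) = pos x.swp
  rv : ∀ x, Occr O.P x → rvOf (cdW sh cl x.w) (pos x) % 524288 =
    pos x.rev + 8192 * sh.W.idxOf x.w'
  wt : ∀ x, Occr O.P x → rvOf (cdW sh cl x.w) (pos x) / 524288 % 16 + 3 = x.w'.sum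
  fl : ∀ x y, O.P x y → rvOf (cdW sh cl y.w) (pos y) / 8388608 = if y.la' = t then 1 else 0
  a4 : ∀ x, Occr O.P x → (sdOf (cdW sh cl x.w) (pos x)).a4 = 4 * x.la
  lb : ∀ x, Occr O.P x → lbOf (cdW sh cl x.w) (pos x) = x.lb
  v : ∀ w ∈ sh.W, (cdW sh cl w).v = w.sum
  v3 : ∀ w ∈ sh.W, 3 ≤ w.sum
  lt16 : ∀ w ∈ sh.W, ∀ i < 4, w.getD i 0 < 16
  mf : ∀ w ∈ sh.W, (cdW sh cl w).mf = encW w
  wf : ∀ w < nw, WFC D F (getC cl w)
  pair : ∀ x y, O.P x y → PairB D F (cdW sh cl x.w) (pos x) (pos y) (G x y)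

/-- the same with the codes; `ow` = own colour as a function of the colour of the tile -/
structure Rc {sh : Shape} (O : OccS sh) (D F nw : ℕ) (cl : Cl) (t : ℕ) (pos : DT → ℕ)
    (G : DT → DT → ℕ → Bool) (ow : ℕ → ℕ) : Prop extends Rz O D F nw cl t pos G where
  co : ∀ x, Occr O.P x → ext (cdW sh cl x.w).CO 24 (pos x) = cod sh.W x + 262144 * ow x.c
  ow64 : ∀ c, ow c < 64
  fr : ∀ x y, O.P x y → ∀ f < F, G x y f =
    (findR (sdOf (cdW sh cl x.w) (pos x)).bl (siOf (cdW sh cl x.w) (pos y))).testBit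
      (F * D * (pos x - (sdOf (cdW sh cl x.w) (pos x)).o) + f * D +
        (pos y - (sdOf (cdW sh cl x.w) (pos y)).o))

end Pool.Agent.NNe
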