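import Pool.Agent.NNe.Rc
import Pool.Agent.NNe.M3

/-!
# The engine of MP_4b6a99_co: one stage

`Rz`: the occurring dart types are darts of a stage.  `star_step`, `tile_step`: one field less.
`stage_run`: if all sectors have the last field, then all sectors have the field `0`.
-/

namespace Pool.Agent.NNe

open Pool.Agent.NNc

/-- the members of a cyclic list as a function -/
theorem cyc_fun {α : Type} (r : α → α → Prop) (L : List α) (hne : L ≠ []) (hc : L.IsChain r)
    (hl : ∀ p q, L.getLast? = some p → L.head? = some q → r p q) :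
    ∃ p : ℕ → α, (∀ i, p i ∈ L) ∧ L = (List.range L.length).map p ∧ p L.length = p 0 ∧
      L.head? = some (p 0) ∧ (∀ i, 0 < i → i < L.length → p i ∈ L.tail) ∧
      ∀ i < L.length, r (p i) (p (i + 1)) := by
  have hpos : 0 < L.length := List.length_pos_of_ne_nil hne
  have hmod : ∀ i, i % L.length < L.length := fun i => Nat.mod_lt _ hpos
  refine ⟨fun i => L[i % L.length]'(hmod i), ?_, ?_, ?_, ?_, ?_, ?_⟩
  · intro i
    exact List.getElem_mem _
  · refine List.ext_getElem (by simp) ?_
    intro i h1 h2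
    simp [Nat.mod_eq_of_lt h1]
  · simp
  · cases L with
    | nil => exact absurd rfl hne
    | cons a L => simp
  · intro i h0 hi
    cases L with
    | nil => exact absurd rfl hne
    | cons a L =>
      obtain ⟨j, rfl⟩ : ∃ j, i = j + 1 := ⟨i - 1, by omega⟩
      simp only [List.tail_cons, Nat.mod_eq_of_lt hi, List.getElem_cons_succ]
      exact List.getElem_mem _
  · intro i hi
    rcases Nat.lt_or_ge (i + 1) L.length with h | h
    · simp only [Nat.mod_eq_of_lt hi, Nat.mod_eq_of_lt h]
      exact List.isChain_iff_getElem.1 hc i h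
    · have h' : i + 1 = L.length := by omega
      simp only [Nat.mod_eq_of_lt hi, h', Nat.mod_self]
      refine hl _ _ ?_ ?_
      · rw [List.getLast?_eq_getElem?]
        have : L.length - 1 = i := by omega
        rw [this, List.getElem?_eq_getElem hi]
      · rw [List.head?_eq_getElem?, List.getElem?_eq_getElem hpos]

theorem sum_map_range (f : ℕ → ℕ) (n : ℕ) : ((List.range n).map f).sum = ∑ i ∈ Finset.range n, f i := by
  induction n with
  | zero => simp
  | succ n ih => rw [List.range_succ, List.map_append, List.sum_append, ih, Finset.sum_range_succ]; simp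

theorem sum_shift (f : ℕ → ℕ) (n : ℕ) (h : f n = f 0) :
    ∑ i ∈ Finset.range n, f (i + 1) = ∑ i ∈ Finset.range n, f i := by
  have h1 := Finset.sum_range_succ f n
  have h2 := Finset.sum_range_succ' f n
  omega

theorem encW_get {w : List ℕ} (h : ∀ i < 4, w.getD i 0 < 16) {l : ℕ} (hl : l < 4) :
    encW w / 16 ^ l % 16 = w.getD l 0 := by
  have h0 := h 0 (by norm_num)
  have h1 := h 1 (by norm_num)
  have h2 := h 2 (by norm_num)
  have h3 := h 3 (by norm_num)
  unfold encW
  rcases (show l = 0 ∨ l = 1 ∨ l = 2 ∨ l = 3 by omega) with rfl | rfl | rfl | rfl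
  · rw [pow_zero]; omega
  · rw [pow_one]; omega
  · have : 16 ^ 2 = 256 := by norm_num
    rw [this]; omega
  · have : 16 ^ 3 = 4096 := by norm_num
    rw [this]; omega

theorem encW_lt {w : List ℕ} (h : ∀ i < 4, w.getD i 0 < 16) : encW w < 16 ^ 4 := by
  have h0 := h 0 (by norm_num)
  have h1 := h 1 (by norm_num)
  have h2 := h 2 (by norm_num)
  have h3 := h 3 (by norm_num)
  have : 16 ^ 4 = 65536 := by norm_num
  rw [this]
  unfold encW
  omega

section

variable {sh : Shape} {O : OccS sh} {D F nw : ℕ} {cl : Cl} {t : ℕ} {pos : DT → ℕ}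
  {G : DT → DT → ℕ → Bool}

theorem star_step (hR : Rz O D F nw cl t pos G) (hD : 2 ≤ D) {s J : ℕ} (hs : 1 ≤ s)
    (hF : s + 2 * J ≤ F + 1) (sl : List ℕ → ℕ)
    (hsl : ∀ w ∈ sh.W, sl w < 4 ∧ 0 < w.getD (sl w) 0)
    (hck : ∀ x y, O.P x y → x.la = sl x.w → ∃ oS N,
      starCk D F s J N oS (2 ^ (4 * sl x.w)) (cdW sh cl x.w) = true ∧ oS ≤ pos x ∧ pos x < oS + N)
    {l : ℕ} (hl : l < J) (hg : ∀ x y, O.P x y → G x y (s + 2 * l) = true) :
    ∀ x y, O.P x y → G x y (s + 2 * l - 1) = true := by
  classical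
  intro x y hxy
  have hw := O.w_mem hxy
  obtain ⟨hsl4, hslp⟩ := hsl _ hw
  obtain ⟨L, hL, hmem⟩ := O.starC hxy hsl4 hslp
  obtain ⟨p, hp1, hp2, hp3, hp4, -, hp6⟩ := cyc_fun _ L hL.ne hL.chain hL.link
  have hlen : L.length = x.w.sum := hL.len
  have hv := hR.v _ hw
  have hv3 := hR.v3 _ hw
  have hcls : ∀ i, (p i).1.w = x.w := fun i => hL.cls _ (hp1 i)
  have hocc : ∀ i, Occr O.P (p i).1 ∧ Occr O.P (p i).2 := by
    intro i
    rcases hL.mem _ (hp1 i) with h | h
    · exact ⟨⟨_, Or.inl h⟩, ⟨_, Or.inr h⟩⟩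
    · exact ⟨⟨_, Or.inr h⟩, ⟨_, Or.inl h⟩⟩
  have hcls2 : ∀ i, (p i).2.w = x.w := by
    intro i
    rcases hL.mem _ (hp1 i) with h | h
    · rw [O.weq h]; exact hcls i
    · rw [← O.weq h]; exact hcls i
  set cd := cdW sh cl x.w with hcd
  have hpos : 0 < cd.v := by rw [hcd, hv]; omega
  have hvL : cd.v = L.length := by rw [hcd, hv, hlen]
  have hP : StarP D F cd (fun i => pos (p i).1) (fun i => pos (p i).2)
      (fun i => if O.P (p i).1 (p i).2 then G (p i).1 (p i).2 else G (p i).2 (p i).1) := by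
    refine ⟨?_, ?_, ?_, ?_, ?_, ?_, ?_, ?_⟩
    · intro i _
      have := hR.R _ (hocc i).1
      rw [hcls i] at this
      exact this
    · intro i _
      have := hR.R _ (hocc i).2
      rw [hcls2 i] at this
      exact this
    · intro i _
      by_cases h : O.P (p i).1 (p i).2
      · left
        simp only [if_pos h]
        have := hR.pair _ _ h
        rw [hcls i] at this
        exact this
      · right
        simp only [if_neg h]
        have h' : O.P (p i).2 (p i).1 := by
          rcases hL.mem _ (hp1 i) with h1 | h1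
          · exact absurd h1 h
          · exact h1
        have := hR.pair _ _ h'
        rw [hcls2 i] at this
        exact this
    · intro i hi
      have h1 := hp6 i (by omega)
      have h2 := hR.sw _ (hocc i).2
      rw [hcls2 i] at h2
      show pos (p (i + 1)).1 = _
      rw [h1, ← h2]
    · show pos (p cd.v).1 = pos (p 0).1
      rw [hvL, hp3]
    · intro i hi
      have h1 := hp6 i (by omega)
      have h2 := hR.lb _ (hocc i).2
      have h3 := hR.a4 _ (hocc (i + 1)).1
      rw [hcls2 i] at h2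
      rw [hcls (i + 1)] at h3
      rw [h3, h2, h1]
      rfl
    · intro i _
      have h1 := hR.a4 _ (hocc i).1
      rw [hcls i] at h1
      have h2 : (p i).1.la ≤ 3 := by
        rcases hL.mem _ (hp1 i) with h | h
        · exact O.la_le h
        · rw [O.laeq h]; exact O.la_le h
      exact ⟨(p i).1.la, by omega, h1⟩
    · intro l hl
      rw [hcd, hR.mf _ hw, encW_get (hR.lt16 _ hw) hl, ← hL.cnt l hl, ← hcd, hvL]
      conv_rhs => rw [hp2]
      rw [List.countP_map]
      refine List.countP_congr ?_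
      intro i _
      have h1 := hR.a4 _ (hocc i).1
      rw [hcls i, ← hcd] at h1
      simp only [Function.comp, decide_eq_true_eq]
      rw [h1]
      omega
  have hback : O.P (p 0).1 (p 0).2 := hL.back _ hp4
  have hfirst : (p 0).1.la = sl x.w := hL.first _ hp4
  obtain ⟨oS, N, hck1, hck2, hck3⟩ := hck _ _ hback (by rw [hcls 0]; exact hfirst)
  rw [hcls 0] at hck1
  have ha4 := hR.a4 _ (hocc 0).1
  rw [hcls 0, ← hcd, hfirst] at ha4
  have hwf : WFC D F cd := hR.wf _ (lt_of_lt_of_le (List.idxOf_lt_length_iff.2 hw) hR.len)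
  have key := star_sound hD hs hF (by rw [hcd, hR.mf _ hw]; exact encW_lt (hR.lt16 _ hw)) hpos hwf
    hck1 hP hck2 hck3 (by rw [ha4]) l hl (by
      intro i _
      by_cases h : O.P (p i).1 (p i).2
      · simp only [if_pos h]
        exact hg _ _ h
      · simp only [if_neg h]
        rcases hL.mem _ (hp1 i) with h1 | h1
        · exact absurd h1 h
        · exact hg _ _ h1)
  -- the sector
  have hget : ∀ q ∈ L, ∃ i < cd.v, p i = q := by
    intro q hq
    rw [hp2] at hq
    obtain ⟨i, hi, rfl⟩ := List.mem_map.1 hq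
    exact ⟨i, by rw [hvL]; exact List.mem_range.1 hi, rfl⟩
  rcases hmem with hmem | hmem
  · obtain ⟨i, hi, hpi⟩ := hget _ hmem
    have := key i hi
    simp only [hpi] at this
    rw [if_pos hxy] at this
    exact this
  · obtain ⟨i, hi, hpi⟩ := hget _ hmem
    have := key i hi
    simp only [hpi] at this
    rw [if_neg (by
      intro h
      have h1 := O.dr1 h
      have h2 := O.dr2 hxy
      rw [h1] at h2
      exact absurd h2 (by simp))] at this
    exact this

theorem tile_step (hR : Rz O D F nw cl t pos G) (ht : t < 3) (hD : 2 ≤ D) {s J : ℕ}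
    (hs : 1 ≤ s) (hF : s + 2 * J ≤ F + 1)
    (hck : ∀ x y, O.P x y → x.la = t → ∃ zl N,
      tileCk D F s J N sh.n nw zl cl = true ∧ getZ zl False (fun oS z0 nS => oS ≤ pos x ∧
        pos x < oS + nS ∧ z0 + nS ≤ N) (sh.W.idxOf x.w))
    {l : ℕ} (hl : l < J) (hg : ∀ x y, O.P x y → G x y (s + 2 * l) = true) :
    ∀ x y, O.P x y → G x y (s + 2 * l - 1) = true := by
  intro x y hxy
  obtain ⟨L, hL, hmem⟩ := O.tileC hxy ht
  obtain ⟨p, hp1, hp2, hp3, hp4, hp5, hp6⟩ := cyc_fun _ L hL.ne hL.chain hL.link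
  have hPi : ∀ i, O.P (p i).1 (p i).2 := fun i => hL.mem _ (hp1 i)
  have hocc : ∀ i, Occr O.P (p i).1 ∧ Occr O.P (p i).2 := fun i =>
    ⟨⟨_, Or.inl (hPi i)⟩, ⟨_, Or.inr (hPi i)⟩⟩
  have hlen : 0 < L.length := List.length_pos_of_ne_nil hL.ne
  have hpos : ∀ i, pos (p i).1 < 8192 := fun i => hR.ps _ (hocc i).1
  set c : ℕ → ℕ := fun i => pos (p i).1 + 8192 * sh.W.idxOf (p i).1.w with hc
  have hc1 : ∀ i, c i % 8192 = pos (p i).1 := by
    intro i
    have := hpos i
    simp only [hc]
    omega
  have hc2 : ∀ i, c i / 8192 = sh.W.idxOf (p i).1.w := by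
    intro i
    have := hpos i
    simp only [hc]
    omega
  have hcd : ∀ i, cdOf cl (c i) = cdW sh cl (p i).1.w := by
    intro i
    unfold cdOf cdW
    rw [hc2 i]
  have hcd2 : ∀ i, cdOf cl (c i) = cdW sh cl (p i).2.w := by
    intro i
    rw [hcd i, O.weq (hPi i)]
  have hnext : ∀ i < L.length, (p (i + 1)).1 = (p i).2.rev := fun i hi => hp6 i hi
  have hw' : ∀ i < L.length, (p i).2.w' = (p (i + 1)).1.w := by
    intro i hi
    rw [hnext i hi]
    rfl
  have hP : TileP D F cl nw sh.n L.length c (fun i => pos (p i).2)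
      (fun i => G (p i).1 (p i).2) := by
    refine ⟨hlen, ?_, ?_, ?_, ?_, ?_, ?_, ?_, ?_⟩
    · intro i _
      rw [hc2 i]
      exact lt_of_lt_of_le (List.idxOf_lt_length_iff.2 (O.w_mem (hPi i))) hR.len
    · intro i _
      rw [hc1 i, hcd i]
      exact hR.R _ (hocc i).1
    · intro i _
      rw [hcd2 i]
      exact hR.R _ (hocc i).2
    · intro i _
      rw [hc1 i, hcd i]
      exact hR.pair _ _ (hPi i)
    · intro i hi
      rw [hcd2 i]
      show rvOf (cdW sh cl (p i).2.w) (pos (p i).2) % 524288 = c (i + 1)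
      rw [hR.rv _ (hocc i).2, hw' i hi, ← hnext i hi]
    · intro i hi
      rw [hcd2 i]
      show rvOf (cdW sh cl (p i).2.w) (pos (p i).2) / 8388608 = _
      rw [hR.fl _ _ (hPi i)]
      have e1 : (p i).2.la' = (p (i + 1)).1.la := by
        rw [hnext i hi]
        rfl
      rw [e1]
      by_cases h : i + 1 = L.length
      · rw [if_pos h, h, hp3, if_pos (hL.first _ hp4)]
      · rw [if_neg h, if_neg]
        exact hL.rest _ (hp5 (i + 1) (by omega) (by omega))
    · show c L.length = c 0
      simp only [hc]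
      rw [hp3]
    · have h1 : ∀ i ∈ Finset.range L.length,
          rvOf (cdOf cl (c i)) (pos (p i).2) / 524288 % 16 + 1 = (p (i + 1)).1.w.sum - 2 := by
        intro i hi
        rw [Finset.mem_range] at hi
        rw [hcd2 i]
        have := hR.wt _ (hocc i).2
        rw [hw' i hi] at this
        omega
      rw [Finset.sum_congr rfl h1, sum_shift (fun i => (p i).1.w.sum - 2) _ (by
        rw [hp3]), ← sum_map_range, ← hL.sum]
      conv_rhs => rw [hp2]
      rw [List.map_map]
      rfl
  have hfirst : (p 0).1.la = t := hL.first _ hp4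
  obtain ⟨zl, N, hck1, hck2⟩ := hck _ _ (hPi 0) hfirst
  have key := tile_sound hD hs hF hR.wf hck1 hP (by rw [hc1, hc2]; exact hck2) l hl (by
    intro i _
    exact hg _ _ (hPi i))
  rw [hp2] at hmem
  obtain ⟨i, hi, hpi⟩ := List.mem_map.1 hmem
  have := key i (List.mem_range.1 hi)
  simp only [hpi] at this
  exact this

/-- one stage -/
theorem stage_run (hR : Rz O D F nw cl t pos G) (ht : t < 3) (hD : 2 ≤ D)
    {s J s' J' : ℕ} (hs : 1 ≤ s) (hF : s + 2 * J ≤ F + 1) (hs' : 1 ≤ s')
    (hF' : s' + 2 * J' ≤ F + 1)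
    (hall : ∀ f, 1 ≤ f → f < F → (∃ l < J, f = s + 2 * l) ∨ ∃ l < J', f = s' + 2 * l)
    (sl : List ℕ → ℕ) (hsl : ∀ w ∈ sh.W, sl w < 4 ∧ 0 < w.getD (sl w) 0)
    (hck : ∀ x y, O.P x y → x.la = sl x.w → ∃ oS N,
      starCk D F s J N oS (2 ^ (4 * sl x.w)) (cdW sh cl x.w) = true ∧ oS ≤ pos x ∧ pos x < oS + N)
    (hck' : ∀ x y, O.P x y → x.la = t → ∃ zl N,
      tileCk D F s' J' N sh.n nw zl cl = true ∧ getZ zl False (fun oS z0 nS => oS ≤ pos x ∧
        pos x < oS + nS ∧ z0 + nS ≤ N) (sh.W.idxOf x.w))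
    (hcov : ∀ x y, O.P x y → G x y (F - 1) = true) :
    ∀ x y, O.P x y → G x y 0 = true := by
  have key : ∀ d f, f + d = F - 1 → ∀ x y, O.P x y → G x y f = true := by
    intro d
    induction d with
    | zero =>
      intro f hf
      have : f = F - 1 := by omega
      subst this
      exact hcov
    | succ d ih =>
      intro f hf
      have h1 := ih (f + 1) (by omega)
      rcases hall (f + 1) (by omega) (by omega) with ⟨l, hl, hfl⟩ | ⟨l, hl, hfl⟩
      · rw [hfl] at h1
        have := star_step hR hD hs hF sl hsl hck hl h1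
        rw [← hfl] at this
        exact this
      · rw [hfl] at h1
        have := tile_step hR ht hD hs' hF' hck' hl h1
        rw [← hfl] at this
        exact this
  exact key (F - 1) 0 (by omega)

end

end Pool.Agent.NNe
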