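import Pool.Agent.NNe.Chk
import Pool.Agent.NNe.Bits

/-!
# The engine of MP_4b6a99_co: what the two dynamic programs prove (definitions)
-/

namespace Pool.Agent.NNe

namespace Bl
/-- the entries `r X p` -/
def rs : Bl → List (ℕ × ℕ)
  | nil => []
  | r X p tl => (X, p) :: tl.rs
  | c _ _ _ tl => tl.rs

/-- the entries `c X k p` -/
def cs : Bl → List (ℕ × ℕ × ℕ)
  | nil => []
  | r _ _ tl => tl.cs
  | c X k p tl => (X, k, p) :: tl.cs
end Bl

namespace Sb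
/-- as a list -/
def l : Sb → List (ℕ × ℕ × ℕ)
  | nil => []
  | cons b4 j n tl => (b4, j, n) :: tl.l
end Sb

namespace Sd
def t : Sd → ℕ | mk t _ _ _ _ _ => t
def a4 : Sd → ℕ | mk _ a _ _ _ _ => a
def o : Sd → ℕ | mk _ _ o _ _ _ => o
def q : Sd → ℕ | mk _ _ _ q _ _ => q
def sb : Sd → Sb | mk _ _ _ _ sb _ => sb
def bl : Sd → Bl | mk _ _ _ _ _ bl => bl
end Sd

namespace Sl
/-- as a list -/
def l : Sl → List Sd
  | nil => []
  | cons s tl => s :: tl.l
end Sl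

namespace Cd
def R : Cd → ℕ | mk R _ _ _ _ _ _ _ => R
def v : Cd → ℕ | mk _ v _ _ _ _ _ _ => v
def mf : Cd → ℕ | mk _ _ m _ _ _ _ _ => m
def SI : Cd → ℕ | mk _ _ _ s _ _ _ _ => s
def SW : Cd → ℕ | mk _ _ _ _ s _ _ _ => s
def RV : Cd → ℕ | mk _ _ _ _ _ r _ _ => r
def CO : Cd → ℕ | mk _ _ _ _ _ _ c _ => c
def sl : Cd → Sl | mk _ _ _ _ _ _ _ s => s
end Cd

/-- the number of the side of the dart `x` -/
noncomputable def siOf (cd : Cd) (x : ℕ) : ℕ := ext cd.SI 10 x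

/-- the side of the dart `x` -/
noncomputable def sdOf (cd : Cd) (x : ℕ) : Sd := getS cd.sl (siOf cd x)

/-- the dart across -/
noncomputable def swOf (cd : Cd) (x : ℕ) : ℕ := ext cd.SW 13 x

/-- the reversal data -/
noncomputable def rvOf (cd : Cd) (x : ℕ) : ℕ := ext cd.RV 24 x

/-- `(x, y)` is a pair of the class (`x` = row, `y` = column) with the fields `g` -/
def PairB (D F : ℕ) (cd : Cd) (x y : ℕ) (g : ℕ → Bool) : Prop :=
  ∃ X, (X, siOf cd y) ∈ (sdOf cd x).bl.rs ∧ ∀ f < F, g f =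
    X.testBit (F * D * (x - (sdOf cd x).o) + f * D + (y - (sdOf cd y).o))

/-- the label across of the dart `y`, from its code -/
noncomputable def lbOf (cd : Cd) (y : ℕ) : ℕ := ext cd.CO 24 y / 4096 % 4

/-- well-formed class data: what `wfC` says -/
structure WFC (D F : ℕ) (cd : Cd) : Prop where
  q_lt : ∀ i, (getS cd.sl i).q < D
  dart : ∀ x < cd.R, (sdOf cd x).o ≤ x ∧ x < (sdOf cd x).o + (sdOf cd x).q
  si : ∀ i j, j < (getS cd.sl i).q → (getS cd.sl i).o + j < cd.R ∧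
    siOf cd ((getS cd.sl i).o + j) = i
  tag : ∀ x < cd.R, (sdOf cd x).t = ext cd.CO 24 x / 16384
  a4 : ∀ x < cd.R, (sdOf cd x).a4 = 4 * ((sdOf cd x).t / 4 % 4)
  sub : ∀ i j, j < (getS cd.sl i).q → ∃ b4 j0 n, (b4, j0, n) ∈ (getS cd.sl i).sb.l ∧ j0 ≤ j ∧
    j < j0 + n ∧ b4 = 4 * lbOf cd ((getS cd.sl i).o + j)
  sym : ∀ i X p, (X, p) ∈ (getS cd.sl i).bl.rs →
    (X, F * (getS cd.sl i).q, i) ∈ (getS cd.sl p).bl.cs

/-- a closed star in a class: arrival darts `x i`, departure darts `y i`, `i < v` -/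
structure StarP (D F : ℕ) (cd : Cd) (x y : ℕ → ℕ) (g : ℕ → ℕ → Bool) : Prop where
  x_lt : ∀ i < cd.v, x i < cd.R
  y_lt : ∀ i < cd.v, y i < cd.R
  pair : ∀ i < cd.v, PairB D F cd (x i) (y i) (g i) ∨ PairB D F cd (y i) (x i) (g i)
  next : ∀ i < cd.v, x (i + 1) = swOf cd (y i)
  clos : x cd.v = x 0
  across : ∀ i < cd.v, (sdOf cd (x (i + 1))).a4 = 4 * lbOf cd (y i)
  lab : ∀ i < cd.v, ∃ l < 4, (sdOf cd (x i)).a4 = 4 * l
  cnt : ∀ l < 4, ((List.range cd.v).countP fun i => (sdOf cd (x i)).a4 = 4 * l) =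
    cd.mf / 16 ^ l % 16

/-- the class of the state `c` -/
noncomputable def cdOf (cl : Cl) (c : ℕ) : Cd := getC cl (c / 8192)

/-- a closed walk around a tile: arrival states `c i`, departure darts `y i`, `i < k` -/
structure TileP (D F : ℕ) (cl : Cl) (nw n k : ℕ) (c y : ℕ → ℕ) (g : ℕ → ℕ → Bool) : Prop where
  k_pos : 0 < k
  w_lt : ∀ i < k, c i / 8192 < nw
  x_lt : ∀ i < k, c i % 8192 < (cdOf cl (c i)).R
  y_lt : ∀ i < k, y i < (cdOf cl (c i)).R
  pair : ∀ i < k, PairB D F (cdOf cl (c i)) (c i % 8192) (y i) (g i)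
  next : ∀ i < k, rvOf (cdOf cl (c i)) (y i) % 524288 = c (i + 1)
  flag : ∀ i < k, rvOf (cdOf cl (c i)) (y i) / 8388608 = if i + 1 = k then 1 else 0
  clos : c k = c 0
  sum : ∑ i ∈ Finset.range k, (rvOf (cdOf cl (c i)) (y i) / 524288 % 16 + 1) = n

/-! ### (M2) the common part: selection -/

/-- the width of a start -/
def wd (D J : ℕ) : ℕ := 2 * J * D

/-- the mask of the lanes -/
noncomputable def eM (D J : ℕ) : ℕ := (2 ^ (D - 1) - 1) * geo (2 * D) J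

/-- `M` has no bits outside of the columns `j < D - 1` of the fields of the starts `z < N` -/
def Cln (D J N M : ℕ) : Prop :=
  M < 2 ^ (wd D J * N) ∧ M &&& (2 ^ (D - 1) * geo D (2 * J * N)) = 0

end Pool.Agent.NNe
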