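import Pool.Agent.NNe.Run
import Pool.Agent.NNe.Pl

/-!
# The engine of MP_4b6a99_co: the checks of a stage

`Cov O D F nw cl t ow f`: the occurring dart types are darts of the stage and all sectors have the
field `f`.  `stage_ok`: the star and tile checks give `Cov (F - 1) -> Cov 0`.
-/

namespace Pool.Agent.NNe

open Pool.Agent.NNc

/-- `P` holds for all ranges of the list -/
def rlAll (P : ℕ → ℕ → Prop) : Rl → Prop
  | .nil => True
  | .cons o n tl => P o n ∧ rlAll P tl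

/-- `P` holds for all members of the list -/
def zzAll (P : Zl → Prop) : ZZ → Prop
  | .nil => True
  | .cons z tl => P z ∧ zzAll P tl

theorem rlEnd_spec {P : ℕ → ℕ → Prop} : ∀ {rl : Rl} {lo x : ℕ}, rlAll P rl → lo ≤ x →
    x + 2 ≤ rlEnd rl lo → ∃ o n, P o n ∧ o ≤ x ∧ x < o + n := by
  intro rl
  induction rl with
  | nil =>
    intro lo x _ h1 h2
    have e : rlEnd .nil lo = lo + 1 := rfl
    rw [e] at h2
    omega
  | cons o n tl ih =>
    intro lo x h h1 h2
    have e : rlEnd (.cons o n tl) lo = ifN (Nat.beq o lo) (rlEnd tl (lo + n)) 0 := rfl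
    rw [e, ifN_eq, beq_iff] at h2
    by_cases ho : o = lo
    · subst ho
      rw [if_pos (by simp)] at h2
      rcases Nat.lt_or_ge x (o + n) with h3 | h3
      · exact ⟨o, n, h.1, h1, h3⟩
      · exact ih h.2 h3 h2
    · rw [if_neg (by simpa using ho)] at h2
      omega

/-- what `stCov` says -/
theorem stCov_iff {s lo : ℕ} {rl : Rl} {cd : Cd} (h : stCov s lo rl cd = true) :
    1 ≤ cd.mf / 16 ^ s % 16 ∧ ∀ i < cd.sl.l.length, stTag s (getS cd.sl i).t = true →
      lo ≤ (getS cd.sl i).o ∧ (getS cd.sl i).o + (getS cd.sl i).q + 1 ≤ rlEnd rl lo := by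
  have e : stCov s lo rl cd = andB (Nat.ble 1 ((cd.mf >>> (4 * s)) % 16))
      (allS (fun _ sd => impB (stTag s sd.t) (andB (Nat.ble lo sd.o)
        (Nat.ble (sd.o + sd.q + 1) (rlEnd rl lo)))) cd.sl 0) := by
    rcases cd with ⟨R, v, mf, SI, SW, RV, CO, sl⟩
    have e2 : (fun (_ : ℕ) (sd : Sd) => Sd.rec (motive := fun _ => Bool) (fun t _ o q _ _ =>
        impB (stTag s t) (andB (Nat.ble lo o) (Nat.ble (Nat.succ (Nat.add o q)) (rlEnd rl lo))))
        sd) = (fun (_ : ℕ) (sd : Sd) => impB (stTag s sd.t) (andB (Nat.ble lo sd.o)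
        (Nat.ble (sd.o + sd.q + 1) (rlEnd rl lo)))) := by
      funext _ sd
      rcases sd with ⟨t, a4, o, q, sb, bl⟩
      rfl
    show andB _ (allS (fun (_ : ℕ) (sd : Sd) => Sd.rec (motive := fun _ => Bool)
      (fun t _ o q _ _ => impB (stTag s t) (andB (Nat.ble lo o)
        (Nat.ble (Nat.succ (Nat.add o q)) (rlEnd rl lo)))) sd) sl 0) = _
    rw [e2]
    rfl
  rw [e, andB_eq, Bool.and_eq_true, Nat.ble_eq, Nat.shiftRight_eq_div_pow] at h
  have e3 : 2 ^ (4 * s) = 16 ^ s := by rw [pow_mul]; norm_num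
  rw [e3] at h
  refine ⟨h.1, ?_⟩
  intro i hi ht
  have h1 := allS_get h.2 i hi
  rw [impB_eq, ht, Bool.not_true, Bool.false_or, andB_eq, Bool.and_eq_true, Nat.ble_eq,
    Nat.ble_eq] at h1
  exact h1

/-- what `tiCov` says -/
theorem tiCov_iff {s w : ℕ} {zz : ZZ} {cd : Cd} (h : tiCov s w zz cd = true) :
    ∀ i < cd.sl.l.length, stTag s (getS cd.sl i).t = true → ∀ j < (getS cd.sl i).q,
      inZZ zz w ((getS cd.sl i).o + j) = true := by
  have e : tiCov s w zz cd = allS (fun _ sd => impB (stTag s sd.t)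
      (allN (fun i => inZZ zz w (sd.o + i)) sd.q)) cd.sl 0 := by
    rcases cd with ⟨R, v, mf, SI, SW, RV, CO, sl⟩
    have e2 : (fun (_ : ℕ) (sd : Sd) => Sd.rec (motive := fun _ => Bool) (fun t _ o q _ _ =>
        impB (stTag s t) (allN (fun i => inZZ zz w (Nat.add o i)) q)) sd) =
        (fun (_ : ℕ) (sd : Sd) => impB (stTag s sd.t)
          (allN (fun i => inZZ zz w (sd.o + i)) sd.q)) := by
      funext _ sd
      rcases sd with ⟨t, a4, o, q, sb, bl⟩
      rfl
    show allS (fun (_ : ℕ) (sd : Sd) => Sd.rec (motive := fun _ => Bool) (fun t _ o q _ _ =>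
        impB (stTag s t) (allN (fun i => inZZ zz w (Nat.add o i)) q)) sd) sl 0 = _
    rw [e2]
    rfl
  rw [e] at h
  intro i hi ht j hj
  have h1 := allS_get h i hi
  rw [impB_eq, ht, Bool.not_true, Bool.false_or] at h1
  exact (allN_iff _ _).1 h1 j hj

theorem zlOK_getZ {N : ℕ} {x : ℕ} : ∀ {zl : Zl} {w : ℕ}, zlOK N zl = true →
    getZ zl false (fun oS _ nS => andB (Nat.ble oS x) (Nat.ble (Nat.succ x) (Nat.add oS nS))) w =
      true →
    getZ zl False (fun oS z0 nS => oS ≤ x ∧ x < oS + nS ∧ z0 + nS ≤ N) w := by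
  intro zl
  induction zl with
  | nil =>
    intro w _ h
    exact absurd (show false = true from h) (by simp)
  | cons oS z0 nS tl ih =>
    intro w h1 h2
    have e1 : zlOK N (.cons oS z0 nS tl) = andB (Nat.ble (z0 + nS) N) (zlOK N tl) := rfl
    rw [e1, andB_eq, Bool.and_eq_true, Nat.ble_eq] at h1
    cases w with
    | zero =>
      have h3 : andB (Nat.ble oS x) (Nat.ble (x + 1) (oS + nS)) = true := h2
      rw [andB_eq, Bool.and_eq_true, Nat.ble_eq, Nat.ble_eq] at h3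
      exact ⟨h3.1, h3.2, h1.1⟩
    | succ w => exact ih h1.2 h2

theorem inZZ_spec {P : Zl → Prop} {w x : ℕ} : ∀ {zz : ZZ}, zzAll P zz → inZZ zz w x = true →
    ∃ zl, P zl ∧ getZ zl false (fun oS _ nS =>
      andB (Nat.ble oS x) (Nat.ble (Nat.succ x) (Nat.add oS nS))) w = true := by
  intro zz
  induction zz with
  | nil =>
    intro _ h
    exact absurd (show false = true from h) (by simp)
  | cons zl tl ih =>
    intro h1 h2
    have e : inZZ (.cons zl tl) w x = orB (getZ zl false (fun oS _ nS =>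
      andB (Nat.ble oS x) (Nat.ble (Nat.succ x) (Nat.add oS nS))) w) (inZZ tl w x) := rfl
    rw [e, orB_eq, Bool.or_eq_true] at h2
    rcases h2 with h2 | h2
    · exact ⟨zl, h1.1, h2⟩
    · exact ih h1.2 h2

/-- the star checks of one class -/
def StW (D F sS JS : ℕ) (cd : Cd) : Prop :=
  ∃ s lo rl s1, s < 4 ∧ s1 = 2 ^ (4 * s) ∧ stCov s lo rl cd = true ∧
    rlAll (fun o n => starCk D F sS JS n o s1 cd = true) rl

/-- the tile checks -/
def TiS (D F sT JT n nw tc : ℕ) (cl : Cl) : Prop :=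
  ∃ zz, (∀ w < nw, tiCov tc w zz (getC cl w) = true) ∧
    zzAll (fun zl => ∃ N, zlOK N zl = true ∧ tileCk D F sT JT N n nw zl cl = true) zz

/-- the occurring dart types are darts of the stage and all sectors have the field `f` -/
def Cov {sh : Shape} (O : OccS sh) (D F nw : ℕ) (cl : Cl) (t : ℕ) (ow : ℕ → ℕ) (f : ℕ) : Prop :=
  ∃ pos G, Rc O D F nw cl t pos G ow ∧ ∀ x y, O.P x y → G x y f = true

/-- side and tag of an occurring dart -/
theorem Rc.side {sh : Shape} {O : OccS sh} {D F nw : ℕ} {cl : Cl} {t : ℕ} {pos : DT → ℕ}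
    {G : DT → DT → ℕ → Bool} {ow : ℕ → ℕ} (hR : Rc O D F nw cl t pos G ow) {x : DT}
    (hx : Occr O.P x) : siOf (cdW sh cl x.w) (pos x) < (cdW sh cl x.w).sl.l.length ∧
      (sdOf (cdW sh cl x.w) (pos x)).t % 16 = tagC x ∧
      (sdOf (cdW sh cl x.w) (pos x)).o ≤ pos x ∧
      pos x < (sdOf (cdW sh cl x.w) (pos x)).o + (sdOf (cdW sh cl x.w) (pos x)).q := by
  have ht := occ_typ O hx
  have hb := typ_bnd ht
  obtain ⟨hwx, hwx'⟩ := typ_w ht
  have hwf : WFC D F (cdW sh cl x.w) := hR.wf _ (lt_of_lt_of_le (idx_lt hwx) hR.len)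
  have h1 := hwf.dart _ (hR.R x hx)
  have h2 := hwf.tag _ (hR.R x hx)
  have hcx := cod_facts (le_trans hR.len hR.nw64) hb hwx' (ow x.c)
  rw [hR.co x hx, hcx.tag] at h2
  refine ⟨getS_lt ?_, ?_, h1.1, h1.2⟩
  · have e : getS (cdW sh cl x.w).sl (siOf (cdW sh cl x.w) (pos x)) =
      sdOf (cdW sh cl x.w) (pos x) := rfl
    rw [e]
    omega
  · rw [h2]
    have := hb.k; have := hb.la
    unfold tagC
    omega

theorem hall_of {F s J s' J' : ℕ} (hs : s + s' = 3) (hs1 : 1 ≤ s) (hs2 : 1 ≤ s')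
    (hJ : F ≤ s + 2 * J) (hJ' : F ≤ s' + 2 * J') :
    ∀ f, 1 ≤ f → f < F → (∃ l < J, f = s + 2 * l) ∨ ∃ l < J', f = s' + 2 * l := by
  intro f h1 h2
  rcases Nat.mod_two_eq_zero_or_one (f + s) with h | h
  · left
    exact ⟨(f - s) / 2, by omega, by omega⟩
  · right
    exact ⟨(f - s') / 2, by omega, by omega⟩

/-- the checks of a stage: all sectors survive to the field `0` -/
theorem stage_ok {sh : Shape} {O : OccS sh} {D F nw : ℕ} {cl : Cl} {t : ℕ} {ow : ℕ → ℕ}
    (h : Cov O D F nw cl t ow (F - 1)) (ht : t < 3) (hD : 2 ≤ D) {sS JS sT JT : ℕ}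
    (hs : sS + sT = 3) (hs1 : 1 ≤ sS) (hs2 : 1 ≤ sT) (hF : sS + 2 * JS ≤ F + 1)
    (hF' : sT + 2 * JT ≤ F + 1) (hJ : F ≤ sS + 2 * JS) (hJ' : F ≤ sT + 2 * JT)
    (hst : ∀ w < nw, StW D F sS JS (getC cl w)) (hti : TiS D F sT JT sh.n nw t cl) :
    Cov O D F nw cl t ow 0 := by
  classical
  obtain ⟨pos, G, hR, hcov⟩ := h
  obtain ⟨zz, hz1, hz2⟩ := hti
  refine ⟨pos, G, hR, ?_⟩
  have hidx : ∀ w ∈ sh.W, sh.W.idxOf w < nw := fun w hw =>
    lt_of_lt_of_le (idx_lt hw) hR.len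
  set sl : List ℕ → ℕ := fun w => if h : sh.W.idxOf w < nw then (hst _ h).choose else 0 with hsl
  have hslw : ∀ w ∈ sh.W, ∃ lo rl s1, sl w < 4 ∧ s1 = 2 ^ (4 * sl w) ∧
      stCov (sl w) lo rl (cdW sh cl w) = true ∧
      rlAll (fun o n => starCk D F sS JS n o s1 (cdW sh cl w) = true) rl := by
    intro w hw
    have h1 : sl w = (hst _ (hidx w hw)).choose := by
      simp only [hsl, dif_pos (hidx w hw)]
    rw [h1]
    exact (hst _ (hidx w hw)).choose_spec
  refine stage_run hR.toRz ht hD hs1 hF hs2 hF' (hall_of hs hs1 hs2 hJ hJ') sl ?_ ?_ ?_ hcov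
  · intro w hw
    obtain ⟨lo, rl, s1, g1, -, g3, -⟩ := hslw w hw
    refine ⟨g1, ?_⟩
    have g5 := (stCov_iff g3).1
    rw [hR.mf _ hw, encW_get (hR.lt16 _ hw) g1] at g5
    exact g5
  · intro x y hxy hla
    have hx : Occr O.P x := ⟨y, Or.inl hxy⟩
    have hsec := secF_of (O.legal _ _ hxy)
    obtain ⟨hwx, -⟩ := typ_w hsec.tx
    obtain ⟨l1, -, -, -⟩ := typ_loc hsec.tx
    obtain ⟨lo, rl, s1, g1, g2, g3, g4⟩ := hslw _ hwx
    obtain ⟨e1, e2, e3, e4⟩ := hR.side hx
    have hb := typ_bnd hsec.tx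
    have hdir := loc_dir l1
    rw [hsec.drx, if_neg (by simp)] at hdir
    have htag : stTag (sl x.w) (sdOf (cdW sh cl x.w) (pos x)).t = true := by
      have e : ∀ s t, stTag s t = orB (Nat.beq (t % 16) (4 * s + (s + 2) % 3))
        (andB (Nat.beq s 3) (Nat.ble 12 (t % 16))) := fun _ _ => rfl
      rw [e, e2, orB_eq, andB_eq, Bool.or_eq_true, Bool.and_eq_true, Nat.beq_eq, Nat.beq_eq,
        Nat.ble_eq, ← hla]
      have := hb.k; have := hb.la
      unfold tagC
      by_cases h3 : x.la = 3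
      · right; omega
      · left
        have := hdir (by omega)
        omega
    have g5 := (stCov_iff g3).2 _ e1 htag
    have g6 : (getS (cdW sh cl x.w).sl (siOf (cdW sh cl x.w) (pos x))) =
      sdOf (cdW sh cl x.w) (pos x) := rfl
    rw [g6] at g5
    obtain ⟨o, n, g7, g8, g9⟩ := rlEnd_spec (lo := lo) (x := pos x) g4 (by omega) (by omega)
    rw [g2] at g7
    exact ⟨o, n, g7, g8, g9⟩
  · intro x y hxy hla
    have hx : Occr O.P x := ⟨y, Or.inl hxy⟩
    have hsec := secF_of (O.legal _ _ hxy)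
    obtain ⟨hwx, -⟩ := typ_w hsec.tx
    obtain ⟨l1, -, -, -⟩ := typ_loc hsec.tx
    obtain ⟨e1, e2, e3, e4⟩ := hR.side hx
    have hb := typ_bnd hsec.tx
    have hdir := loc_dir l1
    rw [hsec.drx, if_neg (by simp)] at hdir
    have htag : stTag t (sdOf (cdW sh cl x.w) (pos x)).t = true := by
      have e : ∀ s t, stTag s t = orB (Nat.beq (t % 16) (4 * s + (s + 2) % 3))
        (andB (Nat.beq s 3) (Nat.ble 12 (t % 16))) := fun _ _ => rfl
      rw [e, e2, orB_eq, Bool.or_eq_true, Nat.beq_eq]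
      left
      have := hb.k
      unfold tagC
      have := hdir (by omega)
      omega
    have g5 := tiCov_iff (hz1 _ (hidx _ hwx)) _ e1 htag (pos x - (sdOf (cdW sh cl x.w) (pos x)).o)
      (by
        show _ < (sdOf (cdW sh cl x.w) (pos x)).q
        omega)
    have g6 : (getS (cdW sh cl x.w).sl (siOf (cdW sh cl x.w) (pos x))).o +
        (pos x - (sdOf (cdW sh cl x.w) (pos x)).o) = pos x := by
      show (sdOf (cdW sh cl x.w) (pos x)).o + _ = _
      omega
    have g5' : inZZ zz (sh.W.idxOf x.w) (pos x) = true := by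
      have g7 := g5
      change inZZ zz (sh.W.idxOf x.w) ((getS (cdW sh cl x.w).sl
        (siOf (cdW sh cl x.w) (pos x))).o + (pos x - (sdOf (cdW sh cl x.w) (pos x)).o)) = true at g7
      rw [g6] at g7
      exact g7
    obtain ⟨zl, ⟨N, g8, g9⟩, g10⟩ := inZZ_spec hz2 g5'
    exact ⟨zl, N, g9, zlOK_getZ g8 g10⟩

end Pool.Agent.NNe
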